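import Mathlib
import Pool.Agent.Work.MP_490135_co.GDefs

/-! Bundle of small proof modules (one section per former module). -/

section

/-!
# MP_490135_co: elementary counting of functions (helper81)
-/

namespace P490135

open Finset

/-- functions with values in `E` and some value in `B` -/
theorem card_one {α : Type*} [DecidableEq α] {ℓ : ℕ} (E B : Finset α)
    (Q : Finset (Fin ℓ → α)) (hQ : ∀ q ∈ Q, (∀ i, q i ∈ E) ∧ ∃ i, q i ∈ B) :
    Q.card ≤ ℓ * (B.card * E.card ^ (ℓ - 1)) := by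
  classical
  have h1 : Q ⊆ (univ : Finset (Fin ℓ)).biUnion (fun i =>
      Fintype.piFinset (fun j => if j = i then B else E)) := by
    intro q hq
    obtain ⟨h1, i, hi⟩ := hQ q hq
    rw [mem_biUnion]
    refine ⟨i, mem_univ _, ?_⟩
    rw [Fintype.mem_piFinset]
    intro j
    split_ifs with h
    · rw [h]; exact hi
    · exact h1 j
  calc Q.card ≤ _ := card_le_card h1
    _ ≤ ∑ i : Fin ℓ, (Fintype.piFinset (fun j => if j = i then B else E)).card := card_biUnion_le
    _ = ∑ i : Fin ℓ, (B.card * E.card ^ (ℓ - 1)) := by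
        apply sum_congr rfl
        intro i _
        rw [Fintype.card_piFinset]
        rw [← mul_prod_erase univ _ (mem_univ i)]
        rw [if_pos rfl]
        congr 1
        rw [prod_congr rfl (g := fun _ => E.card)]
        · rw [prod_const, card_erase_of_mem (mem_univ _)]
          simp
        · intro j hj
          rw [if_neg (ne_of_mem_erase hj)]
    _ = _ := by simp

/-- functions with values in `E` and two consecutive values in `P` -/
theorem card_two {α : Type*} [DecidableEq α] {ℓ : ℕ} (E : Finset α) (P : Finset (α × α))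
    (Q : Finset (Fin ℓ → α)) (hQ : ∀ q ∈ Q, (∀ i, q i ∈ E) ∧
      ∃ i j : Fin ℓ, (j : ℕ) = i + 1 ∧ (q i, q j) ∈ P) :
    Q.card ≤ ℓ * (P.card * E.card ^ (ℓ - 2)) := by
  classical
  have h2 : ∀ x : Fin ℓ × (α × α), (x.1 : ℕ) + 1 < ℓ →
      (Fintype.piFinset (fun j : Fin ℓ => if j = x.1 then {x.2.1} else
        if (j : ℕ) = x.1 + 1 then {x.2.2} else E)).card = E.card ^ (ℓ - 2) := by
    rintro ⟨i, a, b⟩ hi
    simp only at hi ⊢
    rw [Fintype.card_piFinset]
    rw [← mul_prod_erase univ _ (mem_univ i)]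
    have hmem : (⟨i + 1, hi⟩ : Fin ℓ) ∈ univ.erase i := by
      rw [mem_erase]
      refine ⟨?_, mem_univ _⟩
      intro h
      have := congrArg Fin.val h
      simp at this
    rw [← mul_prod_erase _ _ hmem]
    rw [if_pos rfl, if_neg (by
      intro h
      have := congrArg Fin.val h
      simp at this), if_pos rfl]
    rw [card_singleton, card_singleton, one_mul, one_mul]
    rw [prod_congr rfl (g := fun _ => E.card)]
    · rw [prod_const, card_erase_of_mem hmem, card_erase_of_mem (mem_univ _)]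
      congr 1
      simp
      omega
    · intro j hj
      rw [mem_erase, mem_erase] at hj
      rw [if_neg hj.2.1, if_neg]
      intro h
      exact hj.1 (Fin.ext h)
  -- indices `i` with `i + 1 < ℓ` suffice
  have h3 : Q ⊆ (((univ : Finset (Fin ℓ)).filter (fun i : Fin ℓ => (i : ℕ) + 1 < ℓ)) ×ˢ P).biUnion
      (fun x => Fintype.piFinset (fun j : Fin ℓ => if j = x.1 then {x.2.1} else
        if (j : ℕ) = x.1 + 1 then {x.2.2} else E)) := by
    intro q hq
    obtain ⟨h1, i, j, hij, hP⟩ := hQ q hq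
    rw [mem_biUnion]
    refine ⟨(i, (q i, q j)), ?_, ?_⟩
    · rw [mem_product, mem_filter]
      exact ⟨⟨mem_univ _, by have := j.isLt; simp only; omega⟩, hP⟩
    rw [Fintype.mem_piFinset]
    intro m
    simp only
    split_ifs with h h'
    · rw [h]; exact mem_singleton_self _
    · have : m = j := Fin.ext (by omega)
      rw [this]; exact mem_singleton_self _
    · exact h1 m
  calc Q.card ≤ _ := card_le_card h3
    _ ≤ ∑ x ∈ ((univ : Finset (Fin ℓ)).filter (fun i : Fin ℓ => (i : ℕ) + 1 < ℓ)) ×ˢ P,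
        (Fintype.piFinset (fun j : Fin ℓ => if j = x.1 then {x.2.1} else
        if (j : ℕ) = x.1 + 1 then {x.2.2} else E)).card := card_biUnion_le
    _ = ∑ x ∈ ((univ : Finset (Fin ℓ)).filter (fun i : Fin ℓ => (i : ℕ) + 1 < ℓ)) ×ˢ P,
        E.card ^ (ℓ - 2) := by
        apply sum_congr rfl
        intro x hx
        rw [mem_product, mem_filter] at hx
        exact h2 x hx.1.2
    _ = ((univ : Finset (Fin ℓ)).filter (fun i : Fin ℓ => (i : ℕ) + 1 < ℓ)).card *
        (P.card * E.card ^ (ℓ - 2)) := by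
        rw [sum_const, card_product, smul_eq_mul, mul_assoc]
    _ ≤ ℓ * (P.card * E.card ^ (ℓ - 2)) := by
        apply Nat.mul_le_mul_right
        calc _ ≤ (univ : Finset (Fin ℓ)).card := card_filter_le _ _
          _ = ℓ := by simp

/-- fibrewise bound -/
theorem card_fib {α β : Type*} [DecidableEq β] (Q : Finset α) (f : α → β)
    (T : Finset β) (n m : ℕ) (hf : ∀ q ∈ Q, f q ∈ T) (hT : T.card ≤ n)
    (hfib : ∀ b ∈ T, (Q.filter (fun q => f q = b)).card ≤ m) : Q.card ≤ n * m := by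
  calc Q.card = ∑ b ∈ T, (Q.filter (fun q => f q = b)).card :=
        card_eq_sum_card_fiberwise hf
    _ ≤ ∑ b ∈ T, m := sum_le_sum hfib
    _ = T.card * m := by simp
    _ ≤ n * m := Nat.mul_le_mul_right _ hT

end P490135

end

section

/-!
# MP_490135_co: cyclic rotation count (item C)
-/

namespace P490135

open Finset Nat

/-- Injective maps with a prescribed value at `0`. -/
theorem cyc_card_fix {α : Type*} [DecidableEq α] {N : ℕ} (S : Finset α) (hS : S.card = N + 1)
    (s0 : α) (hs0 : s0 ∈ S) (T : Finset (Fin (N + 1) → α))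
    (hT : ∀ ω ∈ T, Function.Injective ω ∧ (∀ i, ω i ∈ S) ∧ ω 0 = s0) :
    T.card ≤ N ! := by
  classical
  have hcard : Fintype.card (Fin N ↪ {x // x ∈ S.erase s0}) = N ! := by
    rw [Fintype.card_embedding_eq, Fintype.card_fin, Fintype.card_coe,
      Finset.card_erase_of_mem hs0, hS]
    simp [Nat.descFactorial_self]
  let F : {ω // ω ∈ T} → (Fin N ↪ {x // x ∈ S.erase s0}) := fun ω =>
    { toFun := fun i => ⟨ω.1 i.succ, by
        obtain ⟨h1, h2, h3⟩ := hT ω.1 ω.2
        refine Finset.mem_erase.2 ⟨?_, h2 _⟩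
        intro he
        rw [← h3] at he
        exact Fin.succ_ne_zero i (h1 he)⟩
      inj' := by
        intro i j hij
        have h1 := (hT ω.1 ω.2).1
        exact Fin.succ_injective N (h1 (congrArg Subtype.val hij)) }
  have hF : Function.Injective F := by
    intro ω ω' he
    apply Subtype.ext
    funext i
    refine Fin.cases ?_ ?_ i
    · rw [(hT ω.1 ω.2).2.2, (hT ω'.1 ω'.2).2.2]
    · intro j
      exact congrArg Subtype.val (DFunLike.congr_fun he j)
  calc T.card = Fintype.card {ω // ω ∈ T} := (Fintype.card_coe T).symm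
    _ ≤ Fintype.card (Fin N ↪ {x // x ∈ S.erase s0}) := Fintype.card_le_of_injective F hF
    _ = N ! := hcard

/-- L4 (cyclic rotation trick). -/
theorem cyc {α : Type*} [DecidableEq α] {N : ℕ} (S : Finset α) (hS : S.card = N + 1)
    (Γ : α → α → Prop) [DecidableRel Γ] (g : ℕ) (Q : Finset (Fin (N + 1) → α))
    (hQ : ∀ σ ∈ Q, Function.Injective σ ∧ (∀ i, σ i ∈ S) ∧ ¬ Γ (σ (Fin.last N)) (σ 0) ∧
      (univ.filter (fun i : Fin (N + 1) => ¬ Γ (σ i) (σ (i + 1)))).card ≤ g) :
    Q.card ≤ g * N ! := by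
  classical
  obtain ⟨s0, hs0⟩ : S.Nonempty := Finset.card_pos.1 (by omega)
  -- position of `s0`
  have hpos : ∀ σ ∈ Q, ∃ k, σ k = s0 := by
    intro σ hσ
    obtain ⟨h1, h2, -, -⟩ := hQ σ hσ
    have himg : univ.image σ = S := by
      apply Finset.eq_of_subset_of_card_le
      · intro x hx
        obtain ⟨i, -, rfl⟩ := Finset.mem_image.1 hx
        exact h2 i
      · rw [Finset.card_image_of_injective _ h1, hS]
        simp
    rw [← himg] at hs0
    obtain ⟨k, -, hk⟩ := Finset.mem_image.1 hs0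
    exact ⟨k, hk⟩
  let pos : (Fin (N + 1) → α) → Fin (N + 1) := fun σ => if h : ∃ k, σ k = s0 then h.choose else 0
  have pos_spec : ∀ σ ∈ Q, σ (pos σ) = s0 := by
    intro σ hσ
    have h := hpos σ hσ
    simp only [pos, dif_pos h]
    exact h.choose_spec
  let f : (Fin (N + 1) → α) → (Fin (N + 1) → α) := fun σ j => σ (pos σ + j)
  have h1 : Q.card ≤ g * (Q.image f).card := by
    apply Finset.card_le_mul_card_image
    intro ω hω
    obtain ⟨σ0, hσ0, hω0⟩ := Finset.mem_image.1 hω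
    -- the bad gaps of `ω`
    have hB : (univ.filter (fun i : Fin (N + 1) => ¬ Γ (ω i) (ω (i + 1)))).card ≤ g := by
      refine le_trans (Finset.card_le_card_of_injOn (fun i => pos σ0 + i) ?_ ?_)
        (hQ σ0 hσ0).2.2.2
      · intro i hi
        have hi' := (Finset.mem_filter.1 (Finset.mem_coe.1 hi)).2
        refine Finset.mem_coe.2 (Finset.mem_filter.2 ⟨Finset.mem_univ _, ?_⟩)
        rw [← hω0] at hi'
        simpa [f, add_assoc] using hi'
      · intro i _ j _ hij
        exact add_left_cancel hij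
    refine le_trans (Finset.card_le_card_of_injOn (fun σ => - pos σ - 1) ?_ ?_) hB
    · intro σ hσ
      obtain ⟨hσQ, hσω⟩ := Finset.mem_filter.1 (Finset.mem_coe.1 hσ)
      refine Finset.mem_coe.2 (Finset.mem_filter.2 ⟨Finset.mem_univ _, ?_⟩)
      have h := (hQ σ hσQ).2.2.1
      rw [← hσω]
      have e1 : pos σ + (- pos σ - 1) = Fin.last N := by
        have hl : Fin.last N = -1 := eq_neg_of_add_eq_zero_left (Fin.last_add_one N)
        rw [hl]
        abel
      have e2 : pos σ + (- pos σ - 1 + 1) = 0 := by abel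
      show ¬ Γ (σ (pos σ + (- pos σ - 1))) (σ (pos σ + (- pos σ - 1 + 1)))
      rw [e1, e2]
      exact h
    · intro σ hσ σ' hσ' he
      obtain ⟨hσQ, hσω⟩ := Finset.mem_filter.1 (Finset.mem_coe.1 hσ)
      obtain ⟨hσQ', hσω'⟩ := Finset.mem_filter.1 (Finset.mem_coe.1 hσ')
      have hk : pos σ = pos σ' := by
        have := sub_left_injective he
        exact neg_injective this
      funext i
      have e : f σ (i - pos σ) = f σ' (i - pos σ) := by rw [hσω, hσω']
      have e' : σ (pos σ + (i - pos σ)) = σ' (pos σ' + (i - pos σ)) := e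
      rw [hk] at e'
      simpa using e'
  refine le_trans h1 (Nat.mul_le_mul_left g ?_)
  apply cyc_card_fix S hS s0 hs0
  intro ω hω
  obtain ⟨σ, hσ, rfl⟩ := Finset.mem_image.1 hω
  obtain ⟨q1, q2, -, -⟩ := hQ σ hσ
  refine ⟨?_, fun i => q2 _, ?_⟩
  · intro i j hij
    exact add_left_cancel (q1 hij)
  · show σ (pos σ + 0) = s0
    rw [add_zero]
    exact pos_spec σ hσ

end P490135

end

section

/-!
# MP_490135_co: common definitions (helper81)

`P_{2ℓ}` in `P_{2ℓ+1}`-free graphs.  This file contains only definitions shared by the pieces.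

## Finite part
`α` = high vertices, `β` = low vertices, `A u h` = low `u` is adjacent to high `h`,
`Γ h h'` = the highs `h, h'` have many common neighbours, `Λ h h'` = there is an edge `ab` between
lows with `a ∼ h`, `b ∼ h'`, `D` = set of highs with many pendant low-low edges.

All consecutive conditions are written as `∀ i j : Fin M, (j : ℕ) = i + 1 → …`.
-/

namespace P490135

/-- A linear `Γ`-chain. -/
def Chain {α : Type*} {M : ℕ} (Γ : α → α → Prop) (σ : Fin M → α) : Prop :=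
  ∀ i j : Fin M, (j : ℕ) = i + 1 → Γ (σ i) (σ j)

/-- Path of type II: `ℓ` highs `σ`, `ℓ` lows `τ`; the path is
`τ 0, σ 0, τ 1, σ 1, …, τ (p-1), σ (p-1), σ p, τ p, σ (p+1), τ (p+1), …, σ (ℓ-1), τ (ℓ-1)`. -/
structure IsII {α β : Type*} (ℓ : ℕ) (S : Finset α) (W : Finset β) (A : β → α → Prop)
    (p : ℕ) (σ : Fin ℓ → α) (τ : Fin ℓ → β) : Prop where
  σinj : Function.Injective σ
  σS : ∀ i, σ i ∈ S
  τinj : Function.Injective τ
  τW : ∀ i, τ i ∈ W
  p1 : 1 ≤ p
  p2 : p < ℓ
  adj : ∀ i, A (τ i) (σ i)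
  adj1 : ∀ i j : Fin ℓ, (j : ℕ) = i + 1 → (j : ℕ) < p → A (τ j) (σ i)
  adj2 : ∀ i j : Fin ℓ, (j : ℕ) = i + 1 → p ≤ (i : ℕ) → A (τ i) (σ j)

/-- Standing assumptions for type II (on the sets `S`, `W`, both of size `ℓ`). -/
structure HypII {α β : Type*} (ℓ : ℕ) (S : Finset α) (W : Finset β) (A : β → α → Prop)
    (Γ : α → α → Prop) : Prop where
  cardS : S.card = ℓ
  cardW : W.card = ℓ
  symm : ∀ x y, Γ x y → Γ y x
  clique : ∀ u ∈ W, ∀ h ∈ S, ∀ h' ∈ S, A u h → A u h' → h ≠ h' → Γ h h'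
  /-- each low misses at least two elements of `S` -/
  miss : ∀ u ∈ W, ∃ x ∈ S, ∃ y ∈ S, x ≠ y ∧ ¬ A u x ∧ ¬ A u y
  /-- `Γ[S]` has no Hamilton path -/
  noHam : ∀ σ : Fin ℓ → α, Function.Injective σ → (∀ i, σ i ∈ S) → ¬ Chain Γ σ

/-- Path of type E (`N` highs `σ`, `N` lows `τ`, and a low `b` which is the end of the path):
`b, a, σ 0, τ 0, σ 1, τ 1, …, σ (N-1), τ (N-1)`. -/
structure IsE {α β : Type*} (N : ℕ) (R : Finset α) (W : Finset β) (A : β → α → Prop)
    (D : Finset α) (b : β) (σ : Fin N → α) (τ : Fin N → β) : Prop where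
  bW : b ∈ W
  bD : ∀ h ∈ R, A b h → h ∈ D
  σinj : Function.Injective σ
  σR : ∀ i, σ i ∈ R
  τinj : Function.Injective τ
  τW : ∀ i, τ i ∈ W
  τb : ∀ i, τ i ≠ b
  adj : ∀ i, A (τ i) (σ i)
  adj2 : ∀ i j : Fin N, (j : ℕ) = i + 1 → A (τ i) (σ j)
  σD : ∀ i : Fin N, (i : ℕ) = 0 → σ i ∈ D

/-- Path of type M (`N` highs `σ`, `N` lows `τ`, and a low `r` which belongs to the low-low edge
`r r'` of the path):
`τ 0, σ 0, …, τ (k-1), σ (k-1), r, r', σ k, τ k, …, σ (N-1), τ (N-1)`. -/
structure IsM {α β : Type*} (N : ℕ) (R : Finset α) (W : Finset β) (A : β → α → Prop)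
    (D : Finset α) (Λ : α → α → Prop) (r : β) (k : ℕ) (σ : Fin N → α) (τ : Fin N → β) : Prop where
  rW : r ∈ W
  rD : ∀ h ∈ R, A r h → h ∈ D
  σinj : Function.Injective σ
  σR : ∀ i, σ i ∈ R
  τinj : Function.Injective τ
  τW : ∀ i, τ i ∈ W
  τr : ∀ i, τ i ≠ r
  k1 : 1 ≤ k
  k2 : k < N
  adj : ∀ i, A (τ i) (σ i)
  adj1 : ∀ i j : Fin N, (j : ℕ) = i + 1 → (j : ℕ) < k → A (τ j) (σ i)
  adj2 : ∀ i j : Fin N, (j : ℕ) = i + 1 → k ≤ (i : ℕ) → A (τ i) (σ j)
  lam : ∀ i j : Fin N, (j : ℕ) = i + 1 → (j : ℕ) = k → Λ (σ i) (σ j)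
  dl : ∀ i : Fin N, (i : ℕ) + 1 = k → σ i ∈ D
  dr : ∀ i : Fin N, (i : ℕ) = k → σ i ∈ D

/-- Standing assumptions for types E and M. -/
structure HypI {α β : Type*} (N : ℕ) (R : Finset α) (W : Finset β) (A : β → α → Prop)
    (D : Finset α) (Γ Λ : α → α → Prop) : Prop where
  cardR : R.card = N
  cardW : W.card = N + 1
  symm : ∀ x y, Γ x y → Γ y x
  lsymm : ∀ x y, Λ x y → Λ y x
  clique : ∀ u ∈ W, ∀ h ∈ R, ∀ h' ∈ R, A u h → A u h' → h ≠ h' → Γ h h'
  /-- each low misses at least one element of `R` -/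
  miss : ∀ u ∈ W, ∃ x ∈ R, ¬ A u x
  /-- no Hamilton path of `Γ[R]` with both ends in `D` -/
  F1 : ∀ σ : Fin N → α, Function.Injective σ → (∀ i, σ i ∈ R) → Chain Γ σ →
    ¬ ((∀ i : Fin N, (i : ℕ) = 0 → σ i ∈ D) ∧ (∀ i : Fin N, (i : ℕ) + 1 = N → σ i ∈ D))
  /-- no Hamilton path of `R` using one `Λ`-step and otherwise `Γ`-steps, with first vertex in `D` -/
  F2 : ∀ (σ : Fin N → α) (k : ℕ), Function.Injective σ → (∀ i, σ i ∈ R) → 1 ≤ k → k < N →
    (∀ i j : Fin N, (j : ℕ) = i + 1 → (j : ℕ) ≠ k → Γ (σ i) (σ j)) →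
    (∀ i j : Fin N, (j : ℕ) = i + 1 → (j : ℕ) = k → Λ (σ i) (σ j)) →
    ¬ (∀ i : Fin N, (i : ℕ) = 0 → σ i ∈ D)

end P490135

end

section

/-!
# MP_490135_co, item B: bijections respecting zones (helper20)
-/

namespace P490135

open Finset Nat

/-- The number of injective functions `τ` with `τ i ∈ B (c i)` is at most `∏ k, |B k|!`. -/
theorem zone_col {ι β K : Type*} [Fintype ι] [DecidableEq ι] [DecidableEq β] [Fintype K]
    [DecidableEq K] (c : ι → K) (B : K → Finset β) (Q : Finset (ι → β))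
    (hQ : ∀ τ ∈ Q, Function.Injective τ ∧ ∀ i, τ i ∈ B (c i)) :
    Q.card ≤ ∏ k, (B k).card ! := by
  classical
  have h1 : Fintype.card {τ // τ ∈ Q} ≤
      Fintype.card (∀ k, ({i // c i = k} ↪ {b // b ∈ B k})) := by
    refine Fintype.card_le_of_injective
      (fun τ k => ⟨fun i => ⟨τ.1 i.1, by have := (hQ τ.1 τ.2).2 i.1; rwa [i.2] at this⟩, ?_⟩) ?_
    · intro i j hij
      have := (hQ τ.1 τ.2).1 (congrArg Subtype.val hij)
      exact Subtype.ext this
    · intro τ τ' h
      apply Subtype.ext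
      funext i
      have h2 := congrFun h (c i)
      have h3 := DFunLike.congr_fun h2 ⟨i, rfl⟩
      exact congrArg Subtype.val h3
  rw [Fintype.card_coe, Fintype.card_pi] at h1
  refine h1.trans (Finset.prod_le_prod' fun k _ => ?_)
  rw [Fintype.card_embedding_eq, Fintype.card_coe]
  rcases le_or_gt (Fintype.card {i // c i = k}) (B k).card with h | h
  · have := Nat.factorial_mul_descFactorial h
    calc _ ≤ ((B k).card - Fintype.card {i // c i = k})! *
          (B k).card.descFactorial (Fintype.card {i // c i = k}) :=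
          Nat.le_mul_of_pos_left _ (Nat.factorial_pos _)
      _ = _ := this
  · rw [Nat.descFactorial_of_lt h]
    exact Nat.zero_le _

/-- The colour of a value. -/
def zcol {β : Type*} [DecidableEq β] (L₁ L₂ L₃ : Finset β) (b : β) : Fin 4 :=
  if b ∈ L₁ then 0 else if b ∈ L₂ then 1 else if b ∈ L₃ then 2 else 3

/-- L3 (zones). -/
theorem zone {β : Type*} [DecidableEq β] {M : ℕ} (W : Finset β) (hW : W.card = M)
    (L₁ L₂ L₃ : Finset β) (h₁ : L₁ ⊆ W) (h₂ : L₂ ⊆ W) (h₃ : L₃ ⊆ W)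
    (h₁₂ : Disjoint L₁ L₂) (h₁₃ : Disjoint L₁ L₃) (h₂₃ : Disjoint L₂ L₃)
    (Z₁ Z₂ Z₃ F₁ F₂ : Finset (Fin M)) (z₁₂ : Disjoint Z₁ Z₂) (z₁₃ : Disjoint Z₁ Z₃)
    (z₂₃ : Disjoint Z₂ Z₃) (hF₁ : F₁ ⊆ Z₁) (hF₂ : F₂ ⊆ Z₂) (Q : Finset (Fin M → β))
    (hQ : ∀ τ ∈ Q, Function.Injective τ ∧ (∀ i, τ i ∈ W) ∧
      (∀ i, τ i ∈ L₁ → i ∈ Z₁) ∧ (∀ i, τ i ∈ L₂ → i ∈ Z₂) ∧ (∀ i, τ i ∈ L₃ → i ∈ Z₃) ∧
      (∀ i ∈ F₁, τ i ∈ L₁) ∧ (∀ i ∈ F₂, τ i ∈ L₂)) :
    Q.card * (L₁.card + L₂.card + L₃.card - F₁.card - F₂.card)! ≤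
      L₁.card ! * L₂.card ! * L₃.card ! * (M - F₁.card - F₂.card)! := by
  classical
  rcases Q.eq_empty_or_nonempty with rfl | ⟨τ₀, hτ₀⟩
  · simp
  -- basic inequalities
  have hd : Disjoint (L₁ ∪ L₂) L₃ := Finset.disjoint_union_left.2 ⟨h₁₃, h₂₃⟩
  have hLc : ((L₁ ∪ L₂) ∪ L₃).card = L₁.card + L₂.card + L₃.card := by
    rw [Finset.card_union_of_disjoint hd, Finset.card_union_of_disjoint h₁₂]
  have hLW : ((L₁ ∪ L₂) ∪ L₃) ⊆ W := Finset.union_subset (Finset.union_subset h₁ h₂) h₃
  set L := (L₁ ∪ L₂) ∪ L₃ with hL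
  have hmM : L.card ≤ M := hW ▸ Finset.card_le_card hLW
  have hF1 : F₁.card ≤ L₁.card :=
    Finset.card_le_card_of_injOn τ₀ (fun i hi => (hQ τ₀ hτ₀).2.2.2.2.2.1 i hi)
      (fun i _ j _ h => (hQ τ₀ hτ₀).1 h)
  have hF2 : F₂.card ≤ L₂.card :=
    Finset.card_le_card_of_injOn τ₀ (fun i hi => (hQ τ₀ hτ₀).2.2.2.2.2.2 i hi)
      (fun i _ j _ h => (hQ τ₀ hτ₀).1 h)
  have hFd : Disjoint F₁ F₂ := Finset.disjoint_of_subset_left hF₁
    (Finset.disjoint_of_subset_right hF₂ z₁₂)
  have hFc : (F₁ ∪ F₂).card = F₁.card + F₂.card := Finset.card_union_of_disjoint hFd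
  -- the colouring
  let col : (Fin M → β) → (Fin M → Fin 4) := fun τ i => zcol L₁ L₂ L₃ (τ i)
  -- number of colourings
  have himg : (Q.image col).card ≤ (M - (F₁ ∪ F₂).card).choose (L.card - (F₁ ∪ F₂).card) := by
    -- colouring determined by the set `X`
    let X : (Fin M → β) → Finset (Fin M) := fun τ => (univ.filter fun i => τ i ∈ L) \ (F₁ ∪ F₂)
    have key : ∀ τ ∈ Q, ∀ i, col τ i =
        (if i ∈ X τ ∪ (F₁ ∪ F₂) then (if i ∈ Z₁ then 0 else if i ∈ Z₂ then 1 else 2) else 3) := by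
      intro τ hτ i
      obtain ⟨hi, hW', a1, a2, a3, b1, b2⟩ := hQ τ hτ
      have hX : i ∈ X τ ∪ (F₁ ∪ F₂) ↔ τ i ∈ L := by
        constructor
        · intro h
          rcases Finset.mem_union.1 h with h | h
          · simpa [X] using (Finset.mem_sdiff.1 h).1
          · rcases Finset.mem_union.1 h with h | h
            · simp [hL, b1 i h]
            · simp [hL, b2 i h]
        · intro h
          by_cases hF : i ∈ F₁ ∪ F₂
          · exact Finset.mem_union_right _ hF
          · exact Finset.mem_union_left _ (Finset.mem_sdiff.2 ⟨by simpa using h, hF⟩)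
      simp only [hX]
      simp only [col, zcol]
      by_cases c1 : τ i ∈ L₁
      · have : τ i ∈ L := by simp [hL, c1]
        simp [c1, this, a1 i c1]
      · by_cases c2 : τ i ∈ L₂
        · have : τ i ∈ L := by simp [hL, c2]
          have z2 := a2 i c2
          have z1 : i ∉ Z₁ := fun h => Finset.disjoint_left.1 z₁₂ h z2
          simp [c1, c2, this, z1, z2]
        · by_cases c3 : τ i ∈ L₃
          · have : τ i ∈ L := by simp [hL, c3]
            have z3 := a3 i c3
            have z1 : i ∉ Z₁ := fun h => Finset.disjoint_left.1 z₁₃ h z3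
            have z2 : i ∉ Z₂ := fun h => Finset.disjoint_left.1 z₂₃ h z3
            simp [c1, c2, c3, this, z1, z2]
          · have : τ i ∉ L := by simp [hL, c1, c2, c3]
            simp [c1, c2, c3, this]
    have hle : (Q.image col).card ≤ (Q.image X).card := by
      have : Q.image col ⊆ (Q.image X).image (fun Y i =>
          (if i ∈ Y ∪ (F₁ ∪ F₂) then (if i ∈ Z₁ then (0 : Fin 4) else if i ∈ Z₂ then 1 else 2)
            else 3)) := by
        intro c hc
        obtain ⟨τ, hτ, rfl⟩ := Finset.mem_image.1 hc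
        refine Finset.mem_image.2 ⟨X τ, Finset.mem_image_of_mem _ hτ, ?_⟩
        funext i
        exact (key τ hτ i).symm
      exact (Finset.card_le_card this).trans Finset.card_image_le
    refine hle.trans ?_
    have hsub : Q.image X ⊆ Finset.powersetCard (L.card - (F₁ ∪ F₂).card)
        ((univ : Finset (Fin M)) \ (F₁ ∪ F₂)) := by
      intro Y hY
      obtain ⟨τ, hτ, rfl⟩ := Finset.mem_image.1 hY
      obtain ⟨hi, hW', a1, a2, a3, b1, b2⟩ := hQ τ hτ
      refine Finset.mem_powersetCard.2 ⟨?_, ?_⟩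
      · exact Finset.sdiff_subset_sdiff (Finset.subset_univ _) (Finset.Subset.refl _)
      · have hsub2 : (F₁ ∪ F₂) ⊆ univ.filter fun i => τ i ∈ L := by
          intro i hi'
          rcases Finset.mem_union.1 hi' with h | h
          · simp [hL, b1 i h]
          · simp [hL, b2 i h]
        have hsurj : univ.image τ = W := by
          apply Finset.eq_of_subset_of_card_le
          · intro b hb
            obtain ⟨i, _, rfl⟩ := Finset.mem_image.1 hb
            exact hW' i
          · rw [Finset.card_image_of_injective _ hi, hW]; simp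
        have hc : (univ.filter fun i => τ i ∈ L).card = L.card := by
          have : (univ.filter fun i => τ i ∈ L).image τ = L := by
            ext b
            constructor
            · intro hb
              obtain ⟨i, h, rfl⟩ := Finset.mem_image.1 hb
              exact (Finset.mem_filter.1 h).2
            · intro hb
              have hbW : b ∈ univ.image τ := by rw [hsurj]; exact hLW hb
              obtain ⟨i, _, rfl⟩ := Finset.mem_image.1 hbW
              exact Finset.mem_image_of_mem _ (Finset.mem_filter.2 ⟨Finset.mem_univ _, hb⟩)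
          rw [← this, Finset.card_image_of_injective _ hi, this]
        show ((univ.filter fun i => τ i ∈ L) \ (F₁ ∪ F₂)).card = _
        rw [Finset.card_sdiff_of_subset hsub2, hc]
    have hcard := Finset.card_le_card hsub
    rw [Finset.card_powersetCard, Finset.card_sdiff_of_subset (Finset.subset_univ _)] at hcard
    simpa using hcard
  -- fibres
  have hfib : ∀ c ∈ Q.image col, (Q.filter fun τ => col τ = c).card ≤
      L₁.card ! * L₂.card ! * L₃.card ! * (M - L.card)! := by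
    intro c _
    have h := zone_col c
      (fun k : Fin 4 => if k = 0 then L₁ else if k = 1 then L₂ else if k = 2 then L₃ else W \ L)
      (Q.filter fun τ => col τ = c) ?_
    · refine h.trans (le_of_eq ?_)
      rw [Fin.prod_univ_four]
      simp only [if_true, one_ne_zero, if_false]
      have e1 : ((2 : Fin 4) = 0) = False := by simp
      have e2 : ((2 : Fin 4) = 1) = False := by simp
      have e3 : ((3 : Fin 4) = 0) = False := by simp
      have e4 : ((3 : Fin 4) = 1) = False := by simp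
      have e5 : ((3 : Fin 4) = 2) = False := by simp
      simp only [e1, e2, e3, e4, e5, if_false, if_true]
      rw [Finset.card_sdiff_of_subset hLW, hW]
    · intro τ hτ
      obtain ⟨hτQ, hc⟩ := Finset.mem_filter.1 hτ
      obtain ⟨hi, hW', -⟩ := hQ τ hτQ
      refine ⟨hi, fun i => ?_⟩
      subst hc
      simp only [col, zcol]
      by_cases c1 : τ i ∈ L₁
      · simp [c1]
      · by_cases c2 : τ i ∈ L₂
        · simp [c1, c2]
        · by_cases c3 : τ i ∈ L₃
          · simp [c1, c2, c3]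
          · simp [c1, c2, c3, hL, hW' i]
  have hQc : Q.card ≤ (L₁.card ! * L₂.card ! * L₃.card ! * (M - L.card)!) *
      (Q.image col).card :=
    Finset.card_le_mul_card_image _ _ hfib
  have hs1 : L₁.card + L₂.card + L₃.card - F₁.card - F₂.card = L.card - (F₁ ∪ F₂).card := by
    rw [hLc, hFc]; omega
  have hs2 : M - F₁.card - F₂.card = M - (F₁ ∪ F₂).card := by rw [hFc]; omega
  rw [hs1, hs2]
  have ha : (F₁ ∪ F₂).card ≤ L.card := by rw [hFc, hLc]; omega
  have hch := Nat.choose_mul_factorial_mul_factorial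
    (show L.card - (F₁ ∪ F₂).card ≤ M - (F₁ ∪ F₂).card by omega)
  have hs3 : M - (F₁ ∪ F₂).card - (L.card - (F₁ ∪ F₂).card) = M - L.card := by omega
  rw [hs3] at hch
  calc Q.card * (L.card - (F₁ ∪ F₂).card)!
      ≤ ((L₁.card ! * L₂.card ! * L₃.card ! * (M - L.card)!) * (Q.image col).card) *
        (L.card - (F₁ ∪ F₂).card)! := Nat.mul_le_mul_right _ hQc
    _ ≤ ((L₁.card ! * L₂.card ! * L₃.card ! * (M - L.card)!) *
        (M - (F₁ ∪ F₂).card).choose (L.card - (F₁ ∪ F₂).card)) *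
        (L.card - (F₁ ∪ F₂).card)! :=
        Nat.mul_le_mul_right _ (Nat.mul_le_mul_left _ himg)
    _ = L₁.card ! * L₂.card ! * L₃.card ! * ((M - (F₁ ∪ F₂).card).choose
        (L.card - (F₁ ∪ F₂).card) * (L.card - (F₁ ∪ F₂).card)! * (M - L.card)!) := by ring
    _ = _ := by rw [hch]

end P490135

end

section

/-!
# MP_490135_co, item A: Bonferroni counts of bijections (helper20)
-/

namespace P490135

open Finset Nat

/-- L0. -/
theorem card_presc {β : Type*} [DecidableEq β] {M : ℕ} (W : Finset β) (hW : W.card = M)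
    (s : Finset (Fin M)) (g : Fin M → β) (Q : Finset (Fin M → β))
    (hQ : ∀ τ ∈ Q, Function.Injective τ ∧ (∀ i, τ i ∈ W) ∧ ∀ i ∈ s, τ i = g i) :
    Q.card ≤ (M - s.card)! := by
  classical
  rcases Q.eq_empty_or_nonempty with rfl | ⟨τ₀, hτ₀⟩
  · simp
  have hg : Set.InjOn g s := by
    intro i hi j hj h
    obtain ⟨h1, -, h3⟩ := hQ τ₀ hτ₀
    apply h1
    rw [h3 i hi, h3 j hj, h]
  have hgs : s.image g ⊆ W := by
    intro b hb
    obtain ⟨i, hi, rfl⟩ := Finset.mem_image.1 hb
    obtain ⟨-, h2, h3⟩ := hQ τ₀ hτ₀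
    rw [← h3 i hi]
    exact h2 i
  have h := zone_col (K := Option {i // i ∈ s})
    (fun i => if h : i ∈ s then some ⟨i, h⟩ else none)
    (fun k => Option.elim k (W \ s.image g) (fun i => {g i.1})) Q ?_
  · refine h.trans (le_of_eq ?_)
    rw [Fintype.prod_option]
    simp only [Option.elim, Finset.card_singleton, Nat.factorial_one, Finset.prod_const_one,
      mul_one]
    rw [Finset.card_sdiff_of_subset hgs, Finset.card_image_of_injOn hg, hW]
  · intro τ hτ
    obtain ⟨h1, h2, h3⟩ := hQ τ hτ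
    refine ⟨h1, fun i => ?_⟩
    by_cases hi : i ∈ s
    · simp [hi, h3 i hi]
    · simp only [hi, dif_neg, not_false_eq_true, Option.elim]
      refine Finset.mem_sdiff.2 ⟨h2 i, fun hc => ?_⟩
      obtain ⟨j, hj, hj2⟩ := Finset.mem_image.1 hc
      rw [← h3 j hj] at hj2
      exact hi (h1 hj2 ▸ hj)

/-- All injective maps `Fin N → W`. -/
def allT {β : Type*} [DecidableEq β] (N : ℕ) (W : Finset β) : Finset (Fin N → β) :=
  (Fintype.piFinset fun _ : Fin N => W).filter Function.Injective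

theorem mem_allT {β : Type*} [DecidableEq β] {N : ℕ} {W : Finset β} {τ : Fin N → β} :
    τ ∈ allT N W ↔ Function.Injective τ ∧ ∀ i, τ i ∈ W := by
  simp [allT, Fintype.mem_piFinset, and_comm]

theorem card_allT {β : Type*} [DecidableEq β] {N : ℕ} (W : Finset β) (hW : W.card = N) :
    (allT N W).card = N ! := by
  classical
  apply le_antisymm
  · rcases Nat.eq_zero_or_pos N with rfl | hN
    · have := card_presc W hW ∅ (fun i => i.elim0) (allT 0 W) (by
        intro τ hτ
        exact ⟨(mem_allT.1 hτ).1, (mem_allT.1 hτ).2, by simp⟩)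
      simpa using this
    · obtain ⟨b, hb⟩ : W.Nonempty := Finset.card_pos.1 (hW ▸ hN)
      have := card_presc W hW ∅ (fun _ => b) (allT N W) (by
        intro τ hτ
        exact ⟨(mem_allT.1 hτ).1, (mem_allT.1 hτ).2, by simp⟩)
      simpa using this
  · have h1 : Fintype.card (Fin N ↪ {b // b ∈ W}) = N ! := by
      rw [Fintype.card_embedding_eq, Fintype.card_coe, Fintype.card_fin, hW,
        Nat.descFactorial_self]
    rw [← h1, ← Finset.card_univ]
    refine Finset.card_le_card_of_injOn (fun e i => (e i).1) ?_ ?_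
    · intro e _
      refine mem_allT.2 ⟨?_, fun i => (e i).2⟩
      exact Subtype.val_injective.comp e.injective
    · intro e _ e' _ h
      ext i
      exact congrFun h i

theorem card_allT_one {β : Type*} [DecidableEq β] {N : ℕ} (hN : 1 ≤ N) (W : Finset β)
    (hW : W.card = N) (i : Fin N) (u : β) (hu : u ∈ W) :
    ((allT N W).filter fun τ => τ i = u).card = (N - 1)! := by
  classical
  have hle : ∀ u ∈ W, ((allT N W).filter fun τ => τ i = u).card ≤ (N - 1)! := by
    intro u _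
    have := card_presc W hW {i} (fun _ => u) ((allT N W).filter fun τ => τ i = u) (by
      intro τ hτ
      obtain ⟨h1, h2⟩ := Finset.mem_filter.1 hτ
      exact ⟨(mem_allT.1 h1).1, (mem_allT.1 h1).2, by simpa using h2⟩)
    simpa using this
  have hsum : ∑ u ∈ W, ((allT N W).filter fun τ => τ i = u).card = ∑ u ∈ W, (N - 1)! := by
    rw [← Finset.card_eq_sum_card_fiberwise (f := fun τ : Fin N → β => τ i) (t := W)
      (fun τ hτ => (mem_allT.1 hτ).2 i), card_allT W hW, Finset.sum_const, hW, smul_eq_mul,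
      Nat.mul_factorial_pred (by omega)]
  exact (Finset.sum_eq_sum_iff_of_le hle).1 hsum u hu

theorem card_allT_two {β : Type*} [DecidableEq β] {N : ℕ} (hN : 2 ≤ N) (W : Finset β)
    (hW : W.card = N) (i j : Fin N) (hij : i ≠ j) (u v : β) (hu : u ∈ W) (hv : v ∈ W)
    (huv : u ≠ v) :
    ((allT N W).filter fun τ => τ i = u ∧ τ j = v).card = (N - 2)! := by
  classical
  have hle : ∀ p ∈ W.offDiag,
      ((allT N W).filter fun τ => (τ i, τ j) = p).card ≤ (N - 2)! := by
    intro p _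
    have := card_presc W hW {i, j} (fun k => if k = i then p.1 else p.2)
      ((allT N W).filter fun τ => (τ i, τ j) = p) (by
      intro τ hτ
      obtain ⟨h1, h2⟩ := Finset.mem_filter.1 hτ
      refine ⟨(mem_allT.1 h1).1, (mem_allT.1 h1).2, ?_⟩
      intro k hk
      rcases Finset.mem_insert.1 hk with rfl | hk
      · simp [← h2]
      · rw [Finset.mem_singleton] at hk
        subst hk
        simp [← h2, hij.symm])
    rwa [Finset.card_pair hij] at this
  have hsum : ∑ p ∈ W.offDiag, ((allT N W).filter fun τ => (τ i, τ j) = p).card =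
      ∑ p ∈ W.offDiag, (N - 2)! := by
    rw [← Finset.card_eq_sum_card_fiberwise (f := fun τ : Fin N → β => (τ i, τ j))
      (t := W.offDiag)
      (fun τ hτ => Finset.mem_coe.2 (Finset.mem_offDiag.2 ⟨(mem_allT.1 hτ).2 i,
        (mem_allT.1 hτ).2 j, fun h => hij ((mem_allT.1 hτ).1 h)⟩)), card_allT W hW,
      Finset.sum_const, Finset.offDiag_card, hW, smul_eq_mul]
    obtain ⟨k, rfl⟩ := Nat.exists_eq_add_of_le hN
    rw [show 2 + k - 2 = k by omega, show 2 + k = (k + 1) + 1 by omega, Nat.factorial_succ,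
      Nat.factorial_succ]
    have : (k + 1 + 1) * (k + 1 + 1) - (k + 1 + 1) = (k + 1 + 1) * (k + 1) := by
      rw [← Nat.mul_sub_one]; rfl
    rw [this]; ring
  have := (Finset.sum_eq_sum_iff_of_le hle).1 hsum (u, v)
    (Finset.mem_offDiag.2 ⟨hu, hv, huv⟩)
  simpa [Prod.ext_iff] using this

/-- Bonferroni. -/
theorem bonf {Ω β : Type*} [DecidableEq β] (T Q : Finset Ω) (hQT : Q ⊆ T) (W : Finset β)
    (P : Ω → β → Prop) [∀ τ u, Decidable (P τ u)] (hP : ∀ τ ∈ Q, ∀ u ∈ W, ¬ P τ u) :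
    2 * Q.card + 2 * ∑ u ∈ W, (T.filter fun τ => P τ u).card ≤
      2 * T.card + ∑ p ∈ W.offDiag, (T.filter fun τ => P τ p.1 ∧ P τ p.2).card := by
  classical
  let X : Ω → ℕ := fun τ => (W.filter fun u => P τ u).card
  have h1 : ∑ u ∈ W, (T.filter fun τ => P τ u).card = ∑ τ ∈ T, X τ := by
    simp only [X, Finset.card_filter]
    exact Finset.sum_comm
  have h2 : ∑ p ∈ W.offDiag, (T.filter fun τ => P τ p.1 ∧ P τ p.2).card =
      ∑ τ ∈ T, (X τ * X τ - X τ) := by
    have : ∀ τ, X τ * X τ - X τ = (W.offDiag.filter fun p => P τ p.1 ∧ P τ p.2).card := by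
      intro τ
      rw [← Finset.offDiag_card]
      congr 1
      ext p
      simp only [Finset.mem_offDiag, Finset.mem_filter]
      tauto
    simp only [this, Finset.card_filter]
    exact Finset.sum_comm
  have h3 : 2 * Q.card = ∑ τ ∈ T, (if τ ∈ Q then 2 else 0) := by
    rw [← Finset.sum_filter, Finset.sum_const, smul_eq_mul, mul_comm]
    congr 2
    ext τ
    simp only [Finset.mem_filter]
    exact ⟨fun h => ⟨hQT h, h⟩, fun h => h.2⟩
  rw [h1, h2, h3, Finset.mul_sum, ← Finset.sum_add_distrib, Finset.card_eq_sum_ones,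
    Finset.mul_sum, ← Finset.sum_add_distrib]
  refine Finset.sum_le_sum fun τ _ => ?_
  by_cases hτ : τ ∈ Q
  · have : X τ = 0 := by
      simp only [X, Finset.card_eq_zero, Finset.filter_eq_empty_iff]
      exact fun u hu => hP τ hτ u hu
    simp [hτ, this]
  · simp only [hτ, if_false, zero_add, mul_one]
    rcases Nat.lt_or_ge (X τ) 3 with h | h
    · interval_cases X τ <;> simp
    · have : X τ + 2 * X τ ≤ X τ * X τ := by nlinarith
      omega

/-- L1 (Bonferroni for bijections avoiding one value each). -/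
theorem bon1 {β : Type*} [DecidableEq β] {N : ℕ} (hN : 2 ≤ N) (W : Finset β) (hW : W.card = N)
    (forb : β → Fin N) (Q : Finset (Fin N → β))
    (hQ : ∀ τ ∈ Q, Function.Injective τ ∧ (∀ i, τ i ∈ W) ∧ ∀ i, forb (τ i) ≠ i) :
    2 * Q.card ≤ N ! := by
  classical
  have hb := bonf (allT N W) Q (fun τ hτ => mem_allT.2 ⟨(hQ τ hτ).1, (hQ τ hτ).2.1⟩) W
    (fun τ u => τ (forb u) = u) (by
      intro τ hτ u _ h
      exact (hQ τ hτ).2.2 (forb u) (by rw [h]))
  have h1 : ∑ u ∈ W, ((allT N W).filter fun τ => τ (forb u) = u).card = N ! := by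
    rw [Finset.sum_congr rfl (fun u hu => card_allT_one (by omega) W hW (forb u) u hu),
      Finset.sum_const, hW, smul_eq_mul, Nat.mul_factorial_pred (by omega)]
  have h2 : ∑ p ∈ W.offDiag, ((allT N W).filter fun τ => τ (forb p.1) = p.1 ∧
      τ (forb p.2) = p.2).card ≤ N ! := by
    have : ∀ p ∈ W.offDiag, ((allT N W).filter fun τ => τ (forb p.1) = p.1 ∧
      τ (forb p.2) = p.2).card ≤ (N - 2)! := by
      intro p hp
      obtain ⟨hu, hv, huv⟩ := Finset.mem_offDiag.1 hp
      by_cases hf : forb p.1 = forb p.2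
      · rw [Finset.card_eq_zero.2]
        · exact Nat.zero_le _
        · rw [Finset.filter_eq_empty_iff]
          rintro τ - ⟨a, b⟩
          rw [hf] at a
          exact huv (a.symm.trans b)
      · exact (card_allT_two hN W hW _ _ hf _ _ hu hv huv).le
    refine (Finset.sum_le_sum this).trans (le_of_eq ?_)
    rw [Finset.sum_const, Finset.offDiag_card, hW, smul_eq_mul]
    obtain ⟨k, rfl⟩ := Nat.exists_eq_add_of_le hN
    rw [show 2 + k - 2 = k by omega, show 2 + k = (k + 1) + 1 by omega, Nat.factorial_succ,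
      Nat.factorial_succ]
    have : (k + 1 + 1) * (k + 1 + 1) - (k + 1 + 1) = (k + 1 + 1) * (k + 1) := by
      rw [← Nat.mul_sub_one]; rfl
    rw [this]; ring
  rw [h1, card_allT W hW] at hb
  omega

/-- Pairs of positions at distance at least two. -/
theorem card_far (N : ℕ) :
    ((univ : Finset (Fin N × Fin N)).filter fun p =>
      (p.1 : ℕ) + 1 < N ∧ (p.2 : ℕ) + 1 < N ∧
        ((p.1 : ℕ) + 1 < p.2 ∨ (p.2 : ℕ) + 1 < p.1)).card ≤ (N - 2) * (N - 3) := by
  classical
  have h : ((Finset.range (N - 2)).offDiag).card = (N - 2) * (N - 3) := by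
    rw [Finset.offDiag_card, Finset.card_range, ← Nat.mul_sub_one]
    congr 1
  rw [← h]
  refine Finset.card_le_card_of_injOn
    (fun p => if (p.1 : ℕ) + 1 < p.2 then ((p.1 : ℕ), (p.2 : ℕ) - 1)
      else ((p.1 : ℕ) - 1, (p.2 : ℕ))) ?_ ?_
  · rintro ⟨i, j⟩ hp
    have hp' := (Finset.mem_filter.1 hp).2
    simp only at hp' ⊢
    have hi := i.2
    have hj := j.2
    rw [Finset.mem_coe, Finset.mem_offDiag]
    split_ifs with hc
    · simp only [Finset.mem_range]
      refine ⟨?_, ?_, ?_⟩ <;> omega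
    · simp only [Finset.mem_range]
      refine ⟨?_, ?_, ?_⟩ <;> omega
  · rintro ⟨i, j⟩ hp ⟨i', j'⟩ hp' heq
    have h1 := (Finset.mem_filter.1 hp).2
    have h2 := (Finset.mem_filter.1 hp').2
    simp only at h1 h2 heq
    have hi := i.2
    have hj := j.2
    have hi' := i'.2
    have hj' := j'.2
    split_ifs at heq with c1 c2 c2 <;> simp only [Prod.mk.injEq] at heq <;>
      (ext <;> simp only <;> omega)

/-- Immediate succession. -/
def Imm {β : Type*} {N : ℕ} (m : β → β) (τ : Fin N → β) (u : β) : Prop :=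
  ∃ i j : Fin N, (j : ℕ) = i + 1 ∧ τ i = u ∧ τ j = m u

open Classical in
theorem card_imm {β : Type*} [DecidableEq β] {N : ℕ} (hN : 2 ≤ N) (W : Finset β)
    (hW : W.card = N) (m : β → β) (u : β) (hu : u ∈ W) (hmu : m u ∈ W) (hne : m u ≠ u) :
    ((allT N W).filter fun τ => Imm m τ u).card = (N - 1)! := by
  have h1 : (allT N W).filter (fun τ => Imm m τ u) =
      ((univ : Finset (Fin (N - 1)))).biUnion (fun k => (allT N W).filter fun τ =>
        τ ⟨k.1, by omega⟩ = u ∧ τ ⟨k.1 + 1, by omega⟩ = m u) := by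
    ext τ
    simp only [Finset.mem_filter, Finset.mem_biUnion, Finset.mem_univ, true_and]
    constructor
    · rintro ⟨h, i, j, hij, h1, h2⟩
      refine ⟨⟨i.1, by omega⟩, h, h1, ?_⟩
      rw [← h2]
      congr 1
      exact Fin.ext hij.symm
    · rintro ⟨k, h, h1, h2⟩
      exact ⟨h, _, _, rfl, h1, h2⟩
  rw [h1, Finset.card_biUnion]
  · rw [Finset.sum_congr rfl (fun k _ => card_allT_two hN W hW ⟨k.1, by omega⟩
      ⟨k.1 + 1, by omega⟩ (by simp [Fin.ext_iff]) u (m u) hu hmu hne.symm)]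
    rw [Finset.sum_const, Finset.card_univ, Fintype.card_fin, smul_eq_mul]
    obtain ⟨k, rfl⟩ := Nat.exists_eq_add_of_le hN
    rw [show 2 + k - 2 = k by omega, show 2 + k - 1 = k + 1 by omega, Nat.factorial_succ]
  · intro k _ k' _ hkk'
    simp only [Function.onFun]
    rw [Finset.disjoint_left]
    intro τ h h'
    obtain ⟨ha, hb, -⟩ := Finset.mem_filter.1 h
    obtain ⟨-, hb', -⟩ := Finset.mem_filter.1 h'
    have := (mem_allT.1 ha).1 (hb.trans hb'.symm)
    apply hkk'
    exact Fin.ext (by simpa [Fin.ext_iff] using this)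

open Classical in
/-- three consecutive values. -/
theorem card_three {β : Type*} [DecidableEq β] {N : ℕ} (hN : 2 ≤ N) (W : Finset β)
    (hW : W.card = N) (a b c : β) :
    ((allT N W).filter fun τ => ∃ i j k : Fin N, (j : ℕ) = i + 1 ∧ (k : ℕ) = j + 1 ∧
      τ i = a ∧ τ j = b ∧ τ k = c).card ≤ (N - 2)! := by
  have h1 : (allT N W).filter (fun τ => ∃ i j k : Fin N, (j : ℕ) = i + 1 ∧ (k : ℕ) = j + 1 ∧
      τ i = a ∧ τ j = b ∧ τ k = c) ⊆
      ((univ : Finset (Fin (N - 2)))).biUnion (fun k => (allT N W).filter fun τ =>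
        τ ⟨k.1, by omega⟩ = a ∧ τ ⟨k.1 + 1, by omega⟩ = b ∧ τ ⟨k.1 + 2, by omega⟩ = c) := by
    intro τ
    simp only [Finset.mem_filter, Finset.mem_biUnion, Finset.mem_univ, true_and]
    rintro ⟨h, i, j, k, hij, hjk, h1, h2, h3⟩
    refine ⟨⟨i.1, by omega⟩, h, h1, ?_, ?_⟩
    · rw [← h2]
      congr 1
      exact Fin.ext hij.symm
    · rw [← h3]
      congr 1
      exact Fin.ext (by simp; omega)
  refine (Finset.card_le_card h1).trans (Finset.card_biUnion_le.trans ?_)
  have h2 : ∀ k ∈ (univ : Finset (Fin (N - 2))), ((allT N W).filter fun τ =>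
        τ ⟨k.1, by omega⟩ = a ∧ τ ⟨k.1 + 1, by omega⟩ = b ∧ τ ⟨k.1 + 2, by omega⟩ = c).card ≤
      (N - 3)! := by
    intro k _
    have hk := k.2
    have p0 : k.1 < N := by omega
    have p1 : k.1 + 1 < N := by omega
    have p2 : k.1 + 2 < N := by omega
    have := card_presc W hW {⟨k.1, p0⟩, ⟨k.1 + 1, p1⟩, ⟨k.1 + 2, p2⟩}
      (fun i => if (i : ℕ) = k.1 then a else if (i : ℕ) = k.1 + 1 then b else c)
      ((allT N W).filter fun τ =>
        τ ⟨k.1, by omega⟩ = a ∧ τ ⟨k.1 + 1, by omega⟩ = b ∧ τ ⟨k.1 + 2, by omega⟩ = c) (by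
      intro τ hτ
      obtain ⟨h1, ha, hb, hc⟩ := Finset.mem_filter.1 hτ
      refine ⟨(mem_allT.1 h1).1, (mem_allT.1 h1).2, ?_⟩
      intro i hi
      simp only [Finset.mem_insert, Finset.mem_singleton] at hi
      rcases hi with rfl | rfl | rfl
      · simpa using ha
      · simpa using hb
      · simpa using hc)
    have hc : ({⟨k.1, by omega⟩, ⟨k.1 + 1, by omega⟩, ⟨k.1 + 2, by omega⟩} :
        Finset (Fin N)).card = 3 := by
      rw [Finset.card_insert_of_notMem, Finset.card_insert_of_notMem, Finset.card_singleton]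
      · simp [Fin.ext_iff]
      · simp [Fin.ext_iff]
    rwa [hc] at this
  refine (Finset.sum_le_sum h2).trans ?_
  rw [Finset.sum_const, Finset.card_univ, Fintype.card_fin, smul_eq_mul]
  rcases Nat.lt_or_ge N 3 with h | h
  · have : N = 2 := by omega
    subst this
    simp
  · obtain ⟨k, rfl⟩ := Nat.exists_eq_add_of_le h
    rw [show 3 + k - 2 = k + 1 by omega, show 3 + k - 3 = k by omega, Nat.factorial_succ]

open Classical in
/-- two disjoint consecutive pairs. -/
theorem card_four {β : Type*} [DecidableEq β] {N : ℕ} (hN : 2 ≤ N) (W : Finset β)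
    (hW : W.card = N) (a b c d : β) (hac : a ≠ c) (had : a ≠ d) (hbc : b ≠ c) (hbd : b ≠ d) :
    ((allT N W).filter fun τ => (∃ i j : Fin N, (j : ℕ) = i + 1 ∧ τ i = a ∧ τ j = b) ∧
      ∃ i j : Fin N, (j : ℕ) = i + 1 ∧ τ i = c ∧ τ j = d).card ≤ (N - 2)! := by
  set far := (univ : Finset (Fin N × Fin N)).filter fun p =>
      (p.1 : ℕ) + 1 < N ∧ (p.2 : ℕ) + 1 < N ∧
        ((p.1 : ℕ) + 1 < p.2 ∨ (p.2 : ℕ) + 1 < p.1) with hfar
  have h1 : ((allT N W).filter fun τ => (∃ i j : Fin N, (j : ℕ) = i + 1 ∧ τ i = a ∧ τ j = b) ∧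
      ∃ i j : Fin N, (j : ℕ) = i + 1 ∧ τ i = c ∧ τ j = d) ⊆
      far.attach.biUnion (fun p => (allT N W).filter fun τ =>
        τ p.1.1 = a ∧ τ ⟨p.1.1 + 1, (Finset.mem_filter.1 p.2).2.1⟩ = b ∧
        τ p.1.2 = c ∧ τ ⟨p.1.2 + 1, (Finset.mem_filter.1 p.2).2.2.1⟩ = d) := by
    intro τ
    simp only [Finset.mem_filter, Finset.mem_biUnion, Finset.mem_attach, true_and]
    rintro ⟨h, ⟨i, j, hij, h1, h2⟩, ⟨i', j', hij', h1', h2'⟩⟩
    have hinj := (mem_allT.1 h).1
    have n1 : i ≠ i' := fun e => hac (by rw [← h1, ← h1', e])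
    have n2 : i ≠ j' := fun e => had (by rw [← h1, ← h2', e])
    have n3 : j ≠ i' := fun e => hbc (by rw [← h2, ← h1', e])
    have n4 : j ≠ j' := fun e => hbd (by rw [← h2, ← h2', e])
    have m1 : (i : ℕ) ≠ i' := fun e => n1 (Fin.ext e)
    have m2 : (i : ℕ) ≠ j' := fun e => n2 (Fin.ext e)
    have m3 : (j : ℕ) ≠ i' := fun e => n3 (Fin.ext e)
    have hj := j.2
    have hj' := j'.2
    refine ⟨⟨(i, i'), ?_⟩, h, h1, ?_, h1', ?_⟩
    · rw [hfar, Finset.mem_filter]
      refine ⟨Finset.mem_univ _, ?_, ?_, ?_⟩ <;> simp only <;> omega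
    · rw [← h2]
      congr 1
      exact Fin.ext hij.symm
    · rw [← h2']
      congr 1
      exact Fin.ext hij'.symm
  refine (Finset.card_le_card h1).trans (Finset.card_biUnion_le.trans ?_)
  have h2 : ∀ p ∈ far.attach, ((allT N W).filter fun τ =>
        τ p.1.1 = a ∧ τ ⟨p.1.1 + 1, (Finset.mem_filter.1 p.2).2.1⟩ = b ∧
        τ p.1.2 = c ∧ τ ⟨p.1.2 + 1, (Finset.mem_filter.1 p.2).2.2.1⟩ = d).card ≤
      (N - 4)! := by
    rintro ⟨⟨i, i'⟩, hp⟩ -
    obtain ⟨-, hp1, hp2, hp3⟩ := Finset.mem_filter.1 hp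
    simp only at hp1 hp2 hp3 ⊢
    have := card_presc W hW {i, ⟨i.1 + 1, hp1⟩, i', ⟨i'.1 + 1, hp2⟩}
      (fun l => if (l : ℕ) = i.1 then a else if (l : ℕ) = i.1 + 1 then b else
        if (l : ℕ) = i'.1 then c else d)
      ((allT N W).filter fun τ =>
        τ i = a ∧ τ ⟨i.1 + 1, hp1⟩ = b ∧ τ i' = c ∧ τ ⟨i'.1 + 1, hp2⟩ = d) (by
      intro τ hτ
      obtain ⟨h1, ha, hb, hc, hd⟩ := Finset.mem_filter.1 hτ
      refine ⟨(mem_allT.1 h1).1, (mem_allT.1 h1).2, ?_⟩
      intro l hl
      simp only [Finset.mem_insert, Finset.mem_singleton] at hl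
      rcases hl with rfl | rfl | rfl | rfl
      · simpa using ha
      · simpa using hb
      · have e1 : ¬ ((l : ℕ) = i) := by omega
        have e2 : ¬ ((l : ℕ) = i + 1) := by omega
        simpa [e1, e2] using hc
      · have e1 : ¬ ((i' : ℕ) + 1 = i) := by omega
        have e2 : ¬ ((i' : ℕ) + 1 = i + 1) := by omega
        have e3 : ¬ ((i' : ℕ) = i) := by omega
        simp only
        rw [if_neg e1, if_neg e2, if_neg (by omega)]
        exact hd)
    have hc : ({i, ⟨i.1 + 1, hp1⟩, i', ⟨i'.1 + 1, hp2⟩} : Finset (Fin N)).card = 4 := by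
      rw [Finset.card_insert_of_notMem, Finset.card_insert_of_notMem,
        Finset.card_insert_of_notMem, Finset.card_singleton]
      · simp [Fin.ext_iff]
      · simp only [Finset.mem_insert, Finset.mem_singleton, Fin.ext_iff]
        omega
      · simp only [Finset.mem_insert, Finset.mem_singleton, Fin.ext_iff]
        omega
    rwa [hc] at this
  refine (Finset.sum_le_sum h2).trans ?_
  rw [Finset.sum_const, Finset.card_attach, smul_eq_mul]
  have hf := card_far N
  rw [← hfar] at hf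
  refine (Nat.mul_le_mul_right _ hf).trans ?_
  rcases Nat.lt_or_ge N 4 with h | h
  · interval_cases N <;> simp
  · obtain ⟨k, rfl⟩ := Nat.exists_eq_add_of_le h
    rw [show 4 + k - 2 = k + 1 + 1 by omega, show 4 + k - 3 = k + 1 by omega,
      show 4 + k - 4 = k by omega, Nat.factorial_succ, Nat.factorial_succ]
    exact le_of_eq (by ring)

/-- L2 (linear orders in which `u` is never immediately followed by `m u`). -/
theorem bon2 {β : Type*} [DecidableEq β] {N : ℕ} (hN : 2 ≤ N) (W : Finset β) (hW : W.card = N)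
    (m : β → β) (hm : ∀ u ∈ W, m u ∈ W ∧ m u ≠ u) (Q : Finset (Fin N → β))
    (hQ : ∀ τ ∈ Q, Function.Injective τ ∧ (∀ i, τ i ∈ W) ∧
      ∀ i j : Fin N, (j : ℕ) = i + 1 → τ j ≠ m (τ i)) :
    2 * Q.card ≤ N ! := by
  classical
  have hb := bonf (allT N W) Q (fun τ hτ => mem_allT.2 ⟨(hQ τ hτ).1, (hQ τ hτ).2.1⟩) W
    (fun τ u => Imm m τ u) (by
      rintro τ hτ u _ ⟨i, j, hij, h1, h2⟩
      exact (hQ τ hτ).2.2 i j hij (by rw [h2, h1]))
  have h1 : ∑ u ∈ W, ((allT N W).filter fun τ => Imm m τ u).card = N ! := by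
    rw [Finset.sum_congr rfl (fun u hu => card_imm hN W hW m u hu (hm u hu).1 (hm u hu).2),
      Finset.sum_const, hW, smul_eq_mul, Nat.mul_factorial_pred (by omega)]
  have h2 : ∑ p ∈ W.offDiag, ((allT N W).filter fun τ => Imm m τ p.1 ∧ Imm m τ p.2).card ≤
      N ! := by
    have : ∀ p ∈ W.offDiag, ((allT N W).filter fun τ => Imm m τ p.1 ∧ Imm m τ p.2).card ≤
        (N - 2)! := by
      rintro ⟨u, v⟩ hp
      obtain ⟨hu, hv, huv⟩ := Finset.mem_offDiag.1 hp
      simp only at hu hv huv ⊢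
      by_cases c1 : m u = m v
      · rw [Finset.card_eq_zero.2]
        · exact Nat.zero_le _
        · rw [Finset.filter_eq_empty_iff]
          rintro τ hτ ⟨⟨i, j, hij, a1, a2⟩, ⟨i', j', hij', b1, b2⟩⟩
          have hinj := (mem_allT.1 hτ).1
          have e1 : j = j' := hinj (by rw [a2, b2, c1])
          have e2 : i = i' := Fin.ext (by rw [Fin.ext_iff] at e1; omega)
          exact huv (by rw [← a1, ← b1, e2])
      · by_cases c2 : m u = v
        · by_cases c3 : m v = u
          · rw [Finset.card_eq_zero.2]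
            · exact Nat.zero_le _
            · rw [Finset.filter_eq_empty_iff]
              rintro τ hτ ⟨⟨i, j, hij, a1, a2⟩, ⟨i', j', hij', b1, b2⟩⟩
              have hinj := (mem_allT.1 hτ).1
              have e1 : j = i' := hinj (by rw [a2, b1, c2])
              have e2 : j' = i := hinj (by rw [b2, a1, c3])
              rw [Fin.ext_iff] at e1 e2
              omega
          · refine (Finset.card_le_card ?_).trans (card_three hN W hW u v (m v))
            intro τ hτ
            obtain ⟨hτ1, ⟨i, j, hij, a1, a2⟩, ⟨i', j', hij', b1, b2⟩⟩ := Finset.mem_filter.1 hτ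
            have hinj := (mem_allT.1 hτ1).1
            have e1 : j = i' := hinj (by rw [a2, b1, c2])
            refine Finset.mem_filter.2 ⟨hτ1, i, j, j', hij, ?_, a1, ?_, b2⟩
            · rw [e1]; exact hij'
            · rw [a2, c2]
        · by_cases c3 : m v = u
          · refine (Finset.card_le_card ?_).trans (card_three hN W hW v u (m u))
            intro τ hτ
            obtain ⟨hτ1, ⟨i, j, hij, a1, a2⟩, ⟨i', j', hij', b1, b2⟩⟩ := Finset.mem_filter.1 hτ
            have hinj := (mem_allT.1 hτ1).1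
            have e1 : j' = i := hinj (by rw [b2, a1, c3])
            refine Finset.mem_filter.2 ⟨hτ1, i', j', j, hij', ?_, b1, ?_, a2⟩
            · rw [e1]; exact hij
            · rw [b2, c3]
          · refine (Finset.card_le_card ?_).trans (card_four hN W hW u (m u) v (m v) huv
              (fun h => c3 h.symm) c2 c1)
            intro τ hτ
            obtain ⟨hτ1, h1, h2⟩ := Finset.mem_filter.1 hτ
            exact Finset.mem_filter.2 ⟨hτ1, h1, h2⟩
    refine (Finset.sum_le_sum this).trans (le_of_eq ?_)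
    rw [Finset.sum_const, Finset.offDiag_card, hW, smul_eq_mul]
    obtain ⟨k, rfl⟩ := Nat.exists_eq_add_of_le hN
    rw [show 2 + k - 2 = k by omega, show 2 + k = (k + 1) + 1 by omega, Nat.factorial_succ,
      Nat.factorial_succ]
    have : (k + 1 + 1) * (k + 1 + 1) - (k + 1 + 1) = (k + 1 + 1) * (k + 1) := by
      rw [← Nat.mul_sub_one]; rfl
    rw [this]; ring
  rw [h1, card_allT W hW] at hb
  omega

/-- An injective map between sets of the same size is surjective. -/
theorem surj_of_inj {γ : Type*} [DecidableEq γ] {N : ℕ} (S : Finset γ) (hS : S.card = N)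
    (σ : Fin N → γ) (h1 : Function.Injective σ) (h2 : ∀ i, σ i ∈ S) (c : γ) (hc : c ∈ S) :
    ∃ i, σ i = c := by
  have : univ.image σ = S := by
    apply Finset.eq_of_subset_of_card_le
    · intro b hb
      obtain ⟨i, _, rfl⟩ := Finset.mem_image.1 hb
      exact h2 i
    · rw [Finset.card_image_of_injective _ h1, hS]; simp
  rw [← this] at hc
  obtain ⟨i, _, hi⟩ := Finset.mem_image.1 hc
  exact ⟨i, hi⟩

/-- L12: both conditions together. -/
theorem bon12 {α β : Type*} [DecidableEq α] [DecidableEq β] {N : ℕ} (hN : 2 ≤ N)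
    (C : Finset α) (hC : C.card = N) (U : Finset β) (hU : U.card = N)
    (m : β → α) (hm : ∀ u ∈ U, m u ∈ C) (Q : Finset ((Fin N → α) × (Fin N → β)))
    (hQ : ∀ x ∈ Q, Function.Injective x.1 ∧ (∀ i, x.1 i ∈ C) ∧ Function.Injective x.2 ∧
      (∀ i, x.2 i ∈ U) ∧ (∀ i, x.1 i ≠ m (x.2 i)) ∧
      ∀ i j : Fin N, (j : ℕ) = i + 1 → x.1 j ≠ m (x.2 i)) :
    4 * Q.card ≤ N ! * N ! := by
  classical
  have : Nonempty (Fin N) := ⟨⟨0, by omega⟩⟩
  let e : Fin N ≃ {c // c ∈ C} := (C.equivFinOfCardEq hC).symm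
  let forb : β → Fin N := fun u => if h : m u ∈ C then e.symm ⟨m u, h⟩ else ⟨0, by omega⟩
  have he : ∀ u ∈ U, (e (forb u)).1 = m u := by
    intro u hu
    simp only [forb, dif_pos (hm u hu), Equiv.apply_symm_apply]
  let ψ : ((Fin N → α) × (Fin N → β)) → (Fin N → β) := fun x k =>
    x.2 (Function.invFun x.1 (e k).1)
  -- key property: `ψ k = x.2 i ↔ x.1 i = e k`
  have hψ : ∀ x ∈ Q, ∀ k i, ψ x k = x.2 i ↔ x.1 i = (e k).1 := by
    intro x hx k i
    obtain ⟨h1, h2, h3, h4, h5, h6⟩ := hQ x hx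
    obtain ⟨j, hj⟩ := surj_of_inj C hC x.1 h1 h2 (e k).1 (e k).2
    have hinv : Function.invFun x.1 (e k).1 = j := by
      rw [← hj]
      exact Function.leftInverse_invFun h1 j
    simp only [ψ, hinv]
    rw [← hj]
    exact ⟨fun h => by rw [h3 h], fun h => by rw [h1 h]⟩
  have hψi : ∀ x ∈ Q, Function.Injective (ψ x) ∧ ∀ k, ψ x k ∈ U := by
    intro x hx
    obtain ⟨h1, h2, h3, h4, h5, h6⟩ := hQ x hx
    refine ⟨fun k k' h => ?_, fun k => h4 _⟩
    have a := (hψ x hx k (Function.invFun x.1 (e k).1)).1 rfl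
    have b := (hψ x hx k' (Function.invFun x.1 (e k).1)).1 (by rw [← h])
    exact e.injective (Subtype.ext (a.symm.trans b))
  have himg : 2 * (Q.image ψ).card ≤ N ! := by
    refine bon1 hN U hU forb _ ?_
    intro τ hτ
    obtain ⟨x, hx, rfl⟩ := Finset.mem_image.1 hτ
    obtain ⟨h1, h2, h3, h4, h5, h6⟩ := hQ x hx
    refine ⟨(hψi x hx).1, (hψi x hx).2, fun k hk => ?_⟩
    obtain ⟨i, hi⟩ := surj_of_inj U hU x.2 h3 h4 (ψ x k) ((hψi x hx).2 k)
    have h7 := (hψ x hx k i).1 hi.symm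
    have h8 := he _ ((hψi x hx).2 k)
    rw [hk] at h8
    exact h5 i (by rw [h7, h8, hi])
  have hfib : ∀ c ∈ Q.image ψ, (Q.filter fun x => ψ x = c).card ≤ N ! / 2 := by
    intro c hc
    have hcinj : ∃ x ∈ Q, ψ x = c := by simpa using hc
    have h1 : (Q.filter fun x => ψ x = c).card = ((Q.filter fun x => ψ x = c).image Prod.snd).card
        := by
      rw [Finset.card_image_of_injOn]
      intro x hx y hy hxy
      obtain ⟨hx1, hx2⟩ := Finset.mem_filter.1 (Finset.mem_coe.1 hx)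
      obtain ⟨hy1, hy2⟩ := Finset.mem_filter.1 (Finset.mem_coe.1 hy)
      refine Prod.ext ?_ hxy
      funext i
      obtain ⟨a1, a2, a3, a4, a5, a6⟩ := hQ x hx1
      have hk : ∃ k, (e k).1 = x.1 i := ⟨e.symm ⟨x.1 i, a2 i⟩, by simp⟩
      obtain ⟨k, hk⟩ := hk
      have h7 := (hψ x hx1 k i).2 hk.symm
      have h8 : ψ y k = y.2 i := by
        rw [hy2, ← hx2, h7, hxy]
      rw [(hψ y hy1 k i).1 h8, hk]
    have h2 : 2 * ((Q.filter fun x => ψ x = c).image Prod.snd).card ≤ N ! := by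
      refine bon2 hN U hU (fun u => c (forb u)) ?_ _ ?_
      · intro u hu
        obtain ⟨x, hx, rfl⟩ := hcinj
        obtain ⟨a1, a2, a3, a4, a5, a6⟩ := hQ x hx
        refine ⟨(hψi x hx).2 _, fun h => ?_⟩
        obtain ⟨i, hi⟩ := surj_of_inj U hU x.2 a3 a4 u hu
        have h7 := (hψ x hx (forb u) i).1 (by rw [hi]; exact h)
        rw [he u hu] at h7
        exact a5 i (by rw [h7, hi])
      · intro τ hτ
        obtain ⟨x, hx, rfl⟩ := Finset.mem_image.1 hτ
        obtain ⟨hx1, rfl⟩ := Finset.mem_filter.1 hx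
        obtain ⟨a1, a2, a3, a4, a5, a6⟩ := hQ x hx1
        refine ⟨a3, a4, fun i j hij h => ?_⟩
        have h7 := (hψ x hx1 (forb (x.2 i)) j).1 h.symm
        rw [he _ (a4 i)] at h7
        exact a6 i j hij h7
    rw [h1, Nat.le_div_iff_mul_le (by norm_num)]
    omega
  have hQc := Finset.card_le_mul_card_image Q _ hfib
  have h3 : (Q.image ψ).card ≤ N ! / 2 := by
    rw [Nat.le_div_iff_mul_le (by norm_num)]
    omega
  have h4 : 2 * (N ! / 2) ≤ N ! := Nat.mul_div_le _ _
  calc 4 * Q.card ≤ 4 * (N ! / 2 * (N ! / 2)) :=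
        Nat.mul_le_mul_left _ (hQc.trans (Nat.mul_le_mul_left _ h3))
    _ = (2 * (N ! / 2)) * (2 * (N ! / 2)) := by ring
    _ ≤ _ := Nat.mul_le_mul h4 h4

end P490135

end

section

/-!
# MP_490135_co: paths as lists, copies and pairs (helper56)
-/

namespace P490135

open SimpleGraph Finset Nat

/-- T9a -/
theorem short_of_free {V : Type*} (G : SimpleGraph V) (ℓ : ℕ)
    (h : (pathGraph (2 * ℓ + 1)).Free G) : Short G ℓ := by
  intro l hnd hch
  by_contra hlen
  push Not at hlen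
  apply h
  have hch' := List.isChain_iff_getElem.mp hch
  refine ⟨⟨⟨fun i => l[(i : ℕ)]'(by have := i.2; omega), ?_⟩, ?_⟩⟩
  · intro a b hab
    rw [pathGraph_adj] at hab
    have ha := a.2
    have hb := b.2
    rcases hab with hab | hab
    · have := hch' (a : ℕ) (by omega)
      simpa [hab] using this
    · have := hch' (b : ℕ) (by omega)
      simpa [hab] using this.symm
  · intro a b hab
    have := (List.Nodup.getElem_inj_iff hnd).mp hab
    exact Fin.ext this

/-- T9b -/
theorem free_of_short {V : Type*} (G : SimpleGraph V) (ℓ : ℕ)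
    (h : Short G ℓ) : (pathGraph (2 * ℓ + 1)).Free G := by
  rintro ⟨f⟩
  have h1 := h (List.ofFn (fun i => f i)) ?_ ?_
  · simp at h1
  · rw [List.nodup_ofFn]
    exact f.injective
  · rw [List.isChain_iff_getElem]
    intro i hi
    simp only [List.length_ofFn] at hi
    simp only [List.getElem_ofFn]
    apply f.toHom.map_rel
    rw [pathGraph_adj]
    left
    rfl

/-- an injective self-map of `Fin N` mapping neighbours in the path to neighbours is the identity
or the reversal. -/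
theorem cp_aut {N : ℕ} (σ : Fin N → Fin N) (hinj : Function.Injective σ)
    (h : ∀ i j : Fin N, (j : ℕ) = i + 1 → ((σ j : ℕ) = σ i + 1 ∨ (σ i : ℕ) = σ j + 1)) :
    (∀ i, σ i = i) ∨ (∀ i, σ i = Fin.rev i) := by
  rcases Nat.lt_or_ge N 2 with hN | hN
  · left
    intro i
    apply Fin.ext
    have := i.2
    have := (σ i).2
    omega
  · have h0 : 0 < N := by omega
    have h1 : 1 < N := by omega
    rcases h ⟨0, h0⟩ ⟨1, h1⟩ rfl with hup | hdn
    · left
      have key : ∀ k : ℕ, ∀ hk : k + 1 < N,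
          (σ ⟨k, by omega⟩ : ℕ) = σ ⟨0, h0⟩ + k ∧ (σ ⟨k + 1, hk⟩ : ℕ) = σ ⟨0, h0⟩ + k + 1 := by
        intro k
        induction k with
        | zero => intro hk; exact ⟨rfl, hup⟩
        | succ k ih =>
          intro hk
          obtain ⟨i1, i2⟩ := ih (by omega)
          refine ⟨by rw [i2]; ring, ?_⟩
          rcases h ⟨k + 1, by omega⟩ ⟨k + 1 + 1, hk⟩ rfl with h3 | h3
          · rw [h3, i2]; ring
          · exfalso
            have : σ ⟨k, by omega⟩ = σ ⟨k + 1 + 1, hk⟩ := by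
              apply Fin.ext
              omega
            have := hinj this
            simp only [Fin.mk.injEq] at this
            omega
      have hlast := (key (N - 2) (by omega)).2
      have hb := (σ ⟨N - 2 + 1, by omega⟩).2
      have hz : (σ ⟨0, h0⟩ : ℕ) = 0 := by omega
      intro i
      apply Fin.ext
      rcases Nat.lt_or_ge ((i : ℕ) + 1) N with hi | hi
      · have := (key i hi).1
        rw [hz] at this
        simpa using this
      · have hi2 := i.2
        have := (key (N - 2) (by omega)).2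
        rw [hz] at this
        have hie : i = ⟨N - 2 + 1, by omega⟩ := by
          apply Fin.ext
          simp only
          omega
        rw [hie, this]
        simp only
        omega
    · right
      have key : ∀ k : ℕ, ∀ hk : k + 1 < N,
          (σ ⟨k, by omega⟩ : ℕ) + k = σ ⟨0, h0⟩ ∧ (σ ⟨k + 1, hk⟩ : ℕ) + k + 1 = σ ⟨0, h0⟩ := by
        intro k
        induction k with
        | zero => intro hk; exact ⟨rfl, by rw [hdn]⟩
        | succ k ih =>
          intro hk
          obtain ⟨i1, i2⟩ := ih (by omega)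
          refine ⟨by rw [← i2]; ring, ?_⟩
          rcases h ⟨k + 1, by omega⟩ ⟨k + 1 + 1, hk⟩ rfl with h3 | h3
          · exfalso
            have : σ ⟨k, by omega⟩ = σ ⟨k + 1 + 1, hk⟩ := by
              apply Fin.ext
              omega
            have := hinj this
            simp only [Fin.mk.injEq] at this
            omega
          · omega
      have hlast := (key (N - 2) (by omega)).2
      have hb := (σ ⟨0, h0⟩).2
      have hz : (σ ⟨0, h0⟩ : ℕ) = N - 1 := by omega
      intro i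
      apply Fin.ext
      rw [Fin.val_rev]
      rcases Nat.lt_or_ge ((i : ℕ) + 1) N with hi | hi
      · have := (key i hi).1
        rw [hz] at this
        have h5 : (⟨(i : ℕ), by omega⟩ : Fin N) = i := rfl
        rw [h5] at this
        omega
      · have hi2 := i.2
        have := (key (N - 2) (by omega)).2
        rw [hz] at this
        have hie : i = ⟨N - 2 + 1, by omega⟩ := by
          apply Fin.ext
          simp only
          omega
        rw [hie]
        simp only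
        omega

/-- reversal of a copy of a path. -/
def cpRev {V : Type*} {G : SimpleGraph V} {N : ℕ} (f : Copy (pathGraph N) G) :
    Copy (pathGraph N) G :=
  ⟨⟨fun i => f (Fin.rev i), by
      intro a b hab
      apply f.toHom.map_rel
      rw [pathGraph_adj] at hab ⊢
      rw [Fin.val_rev, Fin.val_rev]
      have := a.2
      have := b.2
      omega⟩, by
      intro a b hab
      have := f.injective hab
      exact Fin.rev_injective this⟩

@[simp] theorem cpRev_apply {V : Type*} {G : SimpleGraph V} {N : ℕ} (f : Copy (pathGraph N) G)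
    (i : Fin N) : cpRev f i = f (Fin.rev i) := rfl

theorem cp_toSubgraph_adj {V : Type*} {G : SimpleGraph V} {N : ℕ} (f : Copy (pathGraph N) G)
    (x y : V) : f.toSubgraph.Adj x y ↔ ∃ i j, (pathGraph N).Adj i j ∧ f i = x ∧ f j = y := by
  simp only [Copy.toSubgraph, Subgraph.map_adj, Relation.Map, Subgraph.top_adj, Copy.toHom_apply]

theorem cp_toSubgraph_verts {V : Type*} {G : SimpleGraph V} {N : ℕ} (f : Copy (pathGraph N) G) :
    f.toSubgraph.verts = Set.range f := by
  simp [Copy.toSubgraph]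

theorem cp_rev_toSubgraph {V : Type*} {G : SimpleGraph V} {N : ℕ} (f : Copy (pathGraph N) G) :
    (cpRev f).toSubgraph = f.toSubgraph := by
  ext x y
  · rw [cp_toSubgraph_verts, cp_toSubgraph_verts]
    constructor
    · rintro ⟨i, rfl⟩
      exact ⟨Fin.rev i, rfl⟩
    · rintro ⟨i, rfl⟩
      exact ⟨Fin.rev i, by simp⟩
  · rw [cp_toSubgraph_adj, cp_toSubgraph_adj]
    constructor
    · rintro ⟨i, j, h, rfl, rfl⟩
      refine ⟨Fin.rev i, Fin.rev j, ?_, rfl, rfl⟩
      rw [pathGraph_adj] at h ⊢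
      rw [Fin.val_rev, Fin.val_rev]
      have := i.2
      have := j.2
      omega
    · rintro ⟨i, j, h, rfl, rfl⟩
      refine ⟨Fin.rev i, Fin.rev j, ?_, by simp, by simp⟩
      rw [pathGraph_adj] at h ⊢
      rw [Fin.val_rev, Fin.val_rev]
      have := i.2
      have := j.2
      omega

theorem cp_eq_or_rev {V : Type*} {G : SimpleGraph V} {N : ℕ} (f g : Copy (pathGraph N) G)
    (h : g.toSubgraph = f.toSubgraph) : g = f ∨ g = cpRev f := by
  have hv : Set.range g = Set.range f := by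
    rw [← cp_toSubgraph_verts, ← cp_toSubgraph_verts, h]
  have hex : ∀ i, ∃ j, f j = g i := by
    intro i
    have : g i ∈ Set.range f := by rw [← hv]; exact ⟨i, rfl⟩
    exact this
  choose σ hσ using hex
  have hinj : Function.Injective σ := by
    intro a b hab
    apply g.injective
    change g a = g b
    rw [← hσ a, ← hσ b, hab]
  have hadj : ∀ i j : Fin N, (j : ℕ) = i + 1 →
      ((σ j : ℕ) = σ i + 1 ∨ (σ i : ℕ) = σ j + 1) := by
    intro i j hij
    have h1 : g.toSubgraph.Adj (g i) (g j) := by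
      rw [cp_toSubgraph_adj]
      exact ⟨i, j, pathGraph_adj.mpr (Or.inl hij.symm), rfl, rfl⟩
    rw [h, cp_toSubgraph_adj] at h1
    obtain ⟨a, b, hab, ha, hb⟩ := h1
    rw [← hσ i] at ha
    rw [← hσ j] at hb
    have ha' : a = σ i := f.injective ha
    have hb' : b = σ j := f.injective hb
    subst ha' hb'
    rw [pathGraph_adj] at hab
    omega
  rcases cp_aut σ hinj hadj with h1 | h1
  · left
    ext i
    rw [← hσ i, h1 i]
  · right
    ext i
    rw [← hσ i, h1 i]
    rfl

theorem cp_ne_rev {V : Type*} {G : SimpleGraph V} {N : ℕ} (hN : 2 ≤ N)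
    (f : Copy (pathGraph N) G) : f ≠ cpRev f := by
  intro h
  have h1 : f ⟨0, by omega⟩ = cpRev f ⟨0, by omega⟩ := by rw [← h]
  rw [cpRev_apply] at h1
  have h2 := f.injective h1
  have h3 := congrArg Fin.val h2
  rw [Fin.val_rev] at h3
  simp only at h3
  omega

/-- cut a path into consecutive pairs. -/
def cpToQ {V : Type*} {G : SimpleGraph V} {ℓ : ℕ} (f : Copy (pathGraph (2 * ℓ)) G) :
    Fin ℓ → V × V :=
  fun i => (f ⟨2 * i, by have := i.2; omega⟩, f ⟨2 * i + 1, by have := i.2; omega⟩)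

theorem cpToQ_isMP {V : Type*} {G : SimpleGraph V} {ℓ : ℕ} (f : Copy (pathGraph (2 * ℓ)) G) :
    IsMP G ℓ (cpToQ f) where
  adj i := by
    apply f.toHom.map_rel
    rw [pathGraph_adj]
    left
    rfl
  adj' i j hij := by
    apply f.toHom.map_rel
    rw [pathGraph_adj]
    left
    simp only
    omega
  inj1 i j hij := by
    have := f.injective hij
    simp only [Fin.mk.injEq] at this
    apply Fin.ext
    omega
  inj2 i j hij := by
    have := f.injective hij
    simp only [Fin.mk.injEq] at this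
    apply Fin.ext
    omega
  ne12 i j hij := by
    have := f.injective hij
    simp only [Fin.mk.injEq] at this
    omega

/-- the copy of a path given by consecutive pairs. -/
def cpOfQ {V : Type*} {G : SimpleGraph V} {ℓ : ℕ} (q : Fin ℓ → V × V) (h : IsMP G ℓ q) :
    Copy (pathGraph (2 * ℓ)) G :=
  ⟨⟨fun k => if (k : ℕ) % 2 = 0 then (q ⟨k / 2, by have := k.2; omega⟩).1
      else (q ⟨k / 2, by have := k.2; omega⟩).2, by
      have key : ∀ a b : Fin (2 * ℓ), (b : ℕ) = a + 1 →
          G.Adj (if (a : ℕ) % 2 = 0 then (q ⟨a / 2, by have := a.2; omega⟩).1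
            else (q ⟨a / 2, by have := a.2; omega⟩).2)
          (if (b : ℕ) % 2 = 0 then (q ⟨b / 2, by have := b.2; omega⟩).1
            else (q ⟨b / 2, by have := b.2; omega⟩).2) := by
        intro a b hab
        by_cases ha : (a : ℕ) % 2 = 0
        · have hb : ¬ (b : ℕ) % 2 = 0 := by omega
          rw [if_pos ha, if_neg hb]
          have : (⟨(b : ℕ) / 2, by have := b.2; omega⟩ : Fin ℓ) =
              ⟨(a : ℕ) / 2, by have := a.2; omega⟩ := by
            apply Fin.ext
            simp only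
            omega
          rw [this]
          exact h.adj _
        · have hb : (b : ℕ) % 2 = 0 := by omega
          rw [if_neg ha, if_pos hb]
          apply h.adj'
          simp only
          omega
      intro a b hab
      rw [pathGraph_adj] at hab
      rcases hab with hab | hab
      · exact key a b hab.symm
      · exact (key b a hab.symm).symm⟩, by
      intro a b hab
      change (if (a : ℕ) % 2 = 0 then (q ⟨a / 2, by have := a.2; omega⟩).1
            else (q ⟨a / 2, by have := a.2; omega⟩).2) =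
          (if (b : ℕ) % 2 = 0 then (q ⟨b / 2, by have := b.2; omega⟩).1
            else (q ⟨b / 2, by have := b.2; omega⟩).2) at hab
      by_cases ha : (a : ℕ) % 2 = 0
      · by_cases hb : (b : ℕ) % 2 = 0
        · rw [if_pos ha, if_pos hb] at hab
          have := h.inj1 _ _ hab
          simp only [Fin.mk.injEq] at this
          apply Fin.ext
          omega
        · rw [if_pos ha, if_neg hb] at hab
          exact absurd hab (h.ne12 _ _)
      · by_cases hb : (b : ℕ) % 2 = 0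
        · rw [if_neg ha, if_pos hb] at hab
          exact absurd hab.symm (h.ne12 _ _)
        · rw [if_neg ha, if_neg hb] at hab
          have := h.inj2 _ _ hab
          simp only [Fin.mk.injEq] at this
          apply Fin.ext
          omega⟩

theorem cpOfQ_apply {V : Type*} {G : SimpleGraph V} {ℓ : ℕ} (q : Fin ℓ → V × V)
    (h : IsMP G ℓ q) (k : Fin (2 * ℓ)) :
    cpOfQ q h k = if (k : ℕ) % 2 = 0 then (q ⟨k / 2, by have := k.2; omega⟩).1
      else (q ⟨k / 2, by have := k.2; omega⟩).2 := rfl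

theorem cpToQ_ofQ {V : Type*} {G : SimpleGraph V} {ℓ : ℕ} (q : Fin ℓ → V × V) (h : IsMP G ℓ q) :
    cpToQ (cpOfQ q h) = q := by
  funext i
  have e1 : (⟨2 * (i : ℕ) / 2, by have := i.2; omega⟩ : Fin ℓ) = i := by
    apply Fin.ext; simp only; omega
  have e2 : (⟨(2 * (i : ℕ) + 1) / 2, by have := i.2; omega⟩ : Fin ℓ) = i := by
    apply Fin.ext; simp only; omega
  apply Prod.ext
  · change cpOfQ q h ⟨2 * i, by have := i.2; omega⟩ = _
    rw [cpOfQ_apply, if_pos (by simp only; omega)]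
    simp only
    rw [e1]
  · change cpOfQ q h ⟨2 * i + 1, by have := i.2; omega⟩ = _
    rw [cpOfQ_apply, if_neg (by simp only; omega)]
    simp only
    rw [e2]

theorem cpToQ_injective {V : Type*} {G : SimpleGraph V} {ℓ : ℕ} :
    Function.Injective (cpToQ (G := G) (ℓ := ℓ)) := by
  intro f g hfg
  ext k
  have hk := k.2
  have h1 := congrFun hfg ⟨(k : ℕ) / 2, by omega⟩
  by_cases hk2 : (k : ℕ) % 2 = 0
  · have h2 := congrArg Prod.fst h1
    simp only [cpToQ] at h2
    have e : (⟨2 * ((k : ℕ) / 2), by omega⟩ : Fin (2 * ℓ)) = k := by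
      apply Fin.ext; simp only; omega
    rw [e] at h2
    exact h2
  · have h2 := congrArg Prod.snd h1
    simp only [cpToQ] at h2
    have e : (⟨2 * ((k : ℕ) / 2) + 1, by omega⟩ : Fin (2 * ℓ)) = k := by
      apply Fin.ext; simp only; omega
    rw [e] at h2
    exact h2

open Classical in
/-- T9c -/
theorem two_mul_copyCount {V : Type*} [Fintype V] (G : SimpleGraph V) (ℓ : ℕ) (hℓ : 1 ≤ ℓ) :
    2 * G.copyCount (pathGraph (2 * ℓ)) = (univ.filter (fun q : Fin ℓ → V × V => IsMP G ℓ q)).card := by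
  have h1 : (univ.filter (fun q : Fin ℓ → V × V => IsMP G ℓ q)).card =
      (univ : Finset (Copy (pathGraph (2 * ℓ)) G)).card := by
    symm
    apply Finset.card_bij (fun f _ => cpToQ f)
    · intro f _
      rw [mem_filter]
      exact ⟨mem_univ _, cpToQ_isMP f⟩
    · intro f _ g _ h
      exact cpToQ_injective h
    · intro q hq
      rw [mem_filter] at hq
      exact ⟨cpOfQ q hq.2, mem_univ _, cpToQ_ofQ q hq.2⟩
  rw [h1, copyCount_eq_card_image_copyToSubgraph]
  rw [Finset.card_eq_sum_card_image Copy.toSubgraph (univ : Finset (Copy (pathGraph (2 * ℓ)) G))]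
  rw [Finset.sum_const_nat (m := 2), mul_comm]
  intro S hS
  rw [mem_image] at hS
  obtain ⟨f, _, rfl⟩ := hS
  have : (univ.filter (fun g : Copy (pathGraph (2 * ℓ)) G => g.toSubgraph = f.toSubgraph)) =
      {f, cpRev f} := by
    ext g
    rw [mem_filter, mem_insert, mem_singleton]
    constructor
    · rintro ⟨_, h⟩
      exact cp_eq_or_rev f g h
    · rintro (rfl | rfl)
      · exact ⟨mem_univ _, rfl⟩
      · exact ⟨mem_univ _, cp_rev_toSubgraph f⟩
  rw [this, Finset.card_pair (cp_ne_rev (by omega) f)]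

end P490135

end

section

/-!
# MP_490135_co: degeneracy of graphs without long paths
-/

set_option autoImplicit false

namespace P490135

open SimpleGraph Finset Nat

open Classical in
/-- In every nonempty set of vertices some vertex has at most `2ℓ - 1` neighbours in the set. -/
theorem degen_min {V : Type*} (G : SimpleGraph V) (ℓ : ℕ) (hℓ : 1 ≤ ℓ)
    (h : Short G ℓ) (X : Finset V) (hX : X.Nonempty) :
    ∃ v ∈ X, (X.filter (fun w => G.Adj v w)).card ≤ 2 * ℓ - 1 := by
  let P : ℕ → Prop := fun k => ∃ l : List V, l.Nodup ∧ l.IsChain G.Adj ∧ (∀ x ∈ l, x ∈ X) ∧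
    l.length = k
  obtain ⟨x, hx⟩ := hX
  have hP1 : P 1 := ⟨[x], by simp, by simp, by simpa using hx, by simp⟩
  have hle : 1 ≤ 2 * ℓ := by omega
  obtain ⟨l, hnd, hch, hsub, hlen⟩ := Nat.findGreatest_spec (P := P) hle hP1
  have h1 : 1 ≤ Nat.findGreatest P (2 * ℓ) := Nat.le_findGreatest hle hP1
  cases l with
  | nil => simp at hlen; omega
  | cons v t =>
    refine ⟨v, hsub v (by simp), ?_⟩
    have hsubset : X.filter (fun w => G.Adj v w) ⊆ t.toFinset := by
      intro w hw
      rw [Finset.mem_filter] at hw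
      rw [List.mem_toFinset]
      by_contra hwt
      have hwv : w ≠ v := (G.ne_of_adj hw.2).symm
      have hnd' : (w :: v :: t).Nodup := by
        rw [List.nodup_cons]
        refine ⟨?_, hnd⟩
        simp [hwv, hwt]
      have hch' : (w :: v :: t).IsChain G.Adj := by
        rw [List.isChain_cons_cons]
        exact ⟨hw.2.symm, hch⟩
      have hlen' := h _ hnd' hch'
      have hPk : P ((w :: v :: t).length) := by
        refine ⟨_, hnd', hch', ?_, rfl⟩
        intro y hy
        rcases List.mem_cons.mp hy with rfl | hy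
        · exact hw.1
        · exact hsub y hy
      have hnot := Nat.findGreatest_is_greatest (P := P) (n := 2 * ℓ) (k := (w :: v :: t).length)
        (by rw [← hlen]; simp) hlen'
      exact hnot hPk
    calc (X.filter (fun w => G.Adj v w)).card ≤ t.toFinset.card := Finset.card_le_card hsubset
      _ ≤ t.length := List.toFinset_card_le t
      _ ≤ 2 * ℓ - 1 := by
        have := h _ hnd hch
        simp at this
        omega

open Classical in
theorem degen_rank_aux {V : Type*} (G : SimpleGraph V) (ℓ : ℕ) (hℓ : 1 ≤ ℓ)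
    (h : Short G ℓ) (X : Finset V) :
    ∃ r : V → ℕ, Set.InjOn r X ∧
      ∀ v ∈ X, (X.filter (fun w => G.Adj v w ∧ r v < r w)).card ≤ 2 * ℓ - 1 := by
  induction X using Finset.strongInduction with
  | H X ih =>
    rcases X.eq_empty_or_nonempty with rfl | hX
    · exact ⟨fun _ => 0, by simp, by simp⟩
    · obtain ⟨v, hv, hcard⟩ := degen_min G ℓ hℓ h X hX
      obtain ⟨r, hinj, hr⟩ := ih (X.erase v) (Finset.erase_ssubset hv)
      refine ⟨fun w => if w = v then 0 else r w + 1, ?_, ?_⟩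
      · intro a ha b hb hab
        by_cases hav : a = v <;> by_cases hbv : b = v
        · rw [hav, hbv]
        · simp [hav, hbv] at hab
        · simp [hav, hbv] at hab
        · simp only [hav, hbv, if_false] at hab
          apply hinj
          · simp only [Finset.coe_erase, Set.mem_sdiff]
            exact ⟨ha, hav⟩
          · simp only [Finset.coe_erase, Set.mem_sdiff]
            exact ⟨hb, hbv⟩
          · omega
      · intro u hu
        by_cases huv : u = v
        · subst huv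
          refine le_trans (Finset.card_le_card ?_) hcard
          intro w hw
          rw [Finset.mem_filter] at hw ⊢
          exact ⟨hw.1, hw.2.1⟩
        · refine le_trans (Finset.card_le_card ?_) (hr u (Finset.mem_erase.mpr ⟨huv, hu⟩))
          intro w hw
          rw [Finset.mem_filter] at hw ⊢
          obtain ⟨hw1, hw2, hw3⟩ := hw
          by_cases hwv : w = v
          · simp [hwv] at hw3
          · simp only [huv, hwv, if_false] at hw3
            exact ⟨Finset.mem_erase.mpr ⟨hwv, hw1⟩, hw2, by omega⟩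

open Classical in
/-- T11a -/
theorem exists_rank {V : Type*} [Fintype V] (G : SimpleGraph V) (ℓ : ℕ) (hℓ : 1 ≤ ℓ)
    (h : Short G ℓ) :
    ∃ r : V → ℕ, Function.Injective r ∧
      ∀ v, (univ.filter (fun w => G.Adj v w ∧ r v < r w)).card ≤ 2 * ℓ - 1 := by
  obtain ⟨r, hinj, hr⟩ := degen_rank_aux G ℓ hℓ h univ
  refine ⟨r, ?_, fun v => hr v (Finset.mem_univ v)⟩
  intro a b hab
  exact hinj (by simp) (by simp) hab

open Classical in
theorem degen_sum_le {V : Type*} [Fintype V] (G : SimpleGraph V) (ℓ : ℕ) (r : V → ℕ)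
    (hr : ∀ v, (univ.filter (fun w => G.Adj v w ∧ r v < r w)).card ≤ 2 * ℓ - 1) (F : V → ℕ) :
    ∑ a : V, ∑ b : V, (if G.Adj a b ∧ r a < r b then F a else 0) ≤ (2 * ℓ - 1) * ∑ a : V, F a := by
  rw [Finset.mul_sum]
  apply Finset.sum_le_sum
  intro a _
  rw [← Finset.sum_filter, Finset.sum_const, smul_eq_mul]
  exact Nat.mul_le_mul_right _ (hr a)

open Classical in
/-- T11b: number of darts -/
theorem card_darts {V : Type*} [Fintype V] (G : SimpleGraph V) (ℓ : ℕ) (hℓ : 1 ≤ ℓ)
    (h : Short G ℓ) :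
    (univ.filter (fun e : V × V => G.Adj e.1 e.2)).card ≤ 2 * (2 * ℓ - 1) * Fintype.card V := by
  obtain ⟨r, hinj, hr⟩ := exists_rank G ℓ hℓ h
  have h1 := degen_sum_le G ℓ r hr (fun _ => 1)
  rw [Finset.card_filter, Fintype.sum_prod_type]
  have h2 : ∑ a : V, ∑ b : V, (if G.Adj a b then 1 else 0) ≤
      ∑ a : V, ∑ b : V, (if G.Adj a b ∧ r a < r b then 1 else 0) +
      ∑ a : V, ∑ b : V, (if G.Adj b a ∧ r b < r a then 1 else 0) := by
    rw [← Finset.sum_add_distrib]
    apply Finset.sum_le_sum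
    intro a _
    rw [← Finset.sum_add_distrib]
    apply Finset.sum_le_sum
    intro b _
    by_cases hab : G.Adj a b
    · have hne : r a ≠ r b := fun he => G.ne_of_adj hab (hinj he)
      rcases lt_or_gt_of_ne hne with hlt | hgt
      · simp [hab, hlt]
      · simp [hab, hgt, hab.symm]
    · simp [hab]
  have h3 : ∑ a : V, ∑ b : V, (if G.Adj b a ∧ r b < r a then 1 else 0) =
      ∑ a : V, ∑ b : V, (if G.Adj a b ∧ r a < r b then 1 else 0) := Finset.sum_comm
  rw [h3] at h2
  simp only [Finset.sum_const, Finset.card_univ, smul_eq_mul, mul_one] at h1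
  calc ∑ a : V, ∑ b : V, (if G.Adj a b then 1 else 0) ≤ _ := h2
    _ ≤ (2 * ℓ - 1) * Fintype.card V + (2 * ℓ - 1) * Fintype.card V := Nat.add_le_add h1 h1
    _ = _ := by ring

open Classical in
/-- T11c: number of walks `w a b z` with `a b` of small degree. -/
theorem card_P4 {V : Type*} [Fintype V] (G : SimpleGraph V) (ℓ : ℕ) (hℓ : 1 ≤ ℓ)
    (h : Short G ℓ) (s : ℕ) :
    s * (univ.filter (fun x : (V × V) × (V × V) =>
      G.Adj x.1.1 x.1.2 ∧ G.Adj x.1.2 x.2.1 ∧ G.Adj x.2.1 x.2.2 ∧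
      s * (univ.filter (G.Adj x.1.2)).card < Fintype.card V ∧
      s * (univ.filter (G.Adj x.2.1)).card < Fintype.card V)).card ≤
      4 * (2 * ℓ - 1) ^ 2 * Fintype.card V ^ 2 := by
  obtain ⟨r, hinj, hr⟩ := exists_rank G ℓ hℓ h
  set n := Fintype.card V with hn
  set D : V → ℕ := fun v => (univ.filter (G.Adj v)).card with hD
  have hdart : ∑ a : V, D a ≤ 2 * (2 * ℓ - 1) * n := by
    have := card_darts G ℓ hℓ h
    rw [Finset.card_filter, Fintype.sum_prod_type] at this
    simp only [← Finset.card_filter] at this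
    exact this
  set T := univ.filter (fun x : (V × V) × (V × V) =>
      G.Adj x.1.1 x.1.2 ∧ G.Adj x.1.2 x.2.1 ∧ G.Adj x.2.1 x.2.2 ∧
      s * (univ.filter (G.Adj x.1.2)).card < n ∧
      s * (univ.filter (G.Adj x.2.1)).card < n) with hT
  have hfib : T.card = ∑ ab : V × V, (T.filter (fun x => (x.1.2, x.2.1) = ab)).card :=
    Finset.card_eq_sum_card_fiberwise (fun x _ => by simp)
  have hfib2 : ∀ a b : V, (T.filter (fun x => (x.1.2, x.2.1) = (a, b))).card ≤
      if G.Adj a b ∧ s * D a < n ∧ s * D b < n then D a * D b else 0 := by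
    intro a b
    split_ifs with hc
    · rw [hD]
      simp only
      rw [← Finset.card_product]
      apply Finset.card_le_card_of_injOn (fun x => (x.1.1, x.2.2))
      · intro x hx
        simp only [hT, Finset.coe_filter, Finset.mem_filter, Finset.mem_univ, true_and,
          Set.mem_ofPred_eq, Prod.mk.injEq] at hx
        obtain ⟨⟨h1, h2, h3, _⟩, h4, h5⟩ := hx
        simp only [Finset.coe_product, Set.mem_prod, Finset.coe_filter, Finset.mem_univ, true_and,
          Set.mem_ofPred_eq]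
        rw [h4] at h1
        rw [h5] at h3
        exact ⟨h1.symm, h3⟩
      · intro x hx y hy hxy
        simp only [Finset.coe_filter, Set.mem_ofPred_eq, Prod.mk.injEq] at hx hy hxy
        obtain ⟨⟨x1, x2⟩, ⟨x3, x4⟩⟩ := x
        obtain ⟨⟨y1, y2⟩, ⟨y3, y4⟩⟩ := y
        simp only at hx hy hxy
        simp only [Prod.mk.injEq]
        exact ⟨⟨hxy.1, hx.2.1.trans hy.2.1.symm⟩, hx.2.2.trans hy.2.2.symm, hxy.2⟩
    · rw [Nat.le_zero, Finset.card_eq_zero, Finset.filter_eq_empty_iff]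
      intro x hx hab
      apply hc
      simp only [hT, Finset.mem_filter, Finset.mem_univ, true_and] at hx
      simp only [Prod.mk.injEq] at hab
      obtain ⟨_, h2, _, h4, h5⟩ := hx
      rw [hab.1] at h2 h4
      rw [hab.2] at h2 h5
      exact ⟨h2, h4, h5⟩
  have hmain : s * T.card ≤ ∑ a : V, ∑ b : V, (if G.Adj a b ∧ r a < r b then n * D a else 0) +
      ∑ a : V, ∑ b : V, (if G.Adj b a ∧ r b < r a then n * D b else 0) := by
    rw [hfib, Fintype.sum_prod_type, Finset.mul_sum, ← Finset.sum_add_distrib]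
    apply Finset.sum_le_sum
    intro a _
    rw [Finset.mul_sum, ← Finset.sum_add_distrib]
    apply Finset.sum_le_sum
    intro b _
    refine le_trans (Nat.mul_le_mul_left s (hfib2 a b)) ?_
    split_ifs with hc h1 h2 h2
    · nlinarith [hc.2.1, hc.2.2]
    · nlinarith [Nat.mul_le_mul_left (D a) hc.2.2.le]
    · nlinarith [Nat.mul_le_mul_left (D b) hc.2.1.le]
    · exfalso
      have hne : r a ≠ r b := fun he => G.ne_of_adj hc.1 (hinj he)
      rcases lt_or_gt_of_ne hne with hlt | hgt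
      · exact h1 ⟨hc.1, hlt⟩
      · exact h2 ⟨hc.1.symm, hgt⟩
    all_goals simp
  have hcomm : ∑ a : V, ∑ b : V, (if G.Adj b a ∧ r b < r a then n * D b else 0) =
      ∑ a : V, ∑ b : V, (if G.Adj a b ∧ r a < r b then n * D a else 0) := Finset.sum_comm
  rw [hcomm] at hmain
  have hs := degen_sum_le G ℓ r hr (fun a => n * D a)
  rw [← Finset.mul_sum] at hs
  calc s * T.card ≤ _ := hmain
    _ ≤ (2 * ℓ - 1) * (n * ∑ a : V, D a) + (2 * ℓ - 1) * (n * ∑ a : V, D a) :=
        Nat.add_le_add hs hs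
    _ ≤ (2 * ℓ - 1) * (n * (2 * (2 * ℓ - 1) * n)) + (2 * ℓ - 1) * (n * (2 * (2 * ℓ - 1) * n)) := by
        gcongr
    _ = _ := by ring

end P490135

end

section

/-!
# MP_490135_co, item L: numeric facts on `Fn` (helper65)
-/

namespace P490135

open Finset Nat

/-- the function to be maximised -/
def fnl_g (ℓ n m : ℕ) : ℕ := m * (n - ℓ - m).descFactorial (ℓ - 1)

theorem fnl_le (ℓ n m : ℕ) (h : m ≤ n - ℓ) : (ℓ - 1)! * fnl_g ℓ n m ≤ Fn ℓ n := by
  unfold Fn
  apply Nat.mul_le_mul_left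
  exact Finset.le_sup (f := fun m => m * (n - ℓ - m).descFactorial (ℓ - 1))
    (Finset.mem_range.2 (by omega))

theorem fnl_max (ℓ n : ℕ) : ∃ m, m ≤ n - ℓ ∧ Fn ℓ n = (ℓ - 1)! * fnl_g ℓ n m := by
  obtain ⟨m, hm, h⟩ := Finset.exists_mem_eq_sup (Finset.range (n - ℓ + 1)) (by simp)
    (fun m => m * (n - ℓ - m).descFactorial (ℓ - 1))
  refine ⟨m, by rw [Finset.mem_range] at hm; omega, ?_⟩
  unfold Fn
  rw [h]
  rfl

/-- T12e -/
theorem Fn_ge (ℓ n m : ℕ) (h : ℓ + m ≤ n) :
    (ℓ - 1)! * (m * (n - ℓ - m).descFactorial (ℓ - 1)) ≤ Fn ℓ n :=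
  fnl_le ℓ n m (by omega)

theorem fnl_zero (ℓ n : ℕ) (h : n < ℓ) : Fn ℓ n = 0 := by
  obtain ⟨m, hm, hF⟩ := fnl_max ℓ n
  have : m = 0 := by omega
  rw [hF, this]
  simp [fnl_g]

/-- T12a -/
theorem Fn_super (ℓ : ℕ) (hℓ : 3 ≤ ℓ) (a b : ℕ) : Fn ℓ a + Fn ℓ b ≤ Fn ℓ (a + b) := by
  obtain ⟨m, hm, hF⟩ := fnl_max ℓ a
  obtain ⟨m', hm', hF'⟩ := fnl_max ℓ b
  have key : ∀ m₀, m₀ ≤ a + b - ℓ → fnl_g ℓ a m + fnl_g ℓ b m' ≤ fnl_g ℓ (a + b) m₀ →
      Fn ℓ a + Fn ℓ b ≤ Fn ℓ (a + b) := by
    intro m₀ h1 h2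
    calc Fn ℓ a + Fn ℓ b = (ℓ - 1)! * (fnl_g ℓ a m + fnl_g ℓ b m') := by rw [hF, hF']; ring
      _ ≤ (ℓ - 1)! * fnl_g ℓ (a + b) m₀ := Nat.mul_le_mul_left _ h2
      _ ≤ _ := fnl_le _ _ _ h1
  rcases Nat.lt_or_ge a ℓ with h | h
  · have hm0 : m = 0 := by omega
    subst hm0
    apply key m' (by omega)
    simp only [fnl_g, zero_mul, zero_add]
    exact Nat.mul_le_mul_left _ (Nat.descFactorial_le _ (by omega))
  rcases Nat.lt_or_ge b ℓ with h' | h'
  · have hm0 : m' = 0 := by omega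
    subst hm0
    apply key m (by omega)
    simp only [fnl_g, zero_mul, add_zero]
    exact Nat.mul_le_mul_left _ (Nat.descFactorial_le _ (by omega))
  · apply key (m + m') (by omega)
    simp only [fnl_g]
    rw [add_mul]
    exact Nat.add_le_add (Nat.mul_le_mul_left _ (Nat.descFactorial_le _ (by omega)))
      (Nat.mul_le_mul_left _ (Nat.descFactorial_le _ (by omega)))

theorem fnl_desc_ge (k A : ℕ) (hk : 1 ≤ k) (hA : k + 1 ≤ A) : A ≤ A.descFactorial k := by
  obtain ⟨j, rfl⟩ : ∃ j, k = j + 1 := ⟨k - 1, by omega⟩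
  clear hk
  induction j with
  | zero => simp
  | succ j ih =>
    rw [Nat.descFactorial_succ]
    calc A ≤ 1 * A.descFactorial (j + 1) := by rw [one_mul]; exact ih (by omega)
      _ ≤ _ := Nat.mul_le_mul_right _ (by omega)

/-- T12b -/
theorem Fn_super_strict (ℓ : ℕ) (hℓ : 3 ≤ ℓ) (K : ℕ) :
    ∃ a₀, ∀ a b, a₀ ≤ a → 1 ≤ b → Fn ℓ a + Fn ℓ b + K ≤ Fn ℓ (a + b) := by
  refine ⟨2 * ℓ + K + 1, ?_⟩
  intro a b ha hb
  obtain ⟨m, hm, hF⟩ := fnl_max ℓ a
  obtain ⟨m', hm', hF'⟩ := fnl_max ℓ b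
  have hpos : 0 < Fn ℓ a := by
    have h1 := fnl_le ℓ a 1 (by omega)
    refine lt_of_lt_of_le ?_ h1
    have h2 : 0 < (a - ℓ - 1).descFactorial (ℓ - 1) :=
      Nat.pos_of_ne_zero (by rw [Ne, Nat.descFactorial_eq_zero_iff_lt]; omega)
    simp only [fnl_g, one_mul]
    exact Nat.mul_pos (Nat.factorial_pos _) h2
  have hm1 : 1 ≤ m := by
    rcases Nat.eq_zero_or_pos m with h | h
    · rw [hF, h] at hpos
      simp [fnl_g] at hpos
    · exact h
  set B := a - ℓ - m with hB
  have hBl : ℓ - 1 ≤ B := by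
    by_contra hlt
    rw [hF] at hpos
    have : (a - ℓ - m).descFactorial (ℓ - 1) = 0 := by
      rw [Nat.descFactorial_eq_zero_iff_lt]; omega
    simp [fnl_g, this] at hpos
  have hstep : m * B.descFactorial (ℓ - 1) + K ≤ m * (B + 1).descFactorial (ℓ - 1) := by
    obtain ⟨k, hk⟩ : ∃ k, ℓ - 1 = k + 1 := ⟨ℓ - 2, by omega⟩
    have h1 : (B + 1).descFactorial (k + 1) = (B + 1) * B.descFactorial k :=
      Nat.succ_descFactorial_succ _ _
    have h2 : B.descFactorial (k + 1) = (B - k) * B.descFactorial k := Nat.descFactorial_succ _ _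
    have h3 : B ≤ B.descFactorial k := fnl_desc_ge k B (by omega) (by omega)
    rw [hk, h1, h2]
    have h4 : (B + 1) * B.descFactorial k = (B - k) * B.descFactorial k +
        (k + 1) * B.descFactorial k := by
      rw [← add_mul]; congr 1; omega
    rw [h4, mul_add]
    apply Nat.add_le_add_left
    have h5 : K + 1 ≤ m + B := by omega
    calc K ≤ m * B := by
          obtain ⟨x, rfl⟩ : ∃ x, m = x + 1 := ⟨m - 1, by omega⟩
          obtain ⟨y, hy⟩ : ∃ y, B = y + 1 := ⟨B - 1, by omega⟩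
          rw [hy] at h5 ⊢
          nlinarith
      _ ≤ m * ((k + 1) * B.descFactorial k) := by
          apply Nat.mul_le_mul_left
          calc B ≤ B.descFactorial k := h3
            _ = 1 * B.descFactorial k := (one_mul _).symm
            _ ≤ _ := Nat.mul_le_mul_right _ (by omega)
  have key : ∀ m₀, m₀ ≤ a + b - ℓ → fnl_g ℓ a m + fnl_g ℓ b m' + K ≤ fnl_g ℓ (a + b) m₀ →
      Fn ℓ a + Fn ℓ b + K ≤ Fn ℓ (a + b) := by
    intro m₀ h1 h2
    calc Fn ℓ a + Fn ℓ b + K ≤ Fn ℓ a + Fn ℓ b + (ℓ - 1)! * K :=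
          Nat.add_le_add_left (Nat.le_mul_of_pos_left _ (Nat.factorial_pos _)) _
      _ = (ℓ - 1)! * (fnl_g ℓ a m + fnl_g ℓ b m' + K) := by rw [hF, hF']; ring
      _ ≤ (ℓ - 1)! * fnl_g ℓ (a + b) m₀ := Nat.mul_le_mul_left _ h2
      _ ≤ _ := fnl_le _ _ _ h1
  rcases Nat.lt_or_ge b ℓ with h' | h'
  · have hm0 : m' = 0 := by omega
    subst hm0
    apply key m (by omega)
    simp only [fnl_g, zero_mul, add_zero]
    calc m * (a - ℓ - m).descFactorial (ℓ - 1) + K ≤ m * (B + 1).descFactorial (ℓ - 1) := hstep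
      _ ≤ _ := Nat.mul_le_mul_left _ (Nat.descFactorial_le _ (by omega))
  · apply key (m + m') (by omega)
    simp only [fnl_g]
    rw [add_mul]
    calc m * (a - ℓ - m).descFactorial (ℓ - 1) + m' * (b - ℓ - m').descFactorial (ℓ - 1) + K
        = (m * B.descFactorial (ℓ - 1) + K) + m' * (b - ℓ - m').descFactorial (ℓ - 1) := by
          rw [hB]; ring
      _ ≤ m * (B + 1).descFactorial (ℓ - 1) + m' * (b - ℓ - m').descFactorial (ℓ - 1) :=
          Nat.add_le_add_right hstep _
      _ ≤ _ := Nat.add_le_add (Nat.mul_le_mul_left _ (Nat.descFactorial_le _ (by omega)))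
          (Nat.mul_le_mul_left _ (Nat.descFactorial_le _ (by omega)))

/-- T12d -/
theorem Fn_multi (ℓ : ℕ) (hℓ : 3 ≤ ℓ) (n m : ℕ) (hm : 2 ≤ m) (hn : ℓ + m ≤ n + 1) :
    m * (ℓ - 2)! * (n - ℓ + 1 - m).descFactorial (ℓ - 1) ≤ Fn ℓ n := by
  have h1 := fnl_le ℓ n (m - 1) (by omega)
  refine le_trans ?_ h1
  simp only [fnl_g]
  have e : n - ℓ - (m - 1) = n - ℓ + 1 - m := by omega
  rw [e, ← mul_assoc]
  apply Nat.mul_le_mul_right
  rw [show ℓ - 1 = (ℓ - 2) + 1 by omega, Nat.factorial_succ]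
  calc m * (ℓ - 2)! ≤ ((ℓ - 2 + 1) * (m - 1)) * (ℓ - 2)! := by
        apply Nat.mul_le_mul_right
        obtain ⟨x, rfl⟩ : ∃ x, m = x + 2 := ⟨m - 2, by omega⟩
        obtain ⟨y, rfl⟩ : ∃ y, ℓ = y + 3 := ⟨ℓ - 3, by omega⟩
        simp only [show y + 3 - 2 = y + 1 by omega, show x + 2 - 1 = x + 1 by omega]
        nlinarith
    _ = (ℓ - 2 + 1) * (ℓ - 2)! * (m - 1) := by ring

/-- T12c -/
theorem Fn_asymp (ℓ : ℕ) (hℓ : 3 ≤ ℓ) (c : ℝ)
    (hc : c * ℓ ^ ℓ < (ℓ - 1)! * ((ℓ : ℝ) - 1) ^ (ℓ - 1)) :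
    ∃ n₀ : ℕ, ∀ n : ℕ, n₀ ≤ n → c * (n : ℝ) ^ ℓ ≤ Fn ℓ n := by
  have hℓ0 : (0 : ℝ) < ℓ := by positivity
  have hℓ3 : (3 : ℝ) ≤ ℓ := by exact_mod_cast hℓ
  set L : ℝ := (ℓ - 1)! * (1 / ℓ - 0) * (1 - 1 / ℓ - 0) ^ (ℓ - 1) with hL
  have hcL : c < L := by
    have h1 : L = (ℓ - 1)! * ((ℓ : ℝ) - 1) ^ (ℓ - 1) / ℓ ^ ℓ := by
      have h2 : (1 : ℝ) - 1 / ℓ - 0 = ((ℓ : ℝ) - 1) / ℓ := by field_simp; ring
      rw [hL, h2, div_pow, sub_zero]
      have h3 : (ℓ : ℝ) ^ ℓ = ℓ * ℓ ^ (ℓ - 1) := by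
        rw [← _root_.pow_succ']; congr 1; omega
      rw [h3]
      field_simp
    rw [h1, lt_div_iff₀ (by positivity)]
    exact hc
  have ht1 : Filter.Tendsto (fun n : ℕ => (1 : ℝ) / n) Filter.atTop (nhds 0) :=
    tendsto_one_div_atTop_nhds_zero_nat
  have ht2 : Filter.Tendsto (fun n : ℕ => (2 * ℓ : ℝ) / n) Filter.atTop (nhds 0) := by
    have := ht1.const_mul (2 * ℓ : ℝ)
    simpa [div_eq_mul_inv] using this
  have ht : Filter.Tendsto (fun n : ℕ => ((ℓ - 1)! : ℝ) * (1 / ℓ - 1 / n) *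
      (1 - 1 / ℓ - 2 * ℓ / n) ^ (ℓ - 1)) Filter.atTop (nhds L) := by
    refine Filter.Tendsto.mul (Filter.Tendsto.const_mul _ (ht1.const_sub _)) ?_
    exact (ht2.const_sub _).pow _
  have hev := (ht.eventually (lt_mem_nhds hcL)).and (Filter.eventually_ge_atTop (4 * ℓ))
  obtain ⟨n₀, hn₀⟩ := Filter.eventually_atTop.1 hev
  refine ⟨n₀, ?_⟩
  intro n hn
  obtain ⟨h1, h2⟩ := hn₀ n hn
  have hnpos : (0 : ℝ) < n := by
    have : 0 < n := by omega
    exact_mod_cast this
  have hn4 : (4 * ℓ : ℝ) ≤ n := by exact_mod_cast h2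
  set m := n / ℓ with hm
  have hmℓ : m * ℓ ≤ n := Nat.div_mul_le_self _ _
  have hmlt : n < (m + 1) * ℓ := by
    have := Nat.lt_div_mul_add (a := n) (b := ℓ) (by omega)
    nlinarith
  have h3m : 3 * m ≤ n := by nlinarith
  have hmle : m ≤ n - ℓ := by omega
  have h3 := fnl_le ℓ n m hmle
  have h4 : (n - ℓ - m + 1 - (ℓ - 1)) ^ (ℓ - 1) ≤ (n - ℓ - m).descFactorial (ℓ - 1) :=
    Nat.pow_sub_le_descFactorial _ _
  have h5 : (ℓ - 1)! * (m * (n - ℓ - m + 1 - (ℓ - 1)) ^ (ℓ - 1)) ≤ Fn ℓ n := by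
    refine le_trans ?_ h3
    exact Nat.mul_le_mul_left _ (Nat.mul_le_mul_left _ h4)
  have h6 : ((ℓ - 1)! : ℝ) * (m * ((n - ℓ - m + 1 - (ℓ - 1) : ℕ) : ℝ) ^ (ℓ - 1)) ≤ Fn ℓ n := by
    exact_mod_cast h5
  have h7 : (n : ℝ) * (1 / ℓ - 1 / n) ≤ m := by
    have : (n : ℝ) * (1 / ℓ - 1 / n) = n / ℓ - 1 := by field_simp
    rw [this]
    have h8 : (n : ℝ) < (m + 1) * ℓ := by exact_mod_cast hmlt
    have h9 : (n : ℝ) / ℓ < m + 1 := by rw [div_lt_iff₀ hℓ0]; exact h8
    linarith
  have h8 : (n : ℝ) * (1 - 1 / ℓ - 2 * ℓ / n) ≤ ((n - ℓ - m + 1 - (ℓ - 1) : ℕ) : ℝ) := by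
    have e1 : (n : ℝ) * (1 - 1 / ℓ - 2 * ℓ / n) = n - n / ℓ - 2 * ℓ := by field_simp
    rw [e1]
    have h9 : (m : ℝ) ≤ n / ℓ := by
      rw [le_div_iff₀ hℓ0]
      exact_mod_cast hmℓ
    have h10 : (n : ℝ) - m - 2 * ℓ ≤ ((n - ℓ - m + 1 - (ℓ - 1) : ℕ) : ℝ) := by
      have : n ≤ (n - ℓ - m + 1 - (ℓ - 1)) + m + 2 * ℓ := by omega
      have : (n : ℝ) ≤ ((n - ℓ - m + 1 - (ℓ - 1) : ℕ) : ℝ) + m + 2 * ℓ := by exact_mod_cast this
      linarith
    linarith
  have h9 : 0 ≤ (n : ℝ) * (1 - 1 / ℓ - 2 * ℓ / n) := by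
    have e1 : (n : ℝ) * (1 - 1 / ℓ - 2 * ℓ / n) = n - n / ℓ - 2 * ℓ := by field_simp
    rw [e1]
    have : (n : ℝ) / ℓ ≤ n / 3 := by gcongr
    linarith
  have h10 : 0 ≤ (n : ℝ) * (1 / ℓ - 1 / n) := by
    have : (n : ℝ) * (1 / ℓ - 1 / n) = n / ℓ - 1 := by field_simp
    rw [this]
    have : 1 ≤ (n : ℝ) / ℓ := by rw [le_div_iff₀ hℓ0]; linarith
    linarith
  refine le_trans ?_ h6
  calc c * (n : ℝ) ^ ℓ ≤ (((ℓ - 1)! : ℝ) * (1 / ℓ - 1 / n) *
      (1 - 1 / ℓ - 2 * ℓ / n) ^ (ℓ - 1)) * (n : ℝ) ^ ℓ := by gcongr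
    _ = ((ℓ - 1)! : ℝ) * (((n : ℝ) * (1 / ℓ - 1 / n)) *
        ((n : ℝ) * (1 - 1 / ℓ - 2 * ℓ / n)) ^ (ℓ - 1)) := by
        rw [mul_pow]
        have h3 : (n : ℝ) ^ ℓ = n * n ^ (ℓ - 1) := by
          rw [← _root_.pow_succ']; congr 1; omega
        rw [h3]
        ring
    _ ≤ _ := by gcongr

end P490135

end

section

/-!
# MP_490135_co: the graph `G_{n,k,m}` (helper36)
-/

namespace P490135

open SimpleGraph Finset Nat

/-- two adjacent vertices are not both outside the clique -/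
theorem gnkm_adj_lt {n ℓ m : ℕ} {i j : Fin n} (hℓ : 1 ≤ ℓ) (h : (Gnkm n ℓ m).Adj i j) :
    (i : ℕ) < ℓ ∨ (j : ℕ) < ℓ := by
  obtain ⟨-, h⟩ := h
  omega

/-- pendant vertices are adjacent only to `0` -/
theorem gnkm_adj_pend {n ℓ m : ℕ} {i j : Fin n} (hℓ : 1 ≤ ℓ) (h : (Gnkm n ℓ m).Adj i j)
    (h1 : ℓ ≤ (i : ℕ)) (h2 : (i : ℕ) < ℓ + m) : (j : ℕ) = 0 := by
  obtain ⟨-, h⟩ := h
  omega

/-- the neighbours of `0` outside the clique are pendant -/
theorem gnkm_adj_zero {n ℓ m : ℕ} {i j : Fin n} (h : (Gnkm n ℓ m).Adj i j)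
    (h1 : (i : ℕ) = 0) (h2 : ℓ ≤ (j : ℕ)) : (j : ℕ) < ℓ + m := by
  obtain ⟨-, h⟩ := h
  omega

/-- T10a -/
theorem gnkm_short (n ℓ m : ℕ) (hℓ : 2 ≤ ℓ) : Short (Gnkm n ℓ m) ℓ := by
  intro l hnd hch
  by_contra hlen
  push Not at hlen
  rw [List.isChain_iff_getElem] at hch
  -- indices
  have hinj : ∀ (i j : ℕ) (hi : i < l.length) (hj : j < l.length),
      ((l[i] : Fin n) : ℕ) = (l[j] : Fin n) → i = j := by
    intro i j hi hj h
    exact (hnd.getElem_inj_iff).1 (Fin.ext h)
  set v : ℕ → ℕ := fun i => if h : i < l.length then ((l[i] : Fin n) : ℕ) else 0 with hv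
  have hvi : ∀ (i : ℕ) (hi : i < l.length), v i = ((l[i] : Fin n) : ℕ) := by
    intro i hi
    simp only [hv, dif_pos hi]
  have hvinj : ∀ i j : ℕ, i ≤ 2 * ℓ → j ≤ 2 * ℓ → v i = v j → i = j := by
    intro i j hi hj h
    rw [hvi i (by omega), hvi j (by omega)] at h
    exact hinj i j _ _ h
  have hstep : ∀ i : ℕ, i < 2 * ℓ → v i < ℓ ∨ v (i + 1) < ℓ := by
    intro i hi
    rw [hvi i (by omega), hvi (i + 1) (by omega)]
    exact gnkm_adj_lt (by omega) (hch i (by omega))
  -- even indices are not in the clique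
  have heven : ∀ j : ℕ, j ≤ ℓ → ℓ ≤ v (2 * j) := by
    intro j hj
    by_contra hcon
    push Not at hcon
    let g : Fin (ℓ + 1) → ℕ := fun k =>
      if (k : ℕ) < j then (if v (2 * k) < ℓ then 2 * k else 2 * k + 1)
      else if (k : ℕ) = j then 2 * j
      else (if v (2 * k - 1) < ℓ then 2 * k - 1 else 2 * k)
    have hg1 : ∀ k, g k ≤ 2 * ℓ := by
      intro k
      have := k.2
      simp only [g]
      split_ifs <;> omega
    have hg2 : ∀ k, v (g k) < ℓ := by
      intro k
      have := k.2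
      simp only [g]
      split_ifs with h1 h2 h3 h4
      · exact h2
      · have := hstep (2 * k) (by omega)
        omega
      · exact hcon
      · exact h4
      · have := hstep (2 * k - 1) (by omega)
        have e : 2 * (k : ℕ) - 1 + 1 = 2 * k := by omega
        rw [e] at this
        omega
    have hg3 : ∀ k k', g k = g k' → k = k' := by
      intro k k' h
      apply Fin.ext
      simp only [g] at h
      split_ifs at h <;> omega
    have hcard := Fintype.card_le_of_injective (fun k : Fin (ℓ + 1) => (⟨v (g k), hg2 k⟩ : Fin ℓ))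
      (by
        intro k k' h
        have h' : v (g k) = v (g k') := congrArg Fin.val h
        exact hg3 _ _ (hvinj _ _ (hg1 k) (hg1 k') h'))
    simp at hcard
  have hodd : ∀ j : ℕ, j < ℓ → v (2 * j + 1) < ℓ := by
    intro j hj
    have h1 := heven j hj.le
    have h2 := hstep (2 * j) (by omega)
    omega
  -- the index of the vertex `0`
  obtain ⟨k, hk⟩ : ∃ k : Fin ℓ, v (2 * k + 1) = 0 := by
    let g : Fin ℓ → Fin ℓ := fun k => ⟨v (2 * k + 1), hodd k k.2⟩
    have hg : Function.Injective g := by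
      intro k k' h
      have h' : v (2 * k + 1) = v (2 * k' + 1) := congrArg Fin.val h
      have := k.2
      have := k'.2
      have := hvinj _ _ (by omega) (by omega) h'
      apply Fin.ext
      omega
    obtain ⟨k, hk⟩ := (Finite.injective_iff_surjective.1 hg) ⟨0, by omega⟩
    exact ⟨k, congrArg Fin.val hk⟩
  have hkℓ := k.2
  have hk0 : ∀ i, i ≤ 2 * ℓ → i ≠ 2 * k + 1 → v i ≠ 0 := by
    intro i hi hne h0
    apply hne
    exact hvinj _ _ hi (by omega) (by rw [h0, hk])
  -- the two neighbours of `0`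
  have hadj : ∀ i : ℕ, ∀ hi : i < 2 * ℓ, (Gnkm n ℓ m).Adj (l[i]'(by omega)) (l[i + 1]'(by omega)) :=
    fun i hi => hch i (by omega)
  by_cases hkz : 1 ≤ (k : ℕ)
  · -- use the indices 2k - 1, 2k, 2k + 1
    have a1 := hadj (2 * k) (by omega)
    have e1 := heven k (by omega)
    have hlt : v (2 * k) < ℓ + m := by
      rw [hvi _ (by omega)]
      rw [hvi _ (by omega)] at hk e1
      exact gnkm_adj_zero a1.symm hk e1
    have a2 := hadj (2 * k - 1) (by omega)
    have hz : v (2 * k - 1) = 0 := by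
      rw [hvi _ (by omega)] at hlt e1 ⊢
      have e : 2 * (k : ℕ) - 1 + 1 = 2 * k := by omega
      have a3 : (Gnkm n ℓ m).Adj (l[2 * (k : ℕ)]'(by omega)) (l[2 * (k : ℕ) - 1]'(by omega)) := by
        have := a2.symm
        simp only [e] at this
        exact this
      exact gnkm_adj_pend (by omega) a3 e1 hlt
    exact hk0 (2 * k - 1) (by omega) (by omega) hz
  · -- k = 0: use the indices 1, 2, 3
    have hk1 : (k : ℕ) = 0 := by omega
    rw [hk1] at hk hk0
    simp only [mul_zero, zero_add] at hk hk0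
    have a1 := hadj 1 (by omega)
    have e1 : ℓ ≤ v 2 := heven 1 (by omega)
    have hlt : v 2 < ℓ + m := by
      rw [hvi _ (by omega)]
      rw [hvi _ (by omega)] at hk e1
      exact gnkm_adj_zero a1 hk e1
    have a2 := hadj 2 (by omega)
    have hz : v 3 = 0 := by
      rw [hvi _ (by omega)] at hlt e1 ⊢
      exact gnkm_adj_pend (by omega) a2 e1 hlt
    exact hk0 3 (by omega) (by omega) hz

/-- the reverse of a path -/
def gnkm_rev {V : Type*} {ℓ : ℕ} (q : Fin ℓ → V × V) : Fin ℓ → V × V :=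
  fun i => ((q i.rev).2, (q i.rev).1)

theorem gnkm_rev_rev {V : Type*} {ℓ : ℕ} (q : Fin ℓ → V × V) : gnkm_rev (gnkm_rev q) = q := by
  funext i
  simp [gnkm_rev]

theorem gnkm_isMP_rev {V : Type*} {G : SimpleGraph V} {ℓ : ℕ} {q : Fin ℓ → V × V}
    (h : IsMP G ℓ q) : IsMP G ℓ (gnkm_rev q) where
  adj i := (h.adj i.rev).symm
  adj' i j hij := by
    refine (h.adj' j.rev i.rev ?_).symm
    rw [Fin.val_rev, Fin.val_rev]
    have := i.2
    have := j.2
    omega
  inj1 i j hij := by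
    have := h.inj2 _ _ hij
    exact Fin.rev_injective this
  inj2 i j hij := by
    have := h.inj1 _ _ hij
    exact Fin.rev_injective this
  ne12 i j hij := h.ne12 _ _ hij.symm

/-- the paths `(x, 0), (c 0, b 0), …` -/
def gnkm_path (n M m : ℕ) (hn : M + 1 + m ≤ n)
    (d : Fin m × Equiv.Perm (Fin M) × (Fin M ↪ Fin (n - (M + 1) - m))) :
    Fin (M + 1) → Fin n × Fin n :=
  Fin.cons (⟨M + 1 + d.1, by have := d.1.2; omega⟩, ⟨0, by omega⟩)
    (fun i => (⟨1 + d.2.1 i, by have := (d.2.1 i).2; omega⟩,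
      ⟨M + 1 + m + d.2.2 i, by have := (d.2.2 i).2; omega⟩))

theorem gnkm_path_zero (n M m : ℕ) (hn : M + 1 + m ≤ n)
    (d : Fin m × Equiv.Perm (Fin M) × (Fin M ↪ Fin (n - (M + 1) - m))) :
    ((gnkm_path n M m hn d 0).1 : ℕ) = M + 1 + d.1 ∧ ((gnkm_path n M m hn d 0).2 : ℕ) = 0 := by
  simp [gnkm_path]

theorem gnkm_path_succ (n M m : ℕ) (hn : M + 1 + m ≤ n)
    (d : Fin m × Equiv.Perm (Fin M) × (Fin M ↪ Fin (n - (M + 1) - m))) (i : Fin M) :
    ((gnkm_path n M m hn d i.succ).1 : ℕ) = 1 + d.2.1 i ∧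
      ((gnkm_path n M m hn d i.succ).2 : ℕ) = M + 1 + m + d.2.2 i := by
  simp [gnkm_path]

theorem gnkm_path_isMP (n M m : ℕ) (hn : M + 1 + m ≤ n)
    (d : Fin m × Equiv.Perm (Fin M) × (Fin M ↪ Fin (n - (M + 1) - m))) :
    IsMP (Gnkm n (M + 1) m) (M + 1) (gnkm_path n M m hn d) := by
  obtain ⟨z1, z2⟩ := gnkm_path_zero n M m hn d
  have hs := gnkm_path_succ n M m hn d
  have hx := d.1.2
  refine ⟨?_, ?_, ?_, ?_, ?_⟩
  · intro i
    refine Fin.cases ?_ (fun i => ?_) i
    · refine ⟨fun h => ?_, ?_⟩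
      · have := congrArg Fin.val h
        omega
      · omega
    · obtain ⟨s1, s2⟩ := hs i
      have := (d.2.1 i).2
      refine ⟨fun h => ?_, ?_⟩
      · have := congrArg Fin.val h
        omega
      · omega
  · intro i j
    refine Fin.cases ?_ (fun i => ?_) i
    · refine Fin.cases ?_ (fun j => ?_) j
      · intro h
        simp at h
      · intro _
        obtain ⟨s1, s2⟩ := hs j
        have := (d.2.1 j).2
        refine ⟨fun h => ?_, ?_⟩
        · have := congrArg Fin.val h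
          omega
        · omega
    · refine Fin.cases ?_ (fun j => ?_) j
      · intro h
        simp at h
      · intro _
        obtain ⟨s1, s2⟩ := hs j
        obtain ⟨t1, t2⟩ := hs i
        have := (d.2.1 j).2
        refine ⟨fun h => ?_, ?_⟩
        · have := congrArg Fin.val h
          omega
        · omega
  · intro i j
    refine Fin.cases ?_ (fun i => ?_) i
    · refine Fin.cases ?_ (fun j => ?_) j
      · intro _
        rfl
      · intro h
        obtain ⟨s1, s2⟩ := hs j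
        have := (d.2.1 j).2
        have := congrArg Fin.val h
        omega
    · refine Fin.cases ?_ (fun j => ?_) j
      · intro h
        obtain ⟨s1, s2⟩ := hs i
        have := (d.2.1 i).2
        have := congrArg Fin.val h
        omega
      · intro h
        obtain ⟨s1, s2⟩ := hs j
        obtain ⟨t1, t2⟩ := hs i
        have h' := congrArg Fin.val h
        have h2 : d.2.1 i = d.2.1 j := Fin.ext (by omega)
        rw [d.2.1.injective h2]
  · intro i j
    refine Fin.cases ?_ (fun i => ?_) i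
    · refine Fin.cases ?_ (fun j => ?_) j
      · intro _
        rfl
      · intro h
        obtain ⟨s1, s2⟩ := hs j
        have := congrArg Fin.val h
        omega
    · refine Fin.cases ?_ (fun j => ?_) j
      · intro h
        obtain ⟨s1, s2⟩ := hs i
        have := congrArg Fin.val h
        omega
      · intro h
        obtain ⟨s1, s2⟩ := hs j
        obtain ⟨t1, t2⟩ := hs i
        have h' := congrArg Fin.val h
        have h2 : d.2.2 i = d.2.2 j := Fin.ext (by omega)
        rw [d.2.2.injective h2]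
  · intro i j
    refine Fin.cases ?_ (fun i => ?_) i
    · refine Fin.cases ?_ (fun j => ?_) j
      · intro h
        have := congrArg Fin.val h
        omega
      · intro h
        obtain ⟨s1, s2⟩ := hs j
        have := congrArg Fin.val h
        omega
    · refine Fin.cases ?_ (fun j => ?_) j
      · intro h
        obtain ⟨s1, s2⟩ := hs i
        have := congrArg Fin.val h
        omega
      · intro h
        obtain ⟨s1, s2⟩ := hs j
        obtain ⟨t1, t2⟩ := hs i
        have := (d.2.1 i).2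
        have h' := congrArg Fin.val h
        omega

theorem gnkm_path_inj (n M m : ℕ) (hn : M + 1 + m ≤ n) :
    Function.Injective (gnkm_path n M m hn) := by
  rintro ⟨x, σ, b⟩ ⟨x', σ', b'⟩ h
  have h0 : ∀ i, gnkm_path n M m hn ⟨x, σ, b⟩ i = gnkm_path n M m hn ⟨x', σ', b'⟩ i :=
    fun i => congrFun h i
  obtain ⟨z1, z2⟩ := gnkm_path_zero n M m hn ⟨x, σ, b⟩
  obtain ⟨z1', z2'⟩ := gnkm_path_zero n M m hn ⟨x', σ', b'⟩
  have e1 : x = x' := by
    rw [h0 0] at z1
    apply Fin.ext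
    simp only at z1 z1'
    omega
  have e2 : σ = σ' := by
    ext i
    have s := (gnkm_path_succ n M m hn ⟨x, σ, b⟩ i).1
    have s' := (gnkm_path_succ n M m hn ⟨x', σ', b'⟩ i).1
    rw [h0] at s
    simp only at s s'
    omega
  have e3 : b = b' := by
    ext i
    have s := (gnkm_path_succ n M m hn ⟨x, σ, b⟩ i).2
    have s' := (gnkm_path_succ n M m hn ⟨x', σ', b'⟩ i).2
    rw [h0] at s
    simp only at s s'
    omega
  rw [e1, e2, e3]

open Classical in
/-- T10b -/
theorem gnkm_count (n ℓ m : ℕ) (hℓ : 2 ≤ ℓ) (hn : ℓ + m ≤ n) :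
    2 * ((ℓ - 1)! * (m * (n - ℓ - m).descFactorial (ℓ - 1))) ≤
      (univ.filter (fun q : Fin ℓ → Fin n × Fin n => IsMP (Gnkm n ℓ m) ℓ q)).card := by
  obtain ⟨M, rfl⟩ : ∃ M, ℓ = M + 1 := ⟨ℓ - 1, by omega⟩
  have hX : Fintype.card (Fin m × Equiv.Perm (Fin M) × (Fin M ↪ Fin (n - (M + 1) - m))) =
      (M + 1 - 1)! * (m * (n - (M + 1) - m).descFactorial (M + 1 - 1)) := by
    rw [Fintype.card_prod, Fintype.card_prod, Fintype.card_perm, Fintype.card_embedding_eq,
      Fintype.card_fin, Fintype.card_fin, Fintype.card_fin, Nat.add_sub_cancel]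
    ring
  rw [← hX]
  set S := univ.filter (fun q : Fin (M + 1) → Fin n × Fin n => IsMP (Gnkm n (M + 1) m) (M + 1) q)
    with hS
  let P : (Fin (M + 1) → Fin n × Fin n) → Prop := fun q => ((q 0).1 : ℕ) < M + 1 + m
  have h1 : Fintype.card (Fin m × Equiv.Perm (Fin M) × (Fin M ↪ Fin (n - (M + 1) - m))) ≤
      (S.filter P).card := by
    rw [← Finset.card_univ]
    apply Finset.card_le_card_of_injOn (gnkm_path n M m hn)
    · intro d _
      simp only [Finset.coe_filter, Set.mem_ofPred_eq, hS, Finset.mem_filter, Finset.mem_univ,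
        true_and, P]
      refine ⟨gnkm_path_isMP n M m hn d, ?_⟩
      have := (gnkm_path_zero n M m hn d).1
      have := d.1.2
      omega
    · exact (gnkm_path_inj n M m hn).injOn
  have h2 : Fintype.card (Fin m × Equiv.Perm (Fin M) × (Fin M ↪ Fin (n - (M + 1) - m))) ≤
      (S.filter (fun q => ¬ P q)).card := by
    rw [← Finset.card_univ]
    apply Finset.card_le_card_of_injOn (fun d => gnkm_rev (gnkm_path n M m hn d))
    · intro d _
      simp only [Finset.coe_filter, Set.mem_ofPred_eq, hS, Finset.mem_filter, Finset.mem_univ,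
        true_and, P]
      refine ⟨gnkm_isMP_rev (gnkm_path_isMP n M m hn d), ?_⟩
      simp only [gnkm_rev]
      obtain ⟨N, rfl⟩ : ∃ N, M = N + 1 := ⟨M - 1, by omega⟩
      have e : Fin.rev (0 : Fin (N + 1 + 1)) = Fin.succ (Fin.last N) := by
        apply Fin.ext
        simp
      rw [e, (gnkm_path_succ n (N + 1) m hn d _).2]
      omega
    · intro d _ d' _ h
      have h' : gnkm_rev (gnkm_rev (gnkm_path n M m hn d)) =
          gnkm_rev (gnkm_rev (gnkm_path n M m hn d')) := congrArg gnkm_rev h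
      rw [gnkm_rev_rev, gnkm_rev_rev] at h'
      exact gnkm_path_inj n M m hn h'
  have h3 := Finset.card_filter_add_card_filter_not (s := S) P
  omega

end P490135

end

section

/-!
# MP_490135_co: facts on paths of type II (helper15)
-/

namespace P490135

open Finset Nat

/-- The list `s a, ..., s (b-1)`. -/
def seg {α : Type*} (s : ℕ → α) (a b : ℕ) : List α := (List.range' a (b - a)).map s

theorem seg_chain {α : Type*} {Γ : α → α → Prop} {s : ℕ → α} {a b : ℕ}
    (h : ∀ i, a ≤ i → i + 1 < b → Γ (s i) (s (i + 1))) : (seg s a b).IsChain Γ := by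
  unfold seg
  rw [List.isChain_iff_getElem]
  intro i hi
  simp only [List.length_map, List.length_range'] at hi
  simp only [List.getElem_map, List.getElem_range', one_mul]
  have := h (a + i) (by omega) (by omega)
  simpa [add_assoc] using this

theorem seg_length {α : Type*} (s : ℕ → α) (a b : ℕ) : (seg s a b).length = b - a := by
  simp [seg]

theorem seg_append {α : Type*} (s : ℕ → α) {a b c : ℕ} (h1 : a ≤ b) (h2 : b ≤ c) :
    seg s a b ++ seg s b c = seg s a c := by
  unfold seg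
  rw [← List.map_append]
  congr 1
  have e : c - a = (b - a) + (c - b) := by omega
  rw [e, ← List.range'_append_1]
  congr 2
  omega

theorem seg_head? {α : Type*} (s : ℕ → α) {a b : ℕ} (h : a < b) :
    (seg s a b).head? = some (s a) := by
  unfold seg
  obtain ⟨k, hk⟩ : ∃ k, b - a = k + 1 := ⟨b - a - 1, by omega⟩
  rw [hk, List.range'_succ]
  rfl

theorem seg_getLast? {α : Type*} (s : ℕ → α) {a b : ℕ} (h : a < b) :
    (seg s a b).getLast? = some (s (b - 1)) := by
  have e := seg_append s (a := a) (b := b - 1) (c := b) (by omega) (by omega)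
  have e2 : seg s (b - 1) b = [s (b - 1)] := by
    unfold seg
    have : b - (b - 1) = 1 := by omega
    rw [this]
    simp
  rw [← e, e2, List.getLast?_append]
  simp

theorem seg_rev_chain {α : Type*} {Γ : α → α → Prop} (symm : ∀ x y, Γ x y → Γ y x) {s : ℕ → α}
    {a b : ℕ} (h : ∀ i, a ≤ i → i + 1 < b → Γ (s i) (s (i + 1))) :
    (seg s a b).reverse.IsChain Γ := by
  rw [List.isChain_reverse]
  exact seg_chain (fun i h1 h2 => symm _ _ (h i h1 h2))

/-- Extension of `σ` to the natural numbers. -/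
def ext {α : Type*} {ℓ : ℕ} (hℓ : 0 < ℓ) (σ : Fin ℓ → α) (i : ℕ) : α :=
  if h : i < ℓ then σ ⟨i, h⟩ else σ ⟨0, hℓ⟩

theorem ext_eq {α : Type*} {ℓ : ℕ} (hℓ : 0 < ℓ) (σ : Fin ℓ → α) {i : ℕ} (h : i < ℓ) :
    ext hℓ σ i = σ ⟨i, h⟩ := by
  unfold ext
  rw [dif_pos h]

theorem seg_ext_eq {α : Type*} {ℓ : ℕ} (hℓ : 0 < ℓ) (σ : Fin ℓ → α) :
    seg (ext hℓ σ) 0 ℓ = List.ofFn σ := by
  apply List.ext_getElem
  · simp [seg]
  · intro i h1 h2
    simp only [List.length_ofFn] at h2
    simp only [seg, List.getElem_map, List.getElem_range', one_mul, List.getElem_ofFn, zero_add]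
    exact ext_eq hℓ σ h2

/-- No Hamilton path, for lists. -/
theorem HypII.noHamL {α β : Type*} {ℓ : ℕ} {S : Finset α} {W : Finset β} {A : β → α → Prop}
    {Γ : α → α → Prop} (H : HypII ℓ S W A Γ) (hℓ : 0 < ℓ) {σ : Fin ℓ → α}
    (hσ : Function.Injective σ) (hS : ∀ i, σ i ∈ S) (l : List α)
    (hl : l.Perm (seg (ext hℓ σ) 0 ℓ)) : ¬ l.IsChain Γ := by
  intro hc
  rw [seg_ext_eq] at hl
  have hlen : l.length = ℓ := by rw [hl.length_eq]; simp
  have hnd : l.Nodup := hl.nodup_iff.2 (List.nodup_ofFn.2 hσ)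
  have hmem : ∀ x ∈ l, x ∈ S := by
    intro x hx
    rw [hl.mem_iff, List.mem_ofFn] at hx
    obtain ⟨i, rfl⟩ := hx
    exact hS i
  refine H.noHam (fun i => l[(i : ℕ)]'(by rw [hlen]; exact i.2)) ?_ ?_ ?_
  · intro i j hij
    apply Fin.ext
    exact (List.Nodup.getElem_inj_iff hnd).1 hij
  · intro i
    exact hmem _ (List.getElem_mem _)
  · intro i j hij
    rw [List.isChain_iff_getElem] at hc
    have hj := j.2
    have := hc i (by rw [hlen]; omega)
    simp only [hij]
    exact this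

theorem chain_join {α : Type*} {Γ : α → α → Prop} {l₁ l₂ : List α} {x y : α}
    (h1 : l₁.IsChain Γ) (h2 : l₂.IsChain Γ) (hx : l₁.getLast? = some x) (hy : l₂.head? = some y)
    (h : Γ x y) : (l₁ ++ l₂).IsChain Γ := by
  refine h1.append h2 ?_
  intro a ha b hb
  rw [hx] at ha
  rw [hy] at hb
  simp only [Option.mem_def, Option.some.injEq] at ha hb
  subst ha hb
  exact h

section facts

variable {α β : Type*} {ℓ : ℕ} {S : Finset α} {W : Finset β} {A : β → α → Prop}
  {Γ : α → α → Prop} {p : ℕ} {σ : Fin ℓ → α} {τ : Fin ℓ → β}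

/-- All gaps except the one before `p` are `Γ`. -/
theorem IsII.gap (H : HypII ℓ S W A Γ) (h : IsII ℓ S W A p σ τ) (i j : Fin ℓ)
    (hij : (j : ℕ) = i + 1) (hp : (j : ℕ) ≠ p) : Γ (σ i) (σ j) := by
  have hne : σ i ≠ σ j := fun e => by
    have := congrArg Fin.val (h.σinj e)
    omega
  rcases lt_or_gt_of_ne hp with h1 | h1
  · exact H.clique (τ j) (h.τW j) _ (h.σS i) _ (h.σS j) (h.adj1 i j hij h1) (h.adj j) hne
  · exact H.clique (τ i) (h.τW i) _ (h.σS i) _ (h.σS j) (h.adj i) (h.adj2 i j hij (by omega)) hne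

theorem IsII.pos (h : IsII ℓ S W A p σ τ) : 0 < ℓ := by
  have := h.p1
  have := h.p2
  omega

/-- The same for the extension. -/
theorem IsII.gap' (H : HypII ℓ S W A Γ) (h : IsII ℓ S W A p σ τ) (hℓ : 0 < ℓ) (i : ℕ)
    (hi : i + 1 < ℓ) (hp : i + 1 ≠ p) : Γ (ext hℓ σ i) (ext hℓ σ (i + 1)) := by
  rw [ext_eq hℓ σ hi, ext_eq hℓ σ (by omega : i < ℓ)]
  exact h.gap H ⟨i, by omega⟩ ⟨i + 1, hi⟩ rfl hp

theorem IsII.chain1 (H : HypII ℓ S W A Γ) (h : IsII ℓ S W A p σ τ) (hℓ : 0 < ℓ) {a b : ℕ}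
    (hb : b ≤ p) : (seg (ext hℓ σ) a b).IsChain Γ :=
  seg_chain (fun i _ hi => h.gap' H hℓ i (by have := h.p2; omega) (by omega))

theorem IsII.chain2 (H : HypII ℓ S W A Γ) (h : IsII ℓ S W A p σ τ) (hℓ : 0 < ℓ) {a b : ℕ}
    (ha : p ≤ a) (hb : b ≤ ℓ) : (seg (ext hℓ σ) a b).IsChain Γ :=
  seg_chain (fun i _ hi => h.gap' H hℓ i (by omega) (by omega))

theorem IsII.chain1r (H : HypII ℓ S W A Γ) (h : IsII ℓ S W A p σ τ) (hℓ : 0 < ℓ) {a b : ℕ}
    (hb : b ≤ p) : (seg (ext hℓ σ) a b).reverse.IsChain Γ :=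
  seg_rev_chain H.symm (fun i _ hi => h.gap' H hℓ i (by have := h.p2; omega) (by omega))

theorem IsII.chain2r (H : HypII ℓ S W A Γ) (h : IsII ℓ S W A p σ τ) (hℓ : 0 < ℓ) {a b : ℕ}
    (ha : p ≤ a) (hb : b ≤ ℓ) : (seg (ext hℓ σ) a b).reverse.IsChain Γ :=
  seg_rev_chain H.symm (fun i _ hi => h.gap' H hℓ i (by omega) (by omega))

/-- f1 -/
theorem IsII.f1 (H : HypII ℓ S W A Γ) (h : IsII ℓ S W A p σ τ) (hℓ : 0 < ℓ) :
    ¬ Γ (ext hℓ σ (p - 1)) (ext hℓ σ p) := by
  intro hΓ
  have h1 := h.p1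
  have h2 := h.p2
  refine H.noHamL hℓ h.σinj h.σS _ (List.Perm.refl _) ?_
  refine seg_chain (fun i _ hi => ?_)
  by_cases hp : i + 1 = p
  · have e : i = p - 1 := by omega
    rw [hp, e]
    exact hΓ
  · exact h.gap' H hℓ i hi hp

/-- f2 -/
theorem IsII.f2 (H : HypII ℓ S W A Γ) (h : IsII ℓ S W A p σ τ) (hℓ : 0 < ℓ) :
    ¬ Γ (ext hℓ σ (ℓ - 1)) (ext hℓ σ 0) := by
  intro hΓ
  have h1 := h.p1
  have h2 := h.p2
  refine H.noHamL hℓ h.σinj h.σS (seg (ext hℓ σ) p ℓ ++ seg (ext hℓ σ) 0 p) ?_ ?_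
  · rw [← seg_append (ext hℓ σ) (a := 0) (b := p) (c := ℓ) (by omega) (by omega)]
    exact List.perm_append_comm
  · exact chain_join (h.chain2 H hℓ le_rfl le_rfl) (h.chain1 H hℓ le_rfl)
      (seg_getLast? _ (by omega)) (seg_head? _ (by omega)) hΓ

/-- Disjointness of the zones. -/
theorem IsII.fz (H : HypII ℓ S W A Γ) (h : IsII ℓ S W A p σ τ) (hℓ : 0 < ℓ) (j : ℕ)
    (hj : j + 1 < ℓ) (hjp : j + 1 ≠ p) (hy : Γ (ext hℓ σ 0) (ext hℓ σ (j + 1)))
    (hx : Γ (ext hℓ σ (ℓ - 1)) (ext hℓ σ j)) : False := by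
  have h1 := h.p1
  have h2 := h.p2
  rcases lt_or_gt_of_ne hjp with hlt | hgt
  · -- `j + 1 < p`
    refine H.noHamL hℓ h.σinj h.σS ((seg (ext hℓ σ) (j + 1) p).reverse ++
      (seg (ext hℓ σ) 0 (j + 1) ++ (seg (ext hℓ σ) p ℓ).reverse)) ?_ ?_
    · rw [← seg_append (ext hℓ σ) (a := 0) (b := p) (c := ℓ) (by omega) (by omega),
        ← seg_append (ext hℓ σ) (a := 0) (b := j + 1) (c := p) (by omega) (by omega)]
      rw [← List.append_assoc]
      refine List.Perm.append ?_ (List.reverse_perm _)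
      refine (List.Perm.append_right _ (List.reverse_perm _)).trans List.perm_append_comm
    · have c2 : (seg (ext hℓ σ) 0 (j + 1) ++ (seg (ext hℓ σ) p ℓ).reverse).IsChain Γ := by
        refine chain_join (x := ext hℓ σ j) (y := ext hℓ σ (ℓ - 1)) (h.chain1 H hℓ (by omega))
          (h.chain2r H hℓ le_rfl le_rfl) ?_ ?_ (H.symm _ _ hx)
        · rw [seg_getLast? _ (by omega)]; rfl
        · rw [List.head?_reverse, seg_getLast? _ (by omega)]
      refine chain_join (x := ext hℓ σ (j + 1)) (y := ext hℓ σ 0) (h.chain1r H hℓ le_rfl) c2 ?_ ?_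
        (H.symm _ _ hy)
      · rw [List.getLast?_reverse, seg_head? _ (by omega)]
      · rw [List.head?_append, seg_head? _ (by omega)]; rfl
  · -- `p ≤ j`
    refine H.noHamL hℓ h.σinj h.σS ((seg (ext hℓ σ) 0 p).reverse ++
      (seg (ext hℓ σ) (j + 1) ℓ ++ (seg (ext hℓ σ) p (j + 1)).reverse)) ?_ ?_
    · rw [← seg_append (ext hℓ σ) (a := 0) (b := p) (c := ℓ) (by omega) (by omega),
        ← seg_append (ext hℓ σ) (a := p) (b := j + 1) (c := ℓ) (by omega) (by omega)]
      refine List.Perm.append (List.reverse_perm _) ?_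
      refine (List.Perm.append_left _ (List.reverse_perm _)).trans List.perm_append_comm
    · have c2 : (seg (ext hℓ σ) (j + 1) ℓ ++ (seg (ext hℓ σ) p (j + 1)).reverse).IsChain Γ := by
        refine chain_join (x := ext hℓ σ (ℓ - 1)) (y := ext hℓ σ j)
          (h.chain2 H hℓ (by omega) le_rfl)
          (h.chain2r H hℓ le_rfl (by omega)) ?_ ?_ hx
        · rw [seg_getLast? _ (by omega)]
        · rw [List.head?_reverse, seg_getLast? _ (by omega)]; rfl
      refine chain_join (x := ext hℓ σ 0) (y := ext hℓ σ (j + 1)) (h.chain1r H hℓ le_rfl) c2 ?_ ?_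
        hy
      · rw [List.getLast?_reverse, seg_head? _ (by omega)]
      · rw [List.head?_append, seg_head? _ (by omega)]; rfl

/-- Reversal of a path of type II. -/
theorem IsII.rev (h : IsII ℓ S W A p σ τ) :
    IsII ℓ S W A (ℓ - p) (fun i => σ (Fin.rev i)) (fun i => τ (Fin.rev i)) where
  σinj := h.σinj.comp Fin.rev_injective
  σS := fun i => h.σS _
  τinj := h.τinj.comp Fin.rev_injective
  τW := fun i => h.τW _
  p1 := by have := h.p2; omega
  p2 := by have := h.p1; have := h.p2; omega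
  adj := fun i => h.adj _
  adj1 := fun i j hij hj => by
    refine h.adj2 (Fin.rev j) (Fin.rev i) ?_ ?_
    · rw [Fin.val_rev, Fin.val_rev]; have := j.2; omega
    · rw [Fin.val_rev]; have := j.2; have := h.p2; omega
  adj2 := fun i j hij hi => by
    refine h.adj1 (Fin.rev j) (Fin.rev i) ?_ ?_
    · rw [Fin.val_rev, Fin.val_rev]; have := j.2; omega
    · rw [Fin.val_rev]; have := i.2; have := j.2; have := h.p1; omega

/-- The lows are all in the image of `τ`. -/
theorem IsII.surj [DecidableEq β] (H : HypII ℓ S W A Γ) (h : IsII ℓ S W A p σ τ) {u : β}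
    (hu : u ∈ W) : ∃ i, τ i = u := by
  have himg : univ.image τ = W := by
    apply Finset.eq_of_subset_of_card_le
    · intro b hb
      obtain ⟨i, _, rfl⟩ := Finset.mem_image.1 hb
      exact h.τW i
    · rw [Finset.card_image_of_injective _ h.τinj, H.cardW]; simp
  rw [← himg] at hu
  obtain ⟨i, -, hi⟩ := Finset.mem_image.1 hu
  exact ⟨i, hi⟩

/-- The highs are all in the image of `σ`. -/
theorem IsII.surjS [DecidableEq α] (H : HypII ℓ S W A Γ) (h : IsII ℓ S W A p σ τ) {u : α}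
    (hu : u ∈ S) : ∃ i, σ i = u := by
  have himg : univ.image σ = S := by
    apply Finset.eq_of_subset_of_card_le
    · intro b hb
      obtain ⟨i, _, rfl⟩ := Finset.mem_image.1 hb
      exact h.σS i
    · rw [Finset.card_image_of_injective _ h.σinj, H.cardS]; simp
  rw [← himg] at hu
  obtain ⟨i, -, hi⟩ := Finset.mem_image.1 hu
  exact ⟨i, hi⟩

/-- f3, first half. -/
theorem IsII.f3 [DecidableEq β] (H : HypII ℓ S W A Γ)
    (two : ∀ v ∈ S, ∃ u ∈ W, ∃ u' ∈ W, u ≠ u' ∧ A u v ∧ A u' v)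
    (h : IsII ℓ S W A p σ τ) : 2 ≤ p := by
  have hℓ := h.pos
  have h1 := h.p1
  have h2 := h.p2
  by_contra hlt
  obtain rfl : p = 1 := by omega
  -- a second low of `σ 0`
  obtain ⟨j, hj0, hj⟩ : ∃ j : Fin ℓ, (j : ℕ) ≠ 0 ∧ A (τ j) (σ ⟨0, hℓ⟩) := by
    obtain ⟨u, hu, u', hu', hne, hA, hA'⟩ := two (σ ⟨0, hℓ⟩) (h.σS _)
    obtain ⟨i, rfl⟩ := h.surj H hu
    obtain ⟨i', rfl⟩ := h.surj H hu'
    by_cases hi : (i : ℕ) = 0
    · refine ⟨i', fun hi' => hne ?_, hA'⟩
      congr 1
      exact Fin.ext (by omega)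
    · exact ⟨i, hi, hA⟩
  have hj2 := j.2
  have s0 : ext hℓ σ 0 = σ ⟨0, hℓ⟩ := ext_eq hℓ σ hℓ
  have sj : ext hℓ σ j = σ j := ext_eq hℓ σ j.2
  -- adjacency of `σ 0` and `σ j`
  have hΓj : Γ (ext hℓ σ j) (ext hℓ σ 0) := by
    rw [s0, sj]
    refine H.clique _ (h.τW j) _ (h.σS _) _ (h.σS _) (h.adj j) hj ?_
    intro e
    exact hj0 (congrArg Fin.val (h.σinj e))
  by_cases hlast : (j : ℕ) + 1 = ℓ
  · have e : (j : ℕ) = ℓ - 1 := by omega
    rw [e] at hΓj
    exact h.f2 H hℓ hΓj
  · have hlt1 : (j : ℕ) + 1 < ℓ := by omega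
    have hΓj' : Γ (ext hℓ σ 0) (ext hℓ σ (j + 1)) := by
      rw [s0, ext_eq hℓ σ hlt1]
      refine H.clique _ (h.τW j) _ (h.σS _) _ (h.σS _) hj
        (h.adj2 j ⟨j + 1, hlt1⟩ rfl (by omega)) ?_
      intro e
      have := congrArg Fin.val (h.σinj e)
      simp at this
    -- insert
    refine H.noHamL hℓ h.σinj h.σS (seg (ext hℓ σ) 1 (j + 1) ++
      (seg (ext hℓ σ) 0 1 ++ seg (ext hℓ σ) (j + 1) ℓ)) ?_ ?_
    · rw [← seg_append (ext hℓ σ) (a := 0) (b := j + 1) (c := ℓ) (by omega) (by omega),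
        ← seg_append (ext hℓ σ) (a := 0) (b := 1) (c := j + 1) (by omega) (by omega),
        ← List.append_assoc]
      exact List.Perm.append_right _ List.perm_append_comm
    · refine chain_join (x := ext hℓ σ j) (y := ext hℓ σ 0) (h.chain2 H hℓ le_rfl (by omega)) ?_
        ?_ ?_ hΓj
      · refine chain_join (x := ext hℓ σ 0) (y := ext hℓ σ (j + 1)) (h.chain1 H hℓ le_rfl)
          (h.chain2 H hℓ (by omega) le_rfl) ?_ ?_ hΓj'
        · rw [seg_getLast? _ (by omega)]
        · rw [seg_head? _ (by omega)]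
      · rw [seg_getLast? _ (by omega)]; rfl
      · rw [List.head?_append, seg_head? _ (by omega)]; rfl

/-- f3, second half. -/
theorem IsII.f3' [DecidableEq β] (H : HypII ℓ S W A Γ)
    (two : ∀ v ∈ S, ∃ u ∈ W, ∃ u' ∈ W, u ≠ u' ∧ A u v ∧ A u' v)
    (h : IsII ℓ S W A p σ τ) : p + 2 ≤ ℓ := by
  have := h.rev.f3 H two
  omega

end facts

end P490135

end
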