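import Pool.Agent.Work.MP_490135_co.GDefs
import Pool.Agent.Work.MP_490135_co.Bd.B01

/-! Bundle of small proof modules (one section per former module). -/

section

/-!
# MP_490135_co: realisation lemmas (helper81)

Robust adjacency notions and the construction of long paths from chains of high vertices.
-/

namespace P490135

open SimpleGraph Finset

variable {V : Type*} [DecidableEq V] {G : SimpleGraph V}

/-- robust common neighbourhood -/
def Gam (G : SimpleGraph V) (K : ℕ) (x y : V) : Prop :=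
  ∀ X : Finset V, X.card ≤ K → ∃ z, z ∉ X ∧ G.Adj x z ∧ G.Adj z y

/-- robust degree -/
def Pen (G : SimpleGraph V) (K : ℕ) (x : V) : Prop :=
  ∀ X : Finset V, X.card ≤ K → ∃ z, z ∉ X ∧ G.Adj x z

/-- robust pendant edges -/
def DD (G : SimpleGraph V) (K : ℕ) (x : V) : Prop :=
  ∀ X : Finset V, X.card ≤ K → ∃ y z, y ∉ X ∧ z ∉ X ∧ G.Adj x y ∧ G.Adj y z

/-- a path, given by its list of vertices -/
def IsP (G : SimpleGraph V) (l : List V) : Prop := l.Nodup ∧ l.IsChain G.Adj

omit [DecidableEq V] in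
theorem IsP.reverse {l : List V} (h : IsP G l) : IsP G l.reverse := by
  refine ⟨List.nodup_reverse.mpr h.1, ?_⟩
  rw [List.isChain_reverse]
  exact h.2.imp (fun a b hab => hab.symm)

omit [DecidableEq V] in
theorem Gam.symm {K : ℕ} {x y : V} (h : Gam G K x y) : Gam G K y x := by
  intro X hX
  obtain ⟨z, hz, h1, h2⟩ := h X hX
  exact ⟨z, hz, h2.symm, h1.symm⟩

omit [DecidableEq V] in
theorem Gam.pen {K : ℕ} {x y : V} (h : Gam G K x y) : Pen G K x := by
  intro X hX
  obtain ⟨z, hz, h1, h2⟩ := h X hX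
  exact ⟨z, hz, h1⟩

theorem length_toFinset_le (l : List V) : l.toFinset.card ≤ l.length := List.toFinset_card_le l

/-- realise a chain of robustly connected vertices by a path avoiding a given set -/
theorem connect (K : ℕ) : ∀ (hs : List V) (X : Finset V), hs ≠ [] → hs.Nodup →
    hs.IsChain (Gam G K) → (∀ x ∈ hs, x ∉ X) → X.card + 2 * hs.length ≤ K →
    ∃ l : List V, IsP G l ∧ l.head? = hs.head? ∧ l.getLast? = hs.getLast? ∧
      l.length + 1 = 2 * hs.length ∧ (∀ x ∈ l, x ∉ X) ∧ (∀ x ∈ hs, x ∈ l)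
  | [], X, h, _, _, _, _ => absurd rfl h
  | [h], X, _, _, _, hX, _ => by
      refine ⟨[h], ⟨by simp, by simp⟩, rfl, rfl, by simp, hX, by simp⟩
  | h :: h' :: t, X, _, hnd, hch, hX, hK => by
      have hnd' : (h' :: t).Nodup := (List.nodup_cons.mp hnd).2
      have hh : h ∉ h' :: t := (List.nodup_cons.mp hnd).1
      have hch' : (h' :: t).IsChain (Gam G K) := hch.tail
      have hg : Gam G K h h' := by
        rw [List.isChain_cons_cons] at hch
        exact hch.1
      have hcard : (insert h X).card ≤ X.card + 1 := Finset.card_insert_le _ _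
      obtain ⟨l, hl, hd, hlast, hlen, havoid, hsub⟩ := connect K (h' :: t) (insert h X) (by simp)
        hnd' hch' (by
          intro x hx hxX
          rw [Finset.mem_insert] at hxX
          rcases hxX with rfl | hxX
          · exact hh hx
          · exact hX x (List.mem_cons_of_mem _ hx) hxX) (by
          simp only [List.length_cons] at hK ⊢
          omega)
      obtain ⟨z, hz, hz1, hz2⟩ := hg (insert h X ∪ l.toFinset) (by
        have h1 := Finset.card_union_le (insert h X) l.toFinset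
        have h2 := length_toFinset_le l
        simp only [List.length_cons] at hK hlen
        omega)
      simp only [Finset.mem_union, Finset.mem_insert, List.mem_toFinset, not_or] at hz
      have hne : l ≠ [] := by
        rintro rfl
        simp at hlen
        omega
      have hlh : l.head? = some h' := by rw [hd]; rfl
      refine ⟨h :: z :: l, ⟨?_, ?_⟩, rfl, ?_, ?_, ?_, ?_⟩
      · rw [List.nodup_cons, List.nodup_cons]
        refine ⟨?_, hz.2, hl.1⟩
        intro hmem
        rcases List.mem_cons.mp hmem with hmem | hmem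
        · exact hz.1.1 hmem.symm
        · exact havoid h hmem (Finset.mem_insert_self _ _)
      · rw [List.isChain_cons_cons]
        refine ⟨hz1, ?_⟩
        rw [List.isChain_cons]
        refine ⟨?_, hl.2⟩
        intro y hy
        rw [hlh] at hy
        simp only [Option.mem_def, Option.some.injEq] at hy
        subst hy
        exact hz2
      · rw [List.getLast?_cons_cons]
        cases l with
        | nil => exact absurd rfl hne
        | cons a l => rw [List.getLast?_cons_cons, hlast, List.getLast?_cons_cons]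
      · simp only [List.length_cons] at hlen ⊢
        omega
      · intro x hx
        rcases List.mem_cons.mp hx with rfl | hx
        · exact hX x List.mem_cons_self
        · rcases List.mem_cons.mp hx with rfl | hx
          · exact hz.1.2
          · intro hxX
            exact havoid x hx (Finset.mem_insert_of_mem hxX)
      · intro x hx
        rcases List.mem_cons.mp hx with rfl | hx
        · exact List.mem_cons_self
        · exact List.mem_cons_of_mem _ (List.mem_cons_of_mem _ (hsub x hx))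

/-- end extension by one or two vertices -/
def EE (G : SimpleGraph V) (K : ℕ) (e : ℕ) (x : V) : Prop :=
  (e = 1 ∧ Pen G K x) ∨ (e = 2 ∧ DD G K x)

theorem extend_head {K e : ℕ} {l : List V} {x : V} (hl : IsP G l) (hx : l.head? = some x)
    (he : EE G K e x) (hK : l.length ≤ K) :
    ∃ l' : List V, IsP G l' ∧ l'.length = l.length + e ∧ l'.getLast? = l.getLast? := by
  have hmem : x ∈ l := List.mem_of_mem_head? (by rw [hx]; rfl)
  have hcons : ∃ t, l = x :: t := by
    cases l with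
    | nil => simp at hx
    | cons a t =>
      simp only [List.head?_cons, Option.some.injEq] at hx
      exact ⟨t, by rw [hx]⟩
  obtain ⟨t, rfl⟩ := hcons
  rcases he with ⟨rfl, hp⟩ | ⟨rfl, hd⟩
  · obtain ⟨z, hz, hz1⟩ := hp (x :: t).toFinset ((length_toFinset_le _).trans hK)
    rw [List.mem_toFinset] at hz
    refine ⟨z :: x :: t, ⟨List.nodup_cons.mpr ⟨hz, hl.1⟩, ?_⟩, by simp, ?_⟩
    · rw [List.isChain_cons_cons]
      exact ⟨hz1.symm, hl.2⟩
    · rw [List.getLast?_cons_cons]
  · obtain ⟨y, z, hy, hz, h1, h2⟩ := hd (x :: t).toFinset ((length_toFinset_le _).trans hK)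
    rw [List.mem_toFinset] at hz hy
    refine ⟨z :: y :: x :: t, ⟨?_, ?_⟩, by simp, ?_⟩
    · rw [List.nodup_cons, List.nodup_cons]
      refine ⟨?_, hy, hl.1⟩
      intro hm
      rcases List.mem_cons.mp hm with hm | hm
      · exact h2.ne hm.symm
      · exact hz hm
    · rw [List.isChain_cons_cons, List.isChain_cons_cons]
      exact ⟨h2.symm, h1.symm, hl.2⟩
    · rw [List.getLast?_cons_cons, List.getLast?_cons_cons]

theorem extend_last {K e : ℕ} {l : List V} {x : V} (hl : IsP G l) (hx : l.getLast? = some x)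
    (he : EE G K e x) (hK : l.length ≤ K) :
    ∃ l' : List V, IsP G l' ∧ l'.length = l.length + e ∧ l'.head? = l.head? := by
  obtain ⟨l', h1, h2, h3⟩ := extend_head (K := K) (e := e) hl.reverse (x := x)
    (by rw [List.head?_reverse]; exact hx) he (by simpa using hK)
  refine ⟨l'.reverse, h1.reverse, by simpa using h2, ?_⟩
  rw [List.head?_reverse, h3, List.getLast?_reverse]

/-- realisation of a chain with prescribed end extensions -/
theorem R1 {K e₁ e₂ : ℕ} {hs : List V} {x y : V} (hnd : hs.Nodup)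
    (hch : hs.IsChain (Gam G K)) (hx : hs.head? = some x) (hy : hs.getLast? = some y)
    (h₁ : EE G K e₁ x) (h₂ : EE G K e₂ y) (hK : 2 * hs.length + 4 ≤ K) :
    ∃ l : List V, IsP G l ∧ l.length + 1 = 2 * hs.length + e₁ + e₂ := by
  have hne : hs ≠ [] := by rintro rfl; simp at hx
  obtain ⟨l, hl, hd, hlast, hlen, -, -⟩ := connect (G := G) K hs ∅ hne hnd hch (by simp)
    (by simp; omega)
  have he1 : e₁ ≤ 2 := by rcases h₁ with h | h <;> omega
  obtain ⟨l', hl', hlen', hlast'⟩ := extend_head hl (hd.trans hx) h₁ (by omega)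
  obtain ⟨l'', hl'', hlen'', -⟩ := extend_last hl' (hlast'.trans (hlast.trans hy)) h₂ (by omega)
  exact ⟨l'', hl'', by omega⟩

/-- realisation of two chains joined by a middle piece -/
theorem R2 {K e₁ e₂ : ℕ} {hs₁ hs₂ m : List V} {x x' y' y : V} (hnd : (hs₁ ++ hs₂).Nodup)
    (hch₁ : hs₁.IsChain (Gam G K)) (hch₂ : hs₂.IsChain (Gam G K))
    (hx : hs₁.head? = some x) (hx' : hs₁.getLast? = some x')
    (hy' : hs₂.head? = some y') (hy : hs₂.getLast? = some y)
    (hm : (x' :: m ++ [y']).IsChain G.Adj) (hmnd : m.Nodup)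
    (hm₁ : ∀ z ∈ m, z ∉ hs₁) (hm₂ : ∀ z ∈ m, z ∉ hs₂)
    (h₁ : EE G K e₁ x) (h₂ : EE G K e₂ y)
    (hK : 2 * (hs₁.length + hs₂.length) + m.length + 4 ≤ K) :
    ∃ l : List V, IsP G l ∧
      l.length + 2 = 2 * (hs₁.length + hs₂.length) + m.length + e₁ + e₂ := by
  have hne₁ : hs₁ ≠ [] := by rintro rfl; simp at hx
  have hne₂ : hs₂ ≠ [] := by rintro rfl; simp at hy
  rw [List.nodup_append] at hnd
  obtain ⟨hnd₁, hnd₂, hdisj⟩ := hnd
  obtain ⟨l₁, hl₁, hd₁, hlast₁, hlen₁, hav₁, -⟩ := connect (G := G) K hs₁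
    (hs₂.toFinset ∪ m.toFinset) hne₁ hnd₁ hch₁ (by
      intro z hz hz'
      rw [Finset.mem_union, List.mem_toFinset, List.mem_toFinset] at hz'
      rcases hz' with hz' | hz'
      · exact hdisj z hz z hz' rfl
      · exact hm₁ z hz' hz) (by
      have h1 := Finset.card_union_le hs₂.toFinset m.toFinset
      have h2 := length_toFinset_le hs₂
      have h3 := length_toFinset_le m
      omega)
  obtain ⟨l₂, hl₂, hd₂, hlast₂, hlen₂, hav₂, -⟩ := connect (G := G) K hs₂
    (l₁.toFinset ∪ m.toFinset) hne₂ hnd₂ hch₂ (by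
      intro z hz hz'
      rw [Finset.mem_union, List.mem_toFinset, List.mem_toFinset] at hz'
      rcases hz' with hz' | hz'
      · exact hav₁ z hz' (Finset.mem_union_left _ (List.mem_toFinset.mpr hz))
      · exact hm₂ z hz' hz) (by
      have h1 := Finset.card_union_le l₁.toFinset m.toFinset
      have h2 := length_toFinset_le l₁
      have h3 := length_toFinset_le m
      omega)
  have hl : IsP G (l₁ ++ (m ++ l₂)) := by
    constructor
    · rw [List.nodup_append, List.nodup_append]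
      refine ⟨hl₁.1, ⟨hmnd, hl₂.1, ?_⟩, ?_⟩
      · intro a ha b hb hab
        subst hab
        exact hav₂ a hb (Finset.mem_union_right _ (List.mem_toFinset.mpr ha))
      · intro a ha b hb hab
        subst hab
        rcases List.mem_append.mp hb with hb | hb
        · exact hav₁ a ha (Finset.mem_union_right _ (List.mem_toFinset.mpr hb))
        · exact hav₂ a hb (Finset.mem_union_left _ (List.mem_toFinset.mpr ha))
    · -- the chain
      rw [List.isChain_append]
      have e1 : l₁.getLast? = some x' := hlast₁.trans hx'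
      have e2 : l₂.head? = some y' := hd₂.trans hy'
      cases m with
      | nil =>
        simp only [List.nil_append]
        refine ⟨hl₁.2, hl₂.2, ?_⟩
        intro a ha b hb
        rw [e1] at ha
        rw [e2] at hb
        simp only [Option.mem_def, Option.some.injEq] at ha hb
        subst ha hb
        simpa using hm
      | cons c m' =>
        have hm' : G.Adj x' c ∧ ((c :: m') ++ [y']).IsChain G.Adj := by
          simpa [List.isChain_cons_cons] using hm
        refine ⟨hl₁.2, ?_, ?_⟩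
        · rw [List.isChain_append] at hm' ⊢
          refine ⟨hm'.2.1, hl₂.2, ?_⟩
          intro a ha b hb
          rw [e2] at hb
          exact hm'.2.2.2 a ha b (by simpa using hb)
        · intro a ha b hb
          rw [e1] at ha
          simp only [List.cons_append, List.head?_cons, Option.mem_def, Option.some.injEq] at ha hb
          subst ha hb
          exact hm'.1
  have hhead : (l₁ ++ (m ++ l₂)).head? = some x := by
    rw [List.head?_append_of_ne_nil _ (by rintro rfl; simp at hlen₁; omega)]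
    exact hd₁.trans hx
  have hlst : (l₁ ++ (m ++ l₂)).getLast? = some y := by
    rw [List.getLast?_append_of_ne_nil _ (by simp; rintro - rfl; simp at hlen₂; omega)]
    rw [List.getLast?_append_of_ne_nil _ (by rintro rfl; simp at hlen₂; omega)]
    exact hlast₂.trans hy
  have hlen : (l₁ ++ (m ++ l₂)).length = l₁.length + m.length + l₂.length := by
    simp; omega
  have he1 : e₁ ≤ 2 := by rcases h₁ with h | h <;> omega
  obtain ⟨l', hl', hlen', hlast'⟩ := extend_head hl hhead h₁ (by omega)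
  obtain ⟨l'', hl'', hlen'', -⟩ := extend_last hl' (hlast'.trans hlst) h₂ (by omega)
  exact ⟨l'', hl'', by omega⟩

end P490135

end

section

/-!
# MP_490135_co, item F: paths of type E (helper65)
-/

namespace P490135

open Finset Nat

theorem eb_fact {a b : ℕ} (ha : 2 ≤ a) (hb : 2 ≤ b) : a ! * b ! ≤ 2 * (a + b - 2)! := by
  obtain ⟨c, rfl⟩ : ∃ c, b = c + 2 := ⟨b - 2, by omega⟩
  have e : a + (c + 2) - 2 = a + c := by omega
  rw [e]
  clear e hb
  induction c with
  | zero => simp [Nat.mul_comm]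
  | succ c ih =>
    have h1 : (c + 1 + 2)! = (c + 3) * (c + 2)! := by
      rw [show c + 1 + 2 = (c + 2) + 1 by omega, Nat.factorial_succ]
    have h2 : (a + (c + 1))! = (a + c + 1) * (a + c)! := by
      rw [show a + (c + 1) = (a + c) + 1 by omega, Nat.factorial_succ]
    rw [h1, h2]
    calc a ! * ((c + 3) * (c + 2)!) = (c + 3) * (a ! * (c + 2)!) := by ring
      _ ≤ (a + c + 1) * (2 * (a + c)!) := Nat.mul_le_mul (by omega) ih
      _ = 2 * ((a + c + 1) * (a + c)!) := by ring

theorem eb_inj_card {β : Type*} [DecidableEq β] {M : ℕ} (W : Finset β) (hW : W.card = M)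
    (Q : Finset (Fin M → β)) (hQ : ∀ τ ∈ Q, Function.Injective τ ∧ (∀ i, τ i ∈ W)) :
    Q.card ≤ M ! := by
  have := zone W hW ∅ ∅ ∅ (by simp) (by simp) (by simp) (by simp) (by simp) (by simp)
    ∅ ∅ ∅ ∅ ∅ (by simp) (by simp) (by simp) (by simp) (by simp) Q
    (fun τ hτ => ⟨(hQ τ hτ).1, (hQ τ hτ).2, by simp, by simp, by simp, by simp, by simp⟩)
  simpa using this

section member

variable {α β : Type*} [DecidableEq α] [DecidableEq β] {N : ℕ} {R : Finset α} {W : Finset β}
  {A : β → α → Prop} {D : Finset α} {Γ Λ : α → α → Prop}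

omit [DecidableEq α] [DecidableEq β] in
theorem eb_chain (H : HypI N R W A D Γ Λ) {b : β} {σ : Fin N → α} {τ : Fin N → β}
    (h : IsE N R W A D b σ τ) : Chain Γ σ := by
  intro i j hij
  refine H.clique (τ i) (h.τW i) (σ i) (h.σR i) (σ j) (h.σR j) (h.adj i) (h.adj2 i j hij) ?_
  intro he
  have := h.σinj he
  rw [this] at hij
  omega

omit [DecidableEq α] [DecidableEq β] in
theorem eb_last (H : HypI N R W A D Γ Λ) {b : β} {σ : Fin N → α} {τ : Fin N → β}
    (h : IsE N R W A D b σ τ) (i : Fin N) (hi : (i : ℕ) + 1 = N) : σ i ∉ D := by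
  intro hD
  refine H.F1 σ h.σinj h.σR (eb_chain H h) ⟨h.σD, ?_⟩
  intro j hj
  have : j = i := Fin.ext (by omega)
  rw [this]
  exact hD

omit [DecidableEq α] [DecidableEq β] in
/-- Rotated Hamilton path. -/
theorem eb_ham (H : HypI N R W A D Γ Λ) {σ : Fin N → α} (hinj : Function.Injective σ)
    (hR : ∀ i, σ i ∈ R) (hch : Chain Γ σ) (h0 : ∀ i : Fin N, (i : ℕ) = 0 → σ i ∈ D)
    (l : Fin N) (hl : (l : ℕ) + 1 = N) (i j : Fin N) (hij : (j : ℕ) = i + 1)
    (hΓ : Γ (σ i) (σ l)) (hj : σ j ∈ D) : False := by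
  have hjN := j.2
  set σ' : Fin N → α := fun x => if hx : (x : ℕ) ≤ i then σ x else σ ⟨N + i - x, by omega⟩
    with hσ'
  have e1 : ∀ x : Fin N, (x : ℕ) ≤ i → σ' x = σ x := by
    intro x hx
    simp only [hσ', dif_pos hx]
  have e2 : ∀ (x : Fin N) (hx : ¬ (x : ℕ) ≤ i), σ' x = σ ⟨N + i - x, by omega⟩ := by
    intro x hx
    simp only [hσ', dif_neg hx]
  refine H.F1 σ' ?_ ?_ ?_ ⟨?_, ?_⟩
  · intro x y hxy
    by_cases hx : (x : ℕ) ≤ i <;> by_cases hy : (y : ℕ) ≤ i
    · rw [e1 x hx, e1 y hy] at hxy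
      exact hinj hxy
    · rw [e1 x hx, e2 y hy] at hxy
      have h3 := congrArg Fin.val (hinj hxy)
      simp only at h3
      have := y.2
      omega
    · rw [e2 x hx, e1 y hy] at hxy
      have h3 := congrArg Fin.val (hinj hxy)
      simp only at h3
      have := x.2
      omega
    · rw [e2 x hx, e2 y hy] at hxy
      have h3 := congrArg Fin.val (hinj hxy)
      simp only at h3
      have := x.2
      have := y.2
      exact Fin.ext (by omega)
  · intro x
    by_cases hx : (x : ℕ) ≤ i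
    · rw [e1 x hx]; exact hR _
    · rw [e2 x hx]; exact hR _
  · intro x y hxy
    have hyN := y.2
    by_cases hy : (y : ℕ) ≤ i
    · rw [e1 x (by omega), e1 y hy]
      exact hch x y hxy
    · by_cases hx : (x : ℕ) ≤ i
      · have hxi : x = i := Fin.ext (by omega)
        rw [e1 x hx, e2 y hy, hxi]
        have : (⟨N + i - y, by omega⟩ : Fin N) = l := Fin.ext (by simp only; omega)
        rw [this]
        exact hΓ
      · rw [e2 x hx, e2 y hy]
        apply H.symm
        apply hch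
        simp only
        omega
  · intro x hx
    rw [e1 x (by omega)]
    exact h0 x hx
  · intro x hx
    rw [e2 x (by omega)]
    have : (⟨N + i - x, by omega⟩ : Fin N) = j := Fin.ext (by simp only; omega)
    rw [this]
    exact hj

omit [DecidableEq β] in
/-- The orders. -/
theorem eb_orders (H : HypI N R W A D Γ Λ) (hN : 3 ≤ N)
    (Q : Finset (β × (Fin N → α) × (Fin N → β)))
    (hQ : ∀ x ∈ Q, IsE N R W A D x.1 x.2.1 x.2.2) :
    2 * (Q.image (fun x => x.2.1)).card ≤ N ! := by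
  set O := Q.image (fun x => x.2.1) with hO
  have hO' : ∀ σ ∈ O, Function.Injective σ ∧ (∀ i, σ i ∈ R) ∧ σ ⟨0, by omega⟩ ∈ D ∧
      σ ⟨N - 1, by omega⟩ ∉ D := by
    intro σ hσ
    rw [hO, mem_image] at hσ
    obtain ⟨x, hx, rfl⟩ := hσ
    have h := hQ x hx
    exact ⟨h.σinj, h.σR, h.σD _ rfl, eb_last H h _ (by simp only; omega)⟩
  set O' := O.image (fun σ : Fin N → α => σ ∘ Fin.rev) with hO'def
  have hcard : O'.card = O.card := by
    apply Finset.card_image_of_injective
    intro σ σ' h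
    funext i
    have := congrFun h (Fin.rev i)
    simpa using this
  have hdisj : Disjoint O O' := by
    rw [Finset.disjoint_left]
    intro σ h1 h2
    rw [hO'def, mem_image] at h2
    obtain ⟨σ', h3, h4⟩ := h2
    have h5 := (hO' σ h1).2.2.1
    have h6 := (hO' σ' h3).2.2.2
    rw [← h4] at h5
    apply h6
    convert h5 using 2
    simp [Fin.rev]
  have h7 := eb_inj_card R H.cardR (O ∪ O') (by
    intro σ hσ
    rw [mem_union] at hσ
    rcases hσ with hσ | hσ
    · exact ⟨(hO' σ hσ).1, (hO' σ hσ).2.1⟩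
    · rw [hO'def, mem_image] at hσ
      obtain ⟨σ', h3, rfl⟩ := hσ
      exact ⟨(hO' σ' h3).1.comp Fin.rev_injective, fun i => (hO' σ' h3).2.1 _⟩)
  rw [card_union_of_disjoint hdisj, hcard] at h7
  omega

/-- first bound for the fibres -/
theorem eb_fib1 (H : HypI N R W A D Γ Λ) (hN : 3 ≤ N)
    (Q : Finset (β × (Fin N → α) × (Fin N → β)))
    (hQ : ∀ x ∈ Q, IsE N R W A D x.1 x.2.1 x.2.2) (b : β) (σ : Fin N → α) :
    2 * (Q.filter (fun x => (x.1, x.2.1) = (b, σ))).card ≤ N ! := by
  set T := Q.filter (fun x => (x.1, x.2.1) = (b, σ)) with hT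
  rcases T.eq_empty_or_nonempty with h0 | ⟨x₀, hx₀⟩
  · rw [h0]; simp
  have hmem : ∀ x ∈ T, x ∈ Q ∧ x.1 = b ∧ x.2.1 = σ := by
    intro x hx
    rw [hT, mem_filter, Prod.mk.injEq] at hx
    exact ⟨hx.1, hx.2.1, hx.2.2⟩
  have hinj : Set.InjOn (fun x : β × (Fin N → α) × (Fin N → β) => x.2.2) T := by
    intro x hx y hy hxy
    have h1 := hmem x hx
    have h2 := hmem y hy
    exact Prod.ext (h1.2.1.trans h2.2.1.symm) (Prod.ext (h1.2.2.trans h2.2.2.symm) hxy)
  rw [← Finset.card_image_of_injOn hinj]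
  obtain ⟨hx₁, hb, hσ⟩ := hmem x₀ hx₀
  have hE := hQ x₀ hx₁
  rw [hb, hσ] at hE
  have hWb : (W.erase b).card = N := by
    rw [card_erase_of_mem hE.bW, H.cardW]; rfl
  -- `σ` is onto `R`
  have hsurj : ∀ y ∈ R, ∃ i, σ i = y := by
    have h1 : univ.image σ = R := by
      apply eq_of_subset_of_card_le
      · intro y hy
        rw [mem_image] at hy
        obtain ⟨i, _, rfl⟩ := hy
        exact hE.σR i
      · rw [Finset.card_image_of_injective _ hE.σinj, H.cardR, Finset.card_univ, Fintype.card_fin]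
    intro y hy
    rw [← h1, mem_image] at hy
    obtain ⟨i, _, hi⟩ := hy
    exact ⟨i, hi⟩
  have hforb : ∀ u : β, ∃ i : Fin N, u ∈ W → ¬ A u (σ i) := by
    intro u
    by_cases hu : u ∈ W
    · obtain ⟨y, hy, hA⟩ := H.miss u hu
      obtain ⟨i, rfl⟩ := hsurj y hy
      exact ⟨i, fun _ => hA⟩
    · exact ⟨⟨0, by omega⟩, fun h => absurd h hu⟩
  choose forb hforb using hforb
  apply bon1 (by omega) (W.erase b) hWb forb
  intro τ hτ
  rw [mem_image] at hτ
  obtain ⟨x, hx, rfl⟩ := hτ
  obtain ⟨h1, h2, h3⟩ := hmem x hx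
  have h4 := hQ x h1
  rw [h2, h3] at h4
  refine ⟨h4.τinj, fun i => mem_erase.2 ⟨h4.τb i, h4.τW i⟩, ?_⟩
  intro i hi
  have h5 := hforb (x.2.2 i) (h4.τW i)
  rw [hi] at h5
  exact h5 (h4.adj i)

/-- second bound for the fibres -/
theorem eb_fib2 (H : HypI N R W A D Γ Λ) (hN : 3 ≤ N)
    (Q : Finset (β × (Fin N → α) × (Fin N → β)))
    (hQ : ∀ x ∈ Q, IsE N R W A D x.1 x.2.1 x.2.2) (hJ : 2 ≤ (Q.image Prod.fst).card)
    (b : β) (σ : Fin N → α) :
    (Q.image Prod.fst).card * (Q.filter (fun x => (x.1, x.2.1) = (b, σ))).card ≤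
      2 * (N - 1)! := by
  classical
  set J := Q.image Prod.fst with hJdef
  set T := Q.filter (fun x => (x.1, x.2.1) = (b, σ)) with hT
  rcases T.eq_empty_or_nonempty with h0 | ⟨x₀, hx₀⟩
  · rw [h0]; simp
  have hmem : ∀ x ∈ T, x ∈ Q ∧ x.1 = b ∧ x.2.1 = σ := by
    intro x hx
    rw [hT, mem_filter, Prod.mk.injEq] at hx
    exact ⟨hx.1, hx.2.1, hx.2.2⟩
  have hinj : Set.InjOn (fun x : β × (Fin N → α) × (Fin N → β) => x.2.2) T := by
    intro x hx y hy hxy
    have h1 := hmem x hx
    have h2 := hmem y hy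
    exact Prod.ext (h1.2.1.trans h2.2.1.symm) (Prod.ext (h1.2.2.trans h2.2.2.symm) hxy)
  rw [← Finset.card_image_of_injOn hinj]
  obtain ⟨hx₁, hb, hσ⟩ := hmem x₀ hx₀
  have hE := hQ x₀ hx₁
  rw [hb, hσ] at hE
  have hbJ : b ∈ J := by
    rw [hJdef, mem_image]
    exact ⟨x₀, hx₁, hb⟩
  have hWb : (W.erase b).card = N := by
    rw [card_erase_of_mem hE.bW, H.cardW]; rfl
  have hch := eb_chain H hE
  obtain ⟨l, hl⟩ : ∃ l : Fin N, (l : ℕ) + 1 = N := ⟨⟨N - 1, by omega⟩, by simp only; omega⟩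
  obtain ⟨l', hl'⟩ : ∃ l' : Fin N, (l' : ℕ) + 2 = N := ⟨⟨N - 2, by omega⟩, by simp only; omega⟩
  have hll' : l ≠ l' := by
    intro h
    rw [h] at hl
    omega
  have hρ : σ l ∉ D := eb_last H hE l hl
  have hJW : ∀ u ∈ J, u ∈ W ∧ ∀ h ∈ R, A u h → h ∈ D := by
    intro u hu
    rw [hJdef, mem_image] at hu
    obtain ⟨x, hx, rfl⟩ := hu
    exact ⟨(hQ x hx).bW, (hQ x hx).bD⟩
  set L₁ := (W.erase b).filter (fun u => A u (σ l)) with hL₁
  set L₃ := J.erase b with hL₃
  have hd : Disjoint L₁ L₃ := by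
    rw [Finset.disjoint_left]
    intro u h1 h2
    rw [hL₁, mem_filter] at h1
    rw [hL₃, mem_erase] at h2
    exact hρ ((hJW u h2.2).2 _ (hE.σR l) h1.2)
  set Z₁ : Finset (Fin N) := univ.filter (fun i => (σ i = σ l ∨ Γ (σ i) (σ l)) ∧
    ∀ j : Fin N, (j : ℕ) = i + 1 → (σ j = σ l ∨ Γ (σ j) (σ l))) with hZ₁
  set Z₃ : Finset (Fin N) := univ.filter (fun i => σ i ∈ D ∧
    ∀ j : Fin N, (j : ℕ) = i + 1 → σ j ∈ D) with hZ₃
  have hzd : Disjoint Z₁ Z₃ := by
    rw [Finset.disjoint_left]
    intro i h1 h2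
    rw [hZ₁, mem_filter] at h1
    rw [hZ₃, mem_filter] at h2
    have hil : i ≠ l := by
      intro h
      rw [h] at h2
      exact hρ h2.2.1
    have hi : (i : ℕ) + 1 < N := by
      have := i.2
      have h3 : (i : ℕ) ≠ l := fun h => hil (Fin.ext h)
      omega
    have h4 := h2.2.2 ⟨i + 1, hi⟩ rfl
    have h5 : Γ (σ i) (σ l) := by
      rcases h1.2.1 with h | h
      · exact absurd (h ▸ h2.2.1) hρ
      · exact h
    exact eb_ham H hE.σinj hE.σR hch hE.σD l hl i ⟨i + 1, hi⟩ rfl h5 h4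
  have hF : ({l, l'} : Finset (Fin N)) ⊆ Z₁ := by
    intro i hi
    rw [mem_insert, mem_singleton] at hi
    rw [hZ₁, mem_filter]
    rcases hi with rfl | rfl
    · refine ⟨mem_univ _, Or.inl rfl, ?_⟩
      intro j hj
      have := j.2
      omega
    · refine ⟨mem_univ _, Or.inr (hch _ _ (by omega)), ?_⟩
      intro j hj
      have : j = l := Fin.ext (by omega)
      rw [this]
      exact Or.inl rfl
  have hTz : ∀ τ ∈ T.image (fun x => x.2.2), Function.Injective τ ∧ (∀ i, τ i ∈ W.erase b) ∧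
      (∀ i, A (τ i) (σ i)) ∧ (∀ i j : Fin N, (j : ℕ) = i + 1 → A (τ i) (σ j)) := by
    intro τ hτ
    rw [mem_image] at hτ
    obtain ⟨x, hx, rfl⟩ := hτ
    obtain ⟨h1, h2, h3⟩ := hmem x hx
    have h4 := hQ x h1
    rw [h2, h3] at h4
    exact ⟨h4.τinj, fun i => mem_erase.2 ⟨h4.τb i, h4.τW i⟩, h4.adj, h4.adj2⟩
  have hadj : ∀ u ∈ W, A u (σ l) → ∀ i, A u (σ i) → σ i = σ l ∨ Γ (σ i) (σ l) := by
    intro u hu h1 i h2
    by_cases h : σ i = σ l
    · exact Or.inl h
    · exact Or.inr (H.clique u hu _ (hE.σR i) _ (hE.σR l) h2 h1 h)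
  have hFcard : ({l, l'} : Finset (Fin N)).card = 2 := card_pair hll'
  have hz := zone (W.erase b) hWb L₁ ∅ L₃ (filter_subset _ _) (empty_subset _)
    (fun u hu => by
      rw [hL₃, mem_erase] at hu
      exact mem_erase.2 ⟨hu.1, (hJW u hu.2).1⟩)
    (disjoint_empty_right _) hd (disjoint_empty_left _)
    Z₁ ∅ Z₃ {l, l'} ∅ (disjoint_empty_right _) hzd (disjoint_empty_left _) hF (empty_subset _)
    (T.image (fun x => x.2.2))
    (fun τ hτ => by
      obtain ⟨h1, h2, h3, h4⟩ := hTz τ hτ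
      refine ⟨h1, h2, ?_, ?_, ?_, ?_, ?_⟩
      · intro i hi
        rw [hL₁, mem_filter] at hi
        have hW := mem_of_mem_erase hi.1
        rw [hZ₁, mem_filter]
        exact ⟨mem_univ _, hadj _ hW hi.2 i (h3 i), fun j hj => hadj _ hW hi.2 j (h4 i j hj)⟩
      · intro i hi
        exact absurd hi (notMem_empty _)
      · intro i hi
        rw [hL₃, mem_erase] at hi
        rw [hZ₃, mem_filter]
        exact ⟨mem_univ _, (hJW _ hi.2).2 _ (hE.σR i) (h3 i),
          fun j hj => (hJW _ hi.2).2 _ (hE.σR j) (h4 i j hj)⟩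
      · intro i hi
        rw [mem_insert, mem_singleton] at hi
        rw [hL₁, mem_filter]
        refine ⟨h2 i, ?_⟩
        rcases hi with rfl | rfl
        · exact h3 _
        · exact h4 _ _ (by omega)
      · intro i hi
        exact absurd hi (notMem_empty _))
  rw [hFcard] at hz
  simp only [card_empty, add_zero, Nat.sub_zero, Nat.factorial_zero, mul_one] at hz
  -- sizes
  have hL₃card : L₃.card + 1 = J.card := by
    rw [hL₃, card_erase_of_mem hbJ]
    omega
  have hL₁card : 2 ≤ L₁.card := by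
    have h1 : x₀.2.2 ∈ T.image (fun x => x.2.2) := mem_image_of_mem _ hx₀
    obtain ⟨h2, h3, h4, h5⟩ := hTz _ h1
    have h6 : ({x₀.2.2 l, x₀.2.2 l'} : Finset β) ⊆ L₁ := by
      intro u hu
      rw [mem_insert, mem_singleton] at hu
      rw [hL₁, mem_filter]
      rcases hu with rfl | rfl
      · exact ⟨h3 _, h4 _⟩
      · exact ⟨h3 _, h5 _ _ (by omega)⟩
    calc 2 = ({x₀.2.2 l, x₀.2.2 l'} : Finset β).card := by
          rw [card_pair (fun h => hll' (h2 h))]
      _ ≤ L₁.card := card_le_card h6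
  have hsum : L₁.card + L₃.card ≤ N := by
    rw [← card_union_of_disjoint hd, ← hWb]
    apply card_le_card
    apply union_subset (filter_subset _ _)
    intro u hu
    rw [hL₃, mem_erase] at hu
    exact mem_erase.2 ⟨hu.1, (hJW u hu.2).1⟩
  rw [← hL₃card]
  set t := (T.image (fun x => x.2.2)).card with ht
  set r := L₁.card with hr
  set q := L₃.card with hq
  have hq1 : 1 ≤ q := by omega
  -- numbers
  have h1 : (q + 1)! * r ! ≤ 2 * (q + r - 1)! := by
    have := eb_fact (a := q + 1) (b := r) (by omega) hL₁card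
    have e : q + 1 + r - 2 = q + r - 1 := by omega
    rw [e] at this
    exact this
  have h2 : (q + 1) * t * (r + q - 2)! ≤ 2 * (N - 1)! * (r + q - 2)! := by
    calc (q + 1) * t * (r + q - 2)! = (q + 1) * (t * (r + q - 2)!) := by ring
      _ ≤ (q + 1) * (r ! * q ! * (N - 2)!) := Nat.mul_le_mul_left _ hz
      _ = (q + 1)! * r ! * (N - 2)! := by rw [Nat.factorial_succ]; ring
      _ ≤ 2 * (q + r - 1)! * (N - 2)! := Nat.mul_le_mul_right _ h1
      _ = 2 * ((q + r - 1) * (r + q - 2)!) * (N - 2)! := by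
          rw [show q + r - 1 = (r + q - 2) + 1 by omega, Nat.factorial_succ]
      _ ≤ 2 * ((N - 1) * (r + q - 2)!) * (N - 2)! := by
          gcongr
          omega
      _ = 2 * (N - 1)! * (r + q - 2)! := by
          rw [show N - 1 = (N - 2) + 1 by omega, Nat.factorial_succ]; ring
  exact Nat.le_of_mul_le_mul_right h2 (Nat.factorial_pos _)

end member

/-- E. -/
theorem E_bound {α β : Type*} [DecidableEq α] [DecidableEq β] {N : ℕ} (hN : 3 ≤ N)
    (R : Finset α) (W : Finset β) (A : β → α → Prop) (D : Finset α) (Γ Λ : α → α → Prop)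
    (H : HypI N R W A D Γ Λ) (Q : Finset (β × (Fin N → α) × (Fin N → β)))
    (hQ : ∀ x ∈ Q, IsE N R W A D x.1 x.2.1 x.2.2) :
    4 * Q.card ≤ max (N ! * N !) (4 * (N ! * (N - 1)!)) := by
  classical
  set J := Q.image Prod.fst with hJ
  set O := Q.image (fun x => x.2.1) with hO
  have hOc : 2 * O.card ≤ N ! := eb_orders H hN Q hQ
  set P := Q.image (fun x => (x.1, x.2.1)) with hP
  have hPc : P.card ≤ J.card * O.card := by
    rw [← card_product]
    apply card_le_card
    intro y hy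
    rw [hP, mem_image] at hy
    obtain ⟨x, hx, rfl⟩ := hy
    exact mem_product.2 ⟨mem_image_of_mem _ hx, mem_image_of_mem _ hx⟩
  rcases Nat.lt_or_ge J.card 2 with h | h
  · apply le_max_of_le_left
    have h1 : Q.card ≤ (N ! / 2) * P.card := by
      apply card_le_mul_card_image
      rintro ⟨b, σ⟩ _
      have := eb_fib1 H hN Q hQ b σ
      omega
    have h2 : P.card ≤ O.card := by
      calc P.card ≤ J.card * O.card := hPc
        _ ≤ 1 * O.card := Nat.mul_le_mul_right _ (by omega)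
        _ = O.card := one_mul _
    calc 4 * Q.card ≤ 4 * ((N ! / 2) * P.card) := Nat.mul_le_mul_left _ h1
      _ = (N ! / 2 * 2) * (2 * P.card) := by ring
      _ ≤ N ! * N ! := Nat.mul_le_mul (Nat.div_mul_le_self _ _) (by omega)
  · apply le_max_of_le_right
    have h1 : Q.card ≤ (2 * (N - 1)! / J.card) * P.card := by
      apply card_le_mul_card_image
      rintro ⟨b, σ⟩ _
      have := eb_fib2 H hN Q hQ h b σ
      rw [Nat.le_div_iff_mul_le (by omega), mul_comm]
      exact this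
    have h2 : Q.card ≤ N ! * (N - 1)! := by
      calc Q.card ≤ (2 * (N - 1)! / J.card) * P.card := h1
        _ ≤ (2 * (N - 1)! / J.card) * (J.card * O.card) := Nat.mul_le_mul_left _ hPc
        _ = (2 * (N - 1)! / J.card * J.card) * O.card := by ring
        _ ≤ (2 * (N - 1)!) * O.card := Nat.mul_le_mul_right _ (Nat.div_mul_le_self _ _)
        _ = (2 * O.card) * (N - 1)! := by ring
        _ ≤ N ! * (N - 1)! := Nat.mul_le_mul_right _ hOc
    omega

end P490135

end

section

/-!
# MP_490135_co, item D: type II, case alpha (helper15)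
-/

namespace P490135

open Finset Nat

/-- `r! s! ≤ 2 (r + s - 2)!`. -/
theorem fact_two_le (r s : ℕ) : (r + 2)! * (s + 2)! ≤ 2 * (r + s + 2)! := by
  induction s with
  | zero => simp [Nat.factorial]; ring_nf; rfl
  | succ s ih =>
    have e1 : (s + 1 + 2)! = (s + 3) * (s + 2)! := by
      rw [show s + 1 + 2 = (s + 2) + 1 from by ring, Nat.factorial_succ]
    have e2 : (r + (s + 1) + 2)! = (r + s + 3) * (r + s + 2)! := by
      rw [show r + (s + 1) + 2 = (r + s + 2) + 1 from by ring, Nat.factorial_succ]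
    rw [e1, e2]
    calc (r + 2)! * ((s + 3) * (s + 2)!) = (s + 3) * ((r + 2)! * (s + 2)!) := by ring
      _ ≤ (r + s + 3) * (2 * (r + s + 2)!) := Nat.mul_le_mul (by omega) ih
      _ = 2 * ((r + s + 3) * (r + s + 2)!) := by ring

/-- The numerical part. -/
theorem num_alpha {ℓ r s c : ℕ} (hr : 2 ≤ r) (hs : 2 ≤ s) (hrs : r + s ≤ ℓ)
    (h : c * (r + s - 2 - 2)! ≤ r ! * s ! * (ℓ - 2 - 2)!) : c ≤ 2 * (ℓ - 2)! := by
  obtain ⟨r, rfl⟩ : ∃ r', r = r' + 2 := ⟨r - 2, by omega⟩
  obtain ⟨s, rfl⟩ : ∃ s', s = s' + 2 := ⟨s - 2, by omega⟩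
  obtain ⟨l, rfl⟩ : ∃ l', ℓ = l' + 4 := ⟨ℓ - 4, by omega⟩
  have e1 : r + 2 + (s + 2) - 2 - 2 = r + s := by omega
  have e2 : l + 4 - 2 - 2 = l := by omega
  have e3 : l + 4 - 2 = l + 2 := by omega
  rw [e1, e2] at h
  rw [e3]
  have h1 := fact_two_le r s
  have e4 : (r + s + 2)! = (r + s + 2) * (r + s + 1) * (r + s)! := by
    rw [Nat.factorial_succ, Nat.factorial_succ]; ring
  have e5 : (l + 2)! = (l + 2) * (l + 1) * l ! := by
    rw [Nat.factorial_succ, Nat.factorial_succ]; ring
  have hpos : 0 < (r + s)! := Nat.factorial_pos _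
  refine Nat.le_of_mul_le_mul_right ?_ hpos
  calc c * (r + s)! ≤ (r + 2)! * (s + 2)! * l ! := h
    _ ≤ 2 * (r + s + 2)! * l ! := Nat.mul_le_mul_right _ h1
    _ = 2 * ((r + s + 2) * (r + s + 1)) * (r + s)! * l ! := by rw [e4]; ring
    _ ≤ 2 * ((l + 2) * (l + 1)) * (r + s)! * l ! := by
      refine Nat.mul_le_mul_right _ (Nat.mul_le_mul_right _ (Nat.mul_le_mul_left _ ?_))
      exact Nat.mul_le_mul (by omega) (by omega)
    _ = 2 * (l + 2)! * (r + s)! := by rw [e5]; ring

section

variable {α β : Type*} {ℓ : ℕ} {S : Finset α} {W : Finset β} {A : β → α → Prop}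
  {Γ : α → α → Prop} {p : ℕ} {σ : Fin ℓ → α}

/-- The highs with index `k` of the slot `i`. -/
def slotRel (p i k : ℕ) : Prop := k = i ∨ (k + 1 = i ∧ i < p) ∨ (k = i + 1 ∧ p ≤ i)

theorem IsII.slot {τ : Fin ℓ → β} (h : IsII ℓ S W A p σ τ) {i k : Fin ℓ} (hs : slotRel p i k) :
    A (τ i) (σ k) := by
  rcases hs with hs | ⟨hs, hp⟩ | ⟨hs, hp⟩
  · obtain rfl : k = i := Fin.ext hs
    exact h.adj k
  · exact h.adj1 k i (by omega) hp
  · exact h.adj2 i k hs hp

/-- f5: the number of `τ` for fixed `p, σ`. -/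
theorem II_tau [DecidableEq α] [DecidableEq β] (H : HypII ℓ S W A Γ)
    (two : ∀ v ∈ S, ∃ u ∈ W, ∃ u' ∈ W, u ≠ u' ∧ A u v ∧ A u' v)
    (T : Finset (Fin ℓ → β)) (hT : ∀ τ ∈ T, IsII ℓ S W A p σ τ) : T.card ≤ 2 * (ℓ - 2)! := by
  classical
  rcases T.eq_empty_or_nonempty with rfl | ⟨τ₀, hτ₀⟩
  · simp
  have h0 := hT τ₀ hτ₀
  have hℓ := h0.pos
  have hp2 := h0.f3 H two
  have hp3 := h0.f3' H two
  set ρ₁ := σ ⟨0, hℓ⟩ with hρ₁
  set ρ₂ := σ ⟨ℓ - 1, by omega⟩ with hρ₂
  have s0 : ext hℓ σ 0 = ρ₁ := ext_eq hℓ σ hℓ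
  have sl : ext hℓ σ (ℓ - 1) = ρ₂ := ext_eq hℓ σ (by omega)
  have hf2 : ¬ Γ ρ₂ ρ₁ := by
    have := h0.f2 H hℓ
    rwa [s0, sl] at this
  have hne12 : ρ₁ ≠ ρ₂ := by
    intro e
    have := congrArg Fin.val (h0.σinj e)
    simp at this
    omega
  set L₁ := W.filter (fun u => A u ρ₁) with hL₁
  set L₂ := W.filter (fun u => A u ρ₂) with hL₂
  have hdL : Disjoint L₁ L₂ := by
    rw [Finset.disjoint_left]
    intro u h1 h2
    rw [hL₁, Finset.mem_filter] at h1
    rw [hL₂, Finset.mem_filter] at h2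
    exact hf2 (H.clique u h1.1 _ (h0.σS _) _ (h0.σS _) h2.2 h1.2 hne12.symm)
  set Z₁ : Finset (Fin ℓ) := univ.filter
    (fun i => ∀ k : Fin ℓ, slotRel p i k → σ k = ρ₁ ∨ Γ ρ₁ (σ k)) with hZ₁
  set Z₂ : Finset (Fin ℓ) := univ.filter
    (fun i => ∀ k : Fin ℓ, slotRel p i k → σ k = ρ₂ ∨ Γ ρ₂ (σ k)) with hZ₂
  have hdZ : Disjoint Z₁ Z₂ := by
    rw [Finset.disjoint_left]
    intro i h1 h2
    rw [hZ₁, Finset.mem_filter] at h1
    rw [hZ₂, Finset.mem_filter] at h2
    have h1 := h1.2
    have h2 := h2.2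
    have hi := i.2
    -- the case of the middle slots
    have mid : ∀ j : ℕ, ∀ hj : j + 1 < ℓ, j + 1 ≠ p → slotRel p i j → slotRel p i (j + 1) →
        False := by
      intro j hj hjp hs1 hs2
      have a1 := h1 ⟨j + 1, hj⟩ hs2
      have a2 := h2 ⟨j, by omega⟩ hs1
      have a1' : Γ ρ₁ (σ ⟨j + 1, hj⟩) := by
        rcases a1 with a1 | a1
        · have := congrArg Fin.val (h0.σinj a1)
          simp at this
        · exact a1
      have a2' : Γ ρ₂ (σ ⟨j, by omega⟩) := by
        rcases a2 with a2 | a2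
        · have := congrArg Fin.val (h0.σinj a2)
          simp at this
          omega
        · exact a2
      refine h0.fz H hℓ j hj hjp ?_ ?_
      · rw [s0, ext_eq hℓ σ hj]; exact a1'
      · rw [sl, ext_eq hℓ σ (by omega)]; exact a2'
    by_cases hi0 : (i : ℕ) = 0
    · have a2 := h2 i (Or.inl rfl)
      have e : i = ⟨0, hℓ⟩ := Fin.ext hi0
      rw [e, ← hρ₁] at a2
      rcases a2 with a2 | a2
      · exact hne12 a2
      · exact hf2 a2
    by_cases hil : (i : ℕ) = ℓ - 1
    · have a1 := h1 i (Or.inl rfl)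
      have e : i = ⟨ℓ - 1, by omega⟩ := Fin.ext hil
      rw [e, ← hρ₂] at a1
      rcases a1 with a1 | a1
      · exact hne12 a1.symm
      · exact hf2 (H.symm _ _ a1)
    by_cases hip : (i : ℕ) < p
    · refine mid (i - 1) (by omega) (by omega) ?_ ?_
      · right; left; constructor <;> omega
      · left; omega
    · refine mid i (by omega) (by omega) ?_ ?_
      · left; rfl
      · right; right; exact ⟨rfl, by omega⟩
  set F₁ : Finset (Fin ℓ) := {⟨0, hℓ⟩, ⟨1, by omega⟩} with hF₁
  set F₂ : Finset (Fin ℓ) := {⟨ℓ - 2, by omega⟩, ⟨ℓ - 1, by omega⟩} with hF₂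
  have cF₁ : F₁.card = 2 := by
    rw [hF₁, Finset.card_pair]
    intro e
    have := congrArg Fin.val e
    simp at this
  have cF₂ : F₂.card = 2 := by
    rw [hF₂, Finset.card_pair]
    intro e
    have := congrArg Fin.val e
    simp at this
    omega
  have inZ₁ : ∀ τ ∈ T, ∀ i, τ i ∈ L₁ → i ∈ Z₁ := by
    intro τ hτ i hi
    have h1 := hT τ hτ
    rw [hL₁, Finset.mem_filter] at hi
    rw [hZ₁, Finset.mem_filter]
    refine ⟨Finset.mem_univ _, fun k hk => ?_⟩
    by_cases e : σ k = ρ₁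
    · exact Or.inl e
    · exact Or.inr (H.clique _ (h1.τW i) _ (h1.σS _) _ (h1.σS _) hi.2 (h1.slot hk) (Ne.symm e))
  have inZ₂ : ∀ τ ∈ T, ∀ i, τ i ∈ L₂ → i ∈ Z₂ := by
    intro τ hτ i hi
    have h1 := hT τ hτ
    rw [hL₂, Finset.mem_filter] at hi
    rw [hZ₂, Finset.mem_filter]
    refine ⟨Finset.mem_univ _, fun k hk => ?_⟩
    by_cases e : σ k = ρ₂
    · exact Or.inl e
    · exact Or.inr (H.clique _ (h1.τW i) _ (h1.σS _) _ (h1.σS _) hi.2 (h1.slot hk) (Ne.symm e))
  have onF₁ : ∀ τ ∈ T, ∀ i ∈ F₁, τ i ∈ L₁ := by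
    intro τ hτ i hi
    have h1 := hT τ hτ
    rw [hL₁, Finset.mem_filter]
    refine ⟨h1.τW _, h1.slot ?_⟩
    rw [hF₁, Finset.mem_insert, Finset.mem_singleton] at hi
    rcases hi with rfl | rfl
    · exact Or.inl rfl
    · exact Or.inr (Or.inl ⟨rfl, by simp; omega⟩)
  have onF₂ : ∀ τ ∈ T, ∀ i ∈ F₂, τ i ∈ L₂ := by
    intro τ hτ i hi
    have h1 := hT τ hτ
    rw [hL₂, Finset.mem_filter]
    refine ⟨h1.τW _, h1.slot ?_⟩
    rw [hF₂, Finset.mem_insert, Finset.mem_singleton] at hi
    rcases hi with rfl | rfl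
    · exact Or.inr (Or.inr ⟨by simp; omega, by simp; omega⟩)
    · exact Or.inl rfl
  have hz := zone W H.cardW L₁ L₂ ∅ (Finset.filter_subset _ _) (Finset.filter_subset _ _)
    (Finset.empty_subset _) hdL (Finset.disjoint_empty_right _) (Finset.disjoint_empty_right _)
    Z₁ Z₂ ∅ F₁ F₂ hdZ (Finset.disjoint_empty_right _) (Finset.disjoint_empty_right _)
    (fun i hi => inZ₁ τ₀ hτ₀ i (onF₁ τ₀ hτ₀ i hi)) (fun i hi => inZ₂ τ₀ hτ₀ i (onF₂ τ₀ hτ₀ i hi))
    T (fun τ hτ => ⟨(hT τ hτ).τinj, (hT τ hτ).τW, inZ₁ τ hτ, inZ₂ τ hτ,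
      fun i hi => absurd hi (Finset.notMem_empty _), onF₁ τ hτ, onF₂ τ hτ⟩)
  rw [cF₁, cF₂, Finset.card_empty, add_zero, Nat.factorial_zero, mul_one] at hz
  have hr : 2 ≤ L₁.card := by
    rw [← cF₁]
    exact Finset.card_le_card_of_injOn τ₀ (fun i hi => onF₁ τ₀ hτ₀ i hi)
      (fun i _ j _ h => h0.τinj h)
  have hs : 2 ≤ L₂.card := by
    rw [← cF₂]
    exact Finset.card_le_card_of_injOn τ₀ (fun i hi => onF₂ τ₀ hτ₀ i hi)
      (fun i _ j _ h => h0.τinj h)
  have hrs : L₁.card + L₂.card ≤ ℓ := by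
    rw [← Finset.card_union_of_disjoint hdL, ← H.cardW]
    exact Finset.card_le_card (Finset.union_subset (Finset.filter_subset _ _)
      (Finset.filter_subset _ _))
  exact num_alpha hr hs hrs hz

/-- `p` is determined by `σ`. -/
theorem IsII.p_unique {p' : ℕ} {τ τ' : Fin ℓ → β} (H : HypII ℓ S W A Γ)
    (h : IsII ℓ S W A p σ τ) (h' : IsII ℓ S W A p' σ τ') : p = p' := by
  by_contra hne
  have hℓ := h.pos
  have h1 := h.p1
  have h2 := h.p2
  have := h'.gap' H hℓ (p - 1) (by omega) (by omega)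
  rw [show p - 1 + 1 = p from by omega] at this
  exact h.f1 H hℓ this

end

/-- f4: the number of orders. -/
theorem II_sigma {α β : Type*} [DecidableEq α] [DecidableEq β] {ℓ : ℕ} (hℓ : 4 ≤ ℓ)
    (S : Finset α) (W : Finset β) (A : β → α → Prop) (Γ : α → α → Prop)
    (H : HypII ℓ S W A Γ)
    (Q : Finset (Fin ℓ → α))
    (hQ : ∀ σ ∈ Q, ∃ p τ, IsII ℓ S W A p σ τ) :
    Q.card ≤ 2 * (ℓ - 1)! := by
  classical
  obtain ⟨N, rfl⟩ : ∃ N, ℓ = N + 1 := ⟨ℓ - 1, by omega⟩
  rw [Nat.add_sub_cancel]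
  refine cyc S H.cardS Γ 2 Q (fun σ hσ => ?_)
  obtain ⟨p, τ, h⟩ := hQ σ hσ
  have hpos := h.pos
  have h1 := h.p1
  have h2 := h.p2
  have hf2 := h.f2 H hpos
  rw [ext_eq hpos σ (by omega : N + 1 - 1 < N + 1), ext_eq hpos σ hpos] at hf2
  refine ⟨h.σinj, h.σS, hf2, ?_⟩
  have hsub : (univ.filter (fun i : Fin (N + 1) => ¬ Γ (σ i) (σ (i + 1)))) ⊆
      {⟨p - 1, by omega⟩, Fin.last N} := by
    intro i hi
    rw [Finset.mem_filter] at hi
    rw [Finset.mem_insert, Finset.mem_singleton]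
    by_contra hc
    rw [not_or] at hc
    apply hi.2
    have hlt : i < Fin.last N := lt_of_le_of_ne (Fin.le_last i) hc.2
    have hv : ((i + 1 : Fin (N + 1)) : ℕ) = i + 1 := Fin.val_add_one_of_lt hlt
    refine h.gap H i (i + 1) hv ?_
    rw [hv]
    intro e
    apply hc.1
    apply Fin.ext
    simp
    omega
  exact (Finset.card_le_card hsub).trans (Finset.card_le_two)

/-- II, case alpha: every high of `S` has at least two lows in `W`. -/
theorem II_alpha {α β : Type*} [DecidableEq α] [DecidableEq β] {ℓ : ℕ} (hℓ : 4 ≤ ℓ)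
    (S : Finset α) (W : Finset β) (A : β → α → Prop) (Γ : α → α → Prop)
    (H : HypII ℓ S W A Γ)
    (two : ∀ v ∈ S, ∃ u ∈ W, ∃ u' ∈ W, u ≠ u' ∧ A u v ∧ A u' v)
    (Q : Finset (ℕ × (Fin ℓ → α) × (Fin ℓ → β)))
    (hQ : ∀ x ∈ Q, IsII ℓ S W A x.1 x.2.1 x.2.2) :
    Q.card ≤ 4 * (ℓ - 1)! * (ℓ - 2)! := by
  classical
  have h1 : Q.card ≤ 2 * (ℓ - 2)! * (Q.image (fun x => x.2.1)).card := by
    apply Finset.card_le_mul_card_image
    intro σ hσ
    obtain ⟨x₀, hx₀, rfl⟩ := Finset.mem_image.1 hσ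
    have h0 := hQ x₀ hx₀
    have := II_tau (p := x₀.1) (σ := x₀.2.1) H two
      ((Q.filter (fun x => x.2.1 = x₀.2.1)).image (fun x => x.2.2)) ?_
    · refine le_trans (le_of_eq ?_) this
      symm
      apply Finset.card_image_of_injOn
      intro x hx y hy hxy
      rw [Finset.mem_coe, Finset.mem_filter] at hx hy
      have hx1 := hQ x hx.1
      have hy1 := hQ y hy.1
      rw [hx.2] at hx1
      rw [hy.2] at hy1
      have e1 : x.1 = y.1 := hx1.p_unique H hy1
      exact Prod.ext e1 (Prod.ext (hx.2.trans hy.2.symm) hxy)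
    · intro τ hτ
      obtain ⟨x, hx, rfl⟩ := Finset.mem_image.1 hτ
      rw [Finset.mem_filter] at hx
      have hx1 := hQ x hx.1
      rw [hx.2] at hx1
      have e1 : x.1 = x₀.1 := hx1.p_unique H h0
      rw [e1] at hx1
      exact hx1
  have h2 := II_sigma hℓ S W A Γ H (Q.image (fun x => x.2.1)) (fun σ hσ => by
    obtain ⟨x, hx, rfl⟩ := Finset.mem_image.1 hσ
    exact ⟨_, _, hQ x hx⟩)
  calc Q.card ≤ 2 * (ℓ - 2)! * (Q.image (fun x => x.2.1)).card := h1
    _ ≤ 2 * (ℓ - 2)! * (2 * (ℓ - 1)!) := Nat.mul_le_mul_left _ h2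
    _ = 4 * (ℓ - 1)! * (ℓ - 2)! := by ring

end P490135

end

section

/-!
# MP_490135_co: type II, case beta (item E)
-/

namespace P490135

open Finset Nat

section
variable {α β : Type*} {N : ℕ} {S : Finset α} {W : Finset β} {A : β → α → Prop}
  {Γ : α → α → Prop}

/-- A cyclic order of `S` with at most one bad gap gives a Hamilton path. -/
theorem beta_noCyc (H : HypII (N + 1) S W A Γ) (ω : Fin (N + 1) → α)
    (hi : Function.Injective ω) (hS : ∀ i, ω i ∈ S) (k : Fin (N + 1))
    (hk : ∀ i, i ≠ k → Γ (ω i) (ω (i + 1))) : False := by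
  refine H.noHam (fun j => ω (k + 1 + j)) ?_ (fun i => hS _) ?_
  · intro i j h
    exact add_left_cancel (hi h)
  · intro i j hij
    have hlt : (i : ℕ) < N := by have := j.2; omega
    have hj : j = i + 1 := by
      apply Fin.ext
      rw [Fin.val_add_one_of_lt (Fin.lt_def.2 (by simpa using hlt)), hij]
    have hne : k + 1 + i ≠ k := by
      intro h
      have h1 : j = 0 := by
        have : k + (1 + i) = k + 0 := by rw [← add_assoc, h, add_zero]
        have h2 := add_left_cancel this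
        rw [hj, add_comm i 1]
        exact h2
      rw [h1] at hij
      simp at hij
    have := hk _ hne
    show Γ (ω (k + 1 + i)) (ω (k + 1 + j))
    rw [hj, ← add_assoc]
    exact this

/-- All linear gaps but the one at `p` are `Γ`-gaps. -/
theorem beta_gap (H : HypII (N + 1) S W A Γ) {p : ℕ} {σ : Fin (N + 1) → α} {τ : Fin (N + 1) → β}
    (h : IsII (N + 1) S W A p σ τ) (i j : Fin (N + 1)) (hij : (j : ℕ) = i + 1)
    (hp : (j : ℕ) ≠ p) : Γ (σ i) (σ j) := by
  have hne : σ i ≠ σ j := by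
    intro he
    have := h.σinj he
    rw [this] at hij
    omega
  rcases lt_or_gt_of_ne hp with h1 | h1
  · exact H.clique (τ j) (h.τW j) _ (h.σS i) _ (h.σS j) (h.adj1 i j hij h1) (h.adj j) hne
  · exact H.clique (τ i) (h.τW i) _ (h.σS i) _ (h.σS j) (h.adj i)
      (h.adj2 i j hij (by omega)) hne

theorem beta_f1 (H : HypII (N + 1) S W A Γ) {p : ℕ} {σ : Fin (N + 1) → α} {τ : Fin (N + 1) → β}
    (h : IsII (N + 1) S W A p σ τ) (i j : Fin (N + 1)) (hij : (j : ℕ) = i + 1)
    (hp : (j : ℕ) = p) : ¬ Γ (σ i) (σ j) := by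
  intro hG
  refine H.noHam σ h.σinj h.σS ?_
  intro i' j' hij'
  by_cases hp' : (j' : ℕ) = p
  · have e1 : j' = j := Fin.ext (by omega)
    have e2 : i' = i := Fin.ext (by omega)
    rw [e1, e2]
    exact hG
  · exact beta_gap H h i' j' hij' hp'

theorem beta_f2 (H : HypII (N + 1) S W A Γ) {p : ℕ} {σ : Fin (N + 1) → α} {τ : Fin (N + 1) → β}
    (h : IsII (N + 1) S W A p σ τ) : ¬ Γ (σ (Fin.last N)) (σ 0) := by
  intro hG
  have hp2 := h.p2
  have hp1 := h.p1
  refine beta_noCyc H σ h.σinj h.σS ⟨p - 1, by omega⟩ ?_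
  intro i hi
  by_cases hl : i = Fin.last N
  · rw [hl, Fin.last_add_one]
    exact hG
  · have hlt : i < Fin.last N := Fin.lt_last_iff_ne_last.2 hl
    have hv := Fin.val_add_one_of_lt hlt
    refine beta_gap H h i (i + 1) hv ?_
    intro he
    apply hi
    rw [hv] at he
    apply Fin.ext
    show (i : ℕ) = p - 1
    omega

/-- the reversal of a member -/
theorem beta_rev {p : ℕ} {σ : Fin (N + 1) → α} {τ : Fin (N + 1) → β}
    (h : IsII (N + 1) S W A p σ τ) :
    IsII (N + 1) S W A (N + 1 - p) (fun i => σ i.rev) (fun i => τ i.rev) := by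
  have hp1 := h.p1
  have hp2 := h.p2
  refine ⟨?_, fun i => h.σS _, ?_, fun i => h.τW _, by omega, by omega, fun i => h.adj _, ?_, ?_⟩
  · intro i j hij
    exact Fin.rev_injective (h.σinj hij)
  · intro i j hij
    exact Fin.rev_injective (h.τinj hij)
  · intro i j hij hj
    -- `τ (rev j)` is adjacent to `σ (rev i)`, `rev i = rev j + 1`
    refine h.adj2 j.rev i.rev ?_ ?_
    · rw [Fin.val_rev, Fin.val_rev]
      have := j.2
      omega
    · rw [Fin.val_rev]
      omega
  · intro i j hij hi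
    refine h.adj1 j.rev i.rev ?_ ?_
    · rw [Fin.val_rev, Fin.val_rev]
      have := j.2
      omega
    · rw [Fin.val_rev]
      have := i.2
      omega

end

section count
variable {α β : Type*} [DecidableEq α] [DecidableEq β] {N : ℕ} {S : Finset α} {W : Finset β}
  {A : β → α → Prop} {Γ : α → α → Prop}

/-- injective maps into a set of the right size are onto -/
theorem beta_surj {γ : Type*} [DecidableEq γ] {M : ℕ} {T : Finset γ} (hT : T.card = M)
    {f : Fin M → γ} (hf : Function.Injective f) (hfT : ∀ i, f i ∈ T) {x : γ} (hx : x ∈ T) :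
    ∃ i, f i = x := by
  have himg : univ.image f = T := by
    apply Finset.eq_of_subset_of_card_le
    · intro y hy
      obtain ⟨i, -, rfl⟩ := Finset.mem_image.1 hy
      exact hfT i
    · rw [Finset.card_image_of_injective _ hf, hT]
      simp
  rw [← himg] at hx
  obtain ⟨i, -, hi⟩ := Finset.mem_image.1 hx
  exact ⟨i, hi⟩

/-- step I.1 : number of `τ` for a given `(p, σ)` -/
theorem beta_tau (hN : 3 ≤ N) (H : HypII (N + 1) S W A Γ) (v : α) (a : β) (ha : a ∈ W)
    (hone : ∀ u ∈ W, A u v → u = a) (k : Fin (N + 1)) (σ : Fin (N + 1) → α) (hk : σ k = v)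
    (T : Finset (Fin (N + 1) → β))
    (hT : ∀ τ ∈ T, ∃ p, (k : ℕ) + 1 = p ∧ IsII (N + 1) S W A p σ τ) :
    2 * T.card ≤ N ! := by
  classical
  rcases T.eq_empty_or_nonempty with h0 | ⟨τ0, hτ0⟩
  · rw [h0]; simp
  obtain ⟨p0, -, h0⟩ := hT τ0 hτ0
  have hτk : ∀ τ ∈ T, τ k = a := by
    intro τ hτ
    obtain ⟨p, -, h⟩ := hT τ hτ
    apply hone _ (h.τW k)
    rw [← hk]
    exact h.adj k
  have hm : ∀ u ∈ W, u ≠ a → ∃ i' : Fin N, ¬ A u (σ (k.succAbove i')) := by
    intro u hu hua
    have huv : ¬ A u v := fun h => hua (hone u hu h)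
    obtain ⟨x, hx, y, hy, hxy, hAx, hAy⟩ := H.miss u hu
    have : ∃ z ∈ S, z ≠ v ∧ ¬ A u z := by
      by_cases hxv : x = v
      · exact ⟨y, hy, fun h => hxy (hxv.trans h.symm), hAy⟩
      · exact ⟨x, hx, hxv, hAx⟩
    obtain ⟨z, hz, hzv, hAz⟩ := this
    obtain ⟨i, hi⟩ := beta_surj H.cardS h0.σinj h0.σS hz
    have hik : i ≠ k := by
      intro h
      apply hzv
      rw [← hi, h, hk]
    obtain ⟨i', hi'⟩ := Fin.exists_succAbove_eq hik
    refine ⟨i', ?_⟩
    rw [hi', hi]
    exact hAz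
  let forb : β → Fin N := fun u =>
    if h : u ∈ W ∧ u ≠ a then (hm u h.1 h.2).choose else ⟨0, by omega⟩
  have hforb : ∀ u ∈ W, u ≠ a → ¬ A u (σ (k.succAbove (forb u))) := by
    intro u hu hua
    have h : u ∈ W ∧ u ≠ a := ⟨hu, hua⟩
    simp only [forb, dif_pos h]
    exact (hm u h.1 h.2).choose_spec
  let R : (Fin (N + 1) → β) → (Fin N → β) := fun τ i => τ (k.succAbove i)
  have hinj : Set.InjOn R T := by
    intro τ hτ τ' hτ' he
    funext i
    by_cases hi : i = k
    · rw [hi, hτk τ hτ, hτk τ' hτ']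
    · obtain ⟨i', rfl⟩ := Fin.exists_succAbove_eq hi
      exact congrFun he i'
  rw [← Finset.card_image_of_injOn hinj]
  refine bon1 (by omega) (W.erase a) ?_ forb (T.image R) ?_
  · rw [Finset.card_erase_of_mem ha, H.cardW]
    rfl
  · intro τ' hτ'
    obtain ⟨τ, hτ, rfl⟩ := Finset.mem_image.1 hτ'
    obtain ⟨p, -, h⟩ := hT τ hτ
    have hne : ∀ i, τ (k.succAbove i) ≠ a := by
      intro i he
      rw [← hτk τ hτ] at he
      exact Fin.succAbove_ne k i (h.τinj he)
    refine ⟨?_, ?_, ?_⟩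
    · intro i j hij
      exact Fin.succAbove_right_injective (h.τinj hij)
    · intro i
      exact Finset.mem_erase.2 ⟨hne i, h.τW _⟩
    · intro i hi
      have := hforb _ (h.τW (k.succAbove i)) (hne i)
      change forb (τ (k.succAbove i)) = i at hi
      rw [hi] at this
      exact this (h.adj _)

omit [DecidableEq β] in
/-- step I.2 : number of orders `ω` -/
theorem beta_orders (hN : 3 ≤ N) (H : HypII (N + 1) S W A Γ) (v : α) (hv : v ∈ S)
    (c0 : α) (hc0 : c0 ∈ S) (hc0v : c0 ≠ v) (hG : Γ v c0)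
    (T : Finset (Fin (N + 1) → α))
    (hT : ∀ ω ∈ T, Function.Injective ω ∧ (∀ i, ω i ∈ S) ∧ ω 0 = v ∧
      ¬ Γ v (ω (Fin.last N)) ∧
      ∃ k : Fin (N + 1), k ≠ Fin.last N ∧ ∀ j, j ≠ k → j ≠ Fin.last N → Γ (ω j) (ω (j + 1))) :
    2 * T.card ≤ N ! + (N - 1)! := by
  classical
  obtain ⟨M, rfl⟩ : ∃ M, N = M + 1 := ⟨N - 1, by omega⟩
  let TA := T.filter (fun ω => Γ v (ω 1))
  let TB := T.filter (fun ω => ¬ Γ v (ω 1))
  have hsplit : TA.card + TB.card = T.card := Finset.card_filter_add_card_filter_not _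
  -- reversal
  let r : (Fin (M + 1 + 1) → α) → (Fin (M + 1 + 1) → α) := fun ω j => ω (-j)
  have hr : Function.Injective r := by
    intro ω ω' he
    funext j
    have := congrFun he (-j)
    simpa [r] using this
  have hlast : (Fin.last (M + 1) : Fin (M + 1 + 1)) = -1 :=
    eq_neg_of_add_eq_zero_left (Fin.last_add_one (M + 1))
  have hdisj : Disjoint T (TA.image r) := by
    rw [Finset.disjoint_left]
    intro ω hω hω'
    obtain ⟨ω', h1, rfl⟩ := Finset.mem_image.1 hω'
    have h2 := (hT _ hω).2.2.2.1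
    apply h2
    have h3 := (Finset.mem_filter.1 h1).2
    simp only [r, hlast, neg_neg]
    exact h3
  have hA : T.card + TA.card ≤ (M + 1)! := by
    have := cyc_card_fix S H.cardS v hv (T ∪ TA.image r) (by
      intro ω hω
      rcases Finset.mem_union.1 hω with h | h
      · obtain ⟨h1, h2, h3, -⟩ := hT ω h
        exact ⟨h1, h2, h3⟩
      · obtain ⟨ω', h', rfl⟩ := Finset.mem_image.1 h
        obtain ⟨h1, h2, h3, -⟩ := hT ω' (Finset.mem_filter.1 h').1
        refine ⟨?_, fun i => h2 _, ?_⟩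
        · intro i j hij
          exact neg_injective (h1 hij)
        · show ω' (-0) = v
          rw [neg_zero]
          exact h3)
    rwa [Finset.card_union_of_disjoint hdisj, Finset.card_image_of_injective _ hr] at this
  have hB : TB.card ≤ M ! := by
    let s : (Fin (M + 1 + 1) → α) → (Fin (M + 1) → α) := fun ω i => ω i.succ
    have hs : Set.InjOn s TB := by
      intro ω hω ω' hω' he
      have h1 := (hT ω (Finset.mem_filter.1 (Finset.mem_coe.1 hω)).1).2.2.1
      have h2 := (hT ω' (Finset.mem_filter.1 (Finset.mem_coe.1 hω')).1).2.2.1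
      funext i
      refine Fin.cases ?_ ?_ i
      · rw [h1, h2]
      · intro j
        exact congrFun he j
    rw [← Finset.card_image_of_injOn hs]
    have := cyc (S.erase v) (N := M) (by
      rw [Finset.card_erase_of_mem hv, H.cardS]; rfl) Γ 1 (TB.image s) (by
      intro c hc
      obtain ⟨ω, hω, rfl⟩ := Finset.mem_image.1 hc
      obtain ⟨hωT, hω1⟩ := Finset.mem_filter.1 hω
      obtain ⟨h1, h2, h3, h4, k, hk, hgap⟩ := hT ω hωT
      have hk0 : k = 0 := by
        by_contra hne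
        apply hω1
        have := hgap 0 (fun h => hne h.symm) (by
          intro h
          have := congrArg Fin.val h
          simp at this)
        rw [h3, zero_add] at this
        exact this
      have hsinj : Function.Injective (s ω) := by
        intro i j hij
        exact Fin.succ_injective _ (h1 hij)
      have hsS : ∀ i, s ω i ∈ S.erase v := by
        intro i
        refine Finset.mem_erase.2 ⟨?_, h2 _⟩
        intro he
        rw [← h3] at he
        exact Fin.succ_ne_zero i (h1 he)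
      have hsgap : ∀ i : Fin (M + 1), i ≠ Fin.last M → Γ (s ω i) (s ω (i + 1)) := by
        intro i hi
        have hlt : i < Fin.last M := Fin.lt_last_iff_ne_last.2 hi
        have e : (i + 1).succ = i.succ + 1 := by
          apply Fin.ext
          rw [Fin.val_succ, Fin.val_add_one_of_lt hlt, Fin.val_add_one_of_lt, Fin.val_succ]
          rw [Fin.lt_def] at hlt ⊢
          simp only [Fin.val_succ, Fin.val_last] at hlt ⊢
          omega
        show Γ (ω i.succ) (ω (i + 1).succ)
        rw [e]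
        apply hgap
        · rw [hk0]
          exact Fin.succ_ne_zero i
        · intro h
          apply hi
          apply Fin.succ_injective
          rw [h]
          rfl
      refine ⟨hsinj, hsS, ?_, ?_⟩
      · intro hcl
        obtain ⟨i0, hi0⟩ := beta_surj (T := S.erase v) (by
          rw [Finset.card_erase_of_mem hv, H.cardS]; rfl) hsinj hsS
          (Finset.mem_erase.2 ⟨hc0v, hc0⟩)
        -- all cyclic gaps of `s ω` are good
        have hall : ∀ i : Fin (M + 1), Γ (s ω i) (s ω (i + 1)) := by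
          intro i
          by_cases hi : i = Fin.last M
          · rw [hi, Fin.last_add_one]
            exact hcl
          · exact hsgap i hi
        refine H.noHam (Fin.cons v (fun i => s ω (i0 + i))) ?_ ?_ ?_
        · rw [Fin.cons_injective_iff]
          refine ⟨?_, ?_⟩
          · rintro ⟨i, hi⟩
            exact (Finset.mem_erase.1 (hsS (i0 + i))).1 hi
          · intro i j hij
            exact add_left_cancel (hsinj hij)
        · intro i
          refine Fin.cases ?_ ?_ i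
          · simpa using hv
          · intro j
            rw [Fin.cons_succ]
            exact (Finset.mem_erase.1 (hsS _)).2
        · intro i j hij
          obtain ⟨j', rfl⟩ := Fin.exists_succ_eq.2 (show j ≠ 0 by
            intro h
            rw [h] at hij
            simp at hij)
          rw [Fin.cons_succ]
          rw [Fin.val_succ] at hij
          by_cases hi : i = 0
          · subst hi
            have : j' = 0 := Fin.ext (by simpa using hij)
            rw [this, add_zero, hi0, Fin.cons_zero]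
            exact hG
          · obtain ⟨i', rfl⟩ := Fin.exists_succ_eq.2 hi
            rw [Fin.cons_succ]
            have hj' : j' = i' + 1 := by
              apply Fin.ext
              rw [Fin.val_add_one_of_lt]
              · rw [Fin.val_succ] at hij
                omega
              · rw [Fin.lt_def, Fin.val_last]
                rw [Fin.val_succ] at hij
                have := j'.2
                omega
            rw [hj', ← add_assoc]
            exact hall _
      · rw [Finset.card_le_one]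
        intro i hi j hj
        have hi' := (Finset.mem_filter.1 hi).2
        have hj' := (Finset.mem_filter.1 hj).2
        have e1 : i = Fin.last M := by
          by_contra h
          exact hi' (hsgap i h)
        have e2 : j = Fin.last M := by
          by_contra h
          exact hj' (hsgap j h)
        rw [e1, e2])
    simpa using this
  have : M + 1 - 1 = M := rfl
  rw [this]
  omega

/-- the case `v = σ (p - 1)` -/
theorem beta_half (hN : 3 ≤ N) (H : HypII (N + 1) S W A Γ) (v : α) (hv : v ∈ S) (a : β)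
    (ha : a ∈ W) (hone : ∀ u ∈ W, A u v → u = a)
    (Q : Finset (ℕ × (Fin (N + 1) → α) × (Fin (N + 1) → β)))
    (hQ : ∀ x ∈ Q, IsII (N + 1) S W A x.1 x.2.1 x.2.2)
    (hQv : ∀ x ∈ Q, ∃ k : Fin (N + 1), (k : ℕ) + 1 = x.1 ∧ x.2.1 k = v) :
    4 * Q.card ≤ N ! * (N ! + (N - 1)!) := by
  classical
  by_cases hG : ∃ c0 ∈ S, c0 ≠ v ∧ Γ v c0
  · obtain ⟨c0, hc0, hc0v, hGc⟩ := hG
    -- the map to orders
    let g : ℕ × (Fin (N + 1) → α) × (Fin (N + 1) → β) → (Fin (N + 1) → α) :=
      fun x j => x.2.1 (Fin.ofNat (N + 1) (x.1 - 1) - j)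
    have hgk : ∀ x ∈ Q, ∀ k : Fin (N + 1), (k : ℕ) + 1 = x.1 →
        Fin.ofNat (N + 1) (x.1 - 1) = k := by
      intro x hx k hk
      apply Fin.ext
      rw [Fin.val_ofNat]
      have := k.2
      rw [Nat.mod_eq_of_lt] <;> omega
    have hlast : (Fin.last N : Fin (N + 1)) = -1 :=
      eq_neg_of_add_eq_zero_left (Fin.last_add_one N)
    -- properties of the orders
    have hprop : ∀ x ∈ Q, ∀ k : Fin (N + 1), (k : ℕ) + 1 = x.1 →
        (k ≠ Fin.last N ∧ (∀ j, j ≠ k → j ≠ Fin.last N → Γ (g x j) (g x (j + 1))) ∧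
          ¬ Γ (g x k) (g x (k + 1)) ∧ ¬ Γ (g x 0) (g x (Fin.last N))) := by
      intro x hx k hk
      have hII := hQ x hx
      have e : ∀ j, g x j = x.2.1 (k - j) := by
        intro j
        show x.2.1 (Fin.ofNat (N + 1) (x.1 - 1) - j) = _
        rw [hgk x hx k hk]
      have hp2 := hII.p2
      have hkl : k ≠ Fin.last N := by
        intro h
        rw [h, Fin.val_last] at hk
        omega
      refine ⟨hkl, ?_, ?_, ?_⟩
      · intro j hj1 hj2
        rw [e, e]
        apply H.symm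
        have e2 : k - j = (k - (j + 1)) + 1 := by abel
        have hlt : k - (j + 1) < Fin.last N := by
          apply Fin.lt_last_iff_ne_last.2
          intro h
          apply hj1
          rw [hlast] at h
          have : k - j = 0 := by
            have h3 : k - (j + 1) + 1 = 0 := by rw [h]; abel
            rw [← e2] at h3
            exact h3
          exact (sub_eq_zero.1 this).symm
        rw [e2]
        apply beta_gap H hII _ _ (Fin.val_add_one_of_lt hlt)
        rw [Fin.val_add_one_of_lt hlt]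
        intro h
        apply hj2
        rw [← hk] at h
        have h4 : k - (j + 1) = k := Fin.ext (by omega)
        rw [hlast]
        have h5 : j + 1 = 0 := by
          have := sub_eq_self.1 h4
          exact this
        exact eq_neg_of_add_eq_zero_left h5
      · rw [e, e, sub_self]
        have : k - (k + 1) = Fin.last N := by rw [hlast]; abel
        rw [this]
        intro h
        exact beta_f2 H hII (H.symm _ _ h)
      · rw [e, e, sub_zero]
        have hlt : k < Fin.last N := Fin.lt_last_iff_ne_last.2 hkl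
        have e3 : k - Fin.last N = k + 1 := by rw [hlast]; abel
        rw [e3]
        apply beta_f1 H hII _ _ (Fin.val_add_one_of_lt hlt)
        rw [Fin.val_add_one_of_lt hlt]
        exact hk
    have horders : 2 * (Q.image g).card ≤ N ! + (N - 1)! := by
      apply beta_orders hN H v hv c0 hc0 hc0v hGc
      intro ω hω
      obtain ⟨x, hx, rfl⟩ := Finset.mem_image.1 hω
      obtain ⟨k, hk, hkv⟩ := hQv x hx
      obtain ⟨q1, q2, q3, q4⟩ := hprop x hx k hk
      have e0 : g x 0 = v := by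
        show x.2.1 (Fin.ofNat (N + 1) (x.1 - 1) - 0) = v
        rw [hgk x hx k hk, sub_zero, hkv]
      refine ⟨?_, fun i => (hQ x hx).σS _, e0, ?_, k, q1, q2⟩
      · intro i j hij
        exact sub_right_injective ((hQ x hx).σinj hij)
      · rw [e0] at q4
        exact q4
    have hfib : Q.card ≤ (N ! / 2) * (Q.image g).card := by
      apply Finset.card_le_mul_card_image
      intro ω hω
      obtain ⟨x0, hx0, hx0ω⟩ := Finset.mem_image.1 hω
      obtain ⟨k0, hk0, hkv0⟩ := hQv x0 hx0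
      have hsame : ∀ x ∈ Q, g x = ω → x.1 = x0.1 ∧ x.2.1 = x0.2.1 := by
        intro x hx hxω
        obtain ⟨k, hk, hkv⟩ := hQv x hx
        have hkk : k = k0 := by
          by_contra hne
          have h1 := (hprop x hx k hk).2.2.1
          have h2 := (hprop x0 hx0 k0 hk0).2.1 k hne (hprop x hx k hk).1
          rw [hxω] at h1
          rw [hx0ω] at h2
          exact h1 h2
        refine ⟨by rw [← hk, ← hk0, hkk], ?_⟩
        funext i
        have h3 : g x (k - i) = g x0 (k - i) := by rw [hxω, hx0ω]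
        have h4 : x.2.1 (Fin.ofNat (N + 1) (x.1 - 1) - (k - i))
            = x0.2.1 (Fin.ofNat (N + 1) (x0.1 - 1) - (k - i)) := h3
        rw [hgk x hx k hk, hgk x0 hx0 k0 hk0, ← hkk, sub_sub_cancel] at h4
        exact h4
      have hinj : Set.InjOn (fun x : ℕ × (Fin (N + 1) → α) × (Fin (N + 1) → β) => x.2.2)
          ((Q.filter (fun x => g x = ω) : Finset _) : Set _) := by
        intro x hx y hy hxy
        obtain ⟨hx1, hx2⟩ := Finset.mem_filter.1 (Finset.mem_coe.1 hx)
        obtain ⟨hy1, hy2⟩ := Finset.mem_filter.1 (Finset.mem_coe.1 hy)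
        obtain ⟨a1, a2⟩ := hsame x hx1 hx2
        obtain ⟨b1, b2⟩ := hsame y hy1 hy2
        refine Prod.ext (a1.trans b1.symm) (Prod.ext (a2.trans b2.symm) hxy)
      have := beta_tau hN H v a ha hone k0 x0.2.1 hkv0
        ((Q.filter (fun x => g x = ω)).image (fun x => x.2.2)) (by
          intro τ hτ
          obtain ⟨x, hx, rfl⟩ := Finset.mem_image.1 hτ
          obtain ⟨hx1, hx2⟩ := Finset.mem_filter.1 hx
          obtain ⟨a1, a2⟩ := hsame x hx1 hx2
          refine ⟨x0.1, hk0, ?_⟩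
          have hII := hQ x hx1
          rw [a1, a2] at hII
          exact hII)
      rw [Finset.card_image_of_injOn hinj] at this
      omega
    have h2 : 2 * (N ! / 2) ≤ N ! := Nat.mul_div_le _ _
    calc 4 * Q.card ≤ 4 * ((N ! / 2) * (Q.image g).card) := Nat.mul_le_mul_left _ hfib
      _ = (2 * (N ! / 2)) * (2 * (Q.image g).card) := by ring
      _ ≤ N ! * (N ! + (N - 1)!) := Nat.mul_le_mul h2 horders
  · -- `v` is isolated
    have hG' : ∀ c ∈ S, c ≠ v → ¬ Γ v c := fun c hc hcv h => hG ⟨c, hc, hcv, h⟩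
    have hp : ∀ x ∈ Q, x.1 = 1 := by
      intro x hx
      obtain ⟨k, hk, hkv⟩ := hQv x hx
      have hII := hQ x hx
      by_contra hne
      have hk0 : 1 ≤ (k : ℕ) := by
        have := hII.p1
        omega
      have hkl := k.2
      have hgap := beta_gap H hII ⟨(k : ℕ) - 1, by omega⟩ k (by simp only; omega) (by omega)
      rw [hkv] at hgap
      refine hG' _ (hII.σS _) ?_ (H.symm _ _ hgap)
      intro he
      rw [← hkv] at he
      have := congrArg Fin.val (hII.σinj he)
      simp only at this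
      omega
    have hσ0 : ∀ x ∈ Q, x.2.1 0 = v := by
      intro x hx
      obtain ⟨k, hk, hkv⟩ := hQv x hx
      have : k = 0 := Fin.ext (by rw [hp x hx] at hk; simpa using hk)
      rw [← this]
      exact hkv
    have hτ0 : ∀ x ∈ Q, x.2.2 0 = a := by
      intro x hx
      apply hone _ ((hQ x hx).τW 0)
      rw [← hσ0 x hx]
      exact (hQ x hx).adj 0
    let R : ℕ × (Fin (N + 1) → α) × (Fin (N + 1) → β) → (Fin N → α) × (Fin N → β) :=
      fun x => (fun i => x.2.1 i.succ, fun i => x.2.2 i.succ)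
    have hR : Set.InjOn R Q := by
      intro x hx y hy he
      have hx' := Finset.mem_coe.1 hx
      have hy' := Finset.mem_coe.1 hy
      have he1 := congrArg Prod.fst he
      have he2 := congrArg Prod.snd he
      refine Prod.ext ((hp x hx').trans (hp y hy').symm) (Prod.ext ?_ ?_)
      · funext i
        refine Fin.cases ?_ ?_ i
        · rw [hσ0 x hx', hσ0 y hy']
        · intro j
          exact congrFun he1 j
      · funext i
        refine Fin.cases ?_ ?_ i
        · rw [hτ0 x hx', hτ0 y hy']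
        · intro j
          exact congrFun he2 j
    have hm : ∀ u ∈ W, u ≠ a → ∃ z ∈ S, z ≠ v ∧ ¬ A u z := by
      intro u hu hua
      obtain ⟨x, hx, y, hy, hxy, hAx, hAy⟩ := H.miss u hu
      by_cases hxv : x = v
      · exact ⟨y, hy, fun h => hxy (hxv.trans h.symm), hAy⟩
      · exact ⟨x, hx, hxv, hAx⟩
    let m : β → α := fun u => if h : u ∈ W ∧ u ≠ a then (hm u h.1 h.2).choose else v
    have hm1 : ∀ u ∈ W.erase a, m u ∈ S.erase v ∧ ¬ A u (m u) := by
      intro u hu
      obtain ⟨hua, huW⟩ := Finset.mem_erase.1 hu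
      have h : u ∈ W ∧ u ≠ a := ⟨huW, hua⟩
      simp only [m, dif_pos h]
      obtain ⟨z1, z2, z3⟩ := (hm u h.1 h.2).choose_spec
      exact ⟨Finset.mem_erase.2 ⟨z2, z1⟩, z3⟩
    have hb := bon12 (by omega : 2 ≤ N) (S.erase v)
      (by rw [Finset.card_erase_of_mem hv, H.cardS]; rfl) (W.erase a)
      (by rw [Finset.card_erase_of_mem ha, H.cardW]; rfl) m (fun u hu => (hm1 u hu).1)
      (Q.image R) (by
        intro y hy
        obtain ⟨x, hx, rfl⟩ := Finset.mem_image.1 hy
        have hII := hQ x hx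
        have hτe : ∀ i : Fin N, x.2.2 i.succ ∈ W.erase a := by
          intro i
          refine Finset.mem_erase.2 ⟨?_, hII.τW _⟩
          intro he
          rw [← hτ0 x hx] at he
          exact Fin.succ_ne_zero i (hII.τinj he)
        refine ⟨?_, ?_, ?_, hτe, ?_, ?_⟩
        · intro i j hij
          exact Fin.succ_injective _ (hII.σinj hij)
        · intro i
          refine Finset.mem_erase.2 ⟨?_, hII.σS _⟩
          intro he
          rw [← hσ0 x hx] at he
          exact Fin.succ_ne_zero i (hII.σinj he)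
        · intro i j hij
          exact Fin.succ_injective _ (hII.τinj hij)
        · intro i he
          apply (hm1 _ (hτe i)).2
          have he' : x.2.1 i.succ = m (x.2.2 i.succ) := he
          rw [← he']
          exact hII.adj _
        · intro i j hij he
          apply (hm1 _ (hτe i)).2
          have he' : x.2.1 j.succ = m (x.2.2 i.succ) := he
          rw [← he']
          refine hII.adj2 _ _ (by rw [Fin.val_succ, Fin.val_succ]; omega) ?_
          rw [hp x hx, Fin.val_succ]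
          omega)
    rw [Finset.card_image_of_injOn hR] at hb
    calc 4 * Q.card ≤ N ! * N ! := hb
      _ ≤ N ! * (N ! + (N - 1)!) := Nat.mul_le_mul_left _ (Nat.le_add_right _ _)

end count

/-- II, case beta: some high `v` of `S` has exactly one low in `W`. -/
theorem II_beta {α β : Type*} [DecidableEq α] [DecidableEq β] {ℓ : ℕ} (hℓ : 4 ≤ ℓ)
    (S : Finset α) (W : Finset β) (A : β → α → Prop) (Γ : α → α → Prop)
    (H : HypII ℓ S W A Γ) (v : α) (hv : v ∈ S) (a : β) (ha : a ∈ W) (_hav : A a v)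
    (hone : ∀ u ∈ W, A u v → u = a)
    (Q : Finset (ℕ × (Fin ℓ → α) × (Fin ℓ → β)))
    (hQ : ∀ x ∈ Q, IsII ℓ S W A x.1 x.2.1 x.2.2) :
    2 * Q.card ≤ (ℓ - 1)! * ((ℓ - 1)! + (ℓ - 2)!) := by
  classical
  obtain ⟨N, rfl⟩ : ∃ N, ℓ = N + 1 := ⟨ℓ - 1, by omega⟩
  have hN : 3 ≤ N := by omega
  have e1 : N + 1 - 1 = N := rfl
  have e2 : N + 1 - 2 = N - 1 := by omega
  rw [e1, e2]
  -- position of `v`
  have hpos : ∀ x ∈ Q, (∃ k : Fin (N + 1), (k : ℕ) + 1 = x.1 ∧ x.2.1 k = v) ∨
      (∃ k : Fin (N + 1), (k : ℕ) = x.1 ∧ x.2.1 k = v) := by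
    intro x hx
    have hII := hQ x hx
    obtain ⟨k, hk⟩ := beta_surj H.cardS hII.σinj hII.σS hv
    have hkl := k.2
    have hτk : x.2.2 k = a := by
      apply hone _ (hII.τW k)
      rw [← hk]
      exact hII.adj k
    rcases lt_trichotomy ((k : ℕ) + 1) x.1 with h | h | h
    · exfalso
      have hp2 := hII.p2
      have h1 := hII.adj1 k ⟨(k : ℕ) + 1, by omega⟩ rfl h
      rw [hk] at h1
      have h2 := hone _ (hII.τW _) h1
      rw [← hτk] at h2
      have := congrArg Fin.val (hII.τinj h2)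
      simp only at this
      omega
    · exact Or.inl ⟨k, h, hk⟩
    · rcases Nat.lt_or_ge x.1 (k : ℕ) with h' | h'
      · exfalso
        have h1 := hII.adj2 ⟨(k : ℕ) - 1, by omega⟩ k (by simp only; omega) (by simp only; omega)
        rw [hk] at h1
        have h2 := hone _ (hII.τW _) h1
        rw [← hτk] at h2
        have := congrArg Fin.val (hII.τinj h2)
        simp only at this
        omega
      · exact Or.inr ⟨k, by omega, hk⟩
  let P : ℕ × (Fin (N + 1) → α) × (Fin (N + 1) → β) → Prop := fun x =>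
    ∃ k : Fin (N + 1), (k : ℕ) + 1 = x.1 ∧ x.2.1 k = v
  let Qa := Q.filter P
  let Qb := Q.filter (fun x => ¬ P x)
  have hsplit : Qa.card + Qb.card = Q.card := Finset.card_filter_add_card_filter_not _
  have hA := beta_half hN H v hv a ha hone Qa
    (fun x hx => hQ x (Finset.mem_filter.1 hx).1) (fun x hx => (Finset.mem_filter.1 hx).2)
  let r : ℕ × (Fin (N + 1) → α) × (Fin (N + 1) → β) → ℕ × (Fin (N + 1) → α) × (Fin (N + 1) → β) :=
    fun x => (N + 1 - x.1, fun i => x.2.1 i.rev, fun i => x.2.2 i.rev)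
  have hr : Set.InjOn r Qb := by
    intro x hx y hy he
    have hx' := hQ x (Finset.mem_filter.1 (Finset.mem_coe.1 hx)).1
    have hy' := hQ y (Finset.mem_filter.1 (Finset.mem_coe.1 hy)).1
    have e1 := congrArg Prod.fst he
    have e2 := congrArg (fun z => z.2.1) he
    have e3 := congrArg (fun z => z.2.2) he
    have p1 := hx'.p2
    have p2 := hy'.p2
    simp only [r] at e1 e2 e3
    refine Prod.ext (by omega) (Prod.ext ?_ ?_)
    · funext i
      have := congrFun e2 i.rev
      simpa using this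
    · funext i
      have := congrFun e3 i.rev
      simpa using this
  have hB := beta_half hN H v hv a ha hone (Qb.image r)
    (by
      intro y hy
      obtain ⟨x, hx, rfl⟩ := Finset.mem_image.1 hy
      exact beta_rev (hQ x (Finset.mem_filter.1 hx).1))
    (by
      intro y hy
      obtain ⟨x, hx, rfl⟩ := Finset.mem_image.1 hy
      obtain ⟨hxQ, hxP⟩ := Finset.mem_filter.1 hx
      rcases hpos x hxQ with h | ⟨k, hk, hkv⟩
      · exact absurd h hxP
      · refine ⟨k.rev, ?_, ?_⟩
        · show ((k.rev : Fin (N + 1)) : ℕ) + 1 = N + 1 - x.1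
          rw [Fin.val_rev]
          have := k.2
          omega
        · show x.2.1 (k.rev).rev = v
          rw [Fin.rev_rev]
          exact hkv)
  rw [Finset.card_image_of_injOn hr] at hB
  omega

end P490135

end

section

/-!
# MP_490135_co: structure of paths of type II and I (helper81)
-/

namespace P490135

open SimpleGraph Finset

variable {V : Type*} {G : SimpleGraph V}

/-! ### Lists from matched paths -/

/-- the `i`-th vertex of a matched path -/
def vtx {ℓ : ℕ} (q : Fin ℓ → V × V) (i : Fin (2 * ℓ)) : V :=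
  if (i : ℕ) % 2 = 0 then (q ⟨(i : ℕ) / 2, by omega⟩).1 else (q ⟨(i : ℕ) / 2, by omega⟩).2

/-- the list of vertices of a matched path -/
def toL {ℓ : ℕ} (q : Fin ℓ → V × V) : List V := List.ofFn (vtx q)

theorem IsMP.vtx_inj {ℓ : ℕ} {q : Fin ℓ → V × V} (h : IsMP G ℓ q) :
    Function.Injective (vtx q) := by
  intro i j hij
  unfold vtx at hij
  split_ifs at hij with h1 h2 h2
  · have := h.inj1 _ _ hij
    rw [Fin.mk.injEq] at this
    ext; omega
  · exact absurd hij (h.ne12 _ _)
  · exact absurd hij.symm (h.ne12 _ _)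
  · have := h.inj2 _ _ hij
    rw [Fin.mk.injEq] at this
    ext; omega

theorem IsMP.toL_isP {ℓ : ℕ} {q : Fin ℓ → V × V} (h : IsMP G ℓ q) : IsP G (toL q) := by
  refine ⟨List.nodup_ofFn.mpr h.vtx_inj, ?_⟩
  unfold toL
  rw [List.isChain_ofFn]
  intro i hi
  unfold vtx
  simp only
  rcases Nat.even_or_odd i with he | ho
  · have h0 : i % 2 = 0 := Nat.even_iff.mp he
    have h1 : (i + 1) % 2 ≠ 0 := by omega
    rw [if_pos h0, if_neg h1]
    have h2 : (⟨(i + 1) / 2, by omega⟩ : Fin ℓ) = ⟨i / 2, by omega⟩ := by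
      rw [Fin.mk.injEq]; omega
    rw [h2]
    exact h.adj _
  · have h0 : i % 2 = 1 := Nat.odd_iff.mp ho
    have h1 : (i + 1) % 2 = 0 := by omega
    rw [if_neg (by omega), if_pos h1]
    exact h.adj' _ _ (by simp only; omega)

theorem length_toL {ℓ : ℕ} (q : Fin ℓ → V × V) : (toL q).length = 2 * ℓ := by
  simp [toL]

theorem mem_toL {ℓ : ℕ} {q : Fin ℓ → V × V} {x : V} :
    x ∈ toL q ↔ ∃ i, x = (q i).1 ∨ x = (q i).2 := by
  unfold toL
  rw [List.mem_ofFn]
  constructor
  · rintro ⟨i, rfl⟩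
    refine ⟨⟨(i : ℕ) / 2, by omega⟩, ?_⟩
    unfold vtx
    split_ifs
    · exact Or.inl rfl
    · exact Or.inr rfl
  · rintro ⟨i, rfl | rfl⟩
    · refine ⟨⟨2 * i, by omega⟩, ?_⟩
      unfold vtx
      rw [if_pos (by simp)]
      congr 2
      ext
      simp
    · refine ⟨⟨2 * i + 1, by omega⟩, ?_⟩
      unfold vtx
      rw [if_neg (by simp)]
      congr 2
      ext
      simp
      omega

/-- the end vertices of a longest path have no further neighbours -/
theorem Short.first {ℓ : ℕ} (hS : Short G ℓ) {q : Fin ℓ → V × V} (h : IsMP G ℓ q) {i : Fin ℓ}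
    (hi : (i : ℕ) = 0) {v : V} (hv : G.Adj (q i).1 v) : ∃ j, v = (q j).1 ∨ v = (q j).2 := by
  by_contra hcon
  rw [← mem_toL] at hcon
  have hl : IsP G (v :: toL q) := by
    refine ⟨List.nodup_cons.mpr ⟨hcon, h.toL_isP.1⟩, ?_⟩
    rw [List.isChain_cons]
    refine ⟨?_, h.toL_isP.2⟩
    intro y hy
    have hpos : 0 < 2 * ℓ := by have := i.isLt; omega
    have : (toL q).head? = some (vtx q ⟨0, hpos⟩) := by
      have hlen : 0 < (toL q).length := by rw [length_toL]; exact hpos
      rw [List.head?_eq_getElem?, List.getElem?_eq_getElem hlen]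
      simp [toL]
    rw [this] at hy
    simp only [Option.mem_def, Option.some.injEq] at hy
    rw [← hy]
    unfold vtx
    simp only
    rw [if_pos (by simp)]
    have : (⟨0 / 2, by omega⟩ : Fin ℓ) = i := by ext; simp [hi]
    rw [this]
    exact hv.symm
  have := hS _ hl.1 hl.2
  rw [List.length_cons, length_toL] at this
  omega

theorem Short.last {ℓ : ℕ} (hS : Short G ℓ) {q : Fin ℓ → V × V} (h : IsMP G ℓ q) {i : Fin ℓ}
    (hi : (i : ℕ) + 1 = ℓ) {v : V} (hv : G.Adj (q i).2 v) : ∃ j, v = (q j).1 ∨ v = (q j).2 := by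
  by_contra hcon
  rw [← mem_toL] at hcon
  have hl : IsP G (toL q ++ [v]) := by
    refine ⟨?_, ?_⟩
    · rw [List.nodup_append]
      refine ⟨h.toL_isP.1, by simp, ?_⟩
      intro a ha b hb hab
      simp only [List.mem_singleton] at hb
      subst hb
      subst hab
      exact hcon ha
    · rw [List.isChain_append]
      refine ⟨h.toL_isP.2, by simp, ?_⟩
      intro a ha b hb
      simp only [List.head?_cons, Option.mem_def, Option.some.injEq] at hb
      subst hb
      have hpos : 2 * ℓ - 1 < 2 * ℓ := by omega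
      have : (toL q).getLast? = some (vtx q ⟨2 * ℓ - 1, hpos⟩) := by
        rw [List.getLast?_eq_getElem?, length_toL, List.getElem?_eq_getElem (by
          rw [length_toL]; exact hpos)]
        simp [toL]
      rw [this] at ha
      simp only [Option.mem_def, Option.some.injEq] at ha
      rw [← ha]
      unfold vtx
      simp only
      rw [if_neg (by omega)]
      have : (⟨(2 * ℓ - 1) / 2, by omega⟩ : Fin ℓ) = i := by ext; simp; omega
      rw [this]
      exact hv
  have := hS _ hl.1 hl.2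
  rw [List.length_append, length_toL] at this
  simp at this

/-! ### Function versions of the realisation lemmas -/

variable [DecidableEq V]

theorem R1' {K M e₁ e₂ : ℕ} (hM : 1 ≤ M) {σ : Fin M → V} (hσ : Function.Injective σ)
    (hch : Chain (Gam G K) σ)
    (h₁ : EE G K e₁ (σ ⟨0, by omega⟩)) (h₂ : EE G K e₂ (σ ⟨M - 1, by omega⟩))
    (hK : 2 * M + 4 ≤ K) :
    ∃ l : List V, IsP G l ∧ l.length + 1 = 2 * M + e₁ + e₂ := by
  have := R1 (G := G) (K := K) (e₁ := e₁) (e₂ := e₂) (hs := List.ofFn σ)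
    (x := σ ⟨0, by omega⟩) (y := σ ⟨M - 1, by omega⟩)
    (List.nodup_ofFn.mpr hσ) (by
      rw [List.isChain_ofFn]
      intro i hi
      exact hch _ _ rfl) (by
      rw [List.head?_eq_getElem?, List.getElem?_eq_getElem (by simp; omega)]
      simp) (by
      rw [List.getLast?_eq_getElem?, List.getElem?_eq_getElem (by simp; omega)]
      simp) h₁ h₂ (by simpa using hK)
  simpa using this

theorem R2' {K M e₁ e₂ k : ℕ} (hk : 1 ≤ k) (hkM : k < M) {σ : Fin M → V} {m : List V}
    (hσ : Function.Injective σ)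
    (hch : ∀ i j : Fin M, (j : ℕ) = i + 1 → (j : ℕ) ≠ k → Gam G K (σ i) (σ j))
    (hm : (σ ⟨k - 1, by omega⟩ :: m ++ [σ ⟨k, hkM⟩]).IsChain G.Adj) (hmnd : m.Nodup)
    (hmσ : ∀ z ∈ m, ∀ i, z ≠ σ i)
    (h₁ : EE G K e₁ (σ ⟨0, by omega⟩)) (h₂ : EE G K e₂ (σ ⟨M - 1, by omega⟩))
    (hK : 2 * M + m.length + 4 ≤ K) :
    ∃ l : List V, IsP G l ∧ l.length + 2 = 2 * M + m.length + e₁ + e₂ := by
  have hlen1 : ((List.ofFn σ).take k).length = k := by simp; omega
  have hlen2 : ((List.ofFn σ).drop k).length = M - k := by simp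
  have hchall : ∀ (i : ℕ) (h : i + 1 < M), i + 1 ≠ k →
      Gam G K (σ ⟨i, by omega⟩) (σ ⟨i + 1, h⟩) := fun i h hne => hch _ _ rfl hne
  have := R2 (G := G) (K := K) (e₁ := e₁) (e₂ := e₂) (hs₁ := (List.ofFn σ).take k)
    (hs₂ := (List.ofFn σ).drop k) (m := m)
    (x := σ ⟨0, by omega⟩) (x' := σ ⟨k - 1, by omega⟩) (y' := σ ⟨k, hkM⟩)
    (y := σ ⟨M - 1, by omega⟩)
    (by rw [List.take_append_drop]; exact List.nodup_ofFn.mpr hσ)
    (by
      rw [List.isChain_iff_getElem]
      intro i hi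
      rw [hlen1] at hi
      simp only [List.getElem_take, List.getElem_ofFn]
      exact hchall i (by omega) (by omega))
    (by
      rw [List.isChain_iff_getElem]
      intro i hi
      rw [hlen2] at hi
      simp only [List.getElem_drop, List.getElem_ofFn]
      have := hchall (k + i) (by omega) (by omega)
      simpa [add_assoc] using this)
    (by
      rw [List.head?_eq_getElem?, List.getElem?_eq_getElem (by rw [hlen1]; omega)]
      simp)
    (by
      rw [List.getLast?_eq_getElem?, List.getElem?_eq_getElem (by rw [hlen1]; omega)]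
      simp only [List.getElem_take, List.getElem_ofFn, hlen1])
    (by
      rw [List.head?_eq_getElem?, List.getElem?_eq_getElem (by rw [hlen2]; omega)]
      simp)
    (by
      rw [List.getLast?_eq_getElem?, List.getElem?_eq_getElem (by rw [hlen2]; omega)]
      simp only [List.getElem_drop, List.getElem_ofFn, hlen2, Option.some.injEq]
      congr 2
      omega)
    hm hmnd
    (by
      intro z hz hz'
      have := List.mem_of_mem_take hz'
      rw [List.mem_ofFn] at this
      obtain ⟨i, hi⟩ := this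
      exact hmσ z hz i hi.symm)
    (by
      intro z hz hz'
      have := List.mem_of_mem_drop hz'
      rw [List.mem_ofFn] at this
      obtain ⟨i, hi⟩ := this
      exact hmσ z hz i hi.symm)
    h₁ h₂ (by rw [hlen1, hlen2]; omega)
  obtain ⟨l, hl, hlen⟩ := this
  rw [hlen1, hlen2] at hlen
  exact ⟨l, hl, by omega⟩

end P490135

end

section

/-!
# MP_490135_co, item H: type II, case alpha, `ℓ = 4` and `ℓ = 5` (helper15)
-/

namespace P490135

open Finset Nat

section

variable {α β : Type*} {S : Finset α} {W : Finset β} {A : β → α → Prop}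
  {Γ : α → α → Prop}

theorem HypII.noHam4 (H : HypII 4 S W A Γ) {σ : Fin 4 → α} (hσ : Function.Injective σ)
    (hS : ∀ i, σ i ∈ S) (e : Fin 4 → Fin 4) (he : Function.Injective e)
    (h0 : Γ (σ (e 0)) (σ (e 1))) (h1 : Γ (σ (e 1)) (σ (e 2))) (h2 : Γ (σ (e 2)) (σ (e 3))) :
    False := by
  refine H.noHam (fun i => σ (e i)) (hσ.comp he) (fun i => hS _) ?_
  intro i j hij
  fin_cases i <;> fin_cases j <;> first | exact h0 | exact h1 | exact h2 | (exfalso; revert hij; decide)

theorem HypII.noHam5 (H : HypII 5 S W A Γ) {σ : Fin 5 → α} (hσ : Function.Injective σ)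
    (hS : ∀ i, σ i ∈ S) (e : Fin 5 → Fin 5) (he : Function.Injective e)
    (h0 : Γ (σ (e 0)) (σ (e 1))) (h1 : Γ (σ (e 1)) (σ (e 2))) (h2 : Γ (σ (e 2)) (σ (e 3)))
    (h3 : Γ (σ (e 3)) (σ (e 4))) : False := by
  refine H.noHam (fun i => σ (e i)) (hσ.comp he) (fun i => hS _) ?_
  intro i j hij
  fin_cases i <;> fin_cases j <;>
    first | exact h0 | exact h1 | exact h2 | exact h3 | (exfalso; revert hij; decide)

/-- The combinatorial core for `ℓ = 5`. -/
theorem core5 (G : Fin 5 → Fin 5 → Prop) (sym : ∀ i j, G i j → G j i)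
    (n02 : ¬ G 0 2) (n04 : ¬ G 0 4) (n12 : ¬ G 1 2) (n14 : ¬ G 1 4)
    (n24 : G 2 4 → ¬ G 0 3 ∧ ¬ G 1 3) (a b : Fin 5) (hab : a ≠ b) (gab : G a b)
    (hrest : ∀ v, v ≠ a → v ≠ b → ∃ w, w ≠ a ∧ w ≠ b ∧ w ≠ v ∧ G v w) :
    (a = 0 ∧ b = 1) ∨ (a = 1 ∧ b = 0) := by
  have n20 : ¬ G 2 0 := fun h => n02 (sym _ _ h)
  have n40 : ¬ G 4 0 := fun h => n04 (sym _ _ h)
  have n21 : ¬ G 2 1 := fun h => n12 (sym _ _ h)
  have n41 : ¬ G 4 1 := fun h => n14 (sym _ _ h)
  -- a vertex whose possible partners are all excluded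
  have ex : ∀ v, v ≠ a → v ≠ b → (∀ w, w ≠ a → w ≠ b → w ≠ v → ¬ G v w) → False := by
    intro v h1 h2 h3
    obtain ⟨w, hw1, hw2, hw3, hw4⟩ := hrest v h1 h2
    exact h3 w hw1 hw2 hw3 hw4
  have e23 : (a = 2 ∧ b = 3) ∨ (a = 3 ∧ b = 2) → False := by
    rintro (⟨rfl, rfl⟩ | ⟨rfl, rfl⟩) <;>
    · refine ex 4 (by decide) (by decide) ?_
      intro w h1 h2 h3
      fin_cases w <;> first | exact n40 | exact n41 | exact absurd rfl h1 | exact absurd rfl h2 |
        exact absurd rfl h3
  have e34 : (a = 3 ∧ b = 4) ∨ (a = 4 ∧ b = 3) → False := by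
    rintro (⟨rfl, rfl⟩ | ⟨rfl, rfl⟩) <;>
    · refine ex 2 (by decide) (by decide) ?_
      intro w h1 h2 h3
      fin_cases w <;> first | exact n20 | exact n21 | exact absurd rfl h1 | exact absurd rfl h2 |
        exact absurd rfl h3
  have e24 : (a = 2 ∧ b = 4) ∨ (a = 4 ∧ b = 2) → False := by
    intro h
    have g24 : G 2 4 := by
      rcases h with ⟨rfl, rfl⟩ | ⟨rfl, rfl⟩
      · exact gab
      · exact sym _ _ gab
    have n30 : ¬ G 3 0 := fun h => (n24 g24).1 (sym _ _ h)
    have n31 : ¬ G 3 1 := fun h => (n24 g24).2 (sym _ _ h)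
    rcases h with ⟨rfl, rfl⟩ | ⟨rfl, rfl⟩
    · refine ex 3 (by decide) (by decide) ?_
      intro w h1 h2 h3
      fin_cases w <;> first | exact n30 | exact n31 | exact absurd rfl h1 | exact absurd rfl h2 |
        exact absurd rfl h3
    · refine ex 3 (by decide) (by decide) ?_
      intro w h1 h2 h3
      fin_cases w <;> first | exact n30 | exact n31 | exact absurd rfl h1 | exact absurd rfl h2 |
        exact absurd rfl h3
  have e03 : (a = 0 ∧ b = 3) ∨ (a = 3 ∧ b = 0) → False := by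
    rintro (⟨rfl, rfl⟩ | ⟨rfl, rfl⟩) <;>
    · refine ex 1 (by decide) (by decide) ?_
      intro w h1 h2 h3
      fin_cases w <;> first | exact n12 | exact n14 | exact absurd rfl h1 | exact absurd rfl h2 |
        exact absurd rfl h3
  have e13 : (a = 1 ∧ b = 3) ∨ (a = 3 ∧ b = 1) → False := by
    rintro (⟨rfl, rfl⟩ | ⟨rfl, rfl⟩) <;>
    · refine ex 0 (by decide) (by decide) ?_
      intro w h1 h2 h3
      fin_cases w <;> first | exact n02 | exact n04 | exact absurd rfl h1 | exact absurd rfl h2 |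
        exact absurd rfl h3
  fin_cases a <;> fin_cases b <;>
    first
    | exact absurd rfl hab
    | exact Or.inl ⟨rfl, rfl⟩
    | exact Or.inr ⟨rfl, rfl⟩
    | exact absurd gab n02
    | exact absurd gab n04
    | exact absurd gab n12
    | exact absurd gab n14
    | exact absurd gab n20
    | exact absurd gab n40
    | exact absurd gab n21
    | exact absurd gab n41
    | exact (e23 (Or.inl ⟨rfl, rfl⟩)).elim
    | exact (e23 (Or.inr ⟨rfl, rfl⟩)).elim
    | exact (e34 (Or.inl ⟨rfl, rfl⟩)).elim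
    | exact (e34 (Or.inr ⟨rfl, rfl⟩)).elim
    | exact (e24 (Or.inl ⟨rfl, rfl⟩)).elim
    | exact (e24 (Or.inr ⟨rfl, rfl⟩)).elim
    | exact (e03 (Or.inl ⟨rfl, rfl⟩)).elim
    | exact (e03 (Or.inr ⟨rfl, rfl⟩)).elim
    | exact (e13 (Or.inl ⟨rfl, rfl⟩)).elim
    | exact (e13 (Or.inr ⟨rfl, rfl⟩)).elim

/-- For `ℓ = 5`, `p = 2`: the first two highs are always the same two. -/
theorem IsII.five [DecidableEq α] (H : HypII 5 S W A Γ) {σ σ' : Fin 5 → α} {τ τ' : Fin 5 → β}
    (h : IsII 5 S W A 2 σ τ) (h' : IsII 5 S W A 2 σ' τ') :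
    (σ' 0 = σ 0 ∧ σ' 1 = σ 1) ∨ (σ' 0 = σ 1 ∧ σ' 1 = σ 0) := by
  classical
  have g01 : Γ (σ 0) (σ 1) := h.gap H 0 1 rfl (by decide)
  have g23 : Γ (σ 2) (σ 3) := h.gap H 2 3 rfl (by decide)
  have g34 : Γ (σ 3) (σ 4) := h.gap H 3 4 rfl (by decide)
  have g10 := H.symm _ _ g01
  have g32 := H.symm _ _ g23
  have g43 := H.symm _ _ g34
  have g01' : Γ (σ' 0) (σ' 1) := h'.gap H 0 1 rfl (by decide)
  have g23' : Γ (σ' 2) (σ' 3) := h'.gap H 2 3 rfl (by decide)
  have g34' : Γ (σ' 3) (σ' 4) := h'.gap H 3 4 rfl (by decide)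
  choose π hπ using fun i => h.surjS H (h'.σS i)
  have hπi : Function.Injective π := by
    intro i j hij
    apply h'.σinj
    rw [← hπ i, ← hπ j, hij]
  have hπs : Function.Surjective π := Finite.surjective_of_injective hπi
  have key := core5 (fun i j => Γ (σ i) (σ j)) (fun i j hij => H.symm _ _ hij)
    (fun g => H.noHam5 h.σinj h.σS ![1, 0, 2, 3, 4] (by decide) g10 g g23 g34)
    (fun g => H.noHam5 h.σinj h.σS ![1, 0, 4, 3, 2] (by decide) g10 g g43 g32)
    (fun g => H.noHam5 h.σinj h.σS ![0, 1, 2, 3, 4] (by decide) g01 g g23 g34)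
    (fun g => H.noHam5 h.σinj h.σS ![0, 1, 4, 3, 2] (by decide) g01 g g43 g32)
    (fun g => ⟨fun g' => H.noHam5 h.σinj h.σS ![2, 4, 3, 0, 1] (by decide) g g43
        (H.symm _ _ g') g01,
      fun g' => H.noHam5 h.σinj h.σS ![2, 4, 3, 1, 0] (by decide) g g43
        (H.symm _ _ g') g10⟩)
    (π 0) (π 1) (hπi.ne (by decide)) (by simpa only [hπ] using g01') ?_
  · rcases key with ⟨h0, h1⟩ | ⟨h0, h1⟩
    · left; rw [← hπ 0, ← hπ 1, h0, h1]; exact ⟨rfl, rfl⟩
    · right; rw [← hπ 0, ← hπ 1, h0, h1]; exact ⟨rfl, rfl⟩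
  · intro v hv0 hv1
    obtain ⟨i, rfl⟩ := hπs v
    have hi0 : i ≠ 0 := fun e => hv0 (by rw [e])
    have hi1 : i ≠ 1 := fun e => hv1 (by rw [e])
    have main : ∃ j : Fin 5, j ≠ 0 ∧ j ≠ 1 ∧ j ≠ i ∧ Γ (σ' i) (σ' j) := by
      fin_cases i
      · exact absurd rfl hi0
      · exact absurd rfl hi1
      · exact ⟨3, by decide, by decide, by decide, g23'⟩
      · exact ⟨2, by decide, by decide, by decide, H.symm _ _ g23'⟩
      · exact ⟨3, by decide, by decide, by decide, H.symm _ _ g34'⟩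
    obtain ⟨j, hj0, hj1, hji, hj⟩ := main
    refine ⟨π j, hπi.ne hj0, hπi.ne hj1, hπi.ne hji, ?_⟩
    simpa only [hπ] using hj

/-- The number of orders for `ℓ = 5`, `p = 2`. -/
theorem II_sigma_five [DecidableEq α] (H : HypII 5 S W A Γ) (Q : Finset (Fin 5 → α))
    (hQ : ∀ σ ∈ Q, ∃ τ, IsII 5 S W A 2 σ τ) : Q.card ≤ 12 := by
  classical
  rcases Q.eq_empty_or_nonempty with rfl | ⟨σ₀, hσ₀⟩
  · simp
  obtain ⟨τ₀, h0⟩ := hQ σ₀ hσ₀
  set B : Fin 2 → Finset α := fun k => if k = 0 then {σ₀ 0, σ₀ 1} else S \ {σ₀ 0, σ₀ 1} with hB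
  have hne : σ₀ 0 ≠ σ₀ 1 := fun e => absurd (h0.σinj e) (by decide)
  have hsub : ({σ₀ 0, σ₀ 1} : Finset α) ⊆ S := by
    intro x hx
    rw [Finset.mem_insert, Finset.mem_singleton] at hx
    rcases hx with rfl | rfl
    · exact h0.σS _
    · exact h0.σS _
  have hz := zone_col (fun i : Fin 5 => if (i : ℕ) < 2 then (0 : Fin 2) else 1) B Q ?_
  · refine hz.trans (le_of_eq ?_)
    rw [Fin.prod_univ_two]
    have c0 : (B 0).card = 2 := by
      simp only [hB, if_true]
      exact Finset.card_pair hne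
    have c1 : (B 1).card = 3 := by
      have : B 1 = S \ {σ₀ 0, σ₀ 1} := by
        simp only [hB]
        rw [if_neg (by decide)]
      rw [this, Finset.card_sdiff_of_subset hsub, Finset.card_pair hne, H.cardS]
    rw [c0, c1]
    rfl
  · intro σ hσ
    obtain ⟨τ, h⟩ := hQ σ hσ
    have h01 := h0.five H h
    refine ⟨h.σinj, fun i => ?_⟩
    by_cases hi : (i : ℕ) < 2
    · simp only [if_pos hi, hB, if_true]
      rw [Finset.mem_insert, Finset.mem_singleton]
      have : i = 0 ∨ i = 1 := by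
        have : (i : ℕ) = 0 ∨ (i : ℕ) = 1 := by omega
        rcases this with e | e
        · left; exact Fin.ext e
        · right; exact Fin.ext e
      rcases this with rfl | rfl <;> rcases h01 with ⟨a1, a2⟩ | ⟨a1, a2⟩ <;> simp [a1, a2]
    · simp only [if_neg hi, hB]
      rw [if_neg (by decide : ¬ (1 : Fin 2) = 0), Finset.mem_sdiff, Finset.mem_insert,
        Finset.mem_singleton]
      refine ⟨h.σS _, ?_⟩
      rintro (e | e)
      · rcases h01 with ⟨a1, a2⟩ | ⟨a1, a2⟩
        · have := h.σinj (e.trans a1.symm)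
          subst this
          exact hi (by decide)
        · have := h.σinj (e.trans a2.symm)
          subst this
          exact hi (by decide)
      · rcases h01 with ⟨a1, a2⟩ | ⟨a1, a2⟩
        · have := h.σinj (e.trans a2.symm)
          subst this
          exact hi (by decide)
        · have := h.σinj (e.trans a1.symm)
          subst this
          exact hi (by decide)

/-- The number of members with `p = 2`, `ℓ = 5`. -/
theorem II_five_two [DecidableEq α] [DecidableEq β] (H : HypII 5 S W A Γ)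
    (two : ∀ v ∈ S, ∃ u ∈ W, ∃ u' ∈ W, u ≠ u' ∧ A u v ∧ A u' v)
    (Q : Finset ((Fin 5 → α) × (Fin 5 → β)))
    (hQ : ∀ x ∈ Q, IsII 5 S W A 2 x.1 x.2) : Q.card ≤ 144 := by
  classical
  have h1 : Q.card ≤ 12 * (Q.image (fun x => x.1)).card := by
    apply Finset.card_le_mul_card_image
    intro σ hσ
    have := II_tau (p := 2) (σ := σ) H two
      ((Q.filter (fun x => x.1 = σ)).image (fun x => x.2)) ?_
    · refine le_trans (le_of_eq ?_) this
      symm
      apply Finset.card_image_of_injOn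
      intro x hx y hy hxy
      rw [Finset.mem_coe, Finset.mem_filter] at hx hy
      exact Prod.ext (hx.2.trans hy.2.symm) hxy
    · intro τ hτ
      obtain ⟨x, hx, rfl⟩ := Finset.mem_image.1 hτ
      rw [Finset.mem_filter] at hx
      have hx1 := hQ x hx.1
      rw [hx.2] at hx1
      exact hx1
  have h2 := II_sigma_five H (Q.image (fun x => x.1)) (fun σ hσ => by
    obtain ⟨x, hx, rfl⟩ := Finset.mem_image.1 hσ
    exact ⟨_, hQ x hx⟩)
  omega

end

/-- II, case alpha, `ℓ = 5`. -/
theorem II_alpha_five {α β : Type*} [DecidableEq α] [DecidableEq β]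
    (S : Finset α) (W : Finset β) (A : β → α → Prop) (Γ : α → α → Prop)
    (H : HypII 5 S W A Γ)
    (two : ∀ v ∈ S, ∃ u ∈ W, ∃ u' ∈ W, u ≠ u' ∧ A u v ∧ A u' v)
    (Q : Finset (ℕ × (Fin 5 → α) × (Fin 5 → β)))
    (hQ : ∀ x ∈ Q, IsII 5 S W A x.1 x.2.1 x.2.2) :
    Q.card ≤ 288 := by
  classical
  have hp : ∀ x ∈ Q, x.1 = 2 ∨ x.1 = 3 := by
    intro x hx
    have h1 := (hQ x hx).f3 H two
    have h2 := (hQ x hx).f3' H two
    omega
  have c2 : (Q.filter (fun x => x.1 = 2)).card ≤ 144 := by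
    have := II_five_two H two ((Q.filter (fun x => x.1 = 2)).image (fun x => x.2)) (by
      intro y hy
      obtain ⟨x, hx, rfl⟩ := Finset.mem_image.1 hy
      rw [Finset.mem_filter] at hx
      have := hQ x hx.1
      rw [hx.2] at this
      exact this)
    refine le_trans (le_of_eq ?_) this
    symm
    apply Finset.card_image_of_injOn
    intro x hx y hy hxy
    rw [Finset.mem_coe, Finset.mem_filter] at hx hy
    exact Prod.ext (hx.2.trans hy.2.symm) hxy
  have c3 : (Q.filter (fun x => ¬ x.1 = 2)).card ≤ 144 := by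
    have := II_five_two H two ((Q.filter (fun x => ¬ x.1 = 2)).image
      (fun x => ((fun i => x.2.1 (Fin.rev i)), (fun i => x.2.2 (Fin.rev i))))) (by
      intro y hy
      obtain ⟨x, hx, rfl⟩ := Finset.mem_image.1 hy
      rw [Finset.mem_filter] at hx
      have h3 : x.1 = 3 := by
        rcases hp x hx.1 with h | h
        · exact absurd h hx.2
        · exact h
      have := (hQ x hx.1).rev
      rw [h3] at this
      exact this)
    refine le_trans (le_of_eq ?_) this
    symm
    apply Finset.card_image_of_injOn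
    intro x hx y hy hxy
    rw [Finset.mem_coe, Finset.mem_filter] at hx hy
    have h3 : x.1 = 3 := by
      rcases hp x hx.1 with h | h
      · exact absurd h hx.2
      · exact h
    have h3' : y.1 = 3 := by
      rcases hp y hy.1 with h | h
      · exact absurd h hy.2
      · exact h
    simp only [Prod.mk.injEq] at hxy
    refine Prod.ext (h3.trans h3'.symm) (Prod.ext ?_ ?_)
    · funext i
      have := congrFun hxy.1 (Fin.rev i)
      simpa using this
    · funext i
      have := congrFun hxy.2 (Fin.rev i)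
      simpa using this
  have := Finset.card_filter_add_card_filter_not (s := Q) (fun x => x.1 = 2)
  omega

section four

variable {α β : Type*} {S : Finset α} {W : Finset β} {A : β → α → Prop}
  {Γ : α → α → Prop} {σ : Fin 4 → α} {τ : Fin 4 → β}

/-- A low cannot be adjacent to three highs. -/
theorem HypII.not_three (H : HypII 4 S W A Γ) {u : β} (hu : u ∈ W) {a b c : α} (ha : a ∈ S)
    (hb : b ∈ S) (hc : c ∈ S) (hab : a ≠ b) (hac : a ≠ c) (hbc : b ≠ c) (h1 : A u a) (h2 : A u b)
    (h3 : A u c) : False := by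
  classical
  obtain ⟨x, hx, y, hy, hxy, hux, huy⟩ := H.miss u hu
  have hsub : ({a, b, c, x, y} : Finset α) ⊆ S := by
    intro z hz
    simp only [Finset.mem_insert, Finset.mem_singleton] at hz
    rcases hz with rfl | rfl | rfl | rfl | rfl <;> assumption
  have hcard : ({a, b, c, x, y} : Finset α).card = 5 := by
    have n : ∀ z, A u z → z ≠ x ∧ z ≠ y := fun z hz =>
      ⟨fun e => hux (e ▸ hz), fun e => huy (e ▸ hz)⟩
    rw [Finset.card_insert_of_notMem, Finset.card_insert_of_notMem, Finset.card_insert_of_notMem,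
      Finset.card_pair hxy]
    · simp [n c h3]
    · simp [hbc, n b h2]
    · simp [hab, hac, n a h1]
  have := Finset.card_le_card hsub
  rw [hcard, H.cardS] at this
  omega

/-- The structure of a member for `ℓ = 4`, first half. -/
theorem IsII.four_a [DecidableEq β] (H : HypII 4 S W A Γ)
    (two : ∀ v ∈ S, ∃ u ∈ W, ∃ u' ∈ W, u ≠ u' ∧ A u v ∧ A u' v)
    (h : IsII 4 S W A 2 σ τ) :
    (∀ u ∈ ({τ 0, τ 1} : Finset β), ∀ v ∈ S, (A u v ↔ v = σ 0 ∨ v = σ 1)) := by
  classical
  have g01 : Γ (σ 0) (σ 1) := h.gap H 0 1 rfl (by decide)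
  have g23 : Γ (σ 2) (σ 3) := h.gap H 2 3 rfl (by decide)
  have a00 : A (τ 0) (σ 0) := h.adj 0
  have a11 : A (τ 1) (σ 1) := h.adj 1
  have a10 : A (τ 1) (σ 0) := h.adj1 0 1 rfl (by decide)
  have a22 : A (τ 2) (σ 2) := h.adj 2
  have a33 : A (τ 3) (σ 3) := h.adj 3
  have a23 : A (τ 2) (σ 3) := h.adj2 2 3 rfl (by decide)
  have ne : ∀ i j : Fin 4, i ≠ j → σ i ≠ σ j := fun i j hij => h.σinj.ne hij
  -- `τ 2` is not adjacent to `σ 1`
  have n21 : ¬ A (τ 2) (σ 1) := fun hA =>
    H.not_three (h.τW 2) (h.σS 2) (h.σS 3) (h.σS 1) (ne _ _ (by decide)) (ne _ _ (by decide))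
      (ne _ _ (by decide)) a22 a23 hA
  have n31 : ¬ A (τ 3) (σ 1) := fun hA => by
    have g13 : Γ (σ 1) (σ 3) := H.clique _ (h.τW 3) _ (h.σS _) _ (h.σS _) hA a33
      (ne _ _ (by decide))
    exact H.noHam4 h.σinj h.σS ![0, 1, 3, 2] (by decide) g01 g13 (H.symm _ _ g23)
  have a01 : A (τ 0) (σ 1) := by
    obtain ⟨u, hu, u', hu', hne, hA, hA'⟩ := two (σ 1) (h.σS 1)
    obtain ⟨i, rfl⟩ := h.surj H hu
    obtain ⟨i', rfl⟩ := h.surj H hu'
    have hii : i ≠ i' := fun e => hne (by rw [e])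
    by_contra hc
    have : ∀ k : Fin 4, A (τ k) (σ 1) → k = 1 := by
      intro k hk
      fin_cases k
      · exact absurd hk hc
      · rfl
      · exact absurd hk n21
      · exact absurd hk n31
    exact hii ((this i hA).trans (this i' hA').symm)
  intro u hu v hv
  rw [Finset.mem_insert, Finset.mem_singleton] at hu
  constructor
  · intro hA
    by_contra hc
    rw [not_or] at hc
    rcases hu with rfl | rfl
    · exact H.not_three (h.τW 0) (h.σS 0) (h.σS 1) hv (ne _ _ (by decide)) (Ne.symm hc.1)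
        (Ne.symm hc.2) a00 a01 hA
    · exact H.not_three (h.τW 1) (h.σS 0) (h.σS 1) hv (ne _ _ (by decide)) (Ne.symm hc.1)
        (Ne.symm hc.2) a10 a11 hA
  · rintro (rfl | rfl)
    · rcases hu with rfl | rfl
      · exact a00
      · exact a10
    · rcases hu with rfl | rfl
      · exact a01
      · exact a11

/-- The structure of a member for `ℓ = 4`, second half. -/
theorem IsII.four_b [DecidableEq β] (H : HypII 4 S W A Γ)
    (two : ∀ v ∈ S, ∃ u ∈ W, ∃ u' ∈ W, u ≠ u' ∧ A u v ∧ A u' v)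
    (h : IsII 4 S W A 2 σ τ) :
    (∀ u ∈ ({τ 2, τ 3} : Finset β), ∀ v ∈ S, (A u v ↔ v = σ 2 ∨ v = σ 3)) := by
  have h1 := h.rev
  have h2 := IsII.four_a H two h1
  intro u hu v hv
  have h3 := h2 u (by
    rw [Finset.mem_insert, Finset.mem_singleton] at hu ⊢
    exact hu.symm) v hv
  rw [h3]
  exact or_comm

end four

/-- II, case alpha, `ℓ = 4`: `W` consists of two pairs of twins of degree two. -/
theorem II_alpha_four {α β : Type*} [DecidableEq α] [DecidableEq β]
    (S : Finset α) (W : Finset β) (A : β → α → Prop) (Γ : α → α → Prop)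
    (H : HypII 4 S W A Γ)
    (two : ∀ v ∈ S, ∃ u ∈ W, ∃ u' ∈ W, u ≠ u' ∧ A u v ∧ A u' v)
    (Q : Finset (ℕ × (Fin 4 → α) × (Fin 4 → β)))
    (hQ : ∀ x ∈ Q, IsII 4 S W A x.1 x.2.1 x.2.2) (hne : Q.Nonempty) :
    Q.card ≤ 32 ∧ ∃ S₁ S₂ : Finset α, ∃ W₁ W₂ : Finset β,
      S₁.card = 2 ∧ S₂.card = 2 ∧ W₁.card = 2 ∧ W₂.card = 2 ∧
      Disjoint S₁ S₂ ∧ Disjoint W₁ W₂ ∧ S = S₁ ∪ S₂ ∧ W = W₁ ∪ W₂ ∧
      (∀ u ∈ W₁, ∀ h ∈ S, (A u h ↔ h ∈ S₁)) ∧ (∀ u ∈ W₂, ∀ h ∈ S, (A u h ↔ h ∈ S₂)) := by
  classical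
  have hp : ∀ x ∈ Q, x.1 = 2 := by
    intro x hx
    have h1 := (hQ x hx).f3 H two
    have h2 := (hQ x hx).f3' H two
    omega
  obtain ⟨x₀, hx₀⟩ := hne
  have h0 := hQ x₀ hx₀
  rw [hp x₀ hx₀] at h0
  set σ := x₀.2.1 with hσ
  set τ := x₀.2.2 with hτ
  set S₁ : Finset α := {σ 0, σ 1} with hS₁
  set S₂ : Finset α := {σ 2, σ 3} with hS₂
  set W₁ : Finset β := {τ 0, τ 1} with hW₁
  set W₂ : Finset β := {τ 2, τ 3} with hW₂
  have cS₁ : S₁.card = 2 := Finset.card_pair (h0.σinj.ne (by decide))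
  have cS₂ : S₂.card = 2 := Finset.card_pair (h0.σinj.ne (by decide))
  have cW₁ : W₁.card = 2 := Finset.card_pair (h0.τinj.ne (by decide))
  have cW₂ : W₂.card = 2 := Finset.card_pair (h0.τinj.ne (by decide))
  have dS : Disjoint S₁ S₂ := by
    rw [Finset.disjoint_left]
    intro x hx hx'
    rw [hS₁, Finset.mem_insert, Finset.mem_singleton] at hx
    rw [hS₂, Finset.mem_insert, Finset.mem_singleton] at hx'
    rcases hx with rfl | rfl <;> rcases hx' with e | e <;>
      exact absurd (h0.σinj e) (by decide)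
  have dW : Disjoint W₁ W₂ := by
    rw [Finset.disjoint_left]
    intro x hx hx'
    rw [hW₁, Finset.mem_insert, Finset.mem_singleton] at hx
    rw [hW₂, Finset.mem_insert, Finset.mem_singleton] at hx'
    rcases hx with rfl | rfl <;> rcases hx' with e | e <;>
      exact absurd (h0.τinj e) (by decide)
  have uS : S = S₁ ∪ S₂ := by
    symm
    apply Finset.eq_of_subset_of_card_le
    · intro x hx
      rw [Finset.mem_union, hS₁, hS₂, Finset.mem_insert, Finset.mem_singleton, Finset.mem_insert,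
        Finset.mem_singleton] at hx
      rcases hx with (rfl | rfl) | (rfl | rfl) <;> exact h0.σS _
    · rw [Finset.card_union_of_disjoint dS, cS₁, cS₂, H.cardS]
  have uW : W = W₁ ∪ W₂ := by
    symm
    apply Finset.eq_of_subset_of_card_le
    · intro x hx
      rw [Finset.mem_union, hW₁, hW₂, Finset.mem_insert, Finset.mem_singleton, Finset.mem_insert,
        Finset.mem_singleton] at hx
      rcases hx with (rfl | rfl) | (rfl | rfl) <;> exact h0.τW _
    · rw [Finset.card_union_of_disjoint dW, cW₁, cW₂, H.cardW]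
  have A₁ : ∀ u ∈ W₁, ∀ h ∈ S, (A u h ↔ h ∈ S₁) := by
    intro u hu v hv
    rw [h0.four_a H two u hu v hv, hS₁, Finset.mem_insert, Finset.mem_singleton]
  have A₂ : ∀ u ∈ W₂, ∀ h ∈ S, (A u h ↔ h ∈ S₂) := by
    intro u hu v hv
    rw [h0.four_b H two u hu v hv, hS₂, Finset.mem_insert, Finset.mem_singleton]
  refine ⟨?_, S₁, S₂, W₁, W₂, cS₁, cS₂, cW₁, cW₂, dS, dW, uS, uW, A₁, A₂⟩
  -- counting
  have count : ∀ (R : Finset (ℕ × (Fin 4 → α) × (Fin 4 → β))) (B : Fin 2 → Finset α)
      (C : Fin 2 → Finset β), (∀ k, (B k).card = 2) → (∀ k, (C k).card = 2) →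
      (∀ x ∈ R, x.1 = 2 ∧ Function.Injective x.2.1 ∧ Function.Injective x.2.2 ∧
        (∀ i : Fin 4, x.2.1 i ∈ B (if (i : ℕ) < 2 then 0 else 1)) ∧
        (∀ i : Fin 4, x.2.2 i ∈ C (if (i : ℕ) < 2 then 0 else 1))) → R.card ≤ 16 := by
    intro R B C hB hC hR
    have z1 := zone_col (fun i : Fin 4 => if (i : ℕ) < 2 then (0 : Fin 2) else 1) B
      (R.image (fun x => x.2.1)) (by
        intro s hs
        obtain ⟨x, hx, rfl⟩ := Finset.mem_image.1 hs
        exact ⟨(hR x hx).2.1, (hR x hx).2.2.2.1⟩)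
    have z2 := zone_col (fun i : Fin 4 => if (i : ℕ) < 2 then (0 : Fin 2) else 1) C
      (R.image (fun x => x.2.2)) (by
        intro s hs
        obtain ⟨x, hx, rfl⟩ := Finset.mem_image.1 hs
        exact ⟨(hR x hx).2.2.1, (hR x hx).2.2.2.2⟩)
    rw [Fin.prod_univ_two, hB, hB] at z1
    rw [Fin.prod_univ_two, hC, hC] at z2
    have z3 : R.card ≤ ((R.image (fun x => x.2.1)) ×ˢ (R.image (fun x => x.2.2))).card := by
      refine Finset.card_le_card_of_injOn (fun x => x.2) ?_ ?_
      · intro x hx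
        rw [Finset.mem_coe] at hx
        rw [Finset.mem_coe, Finset.mem_product]
        exact ⟨Finset.mem_image_of_mem _ hx, Finset.mem_image_of_mem _ hx⟩
      · intro x hx y hy hxy
        rw [Finset.mem_coe] at hx hy
        exact Prod.ext ((hR x hx).1.trans (hR y hy).1.symm) hxy
    rw [Finset.card_product] at z3
    have e2 : (2 : ℕ)! * (2 : ℕ)! = 4 := rfl
    rw [e2] at z1 z2
    calc R.card ≤ _ := z3
      _ ≤ 4 * 4 := Nat.mul_le_mul z1 z2
      _ = 16 := rfl
  -- every member is of one of the two kinds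
  have kind : ∀ x ∈ Q, (∀ i : Fin 4, ((i : ℕ) < 2 → x.2.1 i ∈ S₁ ∧ x.2.2 i ∈ W₁) ∧
      (¬ (i : ℕ) < 2 → x.2.1 i ∈ S₂ ∧ x.2.2 i ∈ W₂)) ∨
      (∀ i : Fin 4, ((i : ℕ) < 2 → x.2.1 i ∈ S₂ ∧ x.2.2 i ∈ W₂) ∧
      (¬ (i : ℕ) < 2 → x.2.1 i ∈ S₁ ∧ x.2.2 i ∈ W₁)) := by
    intro x hx
    have h := hQ x hx
    rw [hp x hx] at h
    have ha := h.four_a H two
    have hb := h.four_b H two
    have inS : ∀ v ∈ S, v ∈ S₁ ∨ v ∈ S₂ := fun v hv => by
      rw [uS, Finset.mem_union] at hv; exact hv
    have inW : ∀ v ∈ W, v ∈ W₁ ∨ v ∈ W₂ := fun v hv => by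
      rw [uW, Finset.mem_union] at hv; exact hv
    have nS : ∀ v, v ∈ S₁ → v ∈ S₂ → False := fun v h1 h2 => Finset.disjoint_left.1 dS h1 h2
    have sS₁ : ∀ v ∈ S₁, v ∈ S := fun v hv => by rw [uS]; exact Finset.mem_union_left _ hv
    have sS₂ : ∀ v ∈ S₂, v ∈ S := fun v hv => by rw [uS]; exact Finset.mem_union_right _ hv
    -- adjacency between lows and highs
    have adjS : ∀ u ∈ W, ∀ v ∈ S, A u v → (u ∈ W₁ ∧ v ∈ S₁) ∨ (u ∈ W₂ ∧ v ∈ S₂) := by
      intro u hu v hv hA
      rcases inW u hu with h1 | h1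
      · left; exact ⟨h1, (A₁ u h1 v hv).1 hA⟩
      · right; exact ⟨h1, (A₂ u h1 v hv).1 hA⟩
    have a0 := adjS _ (h.τW 0) _ (h.σS 0) (h.adj 0)
    have a1 := adjS _ (h.τW 1) _ (h.σS 1) (h.adj 1)
    have a2 := adjS _ (h.τW 2) _ (h.σS 2) (h.adj 2)
    have a3 := adjS _ (h.τW 3) _ (h.σS 3) (h.adj 3)
    have a10 := adjS _ (h.τW 1) _ (h.σS 0) (h.adj1 0 1 rfl (by decide))
    have a23 := adjS _ (h.τW 2) _ (h.σS 3) (h.adj2 2 3 rfl (by decide))
    have nW : ∀ v, v ∈ W₁ → v ∈ W₂ → False := fun v h1 h2 => Finset.disjoint_left.1 dW h1 h2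
    -- the two halves are different, by counting
    have full : ∀ (T : Finset α), T.card = 2 → ¬ (∀ i : Fin 4, x.2.1 i ∈ T) := by
      intro T hT hall
      have : (univ.image x.2.1).card ≤ T.card := Finset.card_le_card (by
        intro y hy
        obtain ⟨i, -, rfl⟩ := Finset.mem_image.1 hy
        exact hall i)
      rw [Finset.card_image_of_injective _ h.σinj, hT] at this
      simp at this
    have f1 := full S₁ cS₁
    have f2 := full S₂ cS₂
    have h01 : (x.2.2 0 ∈ W₁ ∧ x.2.1 0 ∈ S₁ ∧ x.2.2 1 ∈ W₁ ∧ x.2.1 1 ∈ S₁) ∨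
        (x.2.2 0 ∈ W₂ ∧ x.2.1 0 ∈ S₂ ∧ x.2.2 1 ∈ W₂ ∧ x.2.1 1 ∈ S₂) := by
      rcases a0 with ⟨b1, b2⟩ | ⟨b1, b2⟩
      · left
        rcases a10 with ⟨c1, c2⟩ | ⟨c1, c2⟩
        · rcases a1 with ⟨d1, d2⟩ | ⟨d1, d2⟩
          · exact ⟨b1, b2, c1, d2⟩
          · exact (nW _ c1 d1).elim
        · exact (nS _ b2 c2).elim
      · right
        rcases a10 with ⟨c1, c2⟩ | ⟨c1, c2⟩
        · exact (nS _ c2 b2).elim
        · rcases a1 with ⟨d1, d2⟩ | ⟨d1, d2⟩
          · exact (nW _ d1 c1).elim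
          · exact ⟨b1, b2, c1, d2⟩
    have h23 : (x.2.2 2 ∈ W₁ ∧ x.2.1 2 ∈ S₁ ∧ x.2.2 3 ∈ W₁ ∧ x.2.1 3 ∈ S₁) ∨
        (x.2.2 2 ∈ W₂ ∧ x.2.1 2 ∈ S₂ ∧ x.2.2 3 ∈ W₂ ∧ x.2.1 3 ∈ S₂) := by
      rcases a2 with ⟨b1, b2⟩ | ⟨b1, b2⟩
      · left
        rcases a23 with ⟨c1, c2⟩ | ⟨c1, c2⟩
        · rcases a3 with ⟨d1, d2⟩ | ⟨d1, d2⟩
          · exact ⟨b1, b2, d1, d2⟩
          · exact (nS _ c2 d2).elim
        · exact (nW _ b1 c1).elim
      · right
        rcases a23 with ⟨c1, c2⟩ | ⟨c1, c2⟩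
        · exact (nW _ c1 b1).elim
        · rcases a3 with ⟨d1, d2⟩ | ⟨d1, d2⟩
          · exact (nS _ d2 c2).elim
          · exact ⟨b1, b2, d1, d2⟩
    rcases h01 with ⟨b1, b2, b3, b4⟩ | ⟨b1, b2, b3, b4⟩
    · left
      rcases h23 with ⟨c1, c2, c3, c4⟩ | ⟨c1, c2, c3, c4⟩
      · refine (f1 (fun i => ?_)).elim
        fin_cases i <;> assumption
      · intro i
        fin_cases i
        · exact ⟨fun _ => ⟨b2, b1⟩, fun hn => absurd (by decide) hn⟩
        · exact ⟨fun _ => ⟨b4, b3⟩, fun hn => absurd (by decide) hn⟩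
        · exact ⟨fun hn => absurd hn (by decide), fun _ => ⟨c2, c1⟩⟩
        · exact ⟨fun hn => absurd hn (by decide), fun _ => ⟨c4, c3⟩⟩
    · right
      rcases h23 with ⟨c1, c2, c3, c4⟩ | ⟨c1, c2, c3, c4⟩
      · intro i
        fin_cases i
        · exact ⟨fun _ => ⟨b2, b1⟩, fun hn => absurd (by decide) hn⟩
        · exact ⟨fun _ => ⟨b4, b3⟩, fun hn => absurd (by decide) hn⟩
        · exact ⟨fun hn => absurd hn (by decide), fun _ => ⟨c2, c1⟩⟩
        · exact ⟨fun hn => absurd hn (by decide), fun _ => ⟨c4, c3⟩⟩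
      · refine (f2 (fun i => ?_)).elim
        fin_cases i <;> assumption
  set P : (ℕ × (Fin 4 → α) × (Fin 4 → β)) → Prop := fun x =>
    (∀ i : Fin 4, ((i : ℕ) < 2 → x.2.1 i ∈ S₁ ∧ x.2.2 i ∈ W₁) ∧
      (¬ (i : ℕ) < 2 → x.2.1 i ∈ S₂ ∧ x.2.2 i ∈ W₂)) with hP
  have c1 : (Q.filter P).card ≤ 16 := by
    refine count _ (fun k => if k = 0 then S₁ else S₂) (fun k => if k = 0 then W₁ else W₂) ?_ ?_ ?_
    · intro k; split_ifs <;> assumption
    · intro k; split_ifs <;> assumption
    · intro x hx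
      rw [Finset.mem_filter] at hx
      have h := hQ x hx.1
      refine ⟨hp x hx.1, h.σinj, h.τinj, fun i => ?_, fun i => ?_⟩
      · by_cases hi : (i : ℕ) < 2
        · simp only [if_pos hi, if_true]; exact ((hx.2 i).1 hi).1
        · simp only [if_neg hi]; rw [if_neg (by decide)]; exact ((hx.2 i).2 hi).1
      · by_cases hi : (i : ℕ) < 2
        · simp only [if_pos hi, if_true]; exact ((hx.2 i).1 hi).2
        · simp only [if_neg hi]; rw [if_neg (by decide)]; exact ((hx.2 i).2 hi).2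
  have c2 : (Q.filter (fun x => ¬ P x)).card ≤ 16 := by
    refine count _ (fun k => if k = 0 then S₂ else S₁) (fun k => if k = 0 then W₂ else W₁) ?_ ?_ ?_
    · intro k; split_ifs <;> assumption
    · intro k; split_ifs <;> assumption
    · intro x hx
      rw [Finset.mem_filter] at hx
      have h := hQ x hx.1
      have hk : (∀ i : Fin 4, ((i : ℕ) < 2 → x.2.1 i ∈ S₂ ∧ x.2.2 i ∈ W₂) ∧
          (¬ (i : ℕ) < 2 → x.2.1 i ∈ S₁ ∧ x.2.2 i ∈ W₁)) := by
        rcases kind x hx.1 with h1 | h1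
        · exact absurd h1 hx.2
        · exact h1
      refine ⟨hp x hx.1, h.σinj, h.τinj, fun i => ?_, fun i => ?_⟩
      · by_cases hi : (i : ℕ) < 2
        · simp only [if_pos hi, if_true]; exact ((hk i).1 hi).1
        · simp only [if_neg hi]; rw [if_neg (by decide)]; exact ((hk i).2 hi).1
      · by_cases hi : (i : ℕ) < 2
        · simp only [if_pos hi, if_true]; exact ((hk i).1 hi).2
        · simp only [if_neg hi]; rw [if_neg (by decide)]; exact ((hk i).2 hi).2
  have := Finset.card_filter_add_card_filter_not (s := Q) P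
  omega

end P490135

end

section

/-!
# MP_490135_co: paths of type II and I in a graph (helper81)
-/

namespace P490135

open SimpleGraph Finset

variable {V : Type*} {G : SimpleGraph V}

/-! ### Insertion of a vertex into a sequence -/

/-- insert `v` at position `i` -/
def insF {M : ℕ} (i : ℕ) (v : V) (σ : Fin M → V) (j : Fin (M + 1)) : V :=
  if h : (j : ℕ) < i ∧ (j : ℕ) < M then σ ⟨j, h.2⟩
  else if h : (j : ℕ) ≤ i then v
  else σ ⟨j - 1, by omega⟩

theorem insF_lt {M i : ℕ} {v : V} {σ : Fin M → V} {j : Fin (M + 1)} (hi : i ≤ M)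
    (h : (j : ℕ) < i) : insF i v σ j = σ ⟨j, by omega⟩ := by
  unfold insF
  rw [dif_pos ⟨h, by omega⟩]

theorem insF_eq {M i : ℕ} {v : V} {σ : Fin M → V} {j : Fin (M + 1)}
    (h : (j : ℕ) = i) : insF i v σ j = v := by
  unfold insF
  rw [dif_neg (by omega), dif_pos (by omega)]

theorem insF_gt {M i : ℕ} {v : V} {σ : Fin M → V} {j : Fin (M + 1)}
    (h : i < (j : ℕ)) : insF i v σ j = σ ⟨j - 1, by omega⟩ := by
  unfold insF
  rw [dif_neg (by omega), dif_neg (by omega)]

theorem insF_inj {M i : ℕ} (hi : i ≤ M) {v : V} {σ : Fin M → V} (hσ : Function.Injective σ)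
    (hv : ∀ j, v ≠ σ j) : Function.Injective (insF i v σ) := by
  intro a b hab
  rcases lt_trichotomy (a : ℕ) i with ha | ha | ha <;>
    rcases lt_trichotomy (b : ℕ) i with hb | hb | hb
  · rw [insF_lt hi ha, insF_lt hi hb] at hab
    have := hσ hab
    rw [Fin.mk.injEq] at this
    exact Fin.ext this
  · rw [insF_lt hi ha, insF_eq hb] at hab
    exact absurd hab.symm (hv _)
  · rw [insF_lt hi ha, insF_gt hb] at hab
    have := hσ hab
    rw [Fin.mk.injEq] at this
    omega
  · rw [insF_eq ha, insF_lt hi hb] at hab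
    exact absurd hab (hv _)
  · exact Fin.ext (by omega)
  · rw [insF_eq ha, insF_gt hb] at hab
    exact absurd hab (hv _)
  · rw [insF_gt ha, insF_lt hi hb] at hab
    have := hσ hab
    rw [Fin.mk.injEq] at this
    omega
  · rw [insF_gt ha, insF_eq hb] at hab
    exact absurd hab.symm (hv _)
  · rw [insF_gt ha, insF_gt hb] at hab
    have := hσ hab
    rw [Fin.mk.injEq] at this
    exact Fin.ext (by omega)

/-! ### Path data -/

/-- the matched path of type II with data `p, σ, τ` -/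
def mkII {ℓ : ℕ} (p : ℕ) (σ τ : Fin ℓ → V) (i : Fin ℓ) : V × V :=
  if (i : ℕ) < p then (τ i, σ i) else (σ i, τ i)

/-- type II path in a graph -/
structure GII (G : SimpleGraph V) (Hi : V → Prop) (ℓ p : ℕ) (σ τ : Fin ℓ → V) : Prop where
  p1 : 1 ≤ p
  p2 : p < ℓ
  hσ : ∀ i, Hi (σ i)
  hτ : ∀ i, ¬ Hi (τ i)
  path : IsMP G ℓ (mkII p σ τ)

/-- the matched path of type I with data `k, σ, τ, a, b` -/
def mkI {N : ℕ} (k : ℕ) (σ τ : Fin N → V) (a b : V) (i : Fin (N + 1)) : V × V :=
  if h : (i : ℕ) < k ∧ (i : ℕ) < N then (τ ⟨i, h.2⟩, σ ⟨i, h.2⟩)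
  else if h : (i : ℕ) ≤ k then (a, b)
  else (σ ⟨i - 1, by omega⟩, τ ⟨i - 1, by omega⟩)

/-- type I path in a graph -/
structure GI (G : SimpleGraph V) (Hi : V → Prop) (N k : ℕ) (σ τ : Fin N → V) (a b : V) :
    Prop where
  kN : k ≤ N
  hσ : ∀ i, Hi (σ i)
  hτ : ∀ i, ¬ Hi (τ i)
  ha : ¬ Hi a
  hb : ¬ Hi b
  path : IsMP G (N + 1) (mkI k σ τ a b)

theorem mkI_lt {N k : ℕ} {σ τ : Fin N → V} {a b : V} {i : Fin N} (h : (i : ℕ) < k) :
    mkI k σ τ a b i.castSucc = (τ i, σ i) := by
  unfold mkI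
  rw [dif_pos (by simp only [Fin.val_castSucc]; omega)]
  rfl

theorem mkI_eq {N k : ℕ} (hk : k ≤ N) {σ τ : Fin N → V} {a b : V} :
    mkI k σ τ a b ⟨k, by omega⟩ = (a, b) := by
  unfold mkI
  rw [dif_neg (by simp), dif_pos (by simp)]

theorem mkI_gt {N k : ℕ} {σ τ : Fin N → V} {a b : V} {i : Fin N} (h : k ≤ (i : ℕ)) :
    mkI k σ τ a b i.succ = (σ i, τ i) := by
  unfold mkI
  rw [dif_neg (by simp only [Fin.val_succ]; omega), dif_neg (by simp only [Fin.val_succ]; omega)]
  rfl

namespace GII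

variable {Hi : V → Prop} {ℓ p : ℕ} {σ τ : Fin ℓ → V}

theorem adj (h : GII G Hi ℓ p σ τ) (i : Fin ℓ) : G.Adj (τ i) (σ i) := by
  have := h.path.adj i
  unfold mkII at this
  split_ifs at this
  · exact this
  · exact this.symm

theorem adj1 (h : GII G Hi ℓ p σ τ) (i j : Fin ℓ) (hij : (j : ℕ) = i + 1) (hj : (j : ℕ) < p) :
    G.Adj (τ j) (σ i) := by
  have := h.path.adj' i j hij
  unfold mkII at this
  rw [if_pos (by omega), if_pos hj] at this
  exact this.symm

theorem adj2 (h : GII G Hi ℓ p σ τ) (i j : Fin ℓ) (hij : (j : ℕ) = i + 1) (hi : p ≤ (i : ℕ)) :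
    G.Adj (τ i) (σ j) := by
  have := h.path.adj' i j hij
  unfold mkII at this
  rw [if_neg (by omega), if_neg (by omega)] at this
  exact this

theorem hh (h : GII G Hi ℓ p σ τ) (i j : Fin ℓ) (hij : (j : ℕ) = i + 1) (hj : (j : ℕ) = p) :
    G.Adj (σ i) (σ j) := by
  have := h.path.adj' i j hij
  unfold mkII at this
  rw [if_pos (by omega), if_neg (by omega)] at this
  exact this

theorem σinj (h : GII G Hi ℓ p σ τ) : Function.Injective σ := by
  intro i j hij
  by_cases hi : (i : ℕ) < p <;> by_cases hj : (j : ℕ) < p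
  · exact h.path.inj2 i j (by unfold mkII; rw [if_pos hi, if_pos hj]; exact hij)
  · exact absurd (show (mkII p σ τ j).1 = (mkII p σ τ i).2 by
      unfold mkII; rw [if_pos hi, if_neg hj]; exact hij.symm) (h.path.ne12 j i)
  · exact absurd (show (mkII p σ τ i).1 = (mkII p σ τ j).2 by
      unfold mkII; rw [if_pos hj, if_neg hi]; exact hij) (h.path.ne12 i j)
  · exact h.path.inj1 i j (by unfold mkII; rw [if_neg hi, if_neg hj]; exact hij)

theorem τinj (h : GII G Hi ℓ p σ τ) : Function.Injective τ := by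
  intro i j hij
  by_cases hi : (i : ℕ) < p <;> by_cases hj : (j : ℕ) < p
  · exact h.path.inj1 i j (by unfold mkII; rw [if_pos hi, if_pos hj]; exact hij)
  · exact absurd (show (mkII p σ τ i).1 = (mkII p σ τ j).2 by
      unfold mkII; rw [if_pos hi, if_neg hj]; exact hij) (h.path.ne12 i j)
  · exact absurd (show (mkII p σ τ j).1 = (mkII p σ τ i).2 by
      unfold mkII; rw [if_pos hj, if_neg hi]; exact hij.symm) (h.path.ne12 j i)
  · exact h.path.inj2 i j (by unfold mkII; rw [if_neg hi, if_neg hj]; exact hij)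

theorem mem (h : GII G Hi ℓ p σ τ) {v : V} (hv : Hi v)
    (hm : ∃ j, v = (mkII p σ τ j).1 ∨ v = (mkII p σ τ j).2) : ∃ j, v = σ j := by
  obtain ⟨j, hj⟩ := hm
  unfold mkII at hj
  have hne : v ≠ τ j := fun he => h.hτ j (he ▸ hv)
  split_ifs at hj
  · rcases hj with hj | hj
    · exact absurd hj hne
    · exact ⟨j, hj⟩
  · rcases hj with hj | hj
    · exact ⟨j, hj⟩
    · exact absurd hj hne

end GII

namespace GI

variable {Hi : V → Prop} {N k : ℕ} {σ τ : Fin N → V} {a b : V}

theorem adj (h : GI G Hi N k σ τ a b) (i : Fin N) : G.Adj (τ i) (σ i) := by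
  by_cases hi : (i : ℕ) < k
  · have := h.path.adj i.castSucc
    rw [mkI_lt hi] at this
    exact this
  · have := h.path.adj i.succ
    rw [mkI_gt (by omega)] at this
    exact this.symm

theorem adjab (h : GI G Hi N k σ τ a b) : G.Adj a b := by
  have := h.path.adj ⟨k, by have := h.kN; omega⟩
  rw [mkI_eq h.kN] at this
  exact this

theorem adj1 (h : GI G Hi N k σ τ a b) (i j : Fin N) (hij : (j : ℕ) = i + 1) (hj : (j : ℕ) < k) :
    G.Adj (τ j) (σ i) := by
  have := h.path.adj' i.castSucc j.castSucc (by simpa using hij)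
  rw [mkI_lt hj, mkI_lt (by omega)] at this
  exact this.symm

theorem adj2 (h : GI G Hi N k σ τ a b) (i j : Fin N) (hij : (j : ℕ) = i + 1) (hi : k ≤ (i : ℕ)) :
    G.Adj (τ i) (σ j) := by
  have := h.path.adj' i.succ j.succ (by simpa using hij)
  rw [mkI_gt hi, mkI_gt (by omega)] at this
  exact this

theorem adja (h : GI G Hi N k σ τ a b) (i : Fin N) (hi : (i : ℕ) + 1 = k) : G.Adj a (σ i) := by
  have := h.path.adj' i.castSucc ⟨k, by have := h.kN; omega⟩ (by simpa using hi.symm)
  rw [mkI_lt (by omega), mkI_eq h.kN] at this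
  exact this.symm

theorem adjb (h : GI G Hi N k σ τ a b) (i : Fin N) (hi : (i : ℕ) = k) : G.Adj b (σ i) := by
  have := h.path.adj' ⟨k, by have := h.kN; omega⟩ i.succ (by simpa using hi)
  rw [mkI_gt (by omega), mkI_eq h.kN] at this
  exact this

theorem σinj (h : GI G Hi N k σ τ a b) : Function.Injective σ := by
  intro i j hij
  by_cases hi : (i : ℕ) < k <;> by_cases hj : (j : ℕ) < k
  · have := h.path.inj2 i.castSucc j.castSucc (by rw [mkI_lt hi, mkI_lt hj]; exact hij)
    exact Fin.castSucc_injective _ this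
  · exact absurd (show (mkI k σ τ a b j.succ).1 = (mkI k σ τ a b i.castSucc).2 by
      rw [mkI_lt hi, mkI_gt (by omega)]; exact hij.symm) (h.path.ne12 _ _)
  · exact absurd (show (mkI k σ τ a b i.succ).1 = (mkI k σ τ a b j.castSucc).2 by
      rw [mkI_lt hj, mkI_gt (by omega)]; exact hij) (h.path.ne12 _ _)
  · have := h.path.inj1 i.succ j.succ (by rw [mkI_gt (by omega), mkI_gt (by omega)]; exact hij)
    exact Fin.succ_injective _ this

theorem τinj (h : GI G Hi N k σ τ a b) : Function.Injective τ := by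
  intro i j hij
  by_cases hi : (i : ℕ) < k <;> by_cases hj : (j : ℕ) < k
  · have := h.path.inj1 i.castSucc j.castSucc (by rw [mkI_lt hi, mkI_lt hj]; exact hij)
    exact Fin.castSucc_injective _ this
  · exact absurd (show (mkI k σ τ a b i.castSucc).1 = (mkI k σ τ a b j.succ).2 by
      rw [mkI_lt hi, mkI_gt (by omega)]; exact hij) (h.path.ne12 _ _)
  · exact absurd (show (mkI k σ τ a b j.castSucc).1 = (mkI k σ τ a b i.succ).2 by
      rw [mkI_lt hj, mkI_gt (by omega)]; exact hij.symm) (h.path.ne12 _ _)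
  · have := h.path.inj2 i.succ j.succ (by rw [mkI_gt (by omega), mkI_gt (by omega)]; exact hij)
    exact Fin.succ_injective _ this

theorem τa (h : GI G Hi N k σ τ a b) (i : Fin N) : τ i ≠ a := by
  intro hij
  have hk := h.kN
  by_cases hi : (i : ℕ) < k
  · have := h.path.inj1 i.castSucc ⟨k, by omega⟩ (by rw [mkI_lt hi, mkI_eq hk]; exact hij)
    have := congrArg Fin.val this
    simp at this
    omega
  · exact absurd (show (mkI k σ τ a b ⟨k, by omega⟩).1 = (mkI k σ τ a b i.succ).2 by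
      rw [mkI_gt (by omega), mkI_eq hk]; exact hij.symm) (h.path.ne12 _ _)

theorem τb (h : GI G Hi N k σ τ a b) (i : Fin N) : τ i ≠ b := by
  intro hij
  have hk := h.kN
  by_cases hi : (i : ℕ) < k
  · exact absurd (show (mkI k σ τ a b i.castSucc).1 = (mkI k σ τ a b ⟨k, by omega⟩).2 by
      rw [mkI_lt hi, mkI_eq hk]; exact hij) (h.path.ne12 _ _)
  · have := h.path.inj2 i.succ ⟨k, by omega⟩ (by rw [mkI_gt (by omega), mkI_eq hk]; exact hij)
    have := congrArg Fin.val this
    simp at this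
    omega

theorem mem (h : GI G Hi N k σ τ a b) {v : V} (hv : Hi v)
    (hm : ∃ j, v = (mkI k σ τ a b j).1 ∨ v = (mkI k σ τ a b j).2) : ∃ j, v = σ j := by
  obtain ⟨j, hj⟩ := hm
  unfold mkI at hj
  have hne : ∀ i, v ≠ τ i := fun i he => h.hτ i (he ▸ hv)
  have hna : v ≠ a := fun he => h.ha (he ▸ hv)
  have hnb : v ≠ b := fun he => h.hb (he ▸ hv)
  split_ifs at hj
  · rcases hj with hj | hj
    · exact absurd hj (hne _)
    · exact ⟨_, hj⟩
  · rcases hj with hj | hj
    · exact absurd hj hna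
    · exact absurd hj hnb
  · rcases hj with hj | hj
    · exact ⟨_, hj⟩
    · exact absurd hj (hne _)

end GI

end P490135

end
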