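import Pool.Agent.Work.MP_490135_co.Bd.B02
import Pool.Agent.Work.MP_490135_co.MB
import Pool.Agent.Work.MP_490135_co.Bd.B01

/-! Bundle of small proof modules (one section per former module). -/

section

/-!
# MP_490135_co: neighbourhoods of the low vertices of a path (helper81)
-/

namespace P490135

open SimpleGraph Finset

variable {V : Type*} {G : SimpleGraph V}

/-- a low vertex whose high neighbours are pairwise robustly connected -/
structure Good (G : SimpleGraph V) (K : ℕ) (Hi : V → Prop) (u : V) : Prop where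
  low : ¬ Hi u
  cl : ∀ h h', Hi h → Hi h' → G.Adj u h → G.Adj u h' → h ≠ h' → Gam G K h h'

theorem insF_chain {Γ : V → V → Prop} {M p e k' : ℕ} {σ : Fin M → V} {v : V} (he1 : 1 ≤ e)
    (he2 : e < M) (hch : ∀ i j : Fin M, (j : ℕ) = i + 1 → (j : ℕ) ≠ p → Γ (σ i) (σ j))
    (hl : ∀ i : Fin M, (i : ℕ) + 1 = e → Γ (σ i) v)
    (hr : ∀ i : Fin M, (i : ℕ) = e → e ≠ p → Γ v (σ i))
    (hk : (e ≤ p ∧ k' = p + 1) ∨ (p < e ∧ k' = p)) :
    ∀ i j : Fin (M + 1), (j : ℕ) = i + 1 → (j : ℕ) ≠ k' →
      Γ (insF e v σ i) (insF e v σ j) := by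
  intro i j hij hjk
  rcases lt_trichotomy (j : ℕ) e with hj | hj | hj
  · rw [insF_lt he2.le hj, insF_lt he2.le (by omega)]
    exact hch _ _ (by simpa using hij) (by simp only; omega)
  · rw [insF_eq hj, insF_lt he2.le (by omega)]
    exact hl _ (by simp only; omega)
  · rcases Nat.eq_or_lt_of_le (show e ≤ (i : ℕ) by omega) with hi | hi
    · rw [insF_eq hi.symm, insF_gt hj]
      exact hr _ (by simp only; omega) (by omega)
    · rw [insF_gt hi, insF_gt hj]
      exact hch _ _ (by simp only; omega) (by simp only; omega)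

section

variable [DecidableEq V]
variable {Hi : V → Prop} {K : ℕ}

omit [DecidableEq V] in
theorem GII.gam {ℓ p : ℕ} {σ τ : Fin ℓ → V}
    (h : GII G Hi ℓ p σ τ) (hg : ∀ i, Good G K Hi (τ i)) (i j : Fin ℓ) (hij : (j : ℕ) = i + 1)
    (hj : (j : ℕ) ≠ p) : Gam G K (σ i) (σ j) := by
  have hne : σ i ≠ σ j := fun he => by
    have := congrArg Fin.val (h.σinj he)
    omega
  rcases lt_or_gt_of_ne hj with hj | hj
  · exact (hg j).cl _ _ (h.hσ _) (h.hσ _) (h.adj1 i j hij hj) (h.adj j) hne
  · exact (hg i).cl _ _ (h.hσ _) (h.hσ _) (h.adj i) (h.adj2 i j hij (by omega)) hne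

/-- In a type II path all high neighbours of the low vertices are on the path. -/
theorem GII.T {ℓ p : ℕ} (hS : Short G ℓ) (hPen : ∀ v, Hi v → Pen G K v) (hK : 2 * ℓ + 8 ≤ K)
    {σ τ : Fin ℓ → V} (h : GII G Hi ℓ p σ τ) (hg : ∀ i, Good G K Hi (τ i)) (i : Fin ℓ) {v : V}
    (hv : Hi v) (hav : G.Adj (τ i) v) : ∃ j, v = σ j := by
  have hp1 := h.p1
  have hp2 := h.p2
  have hiℓ := i.isLt
  by_contra hcon
  have hcon' : ∀ j, v ≠ σ j := fun j hj => hcon ⟨j, hj⟩
  by_cases h0 : (i : ℕ) = 0
  · refine hcon (h.mem hv (hS.first h.path h0 ?_))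
    unfold mkII
    rw [if_pos (by omega)]
    exact hav
  by_cases h1 : (i : ℕ) + 1 = ℓ
  · refine hcon (h.mem hv (hS.last h.path h1 ?_))
    unfold mkII
    rw [if_neg (by omega)]
    exact hav
  by_cases h2 : (i : ℕ) < p
  · -- insert at position `i`
    have hch := insF_chain (Γ := Gam G K) (σ := σ) (v := v) (p := p) (e := i) (k' := p + 1)
      (by omega) (by omega) (h.gam hg)
      (by
        intro j hj
        exact (hg i).cl _ _ (h.hσ _) hv (h.adj1 j i (by omega) h2) hav (hcon' j).symm)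
      (by
        intro j hj _
        have : j = i := Fin.ext hj
        subst this
        exact (hg j).cl _ _ hv (h.hσ _) hav (h.adj j) (hcon' j))
      (Or.inl ⟨by omega, rfl⟩)
    obtain ⟨l, hl, hlen⟩ := R2' (G := G) (K := K) (e₁ := 1) (e₂ := 1) (M := ℓ + 1) (k := p + 1)
      (by omega) (by omega) (σ := insF i v σ) (m := [])
      (insF_inj (by omega) h.σinj hcon') hch
      (by
        rw [insF_gt (by simp only; omega), insF_gt (by simp only; omega)]
        simp only [List.nil_append, List.isChain_pair, List.cons_append]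
        exact h.hh _ _ (by simp only; omega) (by simp only; omega))
      List.nodup_nil (by simp)
      (Or.inl ⟨rfl, by
        rw [insF_lt (by omega) (by simp only; omega)]
        exact hPen _ (h.hσ _)⟩)
      (Or.inl ⟨rfl, by
        rw [insF_gt (by simp only; omega)]
        exact hPen _ (h.hσ _)⟩) (by simp; omega)
    have := hS l hl.1 hl.2
    simp at hlen
    omega
  · have hch := insF_chain (Γ := Gam G K) (σ := σ) (v := v) (p := p) (e := i + 1) (k' := p)
      (by omega) (by omega) (h.gam hg)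
      (by
        intro j hj
        have : j = i := Fin.ext (by omega)
        subst this
        exact (hg j).cl _ _ (h.hσ _) hv (h.adj j) hav (hcon' j).symm)
      (by
        intro j hj _
        exact (hg i).cl _ _ hv (h.hσ _) hav (h.adj2 i j (by omega) (by omega)) (hcon' j))
      (Or.inr ⟨by omega, rfl⟩)
    obtain ⟨l, hl, hlen⟩ := R2' (G := G) (K := K) (e₁ := 1) (e₂ := 1) (M := ℓ + 1) (k := p)
      (by omega) (by omega) (σ := insF (i + 1) v σ) (m := [])
      (insF_inj (by omega) h.σinj hcon') hch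
      (by
        rw [insF_lt (by omega) (by simp only; omega), insF_lt (by omega) (by simp only; omega)]
        simp only [List.nil_append, List.isChain_pair, List.cons_append]
        exact h.hh _ _ (by simp only; omega) (by simp only))
      List.nodup_nil (by simp)
      (Or.inl ⟨rfl, by
        rw [insF_lt (by omega) (by simp only; omega)]
        exact hPen _ (h.hσ _)⟩)
      (Or.inl ⟨rfl, by
        rw [insF_gt (by simp only; omega)]
        exact hPen _ (h.hσ _)⟩) (by simp; omega)
    have := hS l hl.1 hl.2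
    simp at hlen
    omega

omit [DecidableEq V] in
theorem GI.gam {N k : ℕ} {σ τ : Fin N → V} {a b : V}
    (h : GI G Hi N k σ τ a b) (hg : ∀ i, Good G K Hi (τ i)) (i j : Fin N)
    (hij : (j : ℕ) = i + 1) (hj : (j : ℕ) ≠ k) : Gam G K (σ i) (σ j) := by
  have hne : σ i ≠ σ j := fun he => by
    have := congrArg Fin.val (h.σinj he)
    omega
  rcases lt_or_gt_of_ne hj with hj | hj
  · exact (hg j).cl _ _ (h.hσ _) (h.hσ _) (h.adj1 i j hij hj) (h.adj j) hne
  · exact (hg i).cl _ _ (h.hσ _) (h.hσ _) (h.adj i) (h.adj2 i j hij (by omega)) hne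

omit [DecidableEq V] in
theorem GI.aσ {N k : ℕ} {σ τ : Fin N → V} {a b : V} (h : GI G Hi N k σ τ a b) (i : Fin N) :
    a ≠ σ i := fun he => h.ha (he ▸ h.hσ i)

omit [DecidableEq V] in
theorem GI.bσ {N k : ℕ} {σ τ : Fin N → V} {a b : V} (h : GI G Hi N k σ τ a b) (i : Fin N) :
    b ≠ σ i := fun he => h.hb (he ▸ h.hσ i)

/-- In a type I path all high neighbours of the single low vertices are on the path. -/
theorem GI.T {N k : ℕ} (hS : Short G (N + 1)) (hPen : ∀ v, Hi v → Pen G K v)
    (hK : 2 * N + 10 ≤ K) {σ τ : Fin N → V} {a b : V} (h : GI G Hi N k σ τ a b) (hkN : k < N)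
    (hg : ∀ i, Good G K Hi (τ i)) (i : Fin N) {v : V}
    (hv : Hi v) (hav : G.Adj (τ i) v) : ∃ j, v = σ j := by
  have hiN := i.isLt
  by_contra hcon
  have hcon' : ∀ j, v ≠ σ j := fun j hj => hcon ⟨j, hj⟩
  by_cases h1 : (i : ℕ) + 1 = N
  · refine hcon (h.mem hv (hS.last h.path (i := i.succ) (by simp only [Fin.val_succ]; omega) ?_))
    rw [mkI_gt (by omega)]
    exact hav
  rcases Nat.eq_zero_or_pos k with hk0 | hk0
  · -- type E
    have hch := insF_chain (Γ := Gam G K) (σ := σ) (v := v) (p := 0) (e := i + 1) (k' := 0)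
      (by omega) (by omega) (by
        intro i j hij hj
        exact h.gam hg i j hij (by omega))
      (by
        intro j hj
        have : j = i := Fin.ext (by omega)
        subst this
        exact (hg j).cl _ _ (h.hσ _) hv (h.adj j) hav (hcon' j).symm)
      (by
        intro j hj _
        exact (hg i).cl _ _ hv (h.hσ _) hav (h.adj2 i j (by omega) (by omega)) (hcon' j))
      (Or.inr ⟨by omega, rfl⟩)
    obtain ⟨l, hl, hlen⟩ := R1' (G := G) (K := K) (e₁ := 1) (e₂ := 1) (M := N + 1)
      (by omega) (σ := insF (i + 1) v σ)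
      (insF_inj (by omega) h.σinj hcon') (fun i j hij => hch i j hij (by omega))
      (Or.inl ⟨rfl, by
        rw [insF_lt (by omega) (by simp only; omega)]
        exact hPen _ (h.hσ _)⟩)
      (Or.inl ⟨rfl, by
        rw [insF_gt (by simp only; omega)]
        exact hPen _ (h.hσ _)⟩) (by omega)
    have := hS l hl.1 hl.2
    omega
  by_cases h0 : (i : ℕ) = 0
  · refine hcon (h.mem hv (hS.first h.path (i := i.castSucc) (by simpa using h0) ?_))
    rw [mkI_lt (by omega)]
    exact hav
  by_cases h2 : (i : ℕ) < k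
  · -- insert at position `i`
    have hch := insF_chain (Γ := Gam G K) (σ := σ) (v := v) (p := k) (e := i) (k' := k + 1)
      (by omega) (by omega) (h.gam hg)
      (by
        intro j hj
        exact (hg i).cl _ _ (h.hσ _) hv (h.adj1 j i (by omega) h2) hav (hcon' j).symm)
      (by
        intro j hj _
        have : j = i := Fin.ext hj
        subst this
        exact (hg j).cl _ _ hv (h.hσ _) hav (h.adj j) (hcon' j))
      (Or.inl ⟨by omega, rfl⟩)
    obtain ⟨l, hl, hlen⟩ := R2' (G := G) (K := K) (e₁ := 1) (e₂ := 1) (M := N + 1) (k := k + 1)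
      (by omega) (by omega) (σ := insF i v σ) (m := [a, b])
      (insF_inj (by omega) h.σinj hcon') hch
      (by
        rw [insF_gt (by simp only; omega), insF_gt (by simp only; omega)]
        simp only [List.cons_append, List.nil_append, List.isChain_cons_cons,
          List.IsChain.singleton, and_true]
        refine ⟨(h.adja _ (by simp only; omega)).symm, h.adjab, h.adjb _ (by simp only; omega)⟩)
      (by simpa using h.adjab.ne) (by
        intro z hz j
        have hzlow : ¬ Hi z := by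
          simp only [List.mem_cons, List.not_mem_nil, or_false] at hz
          rcases hz with rfl | rfl
          · exact h.ha
          · exact h.hb
        intro he
        apply hzlow
        rw [he]
        rcases lt_trichotomy (j : ℕ) (i : ℕ) with hj | hj | hj
        · rw [insF_lt (by omega) hj]; exact h.hσ _
        · rw [insF_eq hj]; exact hv
        · rw [insF_gt hj]; exact h.hσ _)
      (Or.inl ⟨rfl, by
        rw [insF_lt (by omega) (by simp only; omega)]
        exact hPen _ (h.hσ _)⟩)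
      (Or.inl ⟨rfl, by
        rw [insF_gt (by simp only; omega)]
        exact hPen _ (h.hσ _)⟩) (by simp; omega)
    have := hS l hl.1 hl.2
    simp at hlen
    omega
  · have hch := insF_chain (Γ := Gam G K) (σ := σ) (v := v) (p := k) (e := i + 1) (k' := k)
      (by omega) (by omega) (h.gam hg)
      (by
        intro j hj
        have : j = i := Fin.ext (by omega)
        subst this
        exact (hg j).cl _ _ (h.hσ _) hv (h.adj j) hav (hcon' j).symm)
      (by
        intro j hj _
        exact (hg i).cl _ _ hv (h.hσ _) hav (h.adj2 i j (by omega) (by omega)) (hcon' j))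
      (Or.inr ⟨by omega, rfl⟩)
    obtain ⟨l, hl, hlen⟩ := R2' (G := G) (K := K) (e₁ := 1) (e₂ := 1) (M := N + 1) (k := k)
      (by omega) (by omega) (σ := insF (i + 1) v σ) (m := [a, b])
      (insF_inj (by omega) h.σinj hcon') hch
      (by
        rw [insF_lt (by omega) (by simp only; omega), insF_lt (by omega) (by simp only; omega)]
        simp only [List.cons_append, List.nil_append, List.isChain_cons_cons,
          List.IsChain.singleton, and_true]
        refine ⟨(h.adja _ (by simp only; omega)).symm, h.adjab, h.adjb _ (by simp only)⟩)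
      (by simpa using h.adjab.ne) (by
        intro z hz j
        have hzlow : ¬ Hi z := by
          simp only [List.mem_cons, List.not_mem_nil, or_false] at hz
          rcases hz with rfl | rfl
          · exact h.ha
          · exact h.hb
        intro he
        apply hzlow
        rw [he]
        rcases lt_trichotomy (j : ℕ) (i + 1 : ℕ) with hj | hj | hj
        · rw [insF_lt (by omega) hj]; exact h.hσ _
        · rw [insF_eq hj]; exact hv
        · rw [insF_gt hj]; exact h.hσ _)
      (Or.inl ⟨rfl, by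
        rw [insF_lt (by omega) (by simp only; omega)]
        exact hPen _ (h.hσ _)⟩)
      (Or.inl ⟨rfl, by
        rw [insF_gt (by simp only; omega)]
        exact hPen _ (h.hσ _)⟩) (by simp; omega)
    have := hS l hl.1 hl.2
    simp at hlen
    omega

/-- In a type I path all high neighbours of `a` are on the path. -/
theorem GI.Ta {N k : ℕ} (hS : Short G (N + 1)) (hPen : ∀ v, Hi v → Pen G K v)
    (hK : 2 * N + 10 ≤ K) {σ τ : Fin N → V} {a b : V} (h : GI G Hi N k σ τ a b) (hkN : k < N)
    (hg : ∀ i, Good G K Hi (τ i)) (hga : Good G K Hi a) {v : V}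
    (hv : Hi v) (hav : G.Adj a v) : ∃ j, v = σ j := by
  by_contra hcon
  have hcon' : ∀ j, v ≠ σ j := fun j hj => hcon ⟨j, hj⟩
  rcases Nat.eq_zero_or_pos k with hk0 | hk0
  · refine hcon (h.mem hv (hS.first h.path (i := ⟨k, by omega⟩) (by simpa using hk0) ?_))
    rw [mkI_eq h.kN]
    exact hav
  · have hch := insF_chain (Γ := Gam G K) (σ := σ) (v := v) (p := k) (e := k) (k' := k + 1)
      (by omega) (by omega) (h.gam hg)
      (by
        intro j hj
        exact hga.cl _ _ (h.hσ _) hv (h.adja j hj) hav (hcon' j).symm)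
      (by
        intro j hj hne
        exact absurd rfl hne)
      (Or.inl ⟨le_rfl, rfl⟩)
    obtain ⟨l, hl, hlen⟩ := R2' (G := G) (K := K) (e₁ := 1) (e₂ := 1) (M := N + 1) (k := k + 1)
      (by omega) (by omega) (σ := insF k v σ) (m := [a, b])
      (insF_inj (by omega) h.σinj hcon') hch
      (by
        rw [insF_eq (by simp), insF_gt (by simp only; omega)]
        simp only [List.cons_append, List.nil_append, List.isChain_cons_cons,
          List.IsChain.singleton, and_true]
        refine ⟨hav.symm, h.adjab, h.adjb _ (by simp only; omega)⟩)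
      (by simpa using h.adjab.ne) (by
        intro z hz j
        have hzlow : ¬ Hi z := by
          simp only [List.mem_cons, List.not_mem_nil, or_false] at hz
          rcases hz with rfl | rfl
          · exact h.ha
          · exact h.hb
        intro he
        apply hzlow
        rw [he]
        rcases lt_trichotomy (j : ℕ) k with hj | hj | hj
        · rw [insF_lt (by omega) hj]; exact h.hσ _
        · rw [insF_eq hj]; exact hv
        · rw [insF_gt hj]; exact h.hσ _)
      (Or.inl ⟨rfl, by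
        rw [insF_lt (by omega) (by simp only; omega)]
        exact hPen _ (h.hσ _)⟩)
      (Or.inl ⟨rfl, by
        rw [insF_gt (by simp only; omega)]
        exact hPen _ (h.hσ _)⟩) (by simp; omega)
    have := hS l hl.1 hl.2
    simp at hlen
    omega

/-- no robust Hamilton path on `ℓ` highs -/
theorem short_noHam {ℓ : ℕ} (hℓ : 1 ≤ ℓ) (hS : Short G ℓ) (hPen : ∀ v, Hi v → Pen G K v)
    (hK : 2 * ℓ + 4 ≤ K) {σ : Fin ℓ → V} (hσ : Function.Injective σ) (hH : ∀ i, Hi (σ i)) :
    ¬ Chain (Gam G K) σ := by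
  intro hch
  obtain ⟨l, hl, hlen⟩ := R1' (G := G) (K := K) (e₁ := 1) (e₂ := 1) hℓ hσ hch
    (Or.inl ⟨rfl, hPen _ (hH _)⟩) (Or.inl ⟨rfl, hPen _ (hH _)⟩) hK
  have := hS l hl.1 hl.2
  omega

theorem short_F1 {N : ℕ} (hN : 1 ≤ N) (hS : Short G (N + 1))
    (hK : 2 * N + 4 ≤ K) {σ : Fin N → V} (hσ : Function.Injective σ)
    (hch : Chain (Gam G K) σ) (h0 : DD G K (σ ⟨0, by omega⟩))
    (h1 : DD G K (σ ⟨N - 1, by omega⟩)) : False := by
  obtain ⟨l, hl, hlen⟩ := R1' (G := G) (K := K) (e₁ := 2) (e₂ := 2) hN hσ hch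
    (Or.inr ⟨rfl, h0⟩) (Or.inr ⟨rfl, h1⟩) hK
  have := hS l hl.1 hl.2
  omega

theorem short_F2 {N k : ℕ} (hS : Short G (N + 1)) (hPen : ∀ v, Hi v → Pen G K v)
    (hK : 2 * N + 8 ≤ K) {σ : Fin N → V} (hσ : Function.Injective σ) (hH : ∀ i, Hi (σ i))
    (hk : 1 ≤ k) (hkN : k < N)
    (hch : ∀ i j : Fin N, (j : ℕ) = i + 1 → (j : ℕ) ≠ k → Gam G K (σ i) (σ j))
    {a b : V} (ha : ¬ Hi a) (hb : ¬ Hi b) (hab : G.Adj a b)
    (h1 : G.Adj (σ ⟨k - 1, by omega⟩) a) (h2 : G.Adj b (σ ⟨k, hkN⟩))
    (h0 : DD G K (σ ⟨0, by omega⟩)) : False := by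
  obtain ⟨l, hl, hlen⟩ := R2' (G := G) (K := K) (e₁ := 2) (e₂ := 1) hk hkN (m := [a, b]) hσ hch
    (by
      simp only [List.cons_append, List.nil_append, List.isChain_cons_cons,
        List.IsChain.singleton, and_true]
      exact ⟨h1, hab, h2⟩)
    (by simpa using hab.ne) (by
      intro z hz j he
      simp only [List.mem_cons, List.not_mem_nil, or_false] at hz
      rcases hz with rfl | rfl
      · exact ha (he ▸ hH j)
      · exact hb (he ▸ hH j))
    (Or.inr ⟨rfl, h0⟩) (Or.inl ⟨rfl, hPen _ (hH _)⟩) (by simp; omega)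
  have := hS l hl.1 hl.2
  simp at hlen
  omega

end

end P490135

end

section

/-!
# MP_490135_co: uniqueness of partners, reversal, classification (helper81)
-/

namespace P490135

open SimpleGraph Finset

variable {V : Type*} {G : SimpleGraph V} {Hi : V → Prop}

theorem head_toL {ℓ : ℕ} (q : Fin ℓ → V × V) (h : 0 < ℓ) :
    (toL q).head? = some (q ⟨0, h⟩).1 := by
  have hlen : 0 < (toL q).length := by rw [length_toL]; omega
  rw [List.head?_eq_getElem?, List.getElem?_eq_getElem hlen]
  simp [toL, vtx]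

theorem last_toL {ℓ : ℕ} (q : Fin ℓ → V × V) (h : 0 < ℓ) :
    (toL q).getLast? = some (q ⟨ℓ - 1, by omega⟩).2 := by
  rw [List.getLast?_eq_getElem?, length_toL, List.getElem?_eq_getElem (by
    rw [length_toL]; omega)]
  simp only [toL, List.getElem_ofFn, vtx, Option.some.injEq]
  rw [if_neg (by omega)]
  have : (⟨(2 * ℓ - 1) / 2, by omega⟩ : Fin ℓ) = ⟨ℓ - 1, by omega⟩ := by
    ext; simp only; omega
  rw [this]

/-- joining two lists by a middle piece -/
theorem join3 {l₁ l₂ m : List V} {x y : V} (h₁ : IsP G l₁) (h₂ : IsP G l₂)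
    (hd : ∀ z ∈ l₁, z ∉ l₂) (hx : l₁.getLast? = some x) (hy : l₂.head? = some y)
    (hm : (x :: m ++ [y]).IsChain G.Adj) (hmnd : m.Nodup)
    (hm₁ : ∀ z ∈ m, z ∉ l₁) (hm₂ : ∀ z ∈ m, z ∉ l₂) : IsP G (l₁ ++ (m ++ l₂)) := by
  constructor
  · rw [List.nodup_append, List.nodup_append]
    refine ⟨h₁.1, ⟨hmnd, h₂.1, ?_⟩, ?_⟩
    · intro a ha b hb hab
      subst hab
      exact hm₂ a ha hb
    · intro a ha b hb hab
      subst hab
      rcases List.mem_append.mp hb with hb | hb
      · exact hm₁ a hb ha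
      · exact hd a ha hb
  · rw [List.isChain_append]
    cases m with
    | nil =>
      simp only [List.nil_append]
      refine ⟨h₁.2, h₂.2, ?_⟩
      intro a ha b hb
      rw [hx] at ha
      rw [hy] at hb
      simp only [Option.mem_def, Option.some.injEq] at ha hb
      subst ha hb
      simpa using hm
    | cons c m' =>
      have hm' : G.Adj x c ∧ ((c :: m') ++ [y]).IsChain G.Adj := by
        simpa [List.isChain_cons_cons] using hm
      refine ⟨h₁.2, ?_, ?_⟩
      · rw [List.isChain_append] at hm' ⊢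
        refine ⟨hm'.2.1, h₂.2, ?_⟩
        intro a ha b hb
        rw [hy] at hb
        exact hm'.2.2.2 a ha b (by simpa using hb)
      · intro a ha b hb
        rw [hx] at ha
        simp only [List.cons_append, List.head?_cons, Option.mem_def, Option.some.injEq] at ha hb
        subst ha hb
        exact hm'.1

/-- first part of a type I path -/
def A1 {N : ℕ} (k : ℕ) (hk : k ≤ N) (σ τ : Fin N → V) (i : Fin k) : V × V :=
  (τ ⟨i, by omega⟩, σ ⟨i, by omega⟩)

/-- second part of a type I path -/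
def A2 {N : ℕ} (k : ℕ) (hk : k ≤ N) (σ τ : Fin N → V) (i : Fin (N - k)) : V × V :=
  (σ ⟨k + i, by omega⟩, τ ⟨k + i, by omega⟩)

theorem GI.στ {N k : ℕ} {σ τ : Fin N → V} {a b : V} (h : GI G Hi N k σ τ a b) (i j : Fin N) :
    σ i ≠ τ j := fun he => h.hτ j (he ▸ h.hσ i)

theorem GI.A1_isMP {N k : ℕ} {σ τ : Fin N → V} {a b : V} (h : GI G Hi N k σ τ a b) :
    IsMP G k (A1 k h.kN σ τ) := by
  have hkN := h.kN
  refine ⟨fun i => h.adj _, fun i j hij => (h.adj1 _ _ (by simpa using hij) j.isLt).symm, ?_, ?_, ?_⟩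
  · intro i j hij
    have := h.τinj hij
    rw [Fin.mk.injEq] at this
    exact Fin.ext this
  · intro i j hij
    have := h.σinj hij
    rw [Fin.mk.injEq] at this
    exact Fin.ext this
  · intro i j hij
    exact h.στ _ _ hij.symm

theorem GI.A2_isMP {N k : ℕ} {σ τ : Fin N → V} {a b : V} (h : GI G Hi N k σ τ a b) :
    IsMP G (N - k) (A2 k h.kN σ τ) := by
  have hkN := h.kN
  refine ⟨fun i => (h.adj _).symm, fun i j hij => (h.adj2 _ _ (by simp only; omega)
    (by simp only; omega)), ?_, ?_, ?_⟩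
  · intro i j hij
    have := h.σinj hij
    rw [Fin.mk.injEq] at this
    exact Fin.ext (by omega)
  · intro i j hij
    have := h.τinj hij
    rw [Fin.mk.injEq] at this
    exact Fin.ext (by omega)
  · intro i j hij
    exact h.στ _ _ hij

theorem GI.replace {N k : ℕ} (hS : Short G (N + 1)) {σ τ : Fin N → V} {a b : V}
    (h : GI G Hi N k σ τ a b) (hk : 1 ≤ k) (hkN : k < N) (m : List V)
    (hm : (σ ⟨k - 1, by omega⟩ :: m ++ [σ ⟨k, hkN⟩]).IsChain G.Adj) (hmnd : m.Nodup)
    (hlow : ∀ z ∈ m, ¬ Hi z) (hτ : ∀ z ∈ m, ∀ i, z ≠ τ i) : m.length ≤ 2 := by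
  have hσ : ∀ z ∈ m, ∀ i, z ≠ σ i := fun z hz i he => hlow z hz (he ▸ h.hσ i)
  have hl := join3 (m := m) h.A1_isMP.toL_isP h.A2_isMP.toL_isP
    (by
      intro z hz hz'
      rw [mem_toL] at hz hz'
      obtain ⟨i, hi⟩ := hz
      obtain ⟨j, hj⟩ := hz'
      unfold A1 at hi
      unfold A2 at hj
      rcases hi with hi | hi <;> rcases hj with hj | hj
      · exact h.στ _ _ (hj.symm.trans hi)
      · have := h.τinj (hi.symm.trans hj)
        rw [Fin.mk.injEq] at this
        omega
      · have := h.σinj (hi.symm.trans hj)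
        rw [Fin.mk.injEq] at this
        omega
      · exact h.στ _ _ (hi.symm.trans hj))
    (last_toL _ (by omega)) (head_toL _ (by omega)) (by simpa [A1, A2] using hm) hmnd
    (by
      intro z hz hz'
      rw [mem_toL] at hz'
      obtain ⟨i, hi | hi⟩ := hz'
      · exact hτ z hz _ hi
      · exact hσ z hz _ hi)
    (by
      intro z hz hz'
      rw [mem_toL] at hz'
      obtain ⟨i, hi | hi⟩ := hz'
      · exact hσ z hz _ hi
      · exact hτ z hz _ hi)
  have := hS _ hl.1 hl.2
  simp only [List.length_append, length_toL] at this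
  omega

/-- In a type M path one of the two vertices of the low-low edge has a unique partner. -/
theorem GI.unique_or {N k : ℕ} (hS : Short G (N + 1)) {σ τ : Fin N → V} {a b : V}
    (h : GI G Hi N k σ τ a b) (hk : 1 ≤ k) (hkN : k < N) :
    (∀ b', GI G Hi N k σ τ a b' → b' = b) ∨ (∀ a', GI G Hi N k σ τ a' b → a' = a) := by
  by_contra hcon
  push Not at hcon
  obtain ⟨⟨b', hb', hbne⟩, ⟨a', ha', hane⟩⟩ := hcon
  have e1 : G.Adj (σ ⟨k - 1, by omega⟩) a := (h.adja _ (by simp only; omega)).symm
  have e1' : G.Adj (σ ⟨k - 1, by omega⟩) a' := (ha'.adja _ (by simp only; omega)).symm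
  have e2' : G.Adj b' (σ ⟨k, hkN⟩) := hb'.adjb _ (by simp only)
  have e2 : G.Adj b (σ ⟨k, hkN⟩) := h.adjb _ (by simp only)
  by_cases hab : a' = b'
  · subst hab
    have := h.replace hS hk hkN [a, a', b] (by
        simp only [List.cons_append, List.nil_append, List.isChain_cons_cons,
          List.IsChain.singleton, and_true]
        exact ⟨e1, hb'.adjab, ha'.adjab, e2⟩)
      (by
        simp only [List.nodup_cons, List.mem_cons, List.not_mem_nil, or_false, not_or]
        exact ⟨⟨hb'.adjab.ne, h.adjab.ne⟩, ha'.adjab.ne, not_false, List.nodup_nil⟩)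
      (by
        intro z hz
        simp only [List.mem_cons, List.not_mem_nil, or_false] at hz
        rcases hz with rfl | rfl | rfl
        · exact h.ha
        · exact ha'.ha
        · exact h.hb)
      (by
        intro z hz i he
        simp only [List.mem_cons, List.not_mem_nil, or_false] at hz
        rcases hz with rfl | rfl | rfl
        · exact h.τa i he.symm
        · exact ha'.τa i he.symm
        · exact h.τb i he.symm)
    simp at this
  · have := h.replace hS hk hkN [a', b, a, b'] (by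
        simp only [List.cons_append, List.nil_append, List.isChain_cons_cons,
          List.IsChain.singleton, and_true]
        exact ⟨e1', ha'.adjab, h.adjab.symm, hb'.adjab, e2'⟩)
      (by
        simp only [List.nodup_cons, List.mem_cons, List.not_mem_nil, or_false, not_or]
        exact ⟨⟨ha'.adjab.ne, hane, hab⟩, ⟨h.adjab.ne.symm, hbne.symm⟩, hb'.adjab.ne, not_false,
          List.nodup_nil⟩)
      (by
        intro z hz
        simp only [List.mem_cons, List.not_mem_nil, or_false] at hz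
        rcases hz with rfl | rfl | rfl | rfl
        · exact ha'.ha
        · exact h.hb
        · exact h.ha
        · exact hb'.hb)
      (by
        intro z hz i he
        simp only [List.mem_cons, List.not_mem_nil, or_false] at hz
        rcases hz with rfl | rfl | rfl | rfl
        · exact ha'.τa i he.symm
        · exact h.τb i he.symm
        · exact h.τa i he.symm
        · exact hb'.τb i he.symm)
    simp at this

/-- In a type E path (`k = 0`) the partner of `a` is unique. -/
theorem GI.unique_zero {N : ℕ} (hS : Short G (N + 1)) {σ τ : Fin N → V} {a b : V}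
    (h : GI G Hi N 0 σ τ a b) (b' : V) (h' : GI G Hi N 0 σ τ a b') : b' = b := by
  obtain ⟨j, hj⟩ := hS.first h.path (i := ⟨0, by omega⟩) rfl (v := b') (by
    rw [mkI_eq h.kN]
    exact h'.adjab)
  unfold mkI at hj
  rw [dif_neg (by omega)] at hj
  split_ifs at hj
  · rcases hj with hj | hj
    · exact absurd hj h'.adjab.ne.symm
    · exact hj
  · rcases hj with hj | hj
    · exact absurd hj (h'.bσ _)
    · exact absurd hj.symm (h'.τb _)

/-! ### Reversal -/

/-- the reversed matched path -/
def rev {ℓ : ℕ} (q : Fin ℓ → V × V) (i : Fin ℓ) : V × V := (q i.rev).swap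

theorem rev_rev {ℓ : ℕ} (q : Fin ℓ → V × V) : rev (rev q) = q := by
  funext i
  simp [rev]

theorem IsMP.rev {ℓ : ℕ} {q : Fin ℓ → V × V} (h : IsMP G ℓ q) : IsMP G ℓ (rev q) := by
  refine ⟨fun i => (h.adj _).symm, ?_, ?_, ?_, ?_⟩
  · intro i j hij
    exact (h.adj' j.rev i.rev (by simp only [Fin.val_rev]; omega)).symm
  · intro i j hij
    exact Fin.rev_injective (h.inj2 _ _ hij)
  · intro i j hij
    exact Fin.rev_injective (h.inj1 _ _ hij)
  · intro i j hij
    exact h.ne12 _ _ hij.symm

theorem mkI_rev {N k : ℕ} (hk : k ≤ N) (σ τ : Fin N → V) (a b : V) :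
    mkI (N - k) (σ ∘ Fin.rev) (τ ∘ Fin.rev) b a = rev (mkI k σ τ a b) := by
  funext i
  unfold rev mkI
  simp only [Fin.val_rev]
  rcases lt_trichotomy (i : ℕ) (N - k) with hi | hi | hi
  · rw [dif_pos (by omega), dif_neg (by omega), dif_neg (by omega)]
    simp only [Function.comp, Prod.swap, Prod.mk.injEq]
    constructor
    · congr 1
      ext
      simp only [Fin.val_rev]
      omega
    · congr 1
      ext
      simp only [Fin.val_rev]
      omega
  · rw [dif_neg (by omega), dif_pos (by omega), dif_neg (by omega), dif_pos (by omega)]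
    rfl
  · rw [dif_neg (by omega), dif_neg (by omega), dif_pos (by omega)]
    simp only [Function.comp, Prod.swap, Prod.mk.injEq]
    constructor
    · congr 1
      ext
      simp only [Fin.val_rev]
      omega
    · congr 1
      ext
      simp only [Fin.val_rev]
      omega

theorem GI.reverse {N k : ℕ} {σ τ : Fin N → V} {a b : V} (h : GI G Hi N k σ τ a b) :
    GI G Hi N (N - k) (σ ∘ Fin.rev) (τ ∘ Fin.rev) b a := by
  refine ⟨by omega, fun i => h.hσ _, fun i => h.hτ _, h.hb, h.ha, ?_⟩
  rw [mkI_rev h.kN]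
  exact h.path.rev

/-! ### Classification -/

/-- A matched path without a matched pair in `P` and without an even edge outside `P` is of type II
or of type I (with respect to `P`). -/
theorem classify {ℓ : ℕ} (P : V → Prop) (q : Fin ℓ → V × V)
    (h1 : ∀ i, ¬ (P (q i).1 ∧ P (q i).2))
    (h2 : ∀ i j : Fin ℓ, (j : ℕ) = i + 1 → P (q i).2 ∨ P (q j).1) :
    (∃ p, p ≤ ℓ ∧ (∀ i : Fin ℓ, (i : ℕ) < p → ¬ P (q i).1 ∧ P (q i).2) ∧
      (∀ i : Fin ℓ, p ≤ (i : ℕ) → P (q i).1 ∧ ¬ P (q i).2)) ∨
    (∃ k : Fin ℓ, (∀ i : Fin ℓ, (i : ℕ) < k → ¬ P (q i).1 ∧ P (q i).2) ∧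
      (¬ P (q k).1 ∧ ¬ P (q k).2) ∧
      (∀ i : Fin ℓ, (k : ℕ) < (i : ℕ) → P (q i).1 ∧ ¬ P (q i).2)) := by
  classical
  -- after an index with `(q i).2 ∉ P` everything is `(P, ¬P)`
  have key : ∀ (i : Fin ℓ), ¬ P (q i).2 → ∀ d : ℕ, ∀ j : Fin ℓ, (j : ℕ) = i + 1 + d →
      P (q j).1 ∧ ¬ P (q j).2 := by
    intro i hi d
    induction d with
    | zero =>
      intro j hj
      have h3 := h2 i j (by omega)
      have h4 : P (q j).1 := h3.resolve_left hi
      exact ⟨h4, fun h5 => h1 j ⟨h4, h5⟩⟩
    | succ d ih =>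
      intro j hj
      have h3 := (ih ⟨i + 1 + d, by omega⟩ rfl).2
      have h4 := h2 ⟨i + 1 + d, by omega⟩ j (by simp only; omega)
      have h5 : P (q j).1 := h4.resolve_left h3
      exact ⟨h5, fun h6 => h1 j ⟨h5, h6⟩⟩
  by_cases hex : ∃ i : Fin ℓ, ¬ (¬ P (q i).1 ∧ P (q i).2)
  · obtain ⟨i₀, hi₀, hmin⟩ : ∃ i₀ : Fin ℓ, ¬ (¬ P (q i₀).1 ∧ P (q i₀).2) ∧
        ∀ j : Fin ℓ, (j : ℕ) < i₀ → (¬ P (q j).1 ∧ P (q j).2) := by
      have hex' : ∃ n : ℕ, ∃ h : n < ℓ, ¬ (¬ P (q ⟨n, h⟩).1 ∧ P (q ⟨n, h⟩).2) := by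
        obtain ⟨i, hi⟩ := hex
        exact ⟨i, i.isLt, hi⟩
      obtain ⟨h, hh⟩ := Nat.find_spec hex'
      refine ⟨⟨Nat.find hex', h⟩, hh, ?_⟩
      intro j hj
      by_contra hc
      exact Nat.find_min hex' hj ⟨j.isLt, hc⟩
    have hi2 : ¬ P (q i₀).2 := by
      intro hP
      exact hi₀ ⟨fun h3 => h1 i₀ ⟨h3, hP⟩, hP⟩
    by_cases hP1 : P (q i₀).1
    · left
      refine ⟨i₀, i₀.isLt.le, hmin, ?_⟩
      intro i hi
      rcases Nat.eq_or_lt_of_le hi with he | hlt
      · have : i = i₀ := Fin.ext he.symm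
        subst this
        exact ⟨hP1, hi2⟩
      · exact key i₀ hi2 (i - i₀ - 1) i (by omega)
    · right
      refine ⟨i₀, hmin, ⟨hP1, hi2⟩, ?_⟩
      intro i hi
      exact key i₀ hi2 (i - i₀ - 1) i (by omega)
  · push Not at hex
    left
    refine ⟨ℓ, le_rfl, fun i _ => ?_, fun i hi => absurd i.isLt (by omega)⟩
    exact hex i

end P490135

end

section

/-!
# MP_490135_co: cores (helper81)
-/

namespace P490135

/-- `C` is a core: the vertices of `C` have more than `K` common neighbours. -/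
def IsCore {V : Type*} (G : SimpleGraph V) (K : ℕ) (C : Finset V) : Prop :=
  ∀ X : Finset V, X.card ≤ K → ∃ z, z ∉ X ∧ ∀ c ∈ C, G.Adj c z

end P490135

end

section

/-!
# MP_490135_co, item M: structure of the long paths in the component of a core (helper80)
-/

namespace P490135

open SimpleGraph Finset Nat

section

variable {V : Type*} {G : SimpleGraph V} {N K : ℕ} {C : Finset V}

theorem IsCore.gam (hcore : IsCore G K C) {c c' : V} (hc : c ∈ C) (hc' : c' ∈ C) :
    Gam G K c c' := by
  intro X hX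
  obtain ⟨z, hz, h⟩ := hcore X hX
  exact ⟨z, hz, h c hc, (h c' hc').symm⟩

theorem IsCore.pen (hcore : IsCore G K C) {c : V} (hc : c ∈ C) : Pen G K c := by
  intro X hX
  obtain ⟨z, hz, h⟩ := hcore X hX
  exact ⟨z, hz, h c hc⟩

theorem IsCore.chain (hcore : IsCore G K C) (l : List V) (hl : ∀ x ∈ l, x ∈ C) :
    l.IsChain (Gam G K) := by
  induction l with
  | nil => exact List.IsChain.nil
  | cons a l ih =>
    rw [List.isChain_cons]
    refine ⟨?_, ih (fun x hx => hl x (List.mem_cons_of_mem _ hx))⟩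
    intro y hy
    exact hcore.gam (hl a List.mem_cons_self) (hl y (List.mem_cons_of_mem _
      (List.mem_of_mem_head? hy)))

end

/-- Fa -/
theorem core_Fa {V : Type*} [DecidableEq V] {G : SimpleGraph V} {N K : ℕ} (hN : 3 ≤ N)
    (hS : Short G (N + 1)) (C : Finset V) (hC : C.card = N) (hcore : IsCore G K C)
    (hK : 2 * N + 12 ≤ K) {x' x y c : V} (hx' : x' ∉ C) (hx : x ∉ C) (hy : y ∉ C) (hc : c ∈ C)
    (hne : x' ≠ y) (h1 : G.Adj x' x) (h2 : G.Adj x y) (h3 : G.Adj y c) : False := by
  set hs : List V := c :: (C.erase c).toList with hhs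
  have hmem : ∀ z ∈ hs, z ∈ C := by
    intro z hz
    rw [hhs, List.mem_cons] at hz
    rcases hz with rfl | hz
    · exact hc
    · rw [Finset.mem_toList] at hz
      exact Finset.mem_of_mem_erase hz
  have hlen : hs.length = N := by
    rw [hhs, List.length_cons, Finset.length_toList, Finset.card_erase_of_mem hc, hC]
    omega
  have hnd : hs.Nodup := by
    rw [hhs, List.nodup_cons]
    refine ⟨?_, Finset.nodup_toList _⟩
    rw [Finset.mem_toList]
    exact Finset.notMem_erase _ _
  have hX : ({x', x, y} : Finset V).card ≤ 3 := Finset.card_le_three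
  obtain ⟨l, hl, hd, hlast, hll, hav, -⟩ := connect (G := G) K hs {x', x, y} (by simp [hhs]) hnd
    (hcore.chain hs hmem) (by
      intro z hz hz'
      have := hmem z hz
      simp only [Finset.mem_insert, Finset.mem_singleton] at hz'
      rcases hz' with rfl | rfl | rfl
      · exact hx' this
      · exact hx this
      · exact hy this) (by omega)
  have hd' : l.head? = some c := by rw [hd, hhs]; rfl
  have hne' : hs ≠ [] := by simp [hhs]
  have hP : IsP G (x' :: x :: y :: l) := by
    constructor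
    · simp only [List.nodup_cons, List.mem_cons, not_or]
      refine ⟨⟨h1.ne, hne, ?_⟩, ⟨h2.ne, ?_⟩, ?_, hl.1⟩
      · intro hm; exact hav _ hm (by simp)
      · intro hm; exact hav _ hm (by simp)
      · intro hm; exact hav _ hm (by simp)
    · rw [List.isChain_cons_cons, List.isChain_cons_cons, List.isChain_cons]
      refine ⟨h1, h2, ?_, hl.2⟩
      intro z hz
      rw [hd'] at hz
      simp only [Option.mem_def, Option.some.injEq] at hz
      rw [← hz]
      exact h3
  have hlne : l ≠ [] := by rintro rfl; simp at hd'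
  have hlast' : (x' :: x :: y :: l).getLast? = some (hs.getLast hne') := by
    rw [List.getLast?_cons_cons, List.getLast?_cons_cons]
    cases l with
    | nil => exact absurd rfl hlne
    | cons a l => rw [List.getLast?_cons_cons, hlast, List.getLast?_eq_getLast_of_ne_nil hne']
  obtain ⟨l', h1', h2', -⟩ := extend_last (K := K) (e := 1) hP hlast'
    (Or.inl ⟨rfl, hcore.pen (hmem _ (List.getLast_mem _))⟩) (by
      simp only [List.length_cons]; omega)
  have := hS l' h1'.1 h1'.2
  simp only [List.length_cons] at h2'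
  omega

/-- Fb -/
theorem core_Fb {V : Type*} [DecidableEq V] {G : SimpleGraph V} {N K : ℕ} (hN : 3 ≤ N)
    (hS : Short G (N + 1)) (C : Finset V) (hC : C.card = N) (hcore : IsCore G K C)
    (hK : 2 * N + 12 ≤ K) {x y c c' y' x' : V} (hx : x ∉ C) (hy : y ∉ C) (hx' : x' ∉ C)
    (hy' : y' ∉ C) (hc : c ∈ C) (hc' : c' ∈ C) (hcc : c ≠ c')
    (hd : x ≠ x' ∧ x ≠ y' ∧ y ≠ x' ∧ y ≠ y')
    (h1 : G.Adj x y) (h2 : G.Adj y c) (h1' : G.Adj x' y') (h2' : G.Adj y' c') : False := by
  set hs : List V := c :: (((C.erase c).erase c').toList ++ [c']) with hhs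
  have hmem : ∀ z ∈ hs, z ∈ C := by
    intro z hz
    rw [hhs, List.mem_cons, List.mem_append, Finset.mem_toList, List.mem_singleton] at hz
    rcases hz with rfl | hz | rfl
    · exact hc
    · exact Finset.mem_of_mem_erase (Finset.mem_of_mem_erase hz)
    · exact hc'
  have hlen : hs.length = N := by
    rw [hhs, List.length_cons, List.length_append, Finset.length_toList,
      Finset.card_erase_of_mem (Finset.mem_erase.mpr ⟨hcc.symm, hc'⟩),
      Finset.card_erase_of_mem hc, hC, List.length_singleton]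
    omega
  have hnd : hs.Nodup := by
    rw [hhs, List.nodup_cons, List.mem_append, Finset.mem_toList, List.mem_singleton,
      List.nodup_append]
    refine ⟨?_, Finset.nodup_toList _, by simp, ?_⟩
    · rintro (h | h)
      · exact Finset.notMem_erase c C (Finset.mem_of_mem_erase h)
      · exact hcc h
    · intro a ha b hb hab
      rw [Finset.mem_toList] at ha
      rw [List.mem_singleton] at hb
      subst hab
      subst hb
      exact Finset.notMem_erase _ _ ha
  have hX : ({x, y, x', y'} : Finset V).card ≤ 4 := Finset.card_le_four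
  obtain ⟨l, hl, hdd, hlast, hll, hav, -⟩ := connect (G := G) K hs {x, y, x', y'} (by simp [hhs])
    hnd (hcore.chain hs hmem) (by
      intro z hz hz'
      have := hmem z hz
      simp only [Finset.mem_insert, Finset.mem_singleton] at hz'
      rcases hz' with rfl | rfl | rfl | rfl
      · exact hx this
      · exact hy this
      · exact hx' this
      · exact hy' this) (by omega)
  have hd' : l.head? = some c := by rw [hdd, hhs]; rfl
  have hlast' : l.getLast? = some c' := by
    rw [hlast, hhs, ← List.cons_append, List.getLast?_concat]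
  have hlne : l ≠ [] := by rintro rfl; simp at hd'
  have hP1 : IsP G (x :: y :: l) := by
    constructor
    · simp only [List.nodup_cons, List.mem_cons, not_or]
      refine ⟨⟨h1.ne, ?_⟩, ?_, hl.1⟩
      · intro hm; exact hav _ hm (by simp)
      · intro hm; exact hav _ hm (by simp)
    · rw [List.isChain_cons_cons, List.isChain_cons]
      refine ⟨h1, ?_, hl.2⟩
      intro z hz
      rw [hd'] at hz
      simp only [Option.mem_def, Option.some.injEq] at hz
      rw [← hz]
      exact h2
  have hlast1 : (x :: y :: l).getLast? = some c' := by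
    rw [List.getLast?_cons_cons]
    cases l with
    | nil => exact absurd rfl hlne
    | cons a l => rw [List.getLast?_cons_cons, hlast']
  have hP : IsP G ((x :: y :: l) ++ [y', x']) := by
    constructor
    · rw [List.nodup_append]
      refine ⟨hP1.1, by simp [h1'.ne.symm], ?_⟩
      intro a ha b hb hab
      subst hab
      obtain ⟨d1, d2, d3, d4⟩ := hd
      simp only [List.mem_cons, List.not_mem_nil, or_false] at ha hb
      rcases ha with rfl | rfl | ha
      · rcases hb with hb | hb
        · exact d2 hb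
        · exact d1 hb
      · rcases hb with hb | hb
        · exact d4 hb
        · exact d3 hb
      · rcases hb with hb | hb
        · exact hav _ ha (by simp [hb])
        · exact hav _ ha (by simp [hb])
    · rw [List.isChain_append]
      refine ⟨hP1.2, ?_, ?_⟩
      · rw [List.isChain_cons_cons]
        exact ⟨h1'.symm, List.isChain_singleton _⟩
      · intro a ha b hb
        rw [hlast1] at ha
        simp only [List.head?_cons, Option.mem_def, Option.some.injEq] at ha hb
        rw [← ha, ← hb]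
        exact h2'.symm
  have := hS _ hP.1 hP.2
  simp only [List.length_append, List.length_cons, List.length_nil] at this
  omega

section

variable {V : Type*} [DecidableEq V] {G : SimpleGraph V} {N K : ℕ} {C : Finset V}

/-- every vertex outside the core is attached or adjacent to an attached vertex -/
theorem core_att (hN : 3 ≤ N) (hS : Short G (N + 1)) (hC : C.card = N) (hcore : IsCore G K C)
    (hK : 2 * N + 12 ≤ K) {u c : V} (p : G.Walk u c) (hc : c ∈ C) (hu : u ∉ C) :
    ∃ y, y ∉ C ∧ (∃ c ∈ C, G.Adj y c) ∧ (u = y ∨ G.Adj u y) := by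
  induction p with
  | nil => exact absurd hc hu
  | @cons u u' c h p ih =>
    by_cases hu' : u' ∈ C
    · exact ⟨u, hu, ⟨u', hu', h⟩, Or.inl rfl⟩
    · obtain ⟨y, hy, ⟨c₁, hc₁, hyc⟩, hP⟩ := ih hc hu'
      refine ⟨y, hy, ⟨c₁, hc₁, hyc⟩, ?_⟩
      rcases hP with rfl | hP
      · exact Or.inr h
      · left
        by_contra hne
        exact core_Fa hN hS C hC hcore hK hu hu' hy hc₁ hne h hP hyc

/-- every edge outside the core has an attached end -/
theorem core_edge (hN : 3 ≤ N) (hS : Short G (N + 1)) (hC : C.card = N) (hcore : IsCore G K C)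
    (hK : 2 * N + 12 ≤ K) (hconn : ∀ v, ∃ c ∈ C, G.Reachable c v) {u v : V}
    (hu : u ∉ C) (hv : v ∉ C) (h : G.Adj u v) :
    (∃ c ∈ C, G.Adj u c) ∨ (∃ c ∈ C, G.Adj v c) := by
  obtain ⟨c, hc, hr⟩ := hconn u
  obtain ⟨p⟩ := hr.symm
  obtain ⟨y, hy, ⟨c₁, hc₁, hyc⟩, hP⟩ := core_att hN hS hC hcore hK p hc hu
  rcases hP with rfl | hP
  · exact Or.inl ⟨c₁, hc₁, hyc⟩
  · right
    by_cases hvy : v = y
    · subst hvy
      exact ⟨c₁, hc₁, hyc⟩
    · exact (core_Fa hN hS C hC hcore hK hv hu hy hc₁ hvy h.symm hP hyc).elim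

/-- no three consecutive vertices outside the core -/
theorem seq_three (hN : 3 ≤ N) (hS : Short G (N + 1)) (hC : C.card = N) (hcore : IsCore G K C)
    (hK : 2 * N + 12 ≤ K) (hconn : ∀ v, ∃ c ∈ C, G.Reachable c v) {w : ℕ → V} {L : ℕ}
    (hL : 8 ≤ L) (hadj : ∀ i, i + 1 < L → G.Adj (w i) (w (i + 1)))
    (hinj : ∀ i j, i < L → j < L → w i = w j → i = j) (i : ℕ) (hi : i + 2 < L)
    (h0 : w i ∉ C) (h1 : w (i + 1) ∉ C) (h2 : w (i + 2) ∉ C) : False := by
  have a0 := hadj i (by omega)
  have a1 := hadj (i + 1) hi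
  have hne : w i ≠ w (i + 2) := by
    intro h
    have := hinj _ _ (by omega) hi h
    omega
  have n0 : ¬ ∃ c ∈ C, G.Adj (w i) c := by
    rintro ⟨c, hc, h⟩
    exact core_Fa hN hS C hC hcore hK h2 h1 h0 hc hne.symm a1.symm a0.symm h
  have n2 : ¬ ∃ c ∈ C, G.Adj (w (i + 2)) c := by
    rintro ⟨c, hc, h⟩
    exact core_Fa hN hS C hC hcore hK h0 h1 h2 hc hne a0 a1 h
  obtain ⟨c, hc, hatt⟩ := (core_edge hN hS hC hcore hK hconn h0 h1 a0).resolve_left n0
  have hi0 : i = 0 := by
    by_contra hi0
    obtain ⟨j, rfl⟩ : ∃ j, i = j + 1 := ⟨i - 1, by omega⟩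
    have a2 := hadj j (by omega)
    have hj : w j ∉ C := fun hj => n0 ⟨_, hj, a2.symm⟩
    refine core_Fa hN hS C hC hcore hK hj h0 h1 hc ?_ a2 a0 hatt
    intro h
    have := hinj _ _ (by omega) (by omega) h
    omega
  subst hi0
  have a3 := hadj 2 (by omega)
  have h3 : w 3 ∉ C := fun hj => n2 ⟨_, hj, a3⟩
  refine core_Fa hN hS C hC hcore hK h3 h2 h1 hc ?_ a3.symm a1.symm hatt
  intro h
  have := hinj _ _ (by omega) (by omega) h
  omega

/-- at most one edge of a long path lies outside the core -/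
theorem seq_two (hN : 3 ≤ N) (hS : Short G (N + 1)) (hC : C.card = N) (hcore : IsCore G K C)
    (hK : 2 * N + 12 ≤ K) (hconn : ∀ v, ∃ c ∈ C, G.Reachable c v) {w : ℕ → V} {L : ℕ}
    (hL : 8 ≤ L) (hadj : ∀ i, i + 1 < L → G.Adj (w i) (w (i + 1)))
    (hinj : ∀ i j, i < L → j < L → w i = w j → i = j) (i j : ℕ) (hij : i < j) (hj : j + 1 < L)
    (h0 : w i ∉ C) (h1 : w (i + 1) ∉ C) (h0' : w j ∉ C) (h1' : w (j + 1) ∉ C) : False := by
  have h3 := seq_three hN hS hC hcore hK hconn hL hadj hinj
  have hj1 : j ≠ i + 1 := by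
    rintro rfl
    exact h3 i (by omega) h0 h1 h1'
  have h2 : w (i + 2) ∈ C := by
    by_contra h2
    exact h3 i (by omega) h0 h1 h2
  obtain ⟨k, rfl⟩ : ∃ k, j = k + 1 := ⟨j - 1, by omega⟩
  have hk : w k ∈ C := by
    by_contra hk
    exact h3 k (by omega) hk h0' h1'
  have hki : k ≠ i + 1 := by
    rintro rfl
    exact h1 hk
  have hne : ∀ a b, a < L → b < L → a ≠ b → w a ≠ w b := fun a b ha hb hab h =>
    hab (hinj a b ha hb h)
  -- the two edges
  have hdis : w i ≠ w (k + 1 + 1) ∧ w i ≠ w (k + 1) ∧ w (i + 1) ≠ w (k + 1 + 1) ∧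
      w (i + 1) ≠ w (k + 1) :=
    ⟨hne _ _ (by omega) hj (by omega), hne _ _ (by omega) (by omega) (by omega),
      hne _ _ (by omega) hj (by omega), hne _ _ (by omega) (by omega) (by omega)⟩
  have a0 := hadj i (by omega)
  have a1 := hadj (i + 1) (by omega)
  have b0 := hadj k (by omega)
  have b1 := hadj (k + 1) (by omega)
  have hkk : k = i + 2 := by
    by_contra hkk
    exact core_Fb hN hS C hC hcore hK h0 h1 h1' h0' h2 hk (hne _ _ (by omega) (by omega)
      (Ne.symm hkk)) hdis a0 a1 b1.symm b0.symm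
  subst hkk
  by_cases hi0 : i = 0
  · subst hi0
    -- the other side
    have h5 : w 5 ∈ C := by
      by_contra h5
      exact h3 3 (by omega) h0' h1' h5
    have b2 := hadj 4 (by omega)
    exact core_Fb hN hS C hC hcore hK h0 h1 h0' h1' h2 h5 (hne _ _ (by omega) (by omega)
      (by omega)) ⟨hdis.2.1, hdis.1, hdis.2.2.2, hdis.2.2.1⟩ a0 a1 b1 b2
  · obtain ⟨m, rfl⟩ : ∃ m, i = m + 1 := ⟨i - 1, by omega⟩
    have hm : w m ∈ C := by
      by_contra hm
      exact h3 m (by omega) hm h0 h1
    have a2 := hadj m (by omega)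
    exact core_Fb hN hS C hC hcore hK h1 h0 h1' h0' hm hk (hne _ _ (by omega) (by omega)
      (by omega)) ⟨hdis.2.2.1, hdis.2.2.2, hdis.1, hdis.2.1⟩ a0.symm a2.symm b1.symm b0.symm

end

/-- structure of the long paths in the component of a core -/
theorem core_struct {V : Type*} [DecidableEq V] {G : SimpleGraph V} {N K : ℕ} (hN : 3 ≤ N)
    (hS : Short G (N + 1)) (C : Finset V) (hC : C.card = N) (hcore : IsCore G K C)
    (hK : 2 * N + 12 ≤ K) (hconn : ∀ v, ∃ c ∈ C, G.Reachable c v)
    (q : Fin (N + 1) → V × V) (hq : IsMP G (N + 1) q) :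
    ∃ k σ τ a b, GI G (fun v => v ∈ C) N k σ τ a b ∧ q = mkI k σ τ a b := by
  -- the path as a sequence
  set w : ℕ → V := fun i => if h : i < 2 * (N + 1) then vtx q ⟨i, h⟩ else vtx q ⟨0, by omega⟩
    with hw
  have hwlt : ∀ i (h : i < 2 * (N + 1)), w i = vtx q ⟨i, h⟩ := fun i h => by
    rw [hw]; simp only; rw [dif_pos h]
  have hchain := hq.toL_isP.2
  unfold toL at hchain
  rw [List.isChain_ofFn] at hchain
  have hadj : ∀ i, i + 1 < 2 * (N + 1) → G.Adj (w i) (w (i + 1)) := by
    intro i hi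
    rw [hwlt i (by omega), hwlt (i + 1) hi]
    exact hchain i hi
  have hinj : ∀ i j, i < 2 * (N + 1) → j < 2 * (N + 1) → w i = w j → i = j := by
    intro i j hi hj h
    rw [hwlt i hi, hwlt j hj] at h
    have := hq.vtx_inj h
    rw [Fin.mk.injEq] at this
    exact this
  have h2 := seq_two hN hS hC hcore hK hconn (w := w) (L := 2 * (N + 1)) (by omega) hadj hinj
  have we : ∀ i : Fin (N + 1), w (2 * i) = (q i).1 := by
    intro i
    rw [hwlt _ (by omega)]
    unfold vtx
    rw [if_pos (by simp)]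
    congr 2
    ext
    simp
  have wo : ∀ i : Fin (N + 1), w (2 * i + 1) = (q i).2 := by
    intro i
    rw [hwlt _ (by omega)]
    unfold vtx
    rw [if_neg (by simp)]
    congr 2
    ext
    simp only
    omega
  -- counting
  set f : Fin (N + 1) → ℕ := fun i => (if (q i).1 ∈ C then 1 else 0) +
    (if (q i).2 ∈ C then 1 else 0) with hf
  have hsum : ∑ i, f i ≤ N := by
    rw [hf, Finset.sum_add_distrib, ← Finset.card_filter, ← Finset.card_filter]
    have e1 : (univ.filter (fun i : Fin (N + 1) => (q i).1 ∈ C)).card =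
        ((univ.filter (fun i : Fin (N + 1) => (q i).1 ∈ C)).image (fun i => (q i).1)).card :=
      (Finset.card_image_of_injective _ (fun i j h => hq.inj1 i j h)).symm
    have e2 : (univ.filter (fun i : Fin (N + 1) => (q i).2 ∈ C)).card =
        ((univ.filter (fun i : Fin (N + 1) => (q i).2 ∈ C)).image (fun i => (q i).2)).card :=
      (Finset.card_image_of_injective _ (fun i j h => hq.inj2 i j h)).symm
    rw [e1, e2, ← Finset.card_union_of_disjoint]
    · refine le_trans (Finset.card_le_card (t := C) ?_) hC.le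
      intro z hz
      rw [Finset.mem_union, Finset.mem_image, Finset.mem_image] at hz
      rcases hz with ⟨i, hi, rfl⟩ | ⟨i, hi, rfl⟩
      · exact (Finset.mem_filter.mp hi).2
      · exact (Finset.mem_filter.mp hi).2
    · rw [Finset.disjoint_left]
      intro z hz hz'
      rw [Finset.mem_image] at hz hz'
      obtain ⟨i, -, hi⟩ := hz
      obtain ⟨j, -, hj⟩ := hz'
      exact hq.ne12 i j (hi.trans hj.symm)
  have hone : ∑ i : Fin (N + 1), 1 = N + 1 := by simp
  obtain ⟨i₁, -, hi₁⟩ : ∃ i ∈ (univ : Finset (Fin (N + 1))), f i < 1 := by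
    apply Finset.exists_lt_of_sum_lt
    rw [hone]
    omega
  have hi₁a : (q i₁).1 ∉ C := by
    intro h
    rw [hf] at hi₁
    simp only [h, if_true] at hi₁
    omega
  have hi₁b : (q i₁).2 ∉ C := by
    intro h
    rw [hf] at hi₁
    simp only [h, if_true] at hi₁
    omega
  -- the position `2 i₁` is the only one
  have honly : ∀ i, i + 1 < 2 * (N + 1) → w i ∉ C → w (i + 1) ∉ C → i = 2 * i₁ := by
    intro i hi h3 h4
    have h5 : w (2 * i₁) ∉ C := by rw [we]; exact hi₁a
    have h6 : w (2 * i₁ + 1) ∉ C := by rw [wo]; exact hi₁b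
    rcases lt_trichotomy i (2 * i₁) with h | h | h
    · exact (h2 i (2 * i₁) h (by omega) h3 h4 h5 h6).elim
    · exact h
    · exact (h2 (2 * i₁) i h hi h5 h6 h3 h4).elim
  have hA : ∀ i, ¬ ((q i).1 ∈ C ∧ (q i).2 ∈ C) := by
    rintro i₀ ⟨h3, h4⟩
    have hne : i₀ ≠ i₁ := by
      rintro rfl
      exact hi₁a h3
    have hle : ∑ i : Fin (N + 1), (1 + (if i = i₀ then 1 else 0)) ≤
        ∑ i : Fin (N + 1), (f i + (if i = i₁ then 1 else 0)) := by
      apply Finset.sum_le_sum
      intro i _
      by_cases hi0 : i = i₀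
      · subst hi0
        rw [if_pos rfl, if_neg hne, hf]
        simp only [h3, h4, if_true]
        omega
      · rw [if_neg hi0]
        by_cases hi1 : i = i₁
        · rw [if_pos hi1]
          omega
        · rw [if_neg hi1]
          have : 1 ≤ f i := by
            by_contra hlt
            have h5 : (q i).1 ∉ C := by
              intro h
              rw [hf] at hlt
              simp only [h, if_true] at hlt
              omega
            have h6 : (q i).2 ∉ C := by
              intro h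
              rw [hf] at hlt
              simp only [h, if_true] at hlt
              omega
            have := honly (2 * i) (by omega) (by rw [we]; exact h5) (by rw [wo]; exact h6)
            exact hi1 (Fin.ext (by omega))
          omega
    rw [Finset.sum_add_distrib, Finset.sum_add_distrib, hone] at hle
    simp only [Finset.sum_ite_eq', Finset.mem_univ, if_true] at hle
    omega
  have hB : ∀ i j : Fin (N + 1), (j : ℕ) = i + 1 → (q i).2 ∈ C ∨ (q j).1 ∈ C := by
    intro i j hij
    by_contra hcon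
    push Not at hcon
    have := honly (2 * i + 1) (by omega) (by rw [wo]; exact hcon.1) (by
      have : 2 * (i : ℕ) + 1 + 1 = 2 * j := by omega
      rw [this, we]
      exact hcon.2)
    omega
  rcases classify (fun v => v ∈ C) q hA hB with ⟨p, -, h3, h4⟩ | ⟨k, h3, ⟨h4, h5⟩, h6⟩
  · exfalso
    rcases Nat.lt_or_ge (i₁ : ℕ) p with h | h
    · exact hi₁b (h3 i₁ h).2
    · exact hi₁a (h4 i₁ h).1
  · set σ : Fin N → V := fun i => if (i : ℕ) < k then (q i.castSucc).2 else (q i.succ).1 with hσ
    set τ : Fin N → V := fun i => if (i : ℕ) < k then (q i.castSucc).1 else (q i.succ).2 with hτ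
    have hqe : q = mkI k σ τ (q k).1 (q k).2 := by
      funext i
      unfold mkI
      by_cases h7 : (i : ℕ) < k
      · rw [dif_pos ⟨h7, by omega⟩, hσ, hτ]
        simp only
        rw [if_pos h7, if_pos h7]
        rfl
      · rw [dif_neg (by omega)]
        by_cases h8 : (i : ℕ) ≤ k
        · rw [dif_pos h8]
          have : i = k := Fin.ext (by omega)
          rw [this]
        · rw [dif_neg h8, hσ, hτ]
          simp only
          rw [if_neg (by omega), if_neg (by omega)]
          have : (⟨(i : ℕ) - 1, by omega⟩ : Fin N).succ = i := Fin.ext (by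
            simp only [Fin.succ_mk]; omega)
          rw [this]
    refine ⟨k, σ, τ, (q k).1, (q k).2, ⟨by omega, ?_, ?_, h4, h5, ?_⟩, hqe⟩
    · intro i
      rw [hσ]
      simp only
      split_ifs with h7
      · exact (h3 i.castSucc (by simpa using h7)).2
      · exact (h6 i.succ (by simp only [Fin.val_succ]; omega)).1
    · intro i
      rw [hτ]
      simp only
      split_ifs with h7
      · exact (h3 i.castSucc (by simpa using h7)).1
      · exact (h6 i.succ (by simp only [Fin.val_succ]; omega)).2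
    · rw [← hqe]
      exact hq

end P490135

end

section

/-!
# MP_490135_co: bounds for the paths with a given set of low vertices (helper81)
-/

namespace P490135

open SimpleGraph Finset Nat

open scoped Classical in
/-- degree -/
noncomputable def dg {V : Type*} [Fintype V] (G : SimpleGraph V) (v : V) : ℕ :=
  (univ.filter (fun w => G.Adj v w)).card

/-- high vertices: degree at least `n / s` -/
def Hi {V : Type*} [Fintype V] (G : SimpleGraph V) (s : ℕ) (v : V) : Prop :=
  Fintype.card V ≤ s * dg G v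

open scoped Classical in
/-- high neighbours -/
noncomputable def TT {V : Type*} [Fintype V] (G : SimpleGraph V) (s : ℕ) (u : V) : Finset V :=
  univ.filter (fun h => Hi G s h ∧ G.Adj u h)

/-- good low vertices -/
structure Good' {V : Type*} [Fintype V] (G : SimpleGraph V) (K s N : ℕ) (u : V) : Prop where
  good : Good G K (Hi G s) u
  few : (TT G s u).card + 1 ≤ N

/-- the low-low edge of a type I path is attached only to highs with many pendant edges -/
def Nice {V : Type*} (G : SimpleGraph V) (K : ℕ) {N : ℕ} (σ : Fin N → V) (a b : V) : Prop :=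
  ∀ i, (G.Adj a (σ i) ∨ G.Adj b (σ i)) → DD G K (σ i)

section

variable {V : Type*} [Fintype V] [DecidableEq V] {G : SimpleGraph V} {K s N : ℕ}

omit [DecidableEq V] in
theorem mem_TT {u h : V} : h ∈ TT G s u ↔ Hi G s h ∧ G.Adj u h := by
  classical
  simp [TT]

/-- type II paths whose set of lows is `W` -/
structure InII (G : SimpleGraph V) (s N : ℕ) (W : Finset V) (x : ℕ × (Fin (N + 1) → V) ×
    (Fin (N + 1) → V)) : Prop where
  p : GII G (Hi G s) (N + 1) x.1 x.2.1 x.2.2
  im : univ.image x.2.2 = W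

/-- type I paths whose set of (single and representing) lows is `W` -/
structure InI (G : SimpleGraph V) (K s N : ℕ) (W : Finset V) (x : ℕ × (Fin N → V) ×
    (Fin N → V) × V) : Prop where
  k : x.1 < N
  p : ∃ b, GI G (Hi G s) N x.1 x.2.1 x.2.2.1 x.2.2.2 b ∧ Nice G K x.2.1 x.2.2.2 b
  im : insert x.2.2.2 (univ.image x.2.2.1) = W

theorem InII.S (hS : Short G (N + 1)) (hPen : ∀ v, Hi G s v → Pen G K v) (hK : 2 * N + 12 ≤ K)
    {W : Finset V} (hW : ∀ u ∈ W, Good' G K s N u)
    {x : ℕ × (Fin (N + 1) → V) × (Fin (N + 1) → V)} (hx : InII G s N W x) :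
    W.biUnion (TT G s) = univ.image x.2.1 := by
  have hτW : ∀ i, x.2.2 i ∈ W := fun i => hx.im ▸ mem_image_of_mem _ (mem_univ i)
  ext h
  simp only [mem_biUnion, mem_image, mem_univ, true_and]
  constructor
  · rintro ⟨u, hu, hh⟩
    rw [mem_TT] at hh
    rw [← hx.im, mem_image] at hu
    obtain ⟨i, -, rfl⟩ := hu
    obtain ⟨j, hj⟩ := hx.p.T hS hPen (by omega) (fun i => (hW _ (hτW i)).good) i hh.1 hh.2
    exact ⟨j, hj.symm⟩
  · rintro ⟨i, rfl⟩
    exact ⟨x.2.2 i, hτW i, mem_TT.mpr ⟨hx.p.hσ i, hx.p.adj i⟩⟩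

theorem InI.S (hS : Short G (N + 1)) (hPen : ∀ v, Hi G s v → Pen G K v) (hK : 2 * N + 12 ≤ K)
    {W : Finset V} (hW : ∀ u ∈ W, Good' G K s N u)
    {x : ℕ × (Fin N → V) × (Fin N → V) × V} (hx : InI G K s N W x) :
    W.biUnion (TT G s) = univ.image x.2.1 := by
  obtain ⟨b, hp, hn⟩ := hx.p
  have hk := hx.k
  have hτW : ∀ i, x.2.2.1 i ∈ W := fun i =>
    hx.im ▸ mem_insert_of_mem (mem_image_of_mem _ (mem_univ i))
  have haW : x.2.2.2 ∈ W := hx.im ▸ mem_insert_self _ _
  ext h
  simp only [mem_biUnion, mem_image, mem_univ, true_and]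
  constructor
  · rintro ⟨u, hu, hh⟩
    rw [mem_TT] at hh
    rw [← hx.im, mem_insert, mem_image] at hu
    rcases hu with rfl | ⟨i, -, rfl⟩
    · obtain ⟨j, hj⟩ := hp.Ta hS hPen (by omega) hk (fun i => (hW _ (hτW i)).good)
        (hW _ haW).good hh.1 hh.2
      exact ⟨j, hj.symm⟩
    · obtain ⟨j, hj⟩ := hp.T hS hPen (by omega) hk (fun i => (hW _ (hτW i)).good) i hh.1 hh.2
      exact ⟨j, hj.symm⟩
  · rintro ⟨i, rfl⟩
    exact ⟨x.2.2.1 i, hτW i, mem_TT.mpr ⟨hp.hσ i, hp.adj i⟩⟩

theorem InII.hyp (hS : Short G (N + 1)) (hPen : ∀ v, Hi G s v → Pen G K v)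
    (hK : 2 * N + 12 ≤ K) {W : Finset V} (hW : ∀ u ∈ W, Good' G K s N u)
    {x : ℕ × (Fin (N + 1) → V) × (Fin (N + 1) → V)} (hx : InII G s N W x) :
    HypII (N + 1) (W.biUnion (TT G s)) W G.Adj (Gam G K) := by
  have hSe := hx.S hS hPen hK hW
  have hcS : (W.biUnion (TT G s)).card = N + 1 := by
    rw [hSe, card_image_of_injective _ hx.p.σinj]
    simp
  have hHi : ∀ h ∈ W.biUnion (TT G s), Hi G s h := by
    intro h hh
    rw [mem_biUnion] at hh
    obtain ⟨u, -, hu⟩ := hh
    exact (mem_TT.mp hu).1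
  refine ⟨hcS, ?_, fun x y h => h.symm, ?_, ?_, ?_⟩
  · rw [← hx.im, card_image_of_injective _ hx.p.τinj]
    simp
  · intro u hu h hh h' hh' h1 h2 hne
    exact (hW u hu).good.cl h h' (hHi h hh) (hHi h' hh') h1 h2 hne
  · intro u hu
    have h1 : 1 < ((W.biUnion (TT G s)) \ TT G s u).card := by
      have := le_card_sdiff (TT G s u) (W.biUnion (TT G s))
      have h2 := (hW u hu).few
      omega
    rw [one_lt_card] at h1
    obtain ⟨a, ha, b, hb, hab⟩ := h1
    rw [mem_sdiff] at ha hb
    refine ⟨a, ha.1, b, hb.1, hab, ?_, ?_⟩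
    · intro had
      exact ha.2 (mem_TT.mpr ⟨hHi a ha.1, had⟩)
    · intro had
      exact hb.2 (mem_TT.mpr ⟨hHi b hb.1, had⟩)
  · intro σ hσ hσS
    exact short_noHam (by omega) hS hPen (by omega) hσ (fun i => hHi _ (hσS i))

theorem InII.isII (hS : Short G (N + 1)) (hPen : ∀ v, Hi G s v → Pen G K v)
    (hK : 2 * N + 12 ≤ K) {W : Finset V} (hW : ∀ u ∈ W, Good' G K s N u)
    {x : ℕ × (Fin (N + 1) → V) × (Fin (N + 1) → V)} (hx : InII G s N W x) :
    IsII (N + 1) (W.biUnion (TT G s)) W G.Adj x.1 x.2.1 x.2.2 := by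
  have hSe := hx.S hS hPen hK hW
  refine ⟨hx.p.σinj, ?_, hx.p.τinj, ?_, hx.p.p1, hx.p.p2, hx.p.adj, ?_, ?_⟩
  · intro i
    rw [hSe]
    exact mem_image_of_mem _ (mem_univ _)
  · intro i
    rw [← hx.im]
    exact mem_image_of_mem _ (mem_univ _)
  · intro i j hij hj
    exact hx.p.adj1 i j hij hj
  · intro i j hij hj
    exact hx.p.adj2 i j hij hj

open scoped Classical in
/-- the highs with many pendant edges -/
noncomputable def Dset (G : SimpleGraph V) (K : ℕ) : Finset V := univ.filter (fun h => DD G K h)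

/-- existence of a low-low edge between two highs -/
def Lam (G : SimpleGraph V) (s : ℕ) (x y : V) : Prop :=
  ∃ a b, ¬ Hi G s a ∧ ¬ Hi G s b ∧ G.Adj x a ∧ G.Adj a b ∧ G.Adj b y

theorem InI.hyp (hN : 2 ≤ N) (hS : Short G (N + 1)) (hPen : ∀ v, Hi G s v → Pen G K v)
    (hK : 2 * N + 12 ≤ K) {W : Finset V} (hW : ∀ u ∈ W, Good' G K s N u)
    {x : ℕ × (Fin N → V) × (Fin N → V) × V} (hx : InI G K s N W x) :
    HypI N (W.biUnion (TT G s)) W G.Adj (Dset G K) (Gam G K) (Lam G s) := by
  have hSe := hx.S hS hPen hK hW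
  obtain ⟨b, hp, hn⟩ := hx.p
  have hcS : (W.biUnion (TT G s)).card = N := by
    rw [hSe, card_image_of_injective _ hp.σinj]
    simp
  have hHi : ∀ h ∈ W.biUnion (TT G s), Hi G s h := by
    intro h hh
    rw [mem_biUnion] at hh
    obtain ⟨u, -, hu⟩ := hh
    exact (mem_TT.mp hu).1
  refine ⟨hcS, ?_, fun x y h => h.symm, ?_, ?_, ?_, ?_, ?_⟩
  · rw [← hx.im, card_insert_of_notMem, card_image_of_injective _ hp.τinj]
    · simp
    · rw [mem_image]
      rintro ⟨i, -, hi⟩
      exact hp.τa i hi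
  · rintro x y ⟨a, b, ha, hb, h1, h2, h3⟩
    exact ⟨b, a, hb, ha, h3.symm, h2.symm, h1.symm⟩
  · intro u hu h hh h' hh' h1 h2 hne
    exact (hW u hu).good.cl h h' (hHi h hh) (hHi h' hh') h1 h2 hne
  · intro u hu
    have h1 : 0 < ((W.biUnion (TT G s)) \ TT G s u).card := by
      have := le_card_sdiff (TT G s u) (W.biUnion (TT G s))
      have h2 := (hW u hu).few
      omega
    rw [card_pos] at h1
    obtain ⟨a, ha⟩ := h1
    rw [mem_sdiff] at ha
    exact ⟨a, ha.1, fun had => ha.2 (mem_TT.mpr ⟨hHi a ha.1, had⟩)⟩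
  · rintro σ hσ hσR hch ⟨h0, h1⟩
    have h0' := h0 ⟨0, by omega⟩ rfl
    have h1' := h1 ⟨N - 1, by omega⟩ (by simp only; omega)
    simp only [Dset, mem_filter, mem_univ, true_and] at h0' h1'
    exact short_F1 (by omega) hS (by omega) hσ hch h0' h1'
  · intro σ k hσ hσR hk1 hkN hch hlam h0
    obtain ⟨a, b, ha, hb, h1, h2, h3⟩ := hlam ⟨k - 1, by omega⟩ ⟨k, hkN⟩ (by simp only; omega) rfl
    have h0' := h0 ⟨0, by omega⟩ rfl
    simp only [Dset, mem_filter, mem_univ, true_and] at h0'
    exact short_F2 hS hPen (by omega) hσ (fun i => hHi _ (hσR i)) hk1 hkN hch ha hb h2 h1 h3 h0'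

theorem InI.isE (hS : Short G (N + 1)) (hPen : ∀ v, Hi G s v → Pen G K v)
    (hK : 2 * N + 12 ≤ K) {W : Finset V} (hW : ∀ u ∈ W, Good' G K s N u)
    {x : ℕ × (Fin N → V) × (Fin N → V) × V} (hx : InI G K s N W x) (h0 : x.1 = 0) :
    IsE N (W.biUnion (TT G s)) W G.Adj (Dset G K) x.2.2.2 x.2.1 x.2.2.1 := by
  have hSe := hx.S hS hPen hK hW
  obtain ⟨b, hp, hn⟩ := hx.p
  refine ⟨?_, ?_, hp.σinj, ?_, hp.τinj, ?_, hp.τa, hp.adj, ?_, ?_⟩
  · rw [← hx.im]
    exact mem_insert_self _ _
  · intro h hh had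
    rw [hSe, mem_image] at hh
    obtain ⟨i, -, rfl⟩ := hh
    simp only [Dset, mem_filter, mem_univ, true_and]
    exact hn i (Or.inl had)
  · intro i
    rw [hSe]
    exact mem_image_of_mem _ (mem_univ _)
  · intro i
    rw [← hx.im]
    exact mem_insert_of_mem (mem_image_of_mem _ (mem_univ _))
  · intro i j hij
    exact hp.adj2 i j hij (by omega)
  · intro i hi
    simp only [Dset, mem_filter, mem_univ, true_and]
    exact hn i (Or.inr (hp.adjb i (by omega)))

theorem InI.isM (hS : Short G (N + 1)) (hPen : ∀ v, Hi G s v → Pen G K v)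
    (hK : 2 * N + 12 ≤ K) {W : Finset V} (hW : ∀ u ∈ W, Good' G K s N u)
    {x : ℕ × (Fin N → V) × (Fin N → V) × V} (hx : InI G K s N W x) (h0 : x.1 ≠ 0) :
    IsM N (W.biUnion (TT G s)) W G.Adj (Dset G K) (Lam G s) x.2.2.2 x.1 x.2.1 x.2.2.1 := by
  have hSe := hx.S hS hPen hK hW
  obtain ⟨b, hp, hn⟩ := hx.p
  refine ⟨?_, ?_, hp.σinj, ?_, hp.τinj, ?_, hp.τa, by omega, hx.k, hp.adj, ?_, ?_, ?_, ?_, ?_⟩
  · rw [← hx.im]
    exact mem_insert_self _ _
  · intro h hh had
    rw [hSe, mem_image] at hh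
    obtain ⟨i, -, rfl⟩ := hh
    simp only [Dset, mem_filter, mem_univ, true_and]
    exact hn i (Or.inl had)
  · intro i
    rw [hSe]
    exact mem_image_of_mem _ (mem_univ _)
  · intro i
    rw [← hx.im]
    exact mem_insert_of_mem (mem_image_of_mem _ (mem_univ _))
  · intro i j hij hj
    exact hp.adj1 i j hij hj
  · intro i j hij hj
    exact hp.adj2 i j hij hj
  · intro i j hij hj
    exact ⟨x.2.2.2, b, hp.ha, hp.hb, (hp.adja i (by omega)).symm, hp.adjab, hp.adjb j hj⟩
  · intro i hi
    simp only [Dset, mem_filter, mem_univ, true_and]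
    exact hn i (Or.inl (hp.adja i hi))
  · intro i hi
    simp only [Dset, mem_filter, mem_univ, true_and]
    exact hn i (Or.inr (hp.adjb i hi))

/-- Type II and type I exclude each other. -/
theorem excl (hS : Short G (N + 1)) (hPen : ∀ v, Hi G s v → Pen G K v)
    (hK : 2 * N + 12 ≤ K) {W : Finset V} (hW : ∀ u ∈ W, Good' G K s N u)
    {x : ℕ × (Fin (N + 1) → V) × (Fin (N + 1) → V)} (hx : InII G s N W x)
    {y : ℕ × (Fin N → V) × (Fin N → V) × V} (hy : InI G K s N W y) : False := by
  have h1 := hx.S hS hPen hK hW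
  have h2 := hy.S hS hPen hK hW
  obtain ⟨b, hp, hn⟩ := hy.p
  have h3 : (univ.image x.2.1).card = (univ.image y.2.1).card := by rw [← h1, ← h2]
  rw [card_image_of_injective _ hx.p.σinj, card_image_of_injective _ hp.σinj] at h3
  simp at h3

/-- bound for type II with a given `W` -/
theorem II_W (hN : 3 ≤ N) (hS : Short G (N + 1)) (hPen : ∀ v, Hi G s v → Pen G K v)
    (hK : 2 * N + 12 ≤ K) {W : Finset V} (hW : ∀ u ∈ W, Good' G K s N u)
    (Q : Finset (ℕ × (Fin (N + 1) → V) × (Fin (N + 1) → V))) (hQ : ∀ x ∈ Q, InII G s N W x) :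
    Q.card ≤ 4 * N ! * (N - 1)! ∨ 2 * Q.card ≤ N ! * (N ! + (N - 1)!) := by
  rcases Q.eq_empty_or_nonempty with rfl | ⟨x₀, hx₀⟩
  · left; simp
  have hyp := (hQ x₀ hx₀).hyp hS hPen hK hW
  by_cases two : ∀ v ∈ W.biUnion (TT G s), ∃ u ∈ W, ∃ u' ∈ W, u ≠ u' ∧ G.Adj u v ∧ G.Adj u' v
  · left
    have := II_alpha (ℓ := N + 1) (by omega) _ W G.Adj (Gam G K) hyp two Q
      (fun x hx => (hQ x hx).isII hS hPen hK hW)
    simpa using this
  · right
    push Not at two
    obtain ⟨v, hv, hv'⟩ := two
    rw [mem_biUnion] at hv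
    obtain ⟨a, ha, hav⟩ := hv
    have hone : ∀ u ∈ W, G.Adj u v → u = a := by
      intro u hu huv
      by_contra hne
      exact hv' u hu a ha hne huv (mem_TT.mp hav).2
    have := II_beta (ℓ := N + 1) (by omega) _ W G.Adj (Gam G K) hyp v
      (mem_biUnion.mpr ⟨a, ha, hav⟩) a ha (mem_TT.mp hav).2 hone Q
      (fun x hx => (hQ x hx).isII hS hPen hK hW)
    simpa using this

/-- bound for type I with a given `W` -/
theorem I_W (hN : 3 ≤ N) (hS : Short G (N + 1)) (hPen : ∀ v, Hi G s v → Pen G K v)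
    (hK : 2 * N + 12 ≤ K) {W : Finset V} (hW : ∀ u ∈ W, Good' G K s N u)
    (Q : Finset (ℕ × (Fin N → V) × (Fin N → V) × V)) (hQ : ∀ x ∈ Q, InI G K s N W x) :
    ∃ e m : ℕ, Q.card ≤ e + m ∧ 4 * e ≤ max (N ! * N !) (4 * (N ! * (N - 1)!)) ∧
      m ≤ 2 * N ! * (N - 2)! ∧ (N = 3 → m = 0) ∧ (N = 4 → m ≤ 48) := by
  classical
  rcases Q.eq_empty_or_nonempty with rfl | ⟨x₀, hx₀⟩
  · exact ⟨0, 0, by simp, by simp, by simp, fun _ => rfl, by simp⟩
  have hyp := (hQ x₀ hx₀).hyp (by omega) hS hPen hK hW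
  -- the `E` part
  set QE := (Q.filter (fun x => x.1 = 0)).image
    (fun x => ((x.2.2.2, x.2.1, x.2.2.1) : V × (Fin N → V) × (Fin N → V))) with hQE
  set QM := (Q.filter (fun x => x.1 ≠ 0)).image
    (fun x => ((x.2.2.2, x.1, x.2.1, x.2.2.1) : V × ℕ × (Fin N → V) × (Fin N → V))) with hQM
  have hE : (Q.filter (fun x => x.1 = 0)).card = QE.card := by
    rw [hQE, Finset.card_image_of_injOn]
    rintro ⟨k, σ, τ, a⟩ hx ⟨k', σ', τ', a'⟩ hy hxy
    simp only [coe_filter, Set.mem_setOf_eq] at hx hy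
    simp only [Prod.mk.injEq] at hxy ⊢
    exact ⟨hx.2.trans hy.2.symm, hxy.2.1, hxy.2.2, hxy.1⟩
  have hM : (Q.filter (fun x => x.1 ≠ 0)).card = QM.card := by
    rw [hQM, Finset.card_image_of_injOn]
    rintro ⟨k, σ, τ, a⟩ hx ⟨k', σ', τ', a'⟩ hy hxy
    simp only [Prod.mk.injEq] at hxy ⊢
    exact ⟨hxy.2.1, hxy.2.2.1, hxy.2.2.2, hxy.1⟩
  have hEm : ∀ x ∈ QE, IsE N (W.biUnion (TT G s)) W G.Adj (Dset G K) x.1 x.2.1 x.2.2 := by
    intro x hx
    rw [hQE, mem_image] at hx
    obtain ⟨y, hy, rfl⟩ := hx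
    rw [mem_filter] at hy
    exact (hQ y hy.1).isE hS hPen hK hW hy.2
  have hMm : ∀ x ∈ QM, IsM N (W.biUnion (TT G s)) W G.Adj (Dset G K) (Lam G s) x.1 x.2.1
      x.2.2.1 x.2.2.2 := by
    intro x hx
    rw [hQM, mem_image] at hx
    obtain ⟨y, hy, rfl⟩ := hx
    rw [mem_filter] at hy
    exact (hQ y hy.1).isM hS hPen hK hW hy.2
  refine ⟨QE.card, QM.card, ?_, ?_, ?_, ?_, ?_⟩
  · rw [← hE, ← hM]
    exact (card_filter_add_card_filter_not (s := Q) (fun x => x.1 = 0)).symm.le
  · exact E_bound hN _ W G.Adj (Dset G K) (Gam G K) (Lam G s) hyp QE hEm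
  · exact M_bound hN _ W G.Adj (Dset G K) (Gam G K) (Lam G s) hyp QM hMm
  · rintro rfl
    rw [Finset.card_eq_zero, eq_empty_iff_forall_notMem]
    intro x hx
    exact M_three hyp _ _ _ _ (hMm x hx)
  · rintro rfl
    exact M_four _ W G.Adj (Dset G K) (Gam G K) (Lam G s) hyp QM hMm

end

end P490135

end

section

/-!
# MP_490135_co, item N: the exact bound in the component of a core (helper80)
-/

namespace P490135

open SimpleGraph Finset Nat

theorem card_allT_desc {β : Type*} [DecidableEq β] (N : ℕ) (W : Finset β) :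
    (allT N W).card = W.card.descFactorial N := by
  classical
  have h := Fintype.card_embedding_eq (α := Fin N) (β := W)
  rw [Fintype.card_fin, Fintype.card_coe] at h
  rw [← h, ← Finset.card_univ]
  symm
  refine Finset.card_bij (fun e _ => fun i => (e i : β)) ?_ ?_ ?_
  · intro e _
    rw [mem_allT]
    exact ⟨fun i j hij => e.injective (Subtype.ext hij), fun i => (e i).2⟩
  · intro e _ e' _ h
    ext i
    exact congrFun h i
  · intro τ hτ
    rw [mem_allT] at hτ
    exact ⟨⟨fun i => ⟨τ i, hτ.2 i⟩, fun i j hij => hτ.1 (congrArg Subtype.val hij)⟩,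
      mem_univ _, rfl⟩

open Classical in
/-- the attached edges outside the core -/
noncomputable def Est {V : Type} [Fintype V] (G : SimpleGraph V) (C : Finset V) :
    Finset (V × V) :=
  univ.filter (fun e => e.1 ∉ C ∧ e.2 ∉ C ∧ G.Adj e.1 e.2 ∧ ∃ c ∈ C, G.Adj e.2 c)

section

variable {V : Type} [Fintype V] [DecidableEq V] {G : SimpleGraph V} {C : Finset V} {N K : ℕ}

omit [DecidableEq V] in
theorem mem_Est {x y : V} : (x, y) ∈ Est G C ↔
    x ∉ C ∧ y ∉ C ∧ G.Adj x y ∧ ∃ c ∈ C, G.Adj y c := by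
  classical
  unfold Est
  rw [Finset.mem_filter]
  simp

/-- a first coordinate of an attached edge has only one neighbour outside the core -/
theorem Est_uniq (hN : 3 ≤ N) (hS : Short G (N + 1)) (hC : C.card = N) (hcore : IsCore G K C)
    (hK : 2 * N + 12 ≤ K) {x y z : V} (h : (x, y) ∈ Est G C) (hz : z ∉ C) (hzx : G.Adj z x) :
    z = y := by
  obtain ⟨h1, h2, h3, c, hc, h4⟩ := mem_Est.mp h
  by_contra hne
  exact core_Fa hN hS C hC hcore hK hz h1 h2 hc hne hzx h3 h4

omit [DecidableEq V] in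
theorem GI.mem_Est_ab {k : ℕ} {σ τ : Fin N → V} {a b : V}
    (h : GI G (fun v => v ∈ C) N k σ τ a b) (hk : k < N) : (a, b) ∈ Est G C :=
  mem_Est.mpr ⟨h.ha, h.hb, h.adjab, σ ⟨k, hk⟩, h.hσ _, h.adjb _ rfl⟩

omit [DecidableEq V] in
theorem GI.mem_Est_ba {k : ℕ} {σ τ : Fin N → V} {a b : V}
    (h : GI G (fun v => v ∈ C) N k σ τ a b) (hk : 1 ≤ k) : (b, a) ∈ Est G C :=
  mem_Est.mpr ⟨h.hb, h.ha, h.adjab.symm, σ ⟨k - 1, by have := h.kN; omega⟩, h.hσ _,
    h.adja _ (by simp only; omega)⟩

omit [Fintype V] in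
/-- the lows of a path with `k = 0` are not first coordinates of attached edges -/
theorem GI.tau_notin (hN : 3 ≤ N) (hS : Short G (N + 1)) (hC : C.card = N)
    (hcore : IsCore G K C) (hK : 2 * N + 12 ≤ K) {σ τ : Fin N → V} {a b : V}
    (h : GI G (fun v => v ∈ C) N 0 σ τ a b) (i : Fin N) (y : V) (hy : y ∉ C)
    (hadj : G.Adj (τ i) y) : False := by
  have hb0 : G.Adj b (σ ⟨0, by omega⟩) := h.adjb _ rfl
  obtain ⟨j, hj0, hj⟩ : ∃ j : Fin N, (j : ℕ) ≠ 0 ∧ G.Adj (τ i) (σ j) := by
    by_cases hi : (i : ℕ) = 0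
    · exact ⟨⟨1, by omega⟩, by simp, h.adj2 i _ (by simp [hi]) (by omega)⟩
    · exact ⟨i, hi, h.adj i⟩
  have hne : σ ⟨0, by omega⟩ ≠ σ j := by
    intro he
    have := h.σinj he
    exact hj0 (by rw [← this])
  by_cases h1 : y = b
  · subst h1
    exact core_Fa hN hS C hC hcore hK h.ha h.hb (h.hτ i) (h.hσ j) (h.τa i).symm h.adjab
      hadj.symm hj
  by_cases h2 : y = a
  · subst h2
    exact core_Fa hN hS C hC hcore hK (h.hτ i) h.ha h.hb (h.hσ _) (h.τb i) hadj h.adjab hb0
  exact core_Fb hN hS C hC hcore hK h.ha h.hb hy (h.hτ i) (h.hσ _) (h.hσ j) hne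
    ⟨fun he => h2 he.symm, (h.τa i).symm, fun he => h1 he.symm, (h.τb i).symm⟩
    h.adjab hb0 hadj.symm hj


theorem Est_fst_inj (hN : 3 ≤ N) (hS : Short G (N + 1)) (hC : C.card = N)
    (hcore : IsCore G K C) (hK : 2 * N + 12 ≤ K) :
    Set.InjOn Prod.fst (Est G C : Set (V × V)) := by
  rintro ⟨x, y⟩ h ⟨x', y'⟩ h' he
  simp only at he
  subst he
  rw [Finset.mem_coe] at h h'
  obtain ⟨-, h2, h3, -⟩ := mem_Est.mp h'
  rw [Est_uniq hN hS hC hcore hK h h2 h3.symm]

open Classical in
/-- counting the paths with `k = 0` -/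
theorem card_zero_le (hN : 3 ≤ N) (P : Finset (Fin N → V)) (W : Finset V)
    (hP : ∀ σ τ a b, GI G (fun v => v ∈ C) N 0 σ τ a b → σ ∈ P)
    (hW : ∀ σ τ a b, GI G (fun v => v ∈ C) N 0 σ τ a b → ∀ i, τ i ∈ W) :
    (univ.filter (fun q : Fin (N + 1) → V × V => ∃ σ τ a b,
      GI G (fun v => v ∈ C) N 0 σ τ a b ∧ q = mkI 0 σ τ a b)).card ≤
    P.card * ((Est G C).card * W.card.descFactorial N) := by
  have hsub : (univ.filter (fun q : Fin (N + 1) → V × V => ∃ σ τ a b,
      GI G (fun v => v ∈ C) N 0 σ τ a b ∧ q = mkI 0 σ τ a b)) ⊆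
      (P ×ˢ (Est G C ×ˢ allT N W)).image (fun t => mkI 0 t.1 t.2.2 t.2.1.1 t.2.1.2) := by
    intro q hq
    rw [Finset.mem_filter] at hq
    obtain ⟨-, σ, τ, a, b, h, rfl⟩ := hq
    rw [Finset.mem_image]
    refine ⟨(σ, ((a, b), τ)), ?_, rfl⟩
    rw [Finset.mem_product, Finset.mem_product]
    exact ⟨hP _ _ _ _ h, h.mem_Est_ab (by omega), mem_allT.mpr ⟨h.τinj, hW _ _ _ _ h⟩⟩
  refine (Finset.card_le_card hsub).trans (Finset.card_image_le.trans ?_)
  rw [Finset.card_product, Finset.card_product, card_allT_desc]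

open Classical in
theorem card_MP_le (hMP : ∀ q : Fin (N + 1) → V × V, IsMP G (N + 1) q → ∃ σ τ a b,
      GI G (fun v => v ∈ C) N 0 σ τ a b ∧ (q = mkI 0 σ τ a b ∨ rev q = mkI 0 σ τ a b)) :
    (univ.filter (fun q : Fin (N + 1) → V × V => IsMP G (N + 1) q)).card ≤
    2 * (univ.filter (fun q : Fin (N + 1) → V × V => ∃ σ τ a b,
      GI G (fun v => v ∈ C) N 0 σ τ a b ∧ q = mkI 0 σ τ a b)).card := by
  set A := univ.filter (fun q : Fin (N + 1) → V × V => ∃ σ τ a b,
      GI G (fun v => v ∈ C) N 0 σ τ a b ∧ q = mkI 0 σ τ a b) with hA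
  have hsub : (univ.filter (fun q : Fin (N + 1) → V × V => IsMP G (N + 1) q)) ⊆
      A ∪ A.image rev := by
    intro q hq
    rw [Finset.mem_filter] at hq
    obtain ⟨σ, τ, a, b, h, h'⟩ := hMP q hq.2
    rw [Finset.mem_union]
    rcases h' with h' | h'
    · left
      rw [hA, Finset.mem_filter]
      exact ⟨mem_univ _, σ, τ, a, b, h, h'⟩
    · right
      rw [Finset.mem_image]
      refine ⟨rev q, ?_, rev_rev q⟩
      rw [hA, Finset.mem_filter]
      exact ⟨mem_univ _, σ, τ, a, b, h, h'⟩
  refine (Finset.card_le_card hsub).trans ((Finset.card_union_le _ _).trans ?_)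
  have := Finset.card_image_le (s := A) (f := rev)
  omega

/-- reduction to `k = 0` when inner `k` do not occur -/
theorem to_zero {k : ℕ} {σ τ : Fin N → V} {a b : V} (h : GI G (fun v => v ∈ C) N k σ τ a b)
    (hk : k = 0 ∨ k = N) : ∃ σ' τ' a' b', GI G (fun v => v ∈ C) N 0 σ' τ' a' b' ∧
      (mkI k σ τ a b = mkI 0 σ' τ' a' b' ∨ rev (mkI k σ τ a b) = mkI 0 σ' τ' a' b') := by
  rcases hk with rfl | rfl
  · exact ⟨σ, τ, a, b, h, Or.inl rfl⟩
  · have h' := h.reverse
    rw [Nat.sub_self] at h'
    refine ⟨_, _, _, _, h', Or.inr ?_⟩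
    have := mkI_rev (le_refl k) σ τ a b
    rw [Nat.sub_self] at this
    exact this.symm

end

open Classical in
/-- exact bound in the component of a core -/
theorem core_count (N : ℕ) (hN : 3 ≤ N) : ∃ K₀ : ℕ, ∀ K, K₀ ≤ K → ∀ (V : Type) [Fintype V]
    (G : SimpleGraph V), Short G (N + 1) → ∀ C : Finset V, C.card = N → IsCore G K C →
    (∀ v, ∃ c ∈ C, G.Reachable c v) →
    (univ.filter (fun q : Fin (N + 1) → V × V => IsMP G (N + 1) q)).card ≤
      2 * Fn (N + 1) (Fintype.card V) := by
  obtain ⟨n₀, hn₀⟩ := Fn_asymp (N + 1) (by omega) (1 / (2 * ((N + 1 : ℕ) : ℝ) ^ (N + 1))) (by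
    have h1 : (0 : ℝ) < ((N + 1 : ℕ) : ℝ) ^ (N + 1) := by positivity
    have h2 : 1 / (2 * ((N + 1 : ℕ) : ℝ) ^ (N + 1)) * ((N + 1 : ℕ) : ℝ) ^ (N + 1) = 1 / 2 := by
      field_simp
    rw [h2]
    have h3 : (1 : ℝ) ≤ ((N + 1 - 1)! : ℕ) := by
      exact_mod_cast Nat.factorial_pos _
    have h4 : (1 : ℝ) ≤ (((N + 1 : ℕ) : ℝ) - 1) ^ (N + 1 - 1) := by
      apply one_le_pow₀
      push_cast
      have : (3 : ℝ) ≤ N := by exact_mod_cast hN
      linarith
    nlinarith)
  obtain ⟨n₁, hn₁⟩ := exists_nat_ge (((N + 1)! : ℕ) * (2 * ((N + 1 : ℕ) : ℝ) ^ (N + 1)))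
  refine ⟨2 * N + 12 + n₀ + n₁, ?_⟩
  intro K hK V _ G hS C hC hcore hconn
  have hK' : 2 * N + 12 ≤ K := by omega
  set n := Fintype.card V with hn
  have hnK : K < n := by
    by_contra hlt
    obtain ⟨z, hz, -⟩ := hcore univ (by rw [Finset.card_univ]; omega)
    exact hz (mem_univ z)
  have hstruct := core_struct hN hS C hC hcore hK' hconn
  set E := Est G C with hE
  set m := E.card with hm
  set X := E.image Prod.fst with hX
  have hXcard : X.card = m := Finset.card_image_of_injOn (Est_fst_inj hN hS hC hcore hK')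
  have hXC : X ⊆ Cᶜ := by
    intro x hx
    rw [hX, Finset.mem_image] at hx
    obtain ⟨⟨x', y⟩, h1, rfl⟩ := hx
    rw [Finset.mem_compl]
    exact (mem_Est.mp h1).1
  have hCc : Cᶜ.card = n - N := by rw [Finset.card_compl, hC]
  have hτX : ∀ σ τ a b, GI G (fun v => v ∈ C) N 0 σ τ a b → ∀ i, τ i ∉ X := by
    intro σ τ a b h i hi
    rw [hX, Finset.mem_image] at hi
    obtain ⟨⟨x', y⟩, h1, h2⟩ := hi
    simp only at h2
    subst h2
    obtain ⟨-, h3, h4, -⟩ := mem_Est.mp h1
    exact h.tau_notin hN hS hC hcore hK' i y h3 h4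
  -- two attached edges with different second coordinates are disjoint or reverse to each other
  have hdis : ∀ x y x' y', (x, y) ∈ E → (x', y') ∈ E → y ≠ y' → ¬ (x' = y ∧ y' = x) →
      x ≠ x' ∧ x ≠ y' ∧ y ≠ x' ∧ y ≠ y' := by
    intro x y x' y' h h' hne hrev
    obtain ⟨h1, h2, h3, -⟩ := mem_Est.mp h
    obtain ⟨h1', h2', h3', -⟩ := mem_Est.mp h'
    refine ⟨?_, ?_, ?_, hne⟩
    · rintro rfl
      exact hne (Est_uniq hN hS hC hcore hK' h h2' h3'.symm).symm
    · rintro rfl
      exact hrev ⟨Est_uniq hN hS hC hcore hK' h h1' h3', rfl⟩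
    · rintro rfl
      exact hrev ⟨rfl, (Est_uniq hN hS hC hcore hK' h' h1 h3).symm⟩
  have hnN : N < n := by omega
  by_cases hSS : ∃ y₀, ∀ e ∈ E, e.2 = y₀
  · -- single centre
    obtain ⟨y₀, hy₀⟩ := hSS
    have hMP : ∀ q : Fin (N + 1) → V × V, IsMP G (N + 1) q → ∃ σ τ a b,
        GI G (fun v => v ∈ C) N 0 σ τ a b ∧ (q = mkI 0 σ τ a b ∨ rev q = mkI 0 σ τ a b) := by
      intro q hq
      obtain ⟨k, σ, τ, a, b, h, rfl⟩ := hstruct q hq
      refine to_zero h ?_
      by_contra hk
      push Not at hk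
      have hkN := h.kN
      have h1 := hy₀ _ (h.mem_Est_ab (by omega))
      have h2 := hy₀ _ (h.mem_Est_ba (by omega))
      simp only at h1 h2
      exact h.adjab.ne (h2.trans h1.symm)
    refine (card_MP_le hMP).trans (Nat.mul_le_mul_left 2 ?_)
    refine (card_zero_le hN (allT N C) ((Cᶜ \ X) \ {y₀})
      (fun σ τ a b h => mem_allT.mpr ⟨h.σinj, h.hσ⟩) ?_).trans ?_
    · intro σ τ a b h i
      rw [Finset.mem_sdiff, Finset.mem_sdiff, Finset.mem_compl, Finset.mem_singleton]
      refine ⟨⟨h.hτ i, hτX σ τ a b h i⟩, ?_⟩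
      have h1 := hy₀ _ (h.mem_Est_ab (by omega))
      simp only at h1
      rw [← h1]
      exact h.τb i
    · rw [card_allT_desc, hC, Nat.descFactorial_self]
      rcases E.eq_empty_or_nonempty with h0 | ⟨⟨x, y⟩, hxy⟩
      · have : (Est G C).card = 0 := by rw [← hE, h0]; rfl
        rw [this]
        simp
      · obtain ⟨h1, h2, h3, -⟩ := mem_Est.mp hxy
        have hy : y = y₀ := hy₀ _ hxy
        subst hy
        have hyX : y ∉ X := by
          intro hyX
          rw [hX, Finset.mem_image] at hyX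
          obtain ⟨⟨x', y'⟩, h4, h5⟩ := hyX
          simp only at h5
          have h6 : y' = y := hy₀ _ h4
          obtain ⟨-, -, h7, -⟩ := mem_Est.mp h4
          rw [h5, h6] at h7
          exact h7.ne rfl
        have hWc : ((Cᶜ \ X) \ {y}).card = n - N - m - 1 := by
          rw [Finset.card_sdiff_of_subset, Finset.card_sdiff_of_subset hXC, hCc, hXcard,
            Finset.card_singleton]
          rw [Finset.singleton_subset_iff, Finset.mem_sdiff, Finset.mem_compl]
          exact ⟨h2, hyX⟩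
        have hle : m + 1 ≤ n - N := by
          have h4 : insert y X ⊆ Cᶜ := by
            rw [Finset.insert_subset_iff, Finset.mem_compl]
            exact ⟨h2, hXC⟩
          have h5 := Finset.card_le_card h4
          rw [Finset.card_insert_of_notMem hyX, hXcard, hCc] at h5
          exact h5
        have h6 := Fn_ge (N + 1) n m (by omega)
        rw [hWc]
        have h7 : n - (N + 1) - m = n - N - m - 1 := by omega
        rw [h7, Nat.add_sub_cancel] at h6
        exact h6
  · by_cases hEE : ∃ x y, E = {(x, y), (y, x)}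
    · obtain ⟨x, y, hxy⟩ := hEE
      have hsub : (univ.filter (fun q : Fin (N + 1) → V × V => IsMP G (N + 1) q)) ⊆
          ((univ : Finset (Fin (N + 1))) ×ˢ (allT N C ×ˢ (allT N Cᶜ ×ˢ E))).image
            (fun t => mkI t.1 t.2.1 t.2.2.1 t.2.2.2.1 t.2.2.2.2) := by
        intro q hq
        rw [Finset.mem_filter] at hq
        obtain ⟨k, σ, τ, a, b, h, rfl⟩ := hstruct q hq.2
        rw [Finset.mem_image]
        have hkN := h.kN
        refine ⟨(⟨k, by omega⟩, (σ, (τ, (a, b)))), ?_, rfl⟩
        rw [Finset.mem_product, Finset.mem_product, Finset.mem_product]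
        refine ⟨mem_univ _, mem_allT.mpr ⟨h.σinj, h.hσ⟩, mem_allT.mpr ⟨h.τinj, ?_⟩, ?_⟩
        · intro i
          rw [Finset.mem_compl]
          exact h.hτ i
        · rcases Nat.lt_or_ge k N with hk | hk
          · exact h.mem_Est_ab hk
          · have h1 : (b, a) ∈ E := h.mem_Est_ba (by omega)
            rw [hxy] at h1 ⊢
            simp only [Finset.mem_insert, Finset.mem_singleton, Prod.mk.injEq] at h1 ⊢
            tauto
      refine (Finset.card_le_card hsub).trans (Finset.card_image_le.trans ?_)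
      rw [Finset.card_product, Finset.card_product, Finset.card_product, card_allT_desc,
        card_allT_desc, hC, Nat.descFactorial_self, hCc, Finset.card_univ, Fintype.card_fin]
      have h1 : E.card ≤ 2 := by rw [hxy]; exact Finset.card_le_two
      have h2 : (n - N).descFactorial N ≤ n ^ N :=
        (Nat.descFactorial_le_pow _ _).trans (Nat.pow_le_pow_left (Nat.sub_le _ _) _)
      have h3 : (N + 1)! * n ^ N ≤ Fn (N + 1) n := by
        have h4 := hn₀ n (by omega)
        have h5 : (((N + 1)! * n ^ N : ℕ) : ℝ) ≤ Fn (N + 1) n := by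
          refine le_trans ?_ h4
          push_cast
          have h6 : ((n₁ : ℕ) : ℝ) ≤ n := by
            have : n₁ ≤ n := by omega
            exact_mod_cast this
          have h7 := hn₁.trans h6
          push_cast at h7
          rw [div_mul_eq_mul_div, one_mul, le_div_iff₀ (by positivity)]
          calc ((N + 1)! : ℝ) * (n : ℝ) ^ N * (2 * ((N : ℝ) + 1) ^ (N + 1))
              = (((N + 1)! : ℝ) * (2 * ((N : ℝ) + 1) ^ (N + 1))) * (n : ℝ) ^ N := by ring
            _ ≤ (n : ℝ) * (n : ℝ) ^ N := by gcongr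
            _ = (n : ℝ) ^ (N + 1) := by ring
        exact_mod_cast h5
      calc (N + 1) * (N ! * ((n - N).descFactorial N * E.card))
          ≤ (N + 1) * (N ! * (n ^ N * 2)) := by gcongr
        _ = 2 * ((N + 1)! * n ^ N) := by rw [Nat.factorial_succ]; ring
        _ ≤ _ := Nat.mul_le_mul_left 2 h3
    · -- several centres
      push Not at hSS
      obtain ⟨x, y, x', y', he, he', hd⟩ : ∃ x y x' y', (x, y) ∈ E ∧ (x', y') ∈ E ∧
          (x ≠ x' ∧ x ≠ y' ∧ y ≠ x' ∧ y ≠ y') := by
        have hV : Nonempty V := Fintype.card_pos_iff.mp (by omega)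
        obtain ⟨⟨x, y⟩, h1, -⟩ := hSS (Classical.arbitrary V)
        obtain ⟨⟨x', y'⟩, h2, h3⟩ := hSS y
        simp only at h3
        by_cases hr : x' = y ∧ y' = x
        · obtain ⟨rfl, rfl⟩ := hr
          obtain ⟨e, he, hne1, hne2⟩ : ∃ e ∈ E, e ≠ (y', x') ∧ e ≠ (x', y') := by
            by_contra hcon
            push Not at hcon
            apply hEE
            refine ⟨y', x', ?_⟩
            ext e
            rw [Finset.mem_insert, Finset.mem_singleton]
            constructor
            · intro he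
              by_cases h4 : e = (y', x')
              · exact Or.inl h4
              · exact Or.inr (hcon e he h4)
            · rintro (rfl | rfl)
              · exact h1
              · exact h2
          obtain ⟨u, v⟩ := e
          by_cases hv : v = x'
          · subst hv
            refine ⟨v, y', u, v, h2, he, hdis _ _ _ _ h2 he h3 ?_⟩
            rintro ⟨h5, -⟩
            exact hne1 (by rw [h5])
          · refine ⟨y', x', u, v, h1, he, hdis _ _ _ _ h1 he (fun h5 => hv h5.symm) ?_⟩
            rintro ⟨h5, h6⟩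
            exact hne2 (by rw [h5, h6])
        · exact ⟨x, y, x', y', h1, h2, hdis _ _ _ _ h1 h2 (fun h5 => h3 h5.symm) hr⟩
      obtain ⟨h1, h2, h3, c₀, hc₀, h4⟩ := mem_Est.mp he
      obtain ⟨h1', h2', h3', c₁, hc₁, h4'⟩ := mem_Est.mp he'
      have hc01 : c₀ = c₁ := by
        by_contra hne
        exact core_Fb hN hS C hC hcore hK' h1 h2 h1' h2' hc₀ hc₁ hne hd h3 h4 h3' h4'
      subst hc01
      have hall : ∀ u v c, (u, v) ∈ E → c ∈ C → G.Adj v c → c = c₀ := by
        intro u v c huv hc hvc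
        obtain ⟨g1, g2, g3, -⟩ := mem_Est.mp huv
        by_contra hne
        have hA : v = y ∨ (u = y ∧ v = x) := by
          by_contra hcon
          push Not at hcon
          have hd' := hdis _ _ _ _ he huv (fun h => hcon.1 h.symm)
            (fun h => hcon.2 h.1 h.2)
          exact core_Fb hN hS C hC hcore hK' h1 h2 g1 g2 hc₀ hc (Ne.symm hne) hd' h3 h4 g3 hvc
        have hB : v = y' ∨ (u = y' ∧ v = x') := by
          by_contra hcon
          push Not at hcon
          have hd' := hdis _ _ _ _ he' huv (fun h => hcon.1 h.symm)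
            (fun h => hcon.2 h.1 h.2)
          exact core_Fb hN hS C hC hcore hK' h1' h2' g1 g2 hc₁ hc (Ne.symm hne) hd' h3' h4' g3 hvc
        obtain ⟨d1, d2, d3, d4⟩ := hd
        rcases hA with hA | ⟨hA, hA'⟩ <;> rcases hB with hB | ⟨hB, hB'⟩
        · exact d4 (hA.symm.trans hB)
        · exact d3 (hA.symm.trans hB')
        · exact d2 (hA'.symm.trans hB)
        · exact d4 (hA.symm.trans hB)
      have hMP : ∀ q : Fin (N + 1) → V × V, IsMP G (N + 1) q → ∃ σ τ a b,
          GI G (fun v => v ∈ C) N 0 σ τ a b ∧ (q = mkI 0 σ τ a b ∨ rev q = mkI 0 σ τ a b) := by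
        intro q hq
        obtain ⟨k, σ, τ, a, b, h, rfl⟩ := hstruct q hq
        refine to_zero h ?_
        by_contra hk
        push Not at hk
        have hkN := h.kN
        have e1 := hall _ _ (σ ⟨k, by omega⟩) (h.mem_Est_ab (by omega)) (h.hσ _) (h.adjb _ rfl)
        have e2 := hall _ _ (σ ⟨k - 1, by omega⟩) (h.mem_Est_ba (by omega)) (h.hσ _)
          (h.adja _ (by simp only; omega))
        have e3 := h.σinj (e1.trans e2.symm)
        rw [Fin.mk.injEq] at e3
        omega
      refine (card_MP_le hMP).trans (Nat.mul_le_mul_left 2 ?_)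
      refine (card_zero_le hN ((allT N C).filter (fun σ => σ ⟨0, by omega⟩ = c₀)) (Cᶜ \ X)
        ?_ ?_).trans ?_
      · intro σ τ a b h
        rw [Finset.mem_filter]
        refine ⟨mem_allT.mpr ⟨h.σinj, h.hσ⟩, ?_⟩
        exact hall _ _ _ (h.mem_Est_ab (by omega)) (h.hσ _) (h.adjb _ rfl)
      · intro σ τ a b h i
        rw [Finset.mem_sdiff, Finset.mem_compl]
        exact ⟨h.hτ i, hτX σ τ a b h i⟩
      · have hP : ((allT N C).filter (fun σ => σ ⟨0, by omega⟩ = c₀)).card ≤ (N - 1)! := by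
          have := card_presc C hC {(⟨0, by omega⟩ : Fin N)} (fun _ => c₀)
            ((allT N C).filter (fun σ => σ ⟨0, by omega⟩ = c₀)) (by
              intro σ hσ
              rw [Finset.mem_filter, mem_allT] at hσ
              refine ⟨hσ.1.1, hσ.1.2, ?_⟩
              intro i hi
              rw [Finset.mem_singleton] at hi
              rw [hi]
              exact hσ.2)
          rw [Finset.card_singleton] at this
          exact this
        have hWc : (Cᶜ \ X).card = n - N - m := by
          rw [Finset.card_sdiff_of_subset hXC, hCc, hXcard]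
        have hmle : m ≤ n - N := by
          rw [← hXcard, ← hCc]
          exact Finset.card_le_card hXC
        have hm2 : 2 ≤ m := by
          have h5 : ({(x, y), (x', y')} : Finset (V × V)) ⊆ E := by
            rw [Finset.insert_subset_iff, Finset.singleton_subset_iff]
            exact ⟨he, he'⟩
          have h6 := Finset.card_le_card h5
          rw [Finset.card_pair (by
            intro h7
            rw [Prod.mk.injEq] at h7
            exact hd.1 h7.1)] at h6
          exact h6
        have h6 := Fn_multi (N + 1) (by omega) n m hm2 (by omega)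
        have h7 : n - (N + 1) + 1 - m = n - N - m := by omega
        have h8 : N + 1 - 2 = N - 1 := by omega
        rw [h7, Nat.add_sub_cancel, h8] at h6
        rw [hWc]
        refine le_trans ?_ h6
        calc _ ≤ (N - 1)! * (m * (n - N - m).descFactorial N) := Nat.mul_le_mul_right _ hP
          _ = _ := by ring

end P490135

end

section

/-!
# MP_490135_co: decomposition of the set of long paths (helper81)
-/

namespace P490135

open SimpleGraph Finset Nat

section

variable {V : Type*} [Fintype V] (G : SimpleGraph V) (K s N : ℕ)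

open scoped Classical in
/-- all directed paths on `2(N+1)` vertices -/
noncomputable def MPs : Finset (Fin (N + 1) → V × V) := univ.filter (fun q => IsMP G (N + 1) q)

open scoped Classical in
/-- the high vertices -/
noncomputable def HiSet : Finset V := univ.filter (fun v => Hi G s v)

open scoped Classical in
/-- ordered adjacent pairs -/
noncomputable def dartS : Finset (V × V) := univ.filter (fun e => G.Adj e.1 e.2)

open scoped Classical in
/-- low vertices which are not good -/
noncomputable def BadSet : Finset V := univ.filter (fun u => ¬ Hi G s u ∧ ¬ Good' G K s N u)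

open scoped Classical in
/-- good low vertices -/
noncomputable def GoodSet : Finset V := univ.filter (fun u => Good' G K s N u)

open scoped Classical in
/-- paths with a low-low even edge -/
noncomputable def negA : Finset (Fin (N + 1) → V × V) := (MPs G N).filter (fun q =>
  ∃ i j : Fin (N + 1), (j : ℕ) = i + 1 ∧ ¬ Hi G s (q i).2 ∧ ¬ Hi G s (q j).1)

open scoped Classical in
/-- paths with a high-high matched pair -/
noncomputable def negB : Finset (Fin (N + 1) → V × V) := (MPs G N).filter (fun q =>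
  ∃ i : Fin (N + 1), Hi G s (q i).1 ∧ Hi G s (q i).2)

open scoped Classical in
/-- data of type II paths -/
noncomputable def IIs : Finset (ℕ × (Fin (N + 1) → V) × (Fin (N + 1) → V)) :=
  ((range (N + 1)) ×ˢ univ).filter (fun x => GII G (Hi G s) (N + 1) x.1 x.2.1 x.2.2)

open scoped Classical in
/-- data of type I paths -/
noncomputable def I5 : Finset (ℕ × (Fin N → V) × (Fin N → V) × V × V) :=
  ((range (N + 1)) ×ˢ univ).filter
    (fun x => GI G (Hi G s) N x.1 x.2.1 x.2.2.1 x.2.2.2.1 x.2.2.2.2)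

open scoped Classical in
/-- reduced data of type I paths -/
noncomputable def I4 : Finset (ℕ × (Fin N → V) × (Fin N → V) × V) :=
  ((range N) ×ˢ univ).filter
    (fun x => ∃ b, GI G (Hi G s) N x.1 x.2.1 x.2.2.1 x.2.2.2 b ∧
      ∀ b', GI G (Hi G s) N x.1 x.2.1 x.2.2.1 x.2.2.2 b' → b' = b)

end

section

variable {V : Type*} [Fintype V] {G : SimpleGraph V} {K s N : ℕ}

theorem exists_mkII (hS : Short G (N + 1)) (hPen : ∀ v, Hi G s v → Pen G K v)
    (hK : 2 * N + 12 ≤ K) {q : Fin (N + 1) → V × V} (hq : IsMP G (N + 1) q) {p : ℕ}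
    (h1 : ∀ i : Fin (N + 1), (i : ℕ) < p → ¬ Hi G s (q i).1 ∧ Hi G s (q i).2)
    (h2 : ∀ i : Fin (N + 1), p ≤ (i : ℕ) → Hi G s (q i).1 ∧ ¬ Hi G s (q i).2) :
    ∃ σ τ, p < N + 1 ∧ GII G (Hi G s) (N + 1) p σ τ ∧ q = mkII p σ τ := by
  classical
  -- the path cannot end in a high vertex
  have hp1 : 1 ≤ p := by
    by_contra h0
    have h3 := (h2 ⟨0, by omega⟩ (by simp only; omega)).1
    obtain ⟨z, hz, hz1⟩ := hPen _ h3 (toL q).toFinset (by
      have := length_toFinset_le (toL q)
      rw [length_toL] at this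
      omega)
    rw [List.mem_toFinset] at hz
    exact hz (mem_toL.mpr (hS.first hq rfl hz1))
  have hp2 : p < N + 1 := by
    by_contra h0
    have h3 := (h1 ⟨N, by omega⟩ (by simp only; omega)).2
    obtain ⟨z, hz, hz1⟩ := hPen _ h3 (toL q).toFinset (by
      have := length_toFinset_le (toL q)
      rw [length_toL] at this
      omega)
    rw [List.mem_toFinset] at hz
    exact hz (mem_toL.mpr (hS.last hq rfl hz1))
  have hq' : q = mkII p (fun i => if (i : ℕ) < p then (q i).2 else (q i).1)
      (fun i => if (i : ℕ) < p then (q i).1 else (q i).2) := by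
    funext i
    by_cases h : (i : ℕ) < p
    · simp [mkII, h]
    · simp [mkII, h]
  refine ⟨_, _, hp2, ⟨hp1, hp2, ?_, ?_, hq' ▸ hq⟩, hq'⟩
  · intro i
    split_ifs with h
    · exact (h1 i h).2
    · exact (h2 i (by omega)).1
  · intro i
    split_ifs with h
    · exact (h1 i h).1
    · exact (h2 i (by omega)).2

omit [Fintype V] in
theorem exists_mkI {P : V → Prop} {q : Fin (N + 1) → V × V} (hq : IsMP G (N + 1) q)
    {k : Fin (N + 1)}
    (h1 : ∀ i : Fin (N + 1), (i : ℕ) < k → ¬ P (q i).1 ∧ P (q i).2)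
    (h0 : ¬ P (q k).1 ∧ ¬ P (q k).2)
    (h2 : ∀ i : Fin (N + 1), (k : ℕ) < (i : ℕ) → P (q i).1 ∧ ¬ P (q i).2) :
    ∃ σ τ a b, GI G P N k σ τ a b ∧ q = mkI k σ τ a b := by
  classical
  have hk := k.isLt
  have hq' : q = mkI k (fun i : Fin N => if (i : ℕ) < k then (q i.castSucc).2 else (q i.succ).1)
      (fun i : Fin N => if (i : ℕ) < k then (q i.castSucc).1 else (q i.succ).2)
      (q k).1 (q k).2 := by
    funext i
    unfold mkI
    by_cases h3 : (i : ℕ) < k ∧ (i : ℕ) < N
    · rw [dif_pos h3]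
      have h4 : (⟨(i : ℕ), h3.2⟩ : Fin N).castSucc = i := by
        ext
        rfl
      simp only [h3.1, if_true, h4]
    · rw [dif_neg h3]
      by_cases h4 : (i : ℕ) ≤ k
      · rw [dif_pos h4]
        have : i = k := Fin.ext (by omega)
        rw [this]
      · rw [dif_neg h4]
        have h6 : (⟨(i : ℕ) - 1, by omega⟩ : Fin N).succ = i := by
          ext
          simp only [Fin.val_succ]
          omega
        have h7 : ¬ ((i : ℕ) - 1 < k) := by omega
        simp only [h7, if_false, h6]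
  refine ⟨_, _, _, _, ⟨by omega, ?_, ?_, h0.1, h0.2, hq' ▸ hq⟩, hq'⟩
  · intro i
    split_ifs with h
    · exact (h1 i.castSucc (by simpa using h)).2
    · exact (h2 i.succ (by simp only [Fin.val_succ]; omega)).1
  · intro i
    split_ifs with h
    · exact (h1 i.castSucc (by simpa using h)).1
    · exact (h2 i.succ (by simp only [Fin.val_succ]; omega)).2

theorem D1 (hS : Short G (N + 1)) (hPen : ∀ v, Hi G s v → Pen G K v) (hK : 2 * N + 12 ≤ K) :
    (MPs G N).card ≤ (negA G s N).card + (negB G s N).card + (IIs G s N).card +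
      (I5 G s N).card := by
  classical
  have hsub : MPs G N ⊆ ((negA G s N ∪ negB G s N) ∪
      ((IIs G s N).image (fun x => mkII x.1 x.2.1 x.2.2))) ∪
      ((I5 G s N).image (fun x => mkI x.1 x.2.1 x.2.2.1 x.2.2.2.1 x.2.2.2.2)) := by
    intro q hq
    have hq' : IsMP G (N + 1) q := by simpa [MPs] using hq
    simp only [mem_union]
    by_cases hA : q ∈ negA G s N
    · exact Or.inl (Or.inl (Or.inl hA))
    by_cases hB : q ∈ negB G s N
    · exact Or.inl (Or.inl (Or.inr hB))
    simp only [negA, mem_filter, hq, true_and, not_exists, not_and, not_not] at hA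
    simp only [negB, mem_filter, hq, true_and, not_exists] at hB
    rcases classify (Hi G s) q (fun i hi => hB i hi) (fun i j hij => by
      by_contra hcon
      push Not at hcon
      exact hcon.2 (hA i j hij hcon.1)) with ⟨p, hp, h1, h2⟩ | ⟨k, h1, h0, h2⟩
    · obtain ⟨σ, τ, hp2, hG, he⟩ := exists_mkII hS hPen hK hq' h1 h2
      refine Or.inl (Or.inr ?_)
      rw [mem_image]
      refine ⟨(p, σ, τ), ?_, he.symm⟩
      simp only [IIs, mem_filter, mem_product, mem_range, mem_univ, and_true]
      exact ⟨hp2, hG⟩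
    · obtain ⟨σ, τ, a, b, hG, he⟩ := exists_mkI hq' h1 h0 h2
      refine Or.inr ?_
      rw [mem_image]
      refine ⟨(k, σ, τ, a, b), ?_, he.symm⟩
      simp only [I5, mem_filter, mem_product, mem_range, mem_univ, and_true]
      exact ⟨k.isLt, hG⟩
  calc (MPs G N).card ≤ _ := Finset.card_le_card hsub
    _ ≤ _ := card_union_le _ _
    _ ≤ _ := Nat.add_le_add ((card_union_le _ _).trans
        (Nat.add_le_add (card_union_le _ _) card_image_le)) card_image_le

theorem D2 (hN : 0 < N) (hS : Short G (N + 1)) : (I5 G s N).card ≤ 2 * (I4 G s N).card := by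
  classical
  set U : ℕ × (Fin N → V) × (Fin N → V) × V × V → Prop := fun x =>
    x.1 < N ∧ ∀ b', GI G (Hi G s) N x.1 x.2.1 x.2.2.1 x.2.2.2.1 b' → b' = x.2.2.2.2 with hU
  have h1 : ((I5 G s N).filter U).card ≤ (I4 G s N).card := by
    apply Finset.card_le_card_of_injOn (fun x => (x.1, x.2.1, x.2.2.1, x.2.2.2.1))
    · rintro ⟨k, σ, τ, a, b⟩ hx
      rw [mem_coe, mem_filter] at hx
      obtain ⟨hx, hx1, hx2⟩ := hx
      simp only [I5, mem_filter, mem_product, mem_range, mem_univ, and_true] at hx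
      simp only at hx1 hx2
      simp only [I4, coe_filter, mem_product, mem_range, mem_univ, and_true]
      exact ⟨hx1, b, hx.2, hx2⟩
    · rintro ⟨k, σ, τ, a, b⟩ hx ⟨k', σ', τ', a', b'⟩ hy hxy
      simp only [Prod.mk.injEq] at hxy
      obtain ⟨rfl, rfl, rfl, rfl⟩ := hxy
      rw [mem_coe, mem_filter] at hx hy
      simp only [I5, mem_filter, mem_product, mem_range, mem_univ, and_true] at hx hy
      have := hy.2.2 b hx.1.2
      simp only at this
      rw [this]
  have h2 : ((I5 G s N).filter (fun x => ¬ U x)).card ≤ ((I5 G s N).filter U).card := by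
    apply Finset.card_le_card_of_injOn
      (fun x => (N - x.1, x.2.1 ∘ Fin.rev, x.2.2.1 ∘ Fin.rev, x.2.2.2.2, x.2.2.2.1))
    · rintro ⟨k, σ, τ, a, b⟩ hx
      rw [mem_coe, mem_filter] at hx
      obtain ⟨hx, hx'⟩ := hx
      simp only [I5, mem_filter, mem_product, mem_range, mem_univ, and_true] at hx
      obtain ⟨hk, hG⟩ := hx
      rw [mem_coe, mem_filter]
      refine ⟨?_, ?_⟩
      · simp only [I5, mem_filter, mem_product, mem_range, mem_univ, and_true]
        exact ⟨by omega, hG.reverse⟩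
      have hrev : ∀ c, GI G (Hi G s) N (N - k) (σ ∘ Fin.rev) (τ ∘ Fin.rev) b c →
          GI G (Hi G s) N k σ τ c b := by
        intro c hc
        have := hc.reverse
        have e1 : (σ ∘ Fin.rev) ∘ Fin.rev = σ := by funext i; simp
        have e2 : (τ ∘ Fin.rev) ∘ Fin.rev = τ := by funext i; simp
        rw [e1, e2, Nat.sub_sub_self (by omega)] at this
        exact this
      simp only [hU, not_and, not_forall] at hx'
      have hk0 : k ≠ 0 := by
        rintro rfl
        obtain ⟨b', hb', hne⟩ := hx' hN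
        exact hne (hG.unique_zero hS b' hb')
      refine ⟨by simp only; omega, ?_⟩
      intro c hc
      simp only at hc ⊢
      have hc' := hrev c hc
      rcases Nat.lt_or_ge k N with hkN | hkN
      · obtain ⟨b', hb', hne⟩ := hx' hkN
        rcases hG.unique_or hS (by omega) hkN with h | h
        · exact absurd (h b' hb') hne
        · exact h c hc'
      · have : N - k = 0 := by omega
        rw [this] at hc
        have hG' := hG.reverse
        rw [this] at hG'
        exact hG'.unique_zero hS c hc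
    · rintro ⟨k, σ, τ, a, b⟩ hx ⟨k', σ', τ', a', b'⟩ hy hxy
      rw [mem_coe, mem_filter] at hx hy
      simp only [I5, mem_filter, mem_product, mem_range, mem_univ, and_true] at hx hy
      simp only [Prod.mk.injEq] at hxy ⊢
      obtain ⟨h1, h2, h3, h4, h5⟩ := hxy
      refine ⟨by omega, ?_, ?_, h5, h4⟩
      · funext i
        have := congrFun h2 i.rev
        simpa using this
      · funext i
        have := congrFun h3 i.rev
        simpa using this
  have h3 := card_filter_add_card_filter_not (s := I5 G s N) U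
  omega

end

end P490135

end
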