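import Pool.Agent.Work.MP_490135_co.Bd.B03
import Pool.Agent.Work.MP_490135_co.Bd.B02
import Pool.Agent.Work.MP_490135_co.Bd.B01

/-! Bundle of small proof modules (one section per former module). -/

section

/-!
# MP_490135_co: grouping by the set of lows; negligible classes (helper81)
-/

namespace P490135

open SimpleGraph Finset Nat

section

variable {V : Type*} [Fintype V] [DecidableEq V] (G : SimpleGraph V) (K s N : ℕ)

/-- type II data with set of lows `W` -/
noncomputable def IIf (W : Finset V) : Finset (ℕ × (Fin (N + 1) → V) × (Fin (N + 1) → V)) :=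
  (IIs G s N).filter (fun x => univ.image x.2.2 = W)

open scoped Classical in
/-- type I data with set of lows `W` -/
noncomputable def If (W : Finset V) : Finset (ℕ × (Fin N → V) × (Fin N → V) × V) :=
  (I4 G s N).filter (fun x => InI G K s N W x)

open scoped Classical in
/-- type II data with a bad low -/
noncomputable def BadII : Finset (ℕ × (Fin (N + 1) → V) × (Fin (N + 1) → V)) :=
  (IIs G s N).filter (fun x => ∃ i, ¬ Good' G K s N (x.2.2 i))

open scoped Classical in
/-- type I data with a bad low -/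
noncomputable def BadI : Finset (ℕ × (Fin N → V) × (Fin N → V) × V) :=
  (I4 G s N).filter (fun x => (∃ i, ¬ Good' G K s N (x.2.2.1 i)) ∨ ¬ Good' G K s N x.2.2.2)

open scoped Classical in
/-- type I data with a non-nice low-low edge -/
noncomputable def NonNice : Finset (ℕ × (Fin N → V) × (Fin N → V) × V) :=
  (I4 G s N).filter (fun x => (∀ i, Good' G K s N (x.2.2.1 i)) ∧
    ∃ b, GI G (Hi G s) N x.1 x.2.1 x.2.2.1 x.2.2.2 b ∧ ¬ Nice G K x.2.1 x.2.2.2 b)

theorem D3 : (IIs G s N).card ≤ (BadII G K s N).card +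
    ∑ W ∈ powersetCard (N + 1) (GoodSet G K s N), (IIf G s N W).card := by
  classical
  have h0 := card_filter_add_card_filter_not (s := IIs G s N)
    (fun x => ∃ i, ¬ Good' G K s N (x.2.2 i))
  rw [← h0]
  refine Nat.add_le_add le_rfl ?_
  rw [card_eq_sum_card_fiberwise (f := fun x => univ.image x.2.2)
    (t := powersetCard (N + 1) (GoodSet G K s N))]
  · apply sum_le_sum
    intro W _
    apply Finset.card_le_card
    intro x hx
    rw [mem_filter, mem_filter] at hx
    rw [IIf, mem_filter]
    exact ⟨hx.1.1, hx.2⟩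
  · rintro ⟨p, σ, τ⟩ hx
    rw [mem_coe, mem_filter] at hx
    obtain ⟨hx, hg⟩ := hx
    simp only [IIs, mem_filter, mem_product, mem_range, mem_univ, and_true] at hx
    push Not at hg
    rw [mem_coe, mem_powersetCard]
    refine ⟨?_, ?_⟩
    · intro u hu
      rw [mem_image] at hu
      obtain ⟨i, -, rfl⟩ := hu
      simp only [GoodSet, mem_filter, mem_univ, true_and]
      exact hg i
    · rw [card_image_of_injective _ hx.2.τinj]
      simp

theorem D4 : (I4 G s N).card ≤ (BadI G K s N).card + (NonNice G K s N).card +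
    ∑ W ∈ powersetCard (N + 1) (GoodSet G K s N), (If G K s N W).card := by
  classical
  have h0 := card_filter_add_card_filter_not (s := I4 G s N)
    (fun x => (∃ i, ¬ Good' G K s N (x.2.2.1 i)) ∨ ¬ Good' G K s N x.2.2.2)
  rw [← h0, add_assoc]
  refine Nat.add_le_add le_rfl ?_
  set Q := (I4 G s N).filter (fun x => ¬ ((∃ i, ¬ Good' G K s N (x.2.2.1 i)) ∨
    ¬ Good' G K s N x.2.2.2)) with hQ
  have h1 := card_filter_add_card_filter_not (s := Q)
    (fun x => ∃ b, GI G (Hi G s) N x.1 x.2.1 x.2.2.1 x.2.2.2 b ∧ ¬ Nice G K x.2.1 x.2.2.2 b)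
  rw [← h1]
  refine Nat.add_le_add ?_ ?_
  · apply Finset.card_le_card
    intro x hx
    rw [mem_filter, hQ, mem_filter] at hx
    rw [NonNice, mem_filter]
    obtain ⟨⟨hx, hx1⟩, hx2⟩ := hx
    push Not at hx1
    exact ⟨hx, hx1.1, hx2⟩
  rw [card_eq_sum_card_fiberwise (f := fun x => insert x.2.2.2 (univ.image x.2.2.1))
    (t := powersetCard (N + 1) (GoodSet G K s N))]
  · apply sum_le_sum
    intro W _
    apply Finset.card_le_card
    intro x hx
    rw [mem_filter, mem_filter, hQ, mem_filter] at hx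
    obtain ⟨⟨⟨hx, hx1⟩, hx2⟩, hx3⟩ := hx
    rw [If, mem_filter]
    refine ⟨hx, ?_⟩
    simp only [I4, mem_filter, mem_product, mem_range, mem_univ, and_true] at hx
    obtain ⟨hk, b, hb, -⟩ := hx
    push Not at hx2
    exact ⟨hk, ⟨b, hb, hx2 b hb⟩, hx3⟩
  · rintro ⟨k, σ, τ, a⟩ hx
    rw [mem_coe, mem_filter, hQ, mem_filter] at hx
    obtain ⟨⟨hx, hx1⟩, hx2⟩ := hx
    simp only [I4, mem_filter, mem_product, mem_range, mem_univ, and_true] at hx
    obtain ⟨hk, b, hb, -⟩ := hx
    push Not at hx1
    rw [mem_coe, mem_powersetCard]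
    refine ⟨?_, ?_⟩
    · intro u hu
      simp only [mem_insert, mem_image, mem_univ, true_and] at hu
      simp only [GoodSet, mem_filter, mem_univ, true_and]
      rcases hu with rfl | ⟨i, rfl⟩
      · exact hx1.2
      · exact hx1.1 i
    · rw [card_insert_of_notMem, card_image_of_injective _ hb.τinj]
      · simp
      · simp only [mem_image, mem_univ, true_and, not_exists]
        exact fun i => hb.τa i

end

section

variable {V : Type*} [Fintype V] {G : SimpleGraph V} {K s N : ℕ}

theorem card_univ_fun (M : ℕ) : (univ : Finset (Fin M → V)).card = Fintype.card V ^ M := by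
  classical
  rw [Finset.card_univ, Fintype.card_fun, Fintype.card_fin]

theorem card_dartS (hS : Short G (N + 1)) :
    (dartS G).card ≤ (4 * N + 2) * Fintype.card V := by
  have := card_darts G (N + 1) (by omega) hS
  have e : 2 * (2 * (N + 1) - 1) = 4 * N + 2 := by omega
  rw [e] at this
  exact this

theorem card_HiSet (hS : Short G (N + 1)) (hn : 0 < Fintype.card V) :
    (HiSet G s).card ≤ (4 * N + 2) * s := by
  classical
  have h1 : (HiSet G s).card * Fintype.card V ≤ s * (dartS G).card := by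
    have h2 : ∑ v ∈ HiSet G s, Fintype.card V ≤ ∑ v ∈ HiSet G s, s * dg G v := by
      apply sum_le_sum
      intro v hv
      simp only [HiSet, mem_filter, mem_univ, true_and] at hv
      exact hv
    rw [sum_const, smul_eq_mul, ← mul_sum] at h2
    refine h2.trans (Nat.mul_le_mul_left _ ?_)
    have h3 : (dartS G).card = ∑ v : V, dg G v := by
      rw [dartS, card_filter, Fintype.sum_prod_type]
      apply sum_congr rfl
      intro v _
      rw [dg, card_filter]
    rw [h3]
    exact sum_le_sum_of_subset (subset_univ _)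
  have h4 : (HiSet G s).card * Fintype.card V ≤ ((4 * N + 2) * s) * Fintype.card V := by
    calc _ ≤ s * (dartS G).card := h1
      _ ≤ s * ((4 * N + 2) * Fintype.card V) := Nat.mul_le_mul_left _ (card_dartS hS)
      _ = _ := by ring
  exact Nat.le_of_mul_le_mul_right h4 hn

theorem pen_of_large (hn : (K + 1) * s ≤ Fintype.card V) (hs : 0 < s) (v : V)
    (hv : Hi G s v) : Pen G K v := by
  classical
  intro X hX
  have h1 : K < dg G v := by
    unfold Hi at hv
    by_contra hcon
    push Not at hcon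
    have : s * dg G v ≤ s * K := Nat.mul_le_mul_left _ hcon
    have h2 : (K + 1) * s = s * K + s := by ring
    omega
  have h2 : 0 < (univ.filter (fun w => G.Adj v w) \ X).card := by
    have h3 := le_card_sdiff X (univ.filter (fun w => G.Adj v w))
    have h4 : (univ.filter (fun w => G.Adj v w)).card = dg G v := rfl
    omega
  rw [card_pos] at h2
  obtain ⟨z, hz⟩ := h2
  rw [mem_sdiff, mem_filter] at hz
  exact ⟨z, hz.2, hz.1.2⟩

theorem card_negB (hS : Short G (N + 1)) (hn : 0 < Fintype.card V) :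
    (negB G s N).card ≤ (N + 1) * (((4 * N + 2) * s) ^ 2 * (4 * N + 2) ^ N) *
      Fintype.card V ^ N := by
  classical
  have h1 := card_one (dartS G) (HiSet G s ×ˢ HiSet G s) (negB G s N) (by
    intro q hq
    simp only [negB, MPs, mem_filter, mem_univ, true_and] at hq
    refine ⟨fun i => ?_, ?_⟩
    · simp only [dartS, mem_filter, mem_univ, true_and]
      exact hq.1.adj i
    · obtain ⟨i, hi⟩ := hq.2
      refine ⟨i, ?_⟩
      rw [mem_product]
      simp only [HiSet, mem_filter, mem_univ, true_and]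
      exact hi)
  have h2 := card_HiSet (s := s) hS hn
  have h3 := card_dartS hS
  rw [card_product] at h1
  calc _ ≤ _ := h1
    _ ≤ (N + 1) * ((((4 * N + 2) * s) * ((4 * N + 2) * s)) *
        ((4 * N + 2) * Fintype.card V) ^ (N + 1 - 1)) := by
        gcongr
    _ = _ := by
        rw [Nat.add_sub_cancel, mul_pow]
        ring

theorem card_negA (hN : 1 ≤ N) (hS : Short G (N + 1)) :
    s * (negA G s N).card ≤ (N + 1) * ((4 * (2 * N + 1) ^ 2) * (4 * N + 2) ^ (N - 1)) *
      Fintype.card V ^ (N + 1) := by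
  classical
  set P : Finset ((V × V) × (V × V)) := univ.filter (fun x : (V × V) × (V × V) =>
      G.Adj x.1.1 x.1.2 ∧ G.Adj x.1.2 x.2.1 ∧ G.Adj x.2.1 x.2.2 ∧
      s * (univ.filter (G.Adj x.1.2)).card < Fintype.card V ∧
      s * (univ.filter (G.Adj x.2.1)).card < Fintype.card V) with hP
  have h0 : s * P.card ≤ 4 * (2 * N + 1) ^ 2 * Fintype.card V ^ 2 := by
    have := card_P4 G (N + 1) (by omega) hS s
    have e : 2 * (N + 1) - 1 = 2 * N + 1 := by omega
    rw [e] at this
    convert this using 2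
  have h1 := card_two (dartS G) P (negA G s N) (by
    intro q hq
    simp only [negA, MPs, mem_filter, mem_univ, true_and] at hq
    refine ⟨fun i => ?_, ?_⟩
    · simp only [dartS, mem_filter, mem_univ, true_and]
      exact hq.1.adj i
    · obtain ⟨i, j, hij, hi, hj⟩ := hq.2
      refine ⟨i, j, hij, ?_⟩
      rw [hP, mem_filter]
      refine ⟨mem_univ _, hq.1.adj i, hq.1.adj' i j hij, hq.1.adj j, ?_, ?_⟩
      · simpa [Hi, dg] using hi
      · simpa [Hi, dg] using hj)
  have h3 := card_dartS hS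
  calc s * (negA G s N).card ≤ s * ((N + 1) * (P.card * (dartS G).card ^ (N + 1 - 2))) :=
        Nat.mul_le_mul_left _ h1
    _ = (N + 1) * ((s * P.card) * (dartS G).card ^ (N - 1)) := by
        rw [show N + 1 - 2 = N - 1 by omega]
        ring
    _ ≤ (N + 1) * ((4 * (2 * N + 1) ^ 2 * Fintype.card V ^ 2) *
        ((4 * N + 2) * Fintype.card V) ^ (N - 1)) := by
        gcongr
    _ = _ := by
        have e : Fintype.card V ^ (N + 1) = Fintype.card V ^ 2 * Fintype.card V ^ (N - 1) := by
          rw [← pow_add]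
          congr 1
          omega
        rw [e, mul_pow]
        ring

end

end P490135

end

section

/-!
# MP_490135_co: negligible classes, continued (helper81)
-/

namespace P490135

open SimpleGraph Finset Nat

section

variable {V : Type*} [Fintype V] [DecidableEq V] {G : SimpleGraph V} {K s N : ℕ}

theorem card_BadSet (hS : Short G (N + 1)) (hn : 0 < Fintype.card V)
    (hnc : ∀ C : Finset V, C.card = N → ¬ IsCore G K C) :
    (BadSet G K s N).card ≤ (((4 * N + 2) * s) ^ 2 + ((4 * N + 2) * s) ^ N) * K := by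
  classical
  -- the exceptional sets
  have hX : ∀ x : V × V, ∃ X : Finset V, X.card ≤ K ∧
      (¬ Gam G K x.1 x.2 → ∀ z, G.Adj x.1 z → G.Adj z x.2 → z ∈ X) := by
    intro x
    by_cases hg : Gam G K x.1 x.2
    · exact ⟨∅, by simp, fun h => absurd hg h⟩
    · have hg' := hg
      unfold Gam at hg
      push Not at hg
      obtain ⟨X, hX, h⟩ := hg
      refine ⟨X, hX, fun _ z h1 h2 => ?_⟩
      by_contra hz
      exact h z hz h1 h2
  choose X hX1 hX2 using hX
  have hY : ∀ C : Finset V, ∃ Y : Finset V, Y.card ≤ K ∧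
      (C.card = N → ∀ z, (∀ c ∈ C, G.Adj c z) → z ∈ Y) := by
    intro C
    by_cases hC : C.card = N
    · have hg := hnc C hC
      unfold IsCore at hg
      push Not at hg
      obtain ⟨Y, hY, h⟩ := hg
      refine ⟨Y, hY, fun _ z h1 => ?_⟩
      by_contra hz
      obtain ⟨c, hc, hcz⟩ := h z hz
      exact hcz (h1 c hc)
    · exact ⟨∅, by simp, fun h => absurd h hC⟩
  choose Y hY1 hY2 using hY
  have hsub : BadSet G K s N ⊆ ((HiSet G s ×ˢ HiSet G s).biUnion X) ∪
      ((powersetCard N (HiSet G s)).biUnion Y) := by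
    intro u hu
    simp only [BadSet, mem_filter, mem_univ, true_and] at hu
    obtain ⟨hlow, hng⟩ := hu
    rw [mem_union, mem_biUnion, mem_biUnion]
    by_cases hgood : Good G K (Hi G s) u
    · right
      have hcard : N ≤ (TT G s u).card := by
        by_contra hcon
        exact hng ⟨hgood, by omega⟩
      obtain ⟨C, hC, hCc⟩ := exists_subset_card_eq hcard
      refine ⟨C, ?_, hY2 C hCc u ?_⟩
      · rw [mem_powersetCard]
        refine ⟨fun c hc => ?_, hCc⟩
        simp only [HiSet, mem_filter, mem_univ, true_and]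
        exact (mem_TT.mp (hC hc)).1
      · intro c hc
        exact (mem_TT.mp (hC hc)).2.symm
    · left
      have : ∃ h h', Hi G s h ∧ Hi G s h' ∧ G.Adj u h ∧ G.Adj u h' ∧ h ≠ h' ∧ ¬ Gam G K h h' := by
        by_contra hcon
        push Not at hcon
        exact hgood ⟨hlow, hcon⟩
      obtain ⟨h, h', h1, h2, h3, h4, h5, h6⟩ := this
      refine ⟨(h, h'), ?_, hX2 (h, h') h6 u h3.symm h4⟩
      rw [mem_product]
      simp only [HiSet, mem_filter, mem_univ, true_and]
      exact ⟨h1, h2⟩
  have hh := card_HiSet (s := s) hS hn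
  calc (BadSet G K s N).card ≤ _ := Finset.card_le_card hsub
    _ ≤ _ := card_union_le _ _
    _ ≤ (HiSet G s ×ˢ HiSet G s).card * K + (powersetCard N (HiSet G s)).card * K := by
        refine Nat.add_le_add ?_ ?_
        · exact card_biUnion_le_card_mul _ _ _ (fun x _ => hX1 x)
        · exact card_biUnion_le_card_mul _ _ _ (fun x _ => hY1 x)
    _ ≤ (((4 * N + 2) * s) ^ 2) * K + (((4 * N + 2) * s) ^ N) * K := by
        refine Nat.add_le_add (Nat.mul_le_mul_right _ ?_) (Nat.mul_le_mul_right _ ?_)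
        · rw [card_product, ← sq]
          exact Nat.pow_le_pow_left hh 2
        · rw [card_powersetCard]
          exact (Nat.choose_le_pow _ _).trans (Nat.pow_le_pow_left hh N)
    _ = _ := by ring

/-- number of maps with a bad value -/
theorem card_badfun (M : ℕ) (B : Finset V) (Q : Finset (Fin M → V))
    (hQ : ∀ q ∈ Q, ∃ i, q i ∈ B) : Q.card ≤ M * (B.card * Fintype.card V ^ (M - 1)) := by
  have := card_one (univ : Finset V) B Q (fun q hq => ⟨fun i => mem_univ _, hQ q hq⟩)
  rwa [Finset.card_univ] at this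

theorem card_BadII (hS : Short G (N + 1)) (hn : 0 < Fintype.card V)
    (hnc : ∀ C : Finset V, C.card = N → ¬ IsCore G K C) :
    ∃ c : ℕ, c = (N + 1) * ((((4 * N + 2) * s) ^ (N + 1)) * ((N + 1) *
      ((((4 * N + 2) * s) ^ 2 + ((4 * N + 2) * s) ^ N) * K))) ∧
    (BadII G K s N).card ≤ c * Fintype.card V ^ N := by
  classical
  refine ⟨_, rfl, ?_⟩
  set B := BadSet G K s N with hB
  set T : Finset (Fin (N + 1) → V) := univ.filter (fun τ => ∃ i, τ i ∈ B) with hT
  have hTc : T.card ≤ (N + 1) * (B.card * Fintype.card V ^ N) := by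
    have := card_badfun (N + 1) B T (fun q hq => (mem_filter.mp hq).2)
    rwa [Nat.add_sub_cancel] at this
  have hsub : BadII G K s N ⊆ (range (N + 1)) ×ˢ
      (Fintype.piFinset (fun _ : Fin (N + 1) => HiSet G s)) ×ˢ T := by
    rintro ⟨p, σ, τ⟩ hx
    rw [BadII, mem_filter] at hx
    obtain ⟨hx, i, hi⟩ := hx
    simp only [IIs, mem_filter, mem_product, mem_range, mem_univ, and_true] at hx
    rw [mem_product, mem_product, mem_range, Fintype.mem_piFinset]
    refine ⟨hx.1, fun j => ?_, ?_⟩
    · simp only [HiSet, mem_filter, mem_univ, true_and]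
      exact hx.2.hσ j
    · rw [hT, mem_filter]
      refine ⟨mem_univ _, i, ?_⟩
      simp only [hB, BadSet, mem_filter, mem_univ, true_and]
      exact ⟨hx.2.hτ i, hi⟩
  have hh := card_HiSet (s := s) hS hn
  have hb := card_BadSet (s := s) hS hn hnc
  calc (BadII G K s N).card ≤ _ := Finset.card_le_card hsub
    _ = (N + 1) * ((HiSet G s).card ^ (N + 1) * T.card) := by
        rw [card_product, card_product, card_range, Fintype.card_piFinset]
        simp
    _ ≤ (N + 1) * (((4 * N + 2) * s) ^ (N + 1) * ((N + 1) *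
        (((((4 * N + 2) * s) ^ 2 + ((4 * N + 2) * s) ^ N) * K) * Fintype.card V ^ N))) := by
        gcongr
        refine hTc.trans ?_
        gcongr
    _ = _ := by ring

theorem card_BadI (hN : 1 ≤ N) (hS : Short G (N + 1)) (hn : 0 < Fintype.card V)
    (hnc : ∀ C : Finset V, C.card = N → ¬ IsCore G K C) :
    ∃ c : ℕ, c = N * ((((4 * N + 2) * s) ^ N) * ((N + 1) *
      ((((4 * N + 2) * s) ^ 2 + ((4 * N + 2) * s) ^ N) * K))) ∧
    (BadI G K s N).card ≤ c * Fintype.card V ^ N := by
  classical
  refine ⟨_, rfl, ?_⟩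
  set B := BadSet G K s N with hB
  set T : Finset (Fin N → V) := univ.filter (fun τ => ∃ i, τ i ∈ B) with hT
  have hTc : T.card ≤ N * (B.card * Fintype.card V ^ (N - 1)) :=
    card_badfun N B T (fun q hq => (mem_filter.mp hq).2)
  have hsub : BadI G K s N ⊆ ((range N) ×ˢ
      (Fintype.piFinset (fun _ : Fin N => HiSet G s)) ×ˢ T ×ˢ (univ : Finset V)) ∪
      ((range N) ×ˢ (Fintype.piFinset (fun _ : Fin N => HiSet G s)) ×ˢ
        (univ : Finset (Fin N → V)) ×ˢ B) := by
    rintro ⟨k, σ, τ, a⟩ hx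
    rw [BadI, mem_filter] at hx
    obtain ⟨hx, hi⟩ := hx
    simp only [I4, mem_filter, mem_product, mem_range, mem_univ, and_true] at hx
    obtain ⟨hk, b, hb, -⟩ := hx
    rw [mem_union]
    rcases hi with ⟨i, hi⟩ | hi
    · left
      rw [mem_product, mem_product, mem_product, mem_range, Fintype.mem_piFinset]
      refine ⟨hk, fun j => ?_, ?_, mem_univ _⟩
      · simp only [HiSet, mem_filter, mem_univ, true_and]
        exact hb.hσ j
      · rw [hT, mem_filter]
        refine ⟨mem_univ _, i, ?_⟩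
        simp only [hB, BadSet, mem_filter, mem_univ, true_and]
        exact ⟨hb.hτ i, hi⟩
    · right
      rw [mem_product, mem_product, mem_product, mem_range, Fintype.mem_piFinset]
      refine ⟨hk, fun j => ?_, mem_univ _, ?_⟩
      · simp only [HiSet, mem_filter, mem_univ, true_and]
        exact hb.hσ j
      · simp only [hB, BadSet, mem_filter, mem_univ, true_and]
        exact ⟨hb.ha, hi⟩
  have hh := card_HiSet (s := s) hS hn
  have hb := card_BadSet (s := s) hS hn hnc
  have hpow : Fintype.card V ^ N = Fintype.card V ^ (N - 1) * Fintype.card V := by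
    rw [← pow_succ]
    congr 1
    omega
  calc (BadI G K s N).card ≤ _ := Finset.card_le_card hsub
    _ ≤ _ := card_union_le _ _
    _ = N * ((HiSet G s).card ^ N * (T.card * Fintype.card V)) +
        N * ((HiSet G s).card ^ N * (Fintype.card V ^ N * B.card)) := by
        rw [card_product, card_product, card_product, card_product, card_product, card_product,
          card_range, Fintype.card_piFinset, card_univ_fun]
        simp
    _ ≤ N * (((4 * N + 2) * s) ^ N * ((N * ((((((4 * N + 2) * s) ^ 2 +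
          ((4 * N + 2) * s) ^ N) * K)) * Fintype.card V ^ (N - 1))) * Fintype.card V)) +
        N * (((4 * N + 2) * s) ^ N * (Fintype.card V ^ N *
          ((((4 * N + 2) * s) ^ 2 + ((4 * N + 2) * s) ^ N) * K))) := by
        gcongr
        refine hTc.trans ?_
        gcongr
    _ = _ := by
        rw [hpow]
        ring

theorem card_NonNice (hns : s ≤ Fintype.card V) (hs : 0 < s) :
    s * (NonNice G K s N).card ≤ (N * (N ^ N)) * (2 * N * K) * Fintype.card V ^ (N + 1) := by
  classical
  set n := Fintype.card V with hn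
  -- covering sets
  have hX : ∀ h : V, ∃ X : Finset V, X.card ≤ K ∧
      (¬ DD G K h → ∀ y z, G.Adj h y → G.Adj y z → y ∈ X ∨ z ∈ X) := by
    intro h
    by_cases hg : DD G K h
    · exact ⟨∅, by simp, fun h => absurd hg h⟩
    · unfold DD at hg
      push Not at hg
      obtain ⟨X, hX, h'⟩ := hg
      refine ⟨X, hX, fun _ y z h1 h2 => ?_⟩
      by_contra hcon
      push Not at hcon
      exact h' y z hcon.1 hcon.2 h1 h2
  choose X hX1 hX2 using hX
  set F : V → Finset V := fun h => X h ∪ ((X h).filter (fun x => ¬ Hi G s x)).biUnion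
    (fun x => univ.filter (fun w => G.Adj x w)) with hF
  have hFc : ∀ h, (F h).card ≤ K + K * (n / s) := by
    intro h
    refine (card_union_le _ _).trans (Nat.add_le_add (hX1 h) ?_)
    refine (card_biUnion_le_card_mul _ _ (n / s) ?_).trans
      (Nat.mul_le_mul_right _ ((card_filter_le _ _).trans (hX1 h)))
    intro x hx
    rw [mem_filter] at hx
    have h1 : ¬ (n ≤ s * dg G x) := hx.2
    have h2 : dg G x ≤ n / s := by
      rw [Nat.le_div_iff_mul_le hs]
      rw [mul_comm]
      omega
    exact h2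
  -- the target of the projection
  set T : Finset (ℕ × (Fin N → V) × (Fin N → V)) :=
    (NonNice G K s N).image (fun x => (x.1, x.2.1, x.2.2.1)) with hT
  have hTc : T.card ≤ (N * n ^ N) * N ^ N := by
    apply card_fib T (fun x => (x.1, x.2.2)) ((range N) ×ˢ (univ : Finset (Fin N → V)))
    · rintro ⟨k, σ, τ⟩ hx
      rw [hT, mem_image] at hx
      obtain ⟨⟨k', σ', τ', a⟩, hx, he⟩ := hx
      simp only [Prod.mk.injEq] at he
      obtain ⟨rfl, rfl, rfl⟩ := he
      rw [NonNice, mem_filter] at hx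
      simp only [I4, mem_filter, mem_product, mem_range, mem_univ, and_true] at hx
      rw [mem_product, mem_range]
      exact ⟨hx.1.1, mem_univ _⟩
    · rw [card_product, card_range, card_univ_fun]
    · rintro ⟨k, τ⟩ -
      by_cases hne : (T.filter (fun q => (q.1, q.2.2) = (k, τ))).Nonempty
      · obtain ⟨⟨k₀, σ₀, τ₀⟩, h₀⟩ := hne
        rw [mem_filter, hT, mem_image] at h₀
        obtain ⟨⟨⟨k', σ', τ', a⟩, hx, he⟩, he'⟩ := h₀
        simp only [Prod.mk.injEq] at he he'
        obtain ⟨rfl, rfl, rfl⟩ := he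
        obtain ⟨rfl, rfl⟩ := he'
        rw [NonNice, mem_filter] at hx
        have hgood : ∀ i, Good' G K s N (τ' i) := hx.2.1
        calc (T.filter (fun q => (q.1, q.2.2) = (k', τ'))).card
            ≤ (Fintype.piFinset (fun i => TT G s (τ' i))).card := by
              apply Finset.card_le_card_of_injOn (fun q => q.2.1)
              · rintro ⟨k₁, σ₁, τ₁⟩ h₁
                rw [mem_coe, mem_filter, hT, mem_image] at h₁
                obtain ⟨⟨⟨k₂, σ₂, τ₂, a₂⟩, hx₂, he₂⟩, he₃⟩ := h₁
                simp only [Prod.mk.injEq] at he₂ he₃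
                obtain ⟨rfl, rfl, rfl⟩ := he₂
                obtain ⟨rfl, rfl⟩ := he₃
                rw [NonNice, mem_filter] at hx₂
                simp only [I4, mem_filter, mem_product, mem_range, mem_univ, and_true] at hx₂
                obtain ⟨⟨-, b, hb, -⟩, -⟩ := hx₂
                rw [mem_coe, Fintype.mem_piFinset]
                intro i
                exact mem_TT.mpr ⟨hb.hσ i, hb.adj i⟩
              · rintro ⟨k₁, σ₁, τ₁⟩ h₁ ⟨k₂, σ₂, τ₂⟩ h₂ he
                rw [mem_coe, mem_filter] at h₁ h₂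
                simp only [Prod.mk.injEq] at h₁ h₂ he ⊢
                exact ⟨h₁.2.1.trans h₂.2.1.symm, he, h₁.2.2.trans h₂.2.2.symm⟩
          _ = ∏ i, (TT G s (τ' i)).card := Fintype.card_piFinset _
          _ ≤ ∏ _i : Fin N, N := by
              apply prod_le_prod'
              intro i _
              have := (hgood i).few
              omega
          _ = N ^ N := by simp
      · rw [not_nonempty_iff_eq_empty] at hne
        rw [hne]
        simp
  have hmain : (NonNice G K s N).card ≤ ((N * n ^ N) * N ^ N) * (N * (K + K * (n / s))) := by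
    apply card_fib (NonNice G K s N) (fun x => (x.1, x.2.1, x.2.2.1)) T
    · intro q hq
      rw [hT]
      exact mem_image_of_mem _ hq
    · exact hTc
    · rintro ⟨k, σ, τ⟩ -
      calc ((NonNice G K s N).filter (fun q => (q.1, q.2.1, q.2.2.1) = (k, σ, τ))).card
          ≤ ((univ : Finset (Fin N)).biUnion (fun i => F (σ i))).card := by
            apply Finset.card_le_card_of_injOn (fun q => q.2.2.2)
            · rintro ⟨k₁, σ₁, τ₁, a⟩ h₁
              rw [mem_coe, mem_filter, NonNice, mem_filter] at h₁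
              obtain ⟨⟨-, -, b, hb, hnn⟩, he⟩ := h₁
              simp only [Prod.mk.injEq] at he
              obtain ⟨rfl, rfl, rfl⟩ := he
              simp only [Nice] at hnn
              push Not at hnn
              obtain ⟨i, hi, hd⟩ := hnn
              rw [mem_coe, mem_biUnion]
              refine ⟨i, mem_univ _, ?_⟩
              simp only
              rw [hF, mem_union]
              have hcov : a ∈ X (σ₁ i) ∨ b ∈ X (σ₁ i) := by
                rcases hi with hi | hi
                · exact hX2 _ hd a b hi.symm hb.adjab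
                · exact (hX2 _ hd b a hi.symm hb.adjab.symm).symm
              rcases hcov with h | h
              · exact Or.inl h
              · right
                rw [mem_biUnion]
                refine ⟨b, ?_, ?_⟩
                · rw [mem_filter]
                  exact ⟨h, hb.hb⟩
                · rw [mem_filter]
                  exact ⟨mem_univ _, hb.adjab.symm⟩
            · rintro ⟨k₁, σ₁, τ₁, a₁⟩ h₁ ⟨k₂, σ₂, τ₂, a₂⟩ h₂ he
              rw [mem_coe, mem_filter] at h₁ h₂
              simp only [Prod.mk.injEq] at h₁ h₂ he ⊢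
              exact ⟨h₁.2.1.trans h₂.2.1.symm, h₁.2.2.1.trans h₂.2.2.1.symm,
                h₁.2.2.2.trans h₂.2.2.2.symm, he⟩
        _ ≤ (univ : Finset (Fin N)).card * (K + K * (n / s)) :=
            card_biUnion_le_card_mul _ _ _ (fun i _ => hFc (σ i))
        _ = _ := by simp
  calc s * (NonNice G K s N).card
      ≤ s * (((N * n ^ N) * N ^ N) * (N * (K + K * (n / s)))) := Nat.mul_le_mul_left _ hmain
    _ = ((N * n ^ N) * N ^ N) * (N * (K * (s + s * (n / s)))) := by ring
    _ ≤ ((N * n ^ N) * N ^ N) * (N * (K * (n + n))) := by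
        gcongr
        exact Nat.mul_div_le n s
    _ = _ := by ring

end

end P490135

end

section

/-!
# MP_490135_co: total bound for graphs without core (helper81)
-/

namespace P490135

open SimpleGraph Finset Nat

/-- first constant -/
def c1 (N K : ℕ) : ℕ :=
  (N + 1) * ((4 * (2 * N + 1) ^ 2) * (4 * N + 2) ^ (N - 1)) + 2 * ((N * (N ^ N)) * (2 * N * K))

/-- second constant -/
def c2 (N K s : ℕ) : ℕ :=
  (N + 1) * (((4 * N + 2) * s) ^ 2 * (4 * N + 2) ^ N) +
  (N + 1) * ((((4 * N + 2) * s) ^ (N + 1)) * ((N + 1) *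
      ((((4 * N + 2) * s) ^ 2 + ((4 * N + 2) * s) ^ N) * K))) +
  2 * (N * ((((4 * N + 2) * s) ^ N) * ((N + 1) *
      ((((4 * N + 2) * s) ^ 2 + ((4 * N + 2) * s) ^ N) * K))))

section

variable {V : Type*} [Fintype V] [DecidableEq V] {G : SimpleGraph V} {K s N : ℕ}

theorem total (hN : 1 ≤ N) (hS : Short G (N + 1)) (hs : 0 < s)
    (hns : (K + 1) * s ≤ Fintype.card V) (hK : 2 * N + 12 ≤ K)
    (hnc : ∀ C : Finset V, C.card = N → ¬ IsCore G K C) :
    s * (MPs G N).card ≤ s * (∑ W ∈ powersetCard (N + 1) (GoodSet G K s N),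
      ((IIf G s N W).card + 2 * (If G K s N W).card)) + c1 N K * Fintype.card V ^ (N + 1) +
      s * (c2 N K s * Fintype.card V ^ N) := by
  have hs' : s ≤ Fintype.card V := by
    calc s = 1 * s := by ring
      _ ≤ (K + 1) * s := Nat.mul_le_mul_right _ (by omega)
      _ ≤ _ := hns
  have hn : 0 < Fintype.card V := lt_of_lt_of_le hs hs'
  have hPen : ∀ v, Hi G s v → Pen G K v := fun v hv => pen_of_large hns hs v hv
  have e1 := D1 hS hPen hK
  have e2 := D2 (s := s) (by omega) hS
  have e3 := D3 G K s N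
  have e4 := D4 G K s N
  have e5 := card_negB (s := s) hS hn
  have e6 := card_negA (s := s) hN hS
  obtain ⟨d, hd, e7⟩ := card_BadII (s := s) hS hn hnc
  obtain ⟨d', hd', e8⟩ := card_BadI (s := s) hN hS hn hnc
  have e9 := card_NonNice (G := G) (K := K) (N := N) hs' hs
  set n := Fintype.card V with hndef
  rw [sum_add_distrib, ← mul_sum]
  set SII := ∑ W ∈ powersetCard (N + 1) (GoodSet G K s N), (IIf G s N W).card
  set SI := ∑ W ∈ powersetCard (N + 1) (GoodSet G K s N), (If G K s N W).card
  have h1 : (MPs G N).card ≤ (negA G s N).card + (negB G s N).card +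
      ((BadII G K s N).card + SII) +
      2 * ((BadI G K s N).card + (NonNice G K s N).card + SI) := by
    omega
  calc s * (MPs G N).card
      ≤ s * ((negA G s N).card + (negB G s N).card +
      ((BadII G K s N).card + SII) +
      2 * ((BadI G K s N).card + (NonNice G K s N).card + SI)) := Nat.mul_le_mul_left _ h1
    _ = s * (SII + 2 * SI) + (s * (negA G s N).card + 2 * (s * (NonNice G K s N).card)) +
        s * ((negB G s N).card + (BadII G K s N).card + 2 * (BadI G K s N).card) := by ring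
    _ ≤ s * (SII + 2 * SI) + ((N + 1) * ((4 * (2 * N + 1) ^ 2) * (4 * N + 2) ^ (N - 1)) *
        n ^ (N + 1) + 2 * ((N * (N ^ N)) * (2 * N * K) * n ^ (N + 1))) +
        s * ((N + 1) * (((4 * N + 2) * s) ^ 2 * (4 * N + 2) ^ N) * n ^ N + d * n ^ N +
          2 * (d' * n ^ N)) := by
        gcongr
    _ = _ := by
        rw [hd, hd', c1, c2]
        ring

theorem mem_IIf {W : Finset V} {x : ℕ × (Fin (N + 1) → V) × (Fin (N + 1) → V)}
    (hx : x ∈ IIf G s N W) : InII G s N W x := by
  rw [IIf, mem_filter] at hx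
  simp only [IIs, mem_filter, mem_product, mem_range, mem_univ, and_true] at hx
  exact ⟨hx.1.2, hx.2⟩

theorem mem_If {W : Finset V} {x : ℕ × (Fin N → V) × (Fin N → V) × V}
    (hx : x ∈ If G K s N W) : InI G K s N W x := by
  classical
  rw [If, mem_filter] at hx
  exact hx.2

omit [DecidableEq V] in
theorem good_of_mem {W : Finset V} (hW : W ∈ powersetCard (N + 1) (GoodSet G K s N)) :
    ∀ u ∈ W, Good' G K s N u := by
  intro u hu
  rw [mem_powersetCard] at hW
  have := hW.1 hu
  simpa [GoodSet] using this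

/-- type II versus type I -/
theorem tot_cases (hS : Short G (N + 1)) (hPen : ∀ v, Hi G s v → Pen G K v)
    (hK : 2 * N + 12 ≤ K) {W : Finset V} (hW : ∀ u ∈ W, Good' G K s N u) :
    (If G K s N W).card = 0 ∨ (IIf G s N W).card = 0 := by
  by_contra hcon
  push Not at hcon
  obtain ⟨h1, h2⟩ := hcon
  obtain ⟨y, hy⟩ := card_pos.mp (Nat.pos_of_ne_zero h1)
  obtain ⟨x, hx⟩ := card_pos.mp (Nat.pos_of_ne_zero h2)
  exact excl hS hPen hK hW (mem_IIf hx) (mem_If hy)

theorem tot_ge6 (hN : 6 ≤ N) (hS : Short G (N + 1)) (hPen : ∀ v, Hi G s v → Pen G K v)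
    (hK : 2 * N + 12 ≤ K) {W : Finset V} (hW : ∀ u ∈ W, Good' G K s N u) :
    3 * ((IIf G s N W).card + 2 * (If G K s N W).card) ≤ 2 * (N ! * N !) := by
  have hf : N ! = N * (N - 1)! := (Nat.mul_factorial_pred (by omega)).symm
  rcases tot_cases hS hPen hK hW with h | h
  · rw [h]
    rcases II_W (by omega) hS hPen hK hW (IIf G s N W) (fun x hx => mem_IIf hx) with h1 | h1
    · calc 3 * ((IIf G s N W).card + 2 * 0) = 3 * (IIf G s N W).card := by ring
        _ ≤ 3 * (4 * N ! * (N - 1)!) := Nat.mul_le_mul_left _ h1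
        _ = 2 * (N ! * (6 * (N - 1)!)) := by ring
        _ ≤ 2 * (N ! * (N * (N - 1)!)) := by gcongr
        _ = _ := by rw [← hf]
    · have h2 : 2 * (3 * (IIf G s N W).card) ≤ 2 * (2 * (N ! * N !)) := by
        calc 2 * (3 * (IIf G s N W).card) = 3 * (2 * (IIf G s N W).card) := by ring
          _ ≤ 3 * (N ! * (N ! + (N - 1)!)) := Nat.mul_le_mul_left _ h1
          _ = 3 * (N ! * N !) + N ! * (3 * (N - 1)!) := by ring
          _ ≤ 3 * (N ! * N !) + N ! * (N * (N - 1)!) := by gcongr; omega
          _ = 2 * (2 * (N ! * N !)) := by rw [← hf]; ring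
      omega
  · rw [h]
    obtain ⟨e, m, h1, h2, h3, -, -⟩ := I_W (by omega) hS hPen hK hW (If G K s N W)
      (fun x hx => mem_If hx)
    have hf2 : (N - 1)! = (N - 1) * (N - 2)! := by
      have := Nat.mul_factorial_pred (n := N - 1) (by omega)
      rw [show N - 1 - 1 = N - 2 by omega] at this
      exact this.symm
    have h4 : 4 * e ≤ N ! * N ! := by
      refine h2.trans (max_le le_rfl ?_)
      calc 4 * (N ! * (N - 1)!) = N ! * (4 * (N - 1)!) := by ring
        _ ≤ N ! * (N * (N - 1)!) := by gcongr; omega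
        _ = _ := by rw [← hf]
    have h5 : 12 * m ≤ N ! * N ! := by
      calc 12 * m ≤ 12 * (2 * N ! * (N - 2)!) := Nat.mul_le_mul_left _ h3
        _ = N ! * (24 * (N - 2)!) := by ring
        _ ≤ N ! * ((N * (N - 1)) * (N - 2)!) := by
            gcongr
            calc 24 ≤ 6 * 5 := by norm_num
              _ ≤ N * (N - 1) := Nat.mul_le_mul hN (by omega)
        _ = _ := by rw [mul_assoc, ← hf2, ← hf]
    omega

theorem tot_five (hS : Short G (5 + 1)) (hPen : ∀ v, Hi G s v → Pen G K v)
    (hK : 2 * 5 + 12 ≤ K) {W : Finset V} (hW : ∀ u ∈ W, Good' G K s 5 u) :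
    (IIf G s 5 W).card + 2 * (If G K s 5 W).card ≤ 11520 := by
  have f5 : 5 ! = 120 := rfl
  have f4 : (5 - 1)! = 24 := rfl
  have f3 : (5 - 2)! = 6 := rfl
  rcases tot_cases hS hPen hK hW with h | h
  · rw [h]
    rcases II_W (by omega) hS hPen hK hW (IIf G s 5 W) (fun x hx => mem_IIf hx) with h1 | h1
    · rw [f5, f4] at h1
      omega
    · rw [f5, f4] at h1
      omega
  · rw [h]
    obtain ⟨e, m, h1, h2, h3, -, -⟩ := I_W (by omega) hS hPen hK hW (If G K s 5 W)
      (fun x hx => mem_If hx)
    rw [f5, f4] at h2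
    rw [f5, f3] at h3
    have : max (120 * 120) (4 * (120 * 24)) = 14400 := by norm_num
    omega

theorem tot_four (hS : Short G (4 + 1)) (hPen : ∀ v, Hi G s v → Pen G K v)
    (hK : 2 * 4 + 12 ≤ K) {W : Finset V} (hW : ∀ u ∈ W, Good' G K s 4 u) :
    (IIf G s 4 W).card + 2 * (If G K s 4 W).card ≤ 384 := by
  have f4 : 4 ! = 24 := rfl
  have f3 : (4 - 1)! = 6 := rfl
  have f2 : (4 - 2)! = 2 := rfl
  rcases tot_cases hS hPen hK hW with h | h
  · rw [h]
    rcases (IIf G s 4 W).eq_empty_or_nonempty with he | ⟨x₀, hx₀⟩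
    · rw [he]; simp
    have hyp := (mem_IIf hx₀).hyp hS hPen hK hW
    by_cases two : ∀ v ∈ W.biUnion (TT G s), ∃ u ∈ W, ∃ u' ∈ W, u ≠ u' ∧ G.Adj u v ∧ G.Adj u' v
    · have := II_alpha_five _ W G.Adj (Gam G K) hyp two (IIf G s 4 W)
        (fun x hx => (mem_IIf hx).isII hS hPen hK hW)
      omega
    · push Not at two
      obtain ⟨v, hv, hv'⟩ := two
      rw [mem_biUnion] at hv
      obtain ⟨a, ha, hav⟩ := hv
      have hone : ∀ u ∈ W, G.Adj u v → u = a := by
        intro u hu huv
        by_contra hne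
        exact hv' u hu a ha hne huv (mem_TT.mp hav).2
      have := II_beta (ℓ := 4 + 1) (by omega) _ W G.Adj (Gam G K) hyp v
        (mem_biUnion.mpr ⟨a, ha, hav⟩) a ha (mem_TT.mp hav).2 hone (IIf G s 4 W)
        (fun x hx => (mem_IIf hx).isII hS hPen hK hW)
      have e1 : (4 + 1 - 1)! = 24 := rfl
      have e2 : (4 + 1 - 2)! = 6 := rfl
      rw [e1, e2] at this
      omega
  · rw [h]
    obtain ⟨e, m, h1, h2, h3, -, h5⟩ := I_W (by omega) hS hPen hK hW (If G K s 4 W)
      (fun x hx => mem_If hx)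
    have h5' := h5 rfl
    rw [f4, f3] at h2
    have : max (24 * 24) (4 * (24 * 6)) = 576 := by norm_num
    omega

/-- two pairs of twins -/
def IsD (G : SimpleGraph V) (s : ℕ) (W : Finset V) : Prop :=
  ∃ S₁ S₂ : Finset V, ∃ W₁ W₂ : Finset V, W₁.card = 2 ∧ W₂.card = 2 ∧ Disjoint W₁ W₂ ∧
    S₁ ≠ S₂ ∧ W = W₁ ∪ W₂ ∧ (∀ u ∈ W₁, TT G s u = S₁) ∧ (∀ u ∈ W₂, TT G s u = S₂)

theorem tot_three (hS : Short G (3 + 1)) (hPen : ∀ v, Hi G s v → Pen G K v)
    (hK : 2 * 3 + 12 ≤ K) {W : Finset V} (hW : ∀ u ∈ W, Good' G K s 3 u) :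
    (IIf G s 3 W).card + 2 * (If G K s 3 W).card ≤ 24 ∨
    ((IIf G s 3 W).card + 2 * (If G K s 3 W).card ≤ 32 ∧ IsD G s W) := by
  have f4 : 3 ! = 6 := rfl
  have f3 : (3 - 1)! = 2 := rfl
  rcases tot_cases hS hPen hK hW with h | h
  · rw [h]
    rcases (IIf G s 3 W).eq_empty_or_nonempty with he | ⟨x₀, hx₀⟩
    · left; rw [he]; simp
    have hyp := (mem_IIf hx₀).hyp hS hPen hK hW
    by_cases two : ∀ v ∈ W.biUnion (TT G s), ∃ u ∈ W, ∃ u' ∈ W, u ≠ u' ∧ G.Adj u v ∧ G.Adj u' v
    · right
      obtain ⟨hc, S₁, S₂, W₁, W₂, hS₁, hS₂, hW₁, hW₂, hSd, hWd, hSe, hWe, hA₁, hA₂⟩ :=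
        II_alpha_four _ W G.Adj (Gam G K) hyp two (IIf G s 3 W)
        (fun x hx => (mem_IIf hx).isII hS hPen hK hW) ⟨x₀, hx₀⟩
      refine ⟨by omega, S₁, S₂, W₁, W₂, hW₁, hW₂, hWd, ?_, hWe, ?_, ?_⟩
      · rintro rfl
        rw [disjoint_self, bot_eq_empty] at hSd
        rw [hSd] at hS₁
        simp at hS₁
      · intro u hu
        ext h
        constructor
        · intro hh
          have : h ∈ W.biUnion (TT G s) :=
            mem_biUnion.mpr ⟨u, hWe ▸ mem_union_left _ hu, hh⟩
          exact (hA₁ u hu h this).mp (mem_TT.mp hh).2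
        · intro hh
          have : h ∈ W.biUnion (TT G s) := hSe ▸ mem_union_left _ hh
          have h2 := (hA₁ u hu h this).mpr hh
          rw [mem_biUnion] at this
          obtain ⟨u', -, hu'⟩ := this
          exact mem_TT.mpr ⟨(mem_TT.mp hu').1, h2⟩
      · intro u hu
        ext h
        constructor
        · intro hh
          have : h ∈ W.biUnion (TT G s) :=
            mem_biUnion.mpr ⟨u, hWe ▸ mem_union_right _ hu, hh⟩
          exact (hA₂ u hu h this).mp (mem_TT.mp hh).2
        · intro hh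
          have : h ∈ W.biUnion (TT G s) := hSe ▸ mem_union_right _ hh
          have h2 := (hA₂ u hu h this).mpr hh
          rw [mem_biUnion] at this
          obtain ⟨u', -, hu'⟩ := this
          exact mem_TT.mpr ⟨(mem_TT.mp hu').1, h2⟩
    · left
      push Not at two
      obtain ⟨v, hv, hv'⟩ := two
      rw [mem_biUnion] at hv
      obtain ⟨a, ha, hav⟩ := hv
      have hone : ∀ u ∈ W, G.Adj u v → u = a := by
        intro u hu huv
        by_contra hne
        exact hv' u hu a ha hne huv (mem_TT.mp hav).2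
      have := II_beta (ℓ := 3 + 1) (by omega) _ W G.Adj (Gam G K) hyp v
        (mem_biUnion.mpr ⟨a, ha, hav⟩) a ha (mem_TT.mp hav).2 hone (IIf G s 3 W)
        (fun x hx => (mem_IIf hx).isII hS hPen hK hW)
      have e1 : (3 + 1 - 1)! = 6 := rfl
      have e2 : (3 + 1 - 2)! = 2 := rfl
      rw [e1, e2] at this
      omega
  · left
    rw [h]
    obtain ⟨e, m, h1, h2, h3, h4, -⟩ := I_W (by omega) hS hPen hK hW (If G K s 3 W)
      (fun x hx => mem_If hx)
    have h4' := h4 rfl
    rw [f4, f3] at h2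
    have : max (6 * 6) (4 * (6 * 2)) = 48 := by norm_num
    omega

end

end P490135

end

section

/-!
# MP_490135_co: the bound for graphs without core (helper81)
-/

namespace P490135

open SimpleGraph Finset Nat

section

variable {V : Type*} [Fintype V] [DecidableEq V] {G : SimpleGraph V} {K s N : ℕ}

/-- few sets `W` consist of two pairs of twins -/
theorem card_D (𝒲 : Finset (Finset V)) (h : ∀ W ∈ 𝒲, IsD G s W) :
    32 * 𝒲.card ≤ Fintype.card V ^ 4 := by
  classical
  set n := Fintype.card V with hn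
  set T : Finset ((V × V) × (V × V)) := univ.filter (fun t => TT G s t.1.1 = TT G s t.1.2 ∧
    TT G s t.2.1 = TT G s t.2.2 ∧ TT G s t.1.1 ≠ TT G s t.2.1) with hT
  -- upper bound
  have h1 : T.card ≤ (n * n) * (n * n / 4) := by
    apply card_fib T (fun t => (t.1.1, t.2.1)) (univ : Finset (V × V)) (n * n) (n * n / 4)
    · intro q _
      exact mem_coe.mpr (mem_univ _)
    · rw [Finset.card_univ, Fintype.card_prod]
    · rintro ⟨u, w⟩ -
      by_cases hne : TT G s u = TT G s w
      · have : T.filter (fun t => (t.1.1, t.2.1) = (u, w)) = ∅ := by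
          rw [filter_eq_empty_iff]
          rintro ⟨⟨a, b⟩, c, d⟩ ht he
          rw [hT, mem_filter] at ht
          simp only [Prod.mk.injEq] at he
          obtain ⟨rfl, rfl⟩ := he
          exact ht.2.2.2 hne
        rw [this]
        simp
      · set A : Finset V := univ.filter (fun x => TT G s x = TT G s u) with hA
        set B : Finset V := univ.filter (fun x => TT G s x = TT G s w) with hB
        have hAB : A.card + B.card ≤ n := by
          rw [← card_union_of_disjoint]
          · exact Finset.card_le_univ _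
          · rw [Finset.disjoint_left]
            intro x hx hx'
            rw [hA, mem_filter] at hx
            rw [hB, mem_filter] at hx'
            exact hne (hx.2.symm.trans hx'.2)
        have h4 : (T.filter (fun t => (t.1.1, t.2.1) = (u, w))).card ≤ A.card * B.card := by
          rw [← card_product]
          apply Finset.card_le_card_of_injOn (fun t => (t.1.2, t.2.2))
          · rintro ⟨⟨a, b⟩, c, d⟩ ht
            rw [mem_coe, mem_filter, hT, mem_filter] at ht
            obtain ⟨⟨-, h5, h6, -⟩, he⟩ := ht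
            simp only [Prod.mk.injEq] at he
            obtain ⟨rfl, rfl⟩ := he
            rw [mem_coe, mem_product, hA, hB, mem_filter, mem_filter]
            exact ⟨⟨mem_univ _, h5.symm⟩, mem_univ _, h6.symm⟩
          · rintro ⟨⟨a, b⟩, c, d⟩ ht ⟨⟨a', b'⟩, c', d'⟩ ht' he
            rw [mem_coe, mem_filter] at ht ht'
            simp only [Prod.mk.injEq] at ht ht' he ⊢
            exact ⟨⟨ht.2.1.trans ht'.2.1.symm, he.1⟩, ht.2.2.trans ht'.2.2.symm, he.2⟩
        rw [Nat.le_div_iff_mul_le (by norm_num)]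
        have h5 : (A.card + B.card) * (A.card + B.card) ≤ n * n := Nat.mul_le_mul hAB hAB
        have h6 : 4 * (A.card * B.card) ≤ (A.card + B.card) * (A.card + B.card) := by
          generalize A.card = x
          generalize B.card = y
          zify
          nlinarith [sq_nonneg ((x : ℤ) - y)]
        nlinarith
  -- lower bound
  have h2 : 𝒲.card * 8 ≤ T.card := by
    set f : (V × V) × (V × V) → Finset V := fun t => {t.1.1, t.1.2} ∪ {t.2.1, t.2.2} with hf
    calc 𝒲.card * 8 = ∑ W ∈ 𝒲, 8 := by simp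
      _ ≤ ∑ W ∈ 𝒲, (T.filter (fun t => f t = W)).card := by
          apply sum_le_sum
          intro W hW
          obtain ⟨S₁, S₂, W₁, W₂, hW₁, hW₂, hd, hne, rfl, hS₁, hS₂⟩ := h W hW
          have hpair : ∀ (X : Finset V), X.card = 2 → ∀ a b, a ∈ X → b ∈ X → a ≠ b →
              ({a, b} : Finset V) = X := by
            intro X hX a b ha hb hab
            apply eq_of_subset_of_card_le
            · intro x hx
              rw [mem_insert, mem_singleton] at hx
              rcases hx with rfl | rfl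
              · exact ha
              · exact hb
            · rw [card_pair hab, hX]
          have hsub : (W₁.offDiag ×ˢ W₂.offDiag) ∪ (W₂.offDiag ×ˢ W₁.offDiag) ⊆
              T.filter (fun t => f t = W₁ ∪ W₂) := by
            rintro ⟨⟨a, b⟩, c, d⟩ ht
            rw [mem_union, mem_product, mem_product] at ht
            simp only [mem_offDiag] at ht
            rw [mem_filter, hT, mem_filter]
            rcases ht with ⟨⟨ha, hb, hab⟩, hc, hd', hcd⟩ | ⟨⟨ha, hb, hab⟩, hc, hd', hcd⟩
            · refine ⟨⟨mem_univ _, ?_, ?_, ?_⟩, ?_⟩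
              · rw [hS₁ a ha, hS₁ b hb]
              · rw [hS₂ c hc, hS₂ d hd']
              · rw [hS₁ a ha, hS₂ c hc]
                exact hne
              · rw [hf]
                simp only
                rw [hpair W₁ hW₁ a b ha hb hab, hpair W₂ hW₂ c d hc hd' hcd]
            · refine ⟨⟨mem_univ _, ?_, ?_, ?_⟩, ?_⟩
              · rw [hS₂ a ha, hS₂ b hb]
              · rw [hS₁ c hc, hS₁ d hd']
              · rw [hS₂ a ha, hS₁ c hc]
                exact hne.symm
              · rw [hf]
                simp only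
                rw [hpair W₂ hW₂ a b ha hb hab, hpair W₁ hW₁ c d hc hd' hcd, union_comm]
          refine le_trans (le_of_eq ?_) (Finset.card_le_card hsub)
          rw [card_union_of_disjoint, card_product, card_product, offDiag_card, offDiag_card,
            hW₁, hW₂]
          rw [Finset.disjoint_left]
          rintro ⟨⟨a, b⟩, c, d⟩ ht ht'
          rw [mem_product] at ht ht'
          simp only [mem_offDiag] at ht ht'
          exact Finset.disjoint_left.mp hd ht.1.1 ht'.1.1
      _ = (𝒲.biUnion (fun W => T.filter (fun t => f t = W))).card := by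
          rw [card_biUnion]
          intro W _ W' _ hne
          rw [Function.onFun, Finset.disjoint_left]
          intro t ht ht'
          rw [mem_filter] at ht ht'
          exact hne (ht.2.symm.trans ht'.2)
      _ ≤ T.card := by
          apply Finset.card_le_card
          intro t ht
          rw [mem_biUnion] at ht
          obtain ⟨W, -, ht⟩ := ht
          exact (mem_filter.mp ht).1
  have h3 : 4 * ((n * n) * (n * n / 4)) ≤ n ^ 4 := by
    calc 4 * ((n * n) * (n * n / 4)) = (n * n) * (4 * (n * n / 4)) := by ring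
      _ ≤ (n * n) * (n * n) := Nat.mul_le_mul_left _ (Nat.mul_div_le _ _)
      _ = n ^ 4 := by ring
  omega

/-- the total over all sets of lows -/
noncomputable def SW (G : SimpleGraph V) (K s N : ℕ) : ℕ :=
  ∑ W ∈ powersetCard (N + 1) (GoodSet G K s N), ((IIf G s N W).card + 2 * (If G K s N W).card)

theorem card_WW : (N + 1)! * (powersetCard (N + 1) (GoodSet G K s N)).card ≤
    Fintype.card V ^ (N + 1) := by
  rw [card_powersetCard, ← Nat.descFactorial_eq_factorial_mul_choose]
  refine (Nat.descFactorial_le_pow _ _).trans (Nat.pow_le_pow_left (Finset.card_le_univ _) _)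

theorem SW_three (hS : Short G (3 + 1)) (hPen : ∀ v, Hi G s v → Pen G K v)
    (hK : 2 * 3 + 12 ≤ K) : 4 * SW G K s 3 ≤ 5 * Fintype.card V ^ 4 := by
  classical
  set 𝒲 := powersetCard (3 + 1) (GoodSet G K s 3) with h𝒲
  have h1 : SW G K s 3 ≤ ∑ W ∈ 𝒲, (24 + if IsD G s W then 8 else 0) := by
    apply sum_le_sum
    intro W hW
    rcases tot_three hS hPen hK (good_of_mem hW) with h | ⟨h, hd⟩
    · split_ifs <;> omega
    · rw [if_pos hd]
      exact h
  rw [sum_add_distrib, sum_const, smul_eq_mul, ← sum_filter, sum_const, smul_eq_mul] at h1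
  have h2 := card_D (G := G) (s := s) (𝒲.filter (fun W => IsD G s W))
    (fun W hW => (mem_filter.mp hW).2)
  have h3 := card_WW (G := G) (K := K) (s := s) (N := 3)
  have e : (3 + 1)! = 24 := rfl
  rw [e] at h3
  have e' : Fintype.card V ^ (3 + 1) = Fintype.card V ^ 4 := rfl
  rw [e'] at h3
  rw [← h𝒲] at h3
  omega

theorem SW_four (hS : Short G (4 + 1)) (hPen : ∀ v, Hi G s v → Pen G K v)
    (hK : 2 * 4 + 12 ≤ K) : 5 * SW G K s 4 ≤ 16 * Fintype.card V ^ 5 := by
  set 𝒲 := powersetCard (4 + 1) (GoodSet G K s 4) with h𝒲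
  have h1 : SW G K s 4 ≤ ∑ W ∈ 𝒲, 384 := by
    apply sum_le_sum
    intro W hW
    exact tot_four hS hPen hK (good_of_mem hW)
  rw [sum_const, smul_eq_mul] at h1
  have h3 := card_WW (G := G) (K := K) (s := s) (N := 4)
  have e : (4 + 1)! = 120 := rfl
  rw [e] at h3
  have e' : Fintype.card V ^ (4 + 1) = Fintype.card V ^ 5 := rfl
  rw [e', ← h𝒲] at h3
  omega

theorem SW_five (hS : Short G (5 + 1)) (hPen : ∀ v, Hi G s v → Pen G K v)
    (hK : 2 * 5 + 12 ≤ K) : SW G K s 5 ≤ 16 * Fintype.card V ^ 6 := by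
  set 𝒲 := powersetCard (5 + 1) (GoodSet G K s 5) with h𝒲
  have h1 : SW G K s 5 ≤ ∑ W ∈ 𝒲, 11520 := by
    apply sum_le_sum
    intro W hW
    exact tot_five hS hPen hK (good_of_mem hW)
  rw [sum_const, smul_eq_mul] at h1
  have h3 := card_WW (G := G) (K := K) (s := s) (N := 5)
  have e : (5 + 1)! = 720 := rfl
  rw [e] at h3
  have e' : Fintype.card V ^ (5 + 1) = Fintype.card V ^ 6 := rfl
  rw [e', ← h𝒲] at h3
  omega

theorem SW_ge6 (hN : 6 ≤ N) (hS : Short G (N + 1)) (hPen : ∀ v, Hi G s v → Pen G K v)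
    (hK : 2 * N + 12 ≤ K) : 3 * (N + 1) * SW G K s N ≤ 2 * N ! * Fintype.card V ^ (N + 1) := by
  set 𝒲 := powersetCard (N + 1) (GoodSet G K s N) with h𝒲
  have h1 : 3 * SW G K s N ≤ ∑ W ∈ 𝒲, 2 * (N ! * N !) := by
    rw [SW, mul_sum]
    apply sum_le_sum
    intro W hW
    exact tot_ge6 hN hS hPen hK (good_of_mem hW)
  rw [sum_const, smul_eq_mul] at h1
  have h3 := card_WW (G := G) (K := K) (s := s) (N := N)
  rw [← h𝒲, Nat.factorial_succ] at h3
  calc 3 * (N + 1) * SW G K s N = (N + 1) * (3 * SW G K s N) := by ring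
    _ ≤ (N + 1) * (𝒲.card * (2 * (N ! * N !))) := Nat.mul_le_mul_left _ h1
    _ = 2 * N ! * ((N + 1) * N ! * 𝒲.card) := by ring
    _ ≤ _ := Nat.mul_le_mul_left _ h3

end

/-- the constant of the per-`W` bounds is smaller than the extremal constant -/
theorem exists_B (N : ℕ) (hN : 3 ≤ N) : ∃ B : ℝ, 0 ≤ B ∧
    B * ((N : ℝ) + 1) ^ (N + 1) < 2 * (N ! * (N : ℝ) ^ N) ∧
    ∀ (V : Type) [Fintype V] [DecidableEq V] (G : SimpleGraph V) (K s : ℕ), Short G (N + 1) →
      (∀ v, Hi G s v → Pen G K v) → 2 * N + 12 ≤ K →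
      (SW G K s N : ℝ) ≤ B * (Fintype.card V : ℝ) ^ (N + 1) := by
  rcases Nat.lt_or_ge N 6 with h6 | h6
  · have : N = 3 ∨ N = 4 ∨ N = 5 := by omega
    rcases this with rfl | rfl | rfl
    · refine ⟨5 / 4, by norm_num, by norm_num [Nat.factorial], ?_⟩
      intro V _ _ G K s hS hPen hK
      have := SW_three hS hPen hK
      have h2 : (4 : ℝ) * SW G K s 3 ≤ 5 * (Fintype.card V : ℝ) ^ 4 := by exact_mod_cast this
      have e : ((Fintype.card V : ℝ)) ^ (3 + 1) = (Fintype.card V : ℝ) ^ 4 := rfl
      rw [e]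
      linarith
    · refine ⟨16 / 5, by norm_num, by norm_num [Nat.factorial], ?_⟩
      intro V _ _ G K s hS hPen hK
      have := SW_four hS hPen hK
      have h2 : (5 : ℝ) * SW G K s 4 ≤ 16 * (Fintype.card V : ℝ) ^ 5 := by exact_mod_cast this
      have e : ((Fintype.card V : ℝ)) ^ (4 + 1) = (Fintype.card V : ℝ) ^ 5 := rfl
      rw [e]
      linarith
    · refine ⟨16, by norm_num, by norm_num [Nat.factorial], ?_⟩
      intro V _ _ G K s hS hPen hK
      have := SW_five hS hPen hK
      have h2 : (SW G K s 5 : ℝ) ≤ 16 * (Fintype.card V : ℝ) ^ 6 := by exact_mod_cast this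
      exact h2
  · have hNr : (0 : ℝ) < N := by
      have : 0 < N := by omega
      exact_mod_cast this
    have hfac : (0 : ℝ) < (N ! : ℝ) := by exact_mod_cast Nat.factorial_pos N
    refine ⟨2 * N ! / (3 * ((N : ℝ) + 1)), by positivity, ?_, ?_⟩
    · -- `((N+1)/N)^N < 3`
      have h1 : (1 + 1 / (N : ℝ)) ^ N < 3 := by
        have h2 : 1 + 1 / (N : ℝ) ≤ Real.exp (1 / (N : ℝ)) := by
          have := Real.add_one_le_exp (1 / (N : ℝ))
          linarith
        calc (1 + 1 / (N : ℝ)) ^ N ≤ (Real.exp (1 / (N : ℝ))) ^ N := by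
              gcongr
          _ = Real.exp 1 := by
              rw [← Real.exp_nat_mul]
              congr 1
              field_simp
          _ < 3 := by
              have := Real.exp_one_lt_d9
              linarith
      have h3 : ((N : ℝ) + 1) ^ N < 3 * (N : ℝ) ^ N := by
        have h4 : ((N : ℝ) + 1) ^ N = (1 + 1 / (N : ℝ)) ^ N * (N : ℝ) ^ N := by
          rw [← mul_pow]
          congr 1
          field_simp
        rw [h4]
        exact mul_lt_mul_of_pos_right h1 (by positivity)
      have h5 : 2 * (N ! : ℝ) / (3 * ((N : ℝ) + 1)) * ((N : ℝ) + 1) ^ (N + 1) =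
          2 * (N ! : ℝ) / 3 * ((N : ℝ) + 1) ^ N := by
        rw [pow_succ]
        field_simp
      rw [h5]
      calc 2 * (N ! : ℝ) / 3 * ((N : ℝ) + 1) ^ N < 2 * (N ! : ℝ) / 3 * (3 * (N : ℝ) ^ N) := by
            apply mul_lt_mul_of_pos_left h3
            positivity
        _ = _ := by ring
    · intro V _ _ G K s hS hPen hK
      have := SW_ge6 h6 hS hPen hK
      have h2 : 3 * ((N : ℝ) + 1) * SW G K s N ≤ 2 * N ! * (Fintype.card V : ℝ) ^ (N + 1) := by
        exact_mod_cast this
      rw [div_mul_eq_mul_div, le_div_iff₀ (by positivity)]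
      linarith

/-- Graphs without core have few long paths. -/
theorem no_core (N : ℕ) (hN : 3 ≤ N) (K : ℕ) (hK : 2 * N + 12 ≤ K) :
    ∃ n₁ : ℕ, ∀ (V : Type) [Fintype V] [DecidableEq V] (G : SimpleGraph V), Short G (N + 1) →
      (∀ C : Finset V, C.card = N → ¬ IsCore G K C) → n₁ ≤ Fintype.card V →
      (MPs G N).card ≤ 2 * Fn (N + 1) (Fintype.card V) := by
  obtain ⟨B, hB0, hB, hSW⟩ := exists_B N hN
  -- a constant between
  have hpos : (0 : ℝ) < ((N : ℝ) + 1) ^ (N + 1) := by positivity
  set c : ℝ := (B + 2 * (N ! * (N : ℝ) ^ N) / ((N : ℝ) + 1) ^ (N + 1)) / 4 with hc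
  have hc1 : B < 2 * c := by
    have : B < 2 * (N ! * (N : ℝ) ^ N) / ((N : ℝ) + 1) ^ (N + 1) := by
      rw [lt_div_iff₀ hpos]
      exact hB
    rw [hc]
    linarith
  have hc2 : c * ((N + 1 : ℕ) : ℝ) ^ (N + 1) < ((N + 1 - 1)! : ℝ) *
      (((N + 1 : ℕ) : ℝ) - 1) ^ (N + 1 - 1) := by
    have h1 : c < (N ! * (N : ℝ) ^ N) / ((N : ℝ) + 1) ^ (N + 1) := by
      have : B < 2 * (N ! * (N : ℝ) ^ N) / ((N : ℝ) + 1) ^ (N + 1) := by
        rw [lt_div_iff₀ hpos]
        exact hB
      rw [hc]
      rw [mul_div_assoc] at this ⊢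
      linarith
    rw [lt_div_iff₀ hpos] at h1
    simpa using h1
  obtain ⟨n₀, hn₀⟩ := Fn_asymp (N + 1) (by omega) c (by simpa using hc2)
  set δ : ℝ := (2 * c - B) / 2 with hδ
  have hδ0 : 0 < δ := by rw [hδ]; linarith
  obtain ⟨s, hs⟩ := exists_nat_gt ((c1 N K : ℝ) / δ)
  have hs0 : 0 < s := by
    have h1 : (0 : ℝ) ≤ (c1 N K : ℝ) / δ := by positivity
    have h2 : (0 : ℝ) < s := lt_of_le_of_lt h1 hs
    exact_mod_cast h2
  have hs1 : (c1 N K : ℝ) ≤ δ * s := by
    rw [div_lt_iff₀ hδ0] at hs
    linarith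
  obtain ⟨m, hm⟩ := exists_nat_gt ((c2 N K s : ℝ) / δ)
  have hm1 : (c2 N K s : ℝ) ≤ δ * m := by
    rw [div_lt_iff₀ hδ0] at hm
    linarith
  refine ⟨n₀ + (K + 1) * s + m, ?_⟩
  intro V _ _ G hS hnc hn
  have hns : (K + 1) * s ≤ Fintype.card V := by omega
  have hPen : ∀ v, Hi G s v → Pen G K v := fun v hv => pen_of_large hns hs0 v hv
  have h1 := total (by omega) hS hs0 hns hK hnc
  have h2 := hSW V G K s hS hPen hK
  have h3 := hn₀ (Fintype.card V) (by omega)
  set n := Fintype.card V with hndef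
  have h4 : (s : ℝ) * (MPs G N).card ≤ s * (SW G K s N : ℝ) + (c1 N K : ℝ) * (n : ℝ) ^ (N + 1) +
      s * ((c2 N K s : ℝ) * (n : ℝ) ^ N) := by
    have : s * (MPs G N).card ≤ s * SW G K s N + c1 N K * n ^ (N + 1) +
      s * (c2 N K s * n ^ N) := h1
    exact_mod_cast this
  have hsr : (0 : ℝ) < s := by exact_mod_cast hs0
  have hmn : (m : ℝ) ≤ n := by
    have : m ≤ n := by omega
    exact_mod_cast this
  have h5 : (c2 N K s : ℝ) * (n : ℝ) ^ N ≤ δ * (n : ℝ) ^ (N + 1) := by
    calc (c2 N K s : ℝ) * (n : ℝ) ^ N ≤ (δ * m) * (n : ℝ) ^ N := by gcongr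
      _ ≤ (δ * n) * (n : ℝ) ^ N := by gcongr
      _ = δ * (n : ℝ) ^ (N + 1) := by ring
  have h6 : (s : ℝ) * (MPs G N).card ≤ s * (2 * Fn (N + 1) n : ℝ) := by
    calc (s : ℝ) * (MPs G N).card ≤ s * (SW G K s N : ℝ) + (c1 N K : ℝ) * (n : ℝ) ^ (N + 1) +
        s * ((c2 N K s : ℝ) * (n : ℝ) ^ N) := h4
      _ ≤ s * (B * (n : ℝ) ^ (N + 1)) + (δ * s) * (n : ℝ) ^ (N + 1) +
        s * (δ * (n : ℝ) ^ (N + 1)) := by
          gcongr
      _ = s * (2 * (c * (n : ℝ) ^ (N + 1))) := by
          rw [hδ]
          ring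
      _ ≤ s * (2 * Fn (N + 1) n : ℝ) := by
          gcongr
  have h7 : ((MPs G N).card : ℝ) ≤ 2 * Fn (N + 1) n := le_of_mul_le_mul_left h6 hsr
  exact_mod_cast h7

end P490135

end
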